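import Pool.Agent.H10.TB.ApiA

/-!
API for the recursive norms, part 2: `Nr θ x a b` and `jn`.
-/

namespace Pool.Agent.H10.TB

open Finset

variable {V : Type*} [NormedAddCommGroup V]
variable {θ : ℝ}

/-! ### the norm `Nr` -/

theorem Nr_bdd (h0 : 0 ≤ θ) (h2 : θ ≤ 1 / 2) (x : ℕ → V) (a b : ℕ) :
    BddAbove (Set.range fun k => A θ x k a b) :=
  ⟨2 * ∑ t ∈ Icc a b, ‖x t‖, by rintro _ ⟨k, rfl⟩; exact A_le_sum h0 h2 x k a b⟩

theorem A_le_Nr (h0 : 0 ≤ θ) (h2 : θ ≤ 1 / 2) (x : ℕ → V) (k a b : ℕ) : A θ x k a b ≤ Nr θ x a b :=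
  le_ciSup (Nr_bdd h0 h2 x a b) k
theorem Nr_le_of_A (x : ℕ → V) {a b : ℕ} {C : ℝ} (h : ∀ k, A θ x k a b ≤ C) : Nr θ x a b ≤ C :=
  ciSup_le h
theorem exists_A_Nr (h0 : 0 ≤ θ) (h2 : θ ≤ 1 / 2) (x : ℕ → V) (a b : ℕ) {ε : ℝ} (hε : 0 < ε) :
    ∃ k, Nr θ x a b - ε ≤ A θ x k a b := by
  by_contra hcon
  push Not at hcon
  have := Nr_le_of_A x fun k => (hcon k).le
  linarith [h0, h2]
theorem Nr_nonneg (h0 : 0 ≤ θ) (h2 : θ ≤ 1 / 2) (x : ℕ → V) (a b : ℕ) : 0 ≤ Nr θ x a b :=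
  (A_nonneg h0 x 0 a b).trans (A_le_Nr h0 h2 x 0 a b)
theorem Nr_le_sum (h0 : 0 ≤ θ) (h2 : θ ≤ 1 / 2) (x : ℕ → V) (a b : ℕ) :
    Nr θ x a b ≤ 2 * ∑ t ∈ Icc a b, ‖x t‖ :=
  Nr_le_of_A x fun k => A_le_sum h0 h2 x k a b
theorem base_le_Nr (h0 : 0 ≤ θ) (h2 : θ ≤ 1 / 2) (x : ℕ → V) (a b : ℕ) :
    base x a b ≤ Nr θ x a b := A_le_Nr h0 h2 x 0 a b
theorem norm_S_le_Nr (h0 : 0 ≤ θ) (h2 : θ ≤ 1 / 2) (x : ℕ → V) {a b s t : ℕ} (hs : a ≤ s)
    (ht : t ≤ b) : ‖S x s t‖ ≤ Nr θ x a b := (le_base x hs ht).trans (base_le_Nr h0 h2 x a b)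
theorem norm_apply_le_Nr (h0 : 0 ≤ θ) (h2 : θ ≤ 1 / 2) (x : ℕ → V) {a b t : ℕ} (hs : a ≤ t)
    (ht : t ≤ b) : ‖x t‖ ≤ Nr θ x a b := by
  rw [← S_self x t]
  exact norm_S_le_Nr h0 h2 x hs ht

theorem tendsto_A_Nr (h0 : 0 ≤ θ) (h2 : θ ≤ 1 / 2) (x : ℕ → V) (a b : ℕ) :
    Filter.Tendsto (fun k => A θ x k a b) Filter.atTop (nhds (Nr θ x a b)) :=
  tendsto_atTop_ciSup (A_mono_depth h0 h2 x a b) (Nr_bdd h0 h2 x a b)

/-- fixed point inequality, lower half -/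
theorem Nr_ge (h0 : 0 ≤ θ) (h2 : θ ≤ 1 / 2) (x : ℕ → V) {a b n : ℕ} {c d : ℕ → ℕ}
    (h : Adm a b n c d) :
    base x a b + θ * ∑ i ∈ range n, Nr θ x (c i) (d i) ≤ Nr θ x a b := by
  have h1 : Filter.Tendsto (fun k => base x a b + θ * ∑ i ∈ range n, A θ x k (c i) (d i))
      Filter.atTop (nhds (base x a b + θ * ∑ i ∈ range n, Nr θ x (c i) (d i))) :=
    (tendsto_finsetSum _ fun i _ => tendsto_A_Nr h0 h2 x (c i) (d i)).const_mul θ |>.const_add _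
  exact le_of_tendsto' h1 fun k => (A_succ_ge h0 h2 x k h).trans (A_le_Nr h0 h2 x _ a b)
/-- fixed point inequality, upper half -/
theorem Nr_le (h0 : 0 ≤ θ) (h2 : θ ≤ 1 / 2) (x : ℕ → V) {a b : ℕ} {C : ℝ}
    (h : ∀ n c d, Adm a b n c d → base x a b + θ * ∑ i ∈ range n, Nr θ x (c i) (d i) ≤ C) :
    Nr θ x a b ≤ C := by
  refine Nr_le_of_A x fun k => ?_
  refine (A_mono_depth_succ h0 h2 x k a b).trans (A_succ_le h0 x k a b fun n c d hh => ?_)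
  refine le_trans ?_ (h n c d hh)
  have : ∑ i ∈ range n, A θ x k (c i) (d i) ≤ ∑ i ∈ range n, Nr θ x (c i) (d i) :=
    sum_le_sum fun i _ => A_le_Nr h0 h2 x k _ _
  have := mul_le_mul_of_nonneg_left this h0
  linarith
theorem theta_mul_sum_le (h0 : 0 ≤ θ) (h2 : θ ≤ 1 / 2) (x : ℕ → V) {a b n : ℕ} {c d : ℕ → ℕ}
    (h : Adm a b n c d) : θ * ∑ i ∈ range n, Nr θ x (c i) (d i) ≤ Nr θ x a b := by
  have := Nr_ge h0 h2 x h
  have := base_nonneg x a b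
  linarith
theorem Nr_of_lt (h0 : 0 ≤ θ) (x : ℕ → V) {a b : ℕ} (h : b < a) : Nr θ x a b = 0 := by
  unfold Nr
  simp [A_of_lt h0 x _ h]
theorem base_le_mul_Nr (h0 : 0 ≤ θ) (h2 : θ ≤ 1 / 2) (x : ℕ → V) (a b : ℕ) :
    base x a b ≤ (1 - θ) * Nr θ x a b := by
  rcases le_or_gt a b with hab | hab
  · have := Nr_ge h0 h2 x (Adm.one hab)
    simp only [range_one, sum_singleton] at this
    linarith
  · rw [Nr_of_lt h0 x hab, base_of_lt x hab, mul_zero]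
theorem Nr_mono (h0 : 0 ≤ θ) (h2 : θ ≤ 1 / 2) (x : ℕ → V) {a b a' b' : ℕ}
    (ha : a' ≤ a) (hb : b ≤ b') : Nr θ x a b ≤ Nr θ x a' b' :=
  Nr_le_of_A x fun k => (A_mono h0 h2 x k ha hb).trans (A_le_Nr h0 h2 x k a' b')
theorem Nr_congr (x y : ℕ → V) {a b : ℕ} (h : ∀ t, a ≤ t → t ≤ b → x t = y t) :
    Nr θ x a b = Nr θ y a b := by
  unfold Nr
  simp_rw [A_congr x y _ h]
theorem Nr_add (h0 : 0 ≤ θ) (h2 : θ ≤ 1 / 2) (x y : ℕ → V) (a b : ℕ) :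
    Nr θ (fun t => x t + y t) a b ≤ Nr θ x a b + Nr θ y a b :=
  Nr_le_of_A _ fun k => (A_add h0 h2 x y k a b).trans
    (add_le_add (A_le_Nr h0 h2 x k a b) (A_le_Nr h0 h2 y k a b))
theorem Nr_eq_zero (h0 : 0 ≤ θ) (h2 : θ ≤ 1 / 2) (x : ℕ → V) {a b : ℕ}
    (h : ∀ t, a ≤ t → t ≤ b → x t = 0) : Nr θ x a b = 0 := by
  refine le_antisymm ?_ (Nr_nonneg h0 h2 x a b)
  refine (Nr_le_sum h0 h2 x a b).trans ?_
  rw [sum_eq_zero fun t ht => ?_, mul_zero]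
  rw [h t (mem_Icc.1 ht).1 (mem_Icc.1 ht).2, norm_zero]
theorem Nr_sum (h0 : 0 ≤ θ) (h2 : θ ≤ 1 / 2) {ι : Type*} (s : Finset ι) (x : ι → ℕ → V) (a b : ℕ) :
    Nr θ (fun t => ∑ i ∈ s, x i t) a b ≤ ∑ i ∈ s, Nr θ (x i) a b := by
  classical
  induction s using Finset.induction_on with
  | empty => simp [Nr_eq_zero h0 h2 (fun _ : ℕ => (0 : V)) (a := a) (b := b) fun _ _ _ => rfl]
  | insert i s hi ih =>
    simp only [sum_insert hi]
    exact (Nr_add h0 h2 (x i) (fun t => ∑ i ∈ s, x i t) a b).trans (by linarith)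
theorem base_smul {𝕜 : Type*} [NormedField 𝕜] [NormedSpace 𝕜 V] (c : 𝕜) (x : ℕ → V)
    (a b : ℕ) : base (fun t => c • x t) a b = ‖c‖ * base x a b := by
  have key : ∀ (c : 𝕜) (x : ℕ → V), base (fun t => c • x t) a b ≤ ‖c‖ * base x a b := by
    intro c x
    refine base_le _ (mul_nonneg (norm_nonneg _) (base_nonneg _ _ _)) fun s t hs _ ht => ?_
    rw [S_smul, norm_smul]
    exact mul_le_mul_of_nonneg_left (le_base x hs ht) (norm_nonneg _)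
  refine le_antisymm (key c x) ?_
  rcases eq_or_ne c 0 with rfl | hc
  · rw [norm_zero, zero_mul]
    exact base_nonneg _ _ _
  · have h1 := key c⁻¹ (fun t => c • x t)
    simp only [inv_smul_smul₀ hc] at h1
    rw [norm_inv] at h1
    have h2 : 0 < ‖c‖ := norm_pos_iff.2 hc
    calc ‖c‖ * base x a b ≤ ‖c‖ * (‖c‖⁻¹ * base (fun t => c • x t) a b) :=
          mul_le_mul_of_nonneg_left h1 h2.le
      _ = base (fun t => c • x t) a b := by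
          rw [← mul_assoc, mul_inv_cancel₀ h2.ne', one_mul]
theorem A_smul {𝕜 : Type*} [NormedField 𝕜] [NormedSpace 𝕜 V] (h0 : 0 ≤ θ) (c : 𝕜) (x : ℕ → V)
    (k a b : ℕ) : A θ (fun t => c • x t) k a b = ‖c‖ * A θ x k a b := by
  induction k generalizing a b with
  | zero => exact base_smul c x a b
  | succ k ih =>
    rcases eq_or_ne c 0 with rfl | hc
    · rw [norm_zero, zero_mul]
      refine le_antisymm (A_succ_le h0 _ k a b fun n c d h => ?_) (A_nonneg h0 _ _ _ _)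
      rw [base_smul, sum_congr rfl fun i _ => ih (c i) (d i)]
      simp
    · have hc' : 0 < ‖c‖ := norm_pos_iff.2 hc
      rw [A_succ, A_succ, base_smul, mul_add]
      congr 1
      rw [← mul_assoc, mul_comm ‖c‖ θ, mul_assoc]
      congr 1
      rw [← smul_eq_mul, ← Real.sSup_smul_of_nonneg (norm_nonneg c)]
      congr 1
      ext r
      constructor
      · rintro ⟨n, c', d', hh, rfl⟩
        refine ⟨∑ i ∈ range n, A θ x k (c' i) (d' i), ⟨n, c', d', hh, rfl⟩, ?_⟩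
        simp only [smul_eq_mul]
        rw [sum_congr rfl fun i _ => ih (c' i) (d' i), mul_sum]
      · rintro ⟨_, ⟨n, c', d', hh, rfl⟩, rfl⟩
        refine ⟨n, c', d', hh, ?_⟩
        simp only [smul_eq_mul]
        rw [sum_congr rfl fun i _ => ih (c' i) (d' i), mul_sum]
theorem Nr_smul {𝕜 : Type*} [NormedField 𝕜] [NormedSpace 𝕜 V] (h0 : 0 ≤ θ) (c : 𝕜) (x : ℕ → V)
    (a b : ℕ) : Nr θ (fun t => c • x t) a b = ‖c‖ * Nr θ x a b := by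
  unfold Nr
  rw [Real.mul_iSup_of_nonneg (norm_nonneg c)]
  simp_rw [A_smul h0 c x]
theorem S_neg (x : ℕ → V) (a b : ℕ) : S (fun t => - x t) a b = - S x a b :=
  sum_neg_distrib ..
theorem base_neg (x : ℕ → V) (a b : ℕ) : base (fun t => - x t) a b = base x a b := by
  unfold base
  simp_rw [S_neg, norm_neg]
theorem A_neg (x : ℕ → V) (k a b : ℕ) : A θ (fun t => - x t) k a b = A θ x k a b := by
  induction k generalizing a b with
  | zero => exact base_neg x a b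
  | succ k ih =>
    rw [A_succ, A_succ, base_neg]
    simp_rw [ih]
theorem Nr_neg (_h0 : 0 ≤ θ) (x : ℕ → V) (a b : ℕ) : Nr θ (fun t => - x t) a b = Nr θ x a b := by
  unfold Nr
  simp_rw [A_neg]
theorem Nr_split (h0 : 0 ≤ θ) (h2 : θ ≤ 1 / 2) (x : ℕ → V) (a b m : ℕ) :
    Nr θ x a b ≤ Nr θ x a m + Nr θ x (m + 1) b :=
  Nr_le_of_A x fun k => (A_split h0 h2 x k a b m).trans
    (add_le_add (A_le_Nr h0 h2 x k _ _) (A_le_Nr h0 h2 x k _ _))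
/-- if `x` vanishes outside `[p,q]` then only the intersection matters -/
theorem Nr_inter (h0 : 0 ≤ θ) (h2 : θ ≤ 1 / 2) (x : ℕ → V) {p q : ℕ}
    (h : ∀ t, ¬ (p ≤ t ∧ t ≤ q) → x t = 0) (a b : ℕ) :
    Nr θ x a b = Nr θ x (max a p) (min b q) := by
  unfold Nr
  simp_rw [A_inter h0 h2 x h _ a b]

/-! ### the global norm -/

/-- `jn` is computed on any interval containing the support -/
theorem jn_eq (h0 : 0 ≤ θ) (h2 : θ ≤ 1 / 2) (x : ℕ → V) {p q : ℕ}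
    (h : ∀ t, ¬ (p ≤ t ∧ t ≤ q) → x t = 0) : jn θ x = Nr θ x p q := by
  have hb : ∀ b, Nr θ x 0 b ≤ Nr θ x p q := fun b => by
    rw [Nr_inter h0 h2 x h 0 b]
    exact Nr_mono h0 h2 x (le_max_right _ _) (min_le_right _ _)
  unfold jn
  refine le_antisymm (ciSup_le hb) ?_
  exact (Nr_mono h0 h2 x (Nat.zero_le p) le_rfl).trans
    (le_ciSup (f := fun b => Nr θ x 0 b) ⟨_, by rintro _ ⟨b, rfl⟩; exact hb b⟩ q)
theorem Nr_le_jn (h0 : 0 ≤ θ) (h2 : θ ≤ 1 / 2) (x : ℕ → V) {B : ℕ}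
    (h : ∀ t, B < t → x t = 0) (a b : ℕ) : Nr θ x a b ≤ jn θ x := by
  have h' : ∀ t, ¬ (0 ≤ t ∧ t ≤ B) → x t = 0 := fun t ht => h t (by simpa using ht)
  rw [jn_eq h0 h2 x h', Nr_inter h0 h2 x h' a b]
  exact Nr_mono h0 h2 x (le_max_right _ _) (min_le_right _ _)

end Pool.Agent.H10.TB
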