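import Pool.Agent.H10.TB.Base

/-!
API for the recursive norms, part 1: `phi`, `Adm`, `S`, `base` and the depth `k` norms `A θ x k a b`.
-/

namespace Pool.Agent.H10.TB

open Finset

theorem phi_mono : Monotone phi := fun _ _ h => Nat.factorial_le (Nat.succ_le_succ h)
theorem one_le_phi (n : ℕ) : 1 ≤ phi n := Nat.factorial_pos _
theorem le_phi (n : ℕ) : n ≤ phi n := (Nat.le_succ n).trans (Nat.self_le_factorial _)
/-- superexponential growth -/
theorem phi_growth (C : ℕ) : ∃ r : ℕ, 1 ≤ r ∧ ∀ q, r ≤ q → C * phi (q - 1) ≤ phi q := by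
  refine ⟨C + 1, Nat.succ_pos _, fun q hq => ?_⟩
  obtain ⟨q, rfl⟩ : ∃ q', q = q' + 1 := ⟨q - 1, by omega⟩
  simp only [phi, Nat.add_sub_cancel]
  rw [Nat.factorial_succ (q + 1)]
  exact Nat.mul_le_mul_right _ (by omega)

/-- starting points of later intervals are larger than end points of earlier ones -/
theorem Adm.lt_of_lt {a b n : ℕ} {c d : ℕ → ℕ} (h : Adm a b n c d) {i j : ℕ} (hij : i < j)
    (hj : j < n) : d i < c j := by
  obtain ⟨m, rfl⟩ := Nat.exists_eq_add_of_lt hij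
  clear hij
  induction m with
  | zero => exact h.lt i hj
  | succ m ih =>
    have h1 := ih (by omega)
    have h2 := h.le (i + m + 1) (by omega)
    have h3 := h.lt (i + m + 1) (by omega)
    have h4 : i + m + 1 + 1 = i + (m + 1) + 1 := by ring
    rw [h4] at h3
    omega

/-- disjointness of admissible families, in summed form -/
theorem Adm.sum_le {a b n : ℕ} {c d : ℕ → ℕ} (h : Adm a b n c d) (f : ℕ → ℝ) (hf : ∀ t, 0 ≤ f t) :
    ∑ i ∈ range n, ∑ t ∈ Icc (c i) (d i), f t ≤ ∑ t ∈ Icc a b, f t := by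
  rw [← Finset.sum_biUnion]
  · refine Finset.sum_le_sum_of_subset_of_nonneg ?_ fun t _ _ => hf t
    intro t ht
    simp only [mem_biUnion, mem_range, mem_Icc] at ht ⊢
    obtain ⟨i, hi, h1, h2⟩ := ht
    exact ⟨(h.lo i hi).trans h1, h2.trans (h.hi i hi)⟩
  · intro i hi j hj hij
    simp only [coe_range, Set.mem_Iio] at hi hj
    rw [Function.onFun, Finset.disjoint_left]
    intro t ht ht'
    simp only [mem_Icc] at ht ht'
    rcases Nat.lt_or_gt_of_ne hij with hlt | hlt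
    · have := h.lt_of_lt hlt hj
      omega
    · have := h.lt_of_lt hlt hi
      omega
theorem Adm.mono {a b a' b' n : ℕ} {c d : ℕ → ℕ} (h : Adm a b n c d) (ha : a' ≤ a) (hb : b ≤ b') :
    Adm a' b' n c d :=
  ⟨fun i hi => ha.trans (h.lo i hi), h.le, fun i hi => (h.hi i hi).trans hb, h.lt, h.card⟩
/-- the interval `[a,b]` itself -/
theorem Adm.one {a b : ℕ} (hab : a ≤ b) : Adm a b 1 (fun _ => a) (fun _ => b) :=
  ⟨fun _ _ => le_rfl, fun _ _ => hab, fun _ _ => le_rfl, fun i hi => by omega, one_le_phi _⟩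
/-- the empty family -/
theorem Adm.zero (a b : ℕ) (c d : ℕ → ℕ) : Adm a b 0 c d :=
  ⟨fun i hi => absurd hi (Nat.not_lt_zero i), fun i hi => absurd hi (Nat.not_lt_zero i),
    fun i hi => absurd hi (Nat.not_lt_zero i), fun i hi => absurd hi (Nat.not_lt_zero _),
    Nat.zero_le _⟩

variable {V : Type*} [NormedAddCommGroup V]

/-! ### interval sums -/

theorem S_congr {x y : ℕ → V} {a b : ℕ} (h : ∀ t, a ≤ t → t ≤ b → x t = y t) : S x a b = S y a b :=
  sum_congr rfl fun t ht => h t (mem_Icc.1 ht).1 (mem_Icc.1 ht).2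
theorem S_self (x : ℕ → V) (t : ℕ) : S x t t = x t := by
  simp [S]
theorem S_of_lt (x : ℕ → V) {a b : ℕ} (h : b < a) : S x a b = 0 := by
  simp [S, Icc_eq_empty (not_le.2 h)]
theorem S_add (x y : ℕ → V) (a b : ℕ) : S (fun t => x t + y t) a b = S x a b + S y a b :=
  sum_add_distrib
theorem S_sum {ι : Type*} (s : Finset ι) (x : ι → ℕ → V) (a b : ℕ) :
    S (fun t => ∑ i ∈ s, x i t) a b = ∑ i ∈ s, S (x i) a b :=
  sum_comm
theorem S_smul {𝕜 : Type*} [NormedField 𝕜] [NormedSpace 𝕜 V] (c : 𝕜) (x : ℕ → V) (a b : ℕ) :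
    S (fun t => c • x t) a b = c • S x a b :=
  smul_sum.symm
theorem S_split (x : ℕ → V) {a b m : ℕ} (ha : a ≤ m + 1) (hb : m ≤ b) :
    S x a b = S x a m + S x (m + 1) b := by
  unfold S
  rw [← sum_union]
  · congr 1
    ext t
    simp only [mem_union, mem_Icc]
    omega
  · rw [Finset.disjoint_left]
    intro t ht ht'
    simp only [mem_Icc] at ht ht'
    omega
/-- if `x` vanishes outside `[p,q]` then only the intersection matters -/
theorem S_inter (x : ℕ → V) {p q : ℕ} (h : ∀ t, ¬ (p ≤ t ∧ t ≤ q) → x t = 0) (a b : ℕ) :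
    S x a b = S x (max a p) (min b q) := by
  unfold S
  symm
  refine sum_subset ?_ fun t ht ht' => ?_
  · intro t ht
    simp only [mem_Icc, max_le_iff, le_min_iff] at ht ⊢
    exact ⟨ht.1.1, ht.2.1⟩
  · refine h t fun hh => ht' ?_
    simp only [mem_Icc, max_le_iff, le_min_iff] at ht ⊢
    exact ⟨⟨ht.1, hh.1⟩, ht.2, hh.2⟩
theorem norm_S_le (x : ℕ → V) (a b : ℕ) : ‖S x a b‖ ≤ ∑ t ∈ Icc a b, ‖x t‖ := norm_sum_le _ _

/-! ### the base seminorm -/

theorem base_set_bdd (x : ℕ → V) (a b : ℕ) :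
    BddAbove {r | ∃ s t, a ≤ s ∧ t ≤ b ∧ r = ‖S x s t‖} := by
  refine ⟨∑ t ∈ Icc a b, ‖x t‖, ?_⟩
  rintro r ⟨s, t, hs, ht, rfl⟩
  refine (norm_S_le x s t).trans (sum_le_sum_of_subset_of_nonneg ?_ fun _ _ _ => norm_nonneg _)
  exact Icc_subset_Icc hs ht

theorem le_base (x : ℕ → V) {a b s t : ℕ} (hs : a ≤ s) (ht : t ≤ b) : ‖S x s t‖ ≤ base x a b :=
  le_csSup (base_set_bdd x a b) ⟨s, t, hs, ht, rfl⟩
theorem base_le (x : ℕ → V) {a b : ℕ} {C : ℝ} (hC : 0 ≤ C)
    (h : ∀ s t, a ≤ s → s ≤ t → t ≤ b → ‖S x s t‖ ≤ C) : base x a b ≤ C := by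
  refine csSup_le ⟨_, a, b, le_rfl, le_rfl, rfl⟩ ?_
  rintro r ⟨s, t, hs, ht, rfl⟩
  by_cases hst : s ≤ t
  · exact h s t hs hst ht
  · rw [S_of_lt x (not_le.1 hst), norm_zero]
    exact hC
theorem base_nonneg (x : ℕ → V) (a b : ℕ) : 0 ≤ base x a b :=
  (norm_nonneg _).trans (le_base x (le_refl a) (le_refl b))
theorem base_le_sum (x : ℕ → V) (a b : ℕ) : base x a b ≤ ∑ t ∈ Icc a b, ‖x t‖ :=
  base_le x (sum_nonneg fun _ _ => norm_nonneg _) fun s t hs _ ht =>
    (norm_S_le x s t).trans (sum_le_sum_of_subset_of_nonneg (Icc_subset_Icc hs ht)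
      fun _ _ _ => norm_nonneg _)
theorem exists_base (x : ℕ → V) {a b : ℕ} (hab : a ≤ b) :
    ∃ s t, a ≤ s ∧ s ≤ t ∧ t ≤ b ∧ base x a b = ‖S x s t‖ := by
  classical
  obtain ⟨st, hst, hmax⟩ := Finset.exists_max_image
    ((Icc a b ×ˢ Icc a b).filter fun st => st.1 ≤ st.2) (fun st => ‖S x st.1 st.2‖)
    ⟨(a, a), by simp [hab]⟩
  simp only [mem_filter, mem_product, mem_Icc] at hst hmax
  refine ⟨st.1, st.2, hst.1.1.1, hst.2, hst.1.2.2, le_antisymm ?_ (le_base x hst.1.1.1 hst.1.2.2)⟩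
  refine base_le x (norm_nonneg _) fun s t hs hs' ht => ?_
  exact hmax (s, t) ⟨⟨⟨hs, hs'.trans ht⟩, hs.trans hs', ht⟩, hs'⟩
theorem base_mono (x : ℕ → V) {a b a' b' : ℕ} (ha : a' ≤ a) (hb : b ≤ b') :
    base x a b ≤ base x a' b' :=
  base_le x (base_nonneg _ _ _) fun s t hs _ ht => le_base x (ha.trans hs) (ht.trans hb)
theorem base_congr {x y : ℕ → V} {a b : ℕ} (h : ∀ t, a ≤ t → t ≤ b → x t = y t) :
    base x a b = base y a b := by
  refine le_antisymm ?_ ?_
  · refine base_le x (base_nonneg _ _ _) fun s t hs _ ht => ?_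
    rw [S_congr fun r hr hr' => h r (hs.trans hr) (hr'.trans ht)]
    exact le_base y hs ht
  · refine base_le y (base_nonneg _ _ _) fun s t hs _ ht => ?_
    rw [← S_congr fun r hr hr' => h r (hs.trans hr) (hr'.trans ht)]
    exact le_base x hs ht
theorem base_add (x y : ℕ → V) (a b : ℕ) :
    base (fun t => x t + y t) a b ≤ base x a b + base y a b :=
  base_le _ (add_nonneg (base_nonneg _ _ _) (base_nonneg _ _ _)) fun s t hs _ ht => by
    rw [S_add]
    exact (norm_add_le _ _).trans (add_le_add (le_base x hs ht) (le_base y hs ht))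
theorem base_of_lt (x : ℕ → V) {a b : ℕ} (h : b < a) : base x a b = 0 :=
  le_antisymm (base_le x le_rfl fun s t hs hst ht => by omega) (base_nonneg _ _ _)
theorem base_split (x : ℕ → V) (a b m : ℕ) :
    base x a b ≤ base x a m + base x (m + 1) b := by
  refine base_le x (add_nonneg (base_nonneg _ _ _) (base_nonneg _ _ _)) fun s t hs hst ht => ?_
  by_cases h1 : t ≤ m
  · exact (le_base x hs h1).trans (le_add_of_nonneg_right (base_nonneg _ _ _))
  · by_cases h2 : m + 1 ≤ s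
    · exact (le_base x h2 ht).trans (le_add_of_nonneg_left (base_nonneg _ _ _))
    · rw [S_split x (m := m) (by omega) (by omega)]
      exact (norm_add_le _ _).trans (add_le_add (le_base x hs le_rfl) (le_base x le_rfl ht))

/-! ### the depth `k` norms -/

variable {θ : ℝ}

theorem A_zero (x : ℕ → V) (a b : ℕ) : A θ x 0 a b = base x a b := rfl

theorem A_succ (x : ℕ → V) (k a b : ℕ) : A θ x (k + 1) a b = base x a b +
      θ * sSup {r | ∃ n c d, Adm a b n c d ∧ r = ∑ i ∈ range n, A θ x k (c i) (d i)} := rfl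

theorem zero_mem_set (x : ℕ → V) (k a b : ℕ) :
    (0 : ℝ) ∈ {r | ∃ n c d, Adm a b n c d ∧ r = ∑ i ∈ range n, A θ x k (c i) (d i)} :=
  ⟨0, id, id, Adm.zero a b id id, by simp⟩

theorem A_aux (h0 : 0 ≤ θ) (h2 : θ ≤ 1 / 2) (x : ℕ → V) (k : ℕ) :
    ∀ a b, 0 ≤ A θ x k a b ∧ A θ x k a b ≤ 2 * ∑ t ∈ Icc a b, ‖x t‖ := by
  induction k with
  | zero =>
    intro a b
    refine ⟨base_nonneg _ _ _, (base_le_sum x a b).trans ?_⟩
    have : 0 ≤ ∑ t ∈ Icc a b, ‖x t‖ := sum_nonneg fun _ _ => norm_nonneg _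
    linarith
  | succ k ih =>
    intro a b
    have hn : 0 ≤ ∑ t ∈ Icc a b, ‖x t‖ := sum_nonneg fun _ _ => norm_nonneg _
    have hb : ∀ r ∈ {r | ∃ n c d, Adm a b n c d ∧ r = ∑ i ∈ range n, A θ x k (c i) (d i)},
        r ≤ 2 * ∑ t ∈ Icc a b, ‖x t‖ := by
      rintro r ⟨n, c, d, h, rfl⟩
      refine (sum_le_sum fun i _ => (ih (c i) (d i)).2).trans ?_
      rw [← mul_sum]
      exact mul_le_mul_of_nonneg_left (h.sum_le _ fun _ => norm_nonneg _) (by norm_num)
    rw [A_succ]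
    have h3 : sSup {r | ∃ n c d, Adm a b n c d ∧ r = ∑ i ∈ range n, A θ x k (c i) (d i)} ≤
        2 * ∑ t ∈ Icc a b, ‖x t‖ := csSup_le ⟨0, zero_mem_set x k a b⟩ hb
    have h4 : 0 ≤ sSup {r | ∃ n c d, Adm a b n c d ∧ r = ∑ i ∈ range n, A θ x k (c i) (d i)} :=
      le_csSup ⟨_, hb⟩ (zero_mem_set x k a b)
    refine ⟨add_nonneg (base_nonneg _ _ _) (mul_nonneg h0 h4), ?_⟩
    have h5 := base_le_sum x a b
    have h6 : θ * sSup {r | ∃ n c d, Adm a b n c d ∧ r = ∑ i ∈ range n, A θ x k (c i) (d i)} ≤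
        1 / 2 * (2 * ∑ t ∈ Icc a b, ‖x t‖) := mul_le_mul h2 h3 h4 (by norm_num)
    linarith

theorem A_nonneg_aux (x : ℕ → V) (k a b : ℕ) (h0 : 0 ≤ θ) : 0 ≤ A θ x k a b := by
  induction k generalizing a b with
  | zero => exact base_nonneg _ _ _
  | succ k ih =>
    rw [A_succ]
    refine add_nonneg (base_nonneg _ _ _) (mul_nonneg h0 (Real.sSup_nonneg ?_))
    rintro r ⟨n, c, d, h, rfl⟩
    exact sum_nonneg fun i _ => ih _ _

theorem A_nonneg (h0 : 0 ≤ θ) (x : ℕ → V) (k a b : ℕ) : 0 ≤ A θ x k a b := A_nonneg_aux x k a b h0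
theorem A_le_sum (h0 : 0 ≤ θ) (h2 : θ ≤ 1 / 2) (x : ℕ → V) (k a b : ℕ) :
    A θ x k a b ≤ 2 * ∑ t ∈ Icc a b, ‖x t‖ := (A_aux h0 h2 x k a b).2

theorem A_set_bdd (h0 : 0 ≤ θ) (h2 : θ ≤ 1 / 2) (x : ℕ → V) (k a b : ℕ) :
    BddAbove {r | ∃ n c d, Adm a b n c d ∧ r = ∑ i ∈ range n, A θ x k (c i) (d i)} := by
  refine ⟨2 * ∑ t ∈ Icc a b, ‖x t‖, ?_⟩
  rintro r ⟨n, c, d, h, rfl⟩
  refine (sum_le_sum fun i _ => A_le_sum h0 h2 x k (c i) (d i)).trans ?_
  rw [← mul_sum]
  exact mul_le_mul_of_nonneg_left (h.sum_le _ fun _ => norm_nonneg _) (by norm_num)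

theorem A_succ_ge (h0 : 0 ≤ θ) (h2 : θ ≤ 1 / 2) (x : ℕ → V) (k : ℕ) {a b n : ℕ} {c d : ℕ → ℕ}
    (h : Adm a b n c d) :
    base x a b + θ * ∑ i ∈ range n, A θ x k (c i) (d i) ≤ A θ x (k + 1) a b := by
  rw [A_succ]
  have := le_csSup (A_set_bdd h0 h2 x k a b) ⟨n, c, d, h, rfl⟩
  have := mul_le_mul_of_nonneg_left this h0
  linarith
theorem A_succ_le (h0 : 0 ≤ θ) (x : ℕ → V) (k a b : ℕ) {C : ℝ}
    (h : ∀ n c d, Adm a b n c d → base x a b + θ * ∑ i ∈ range n, A θ x k (c i) (d i) ≤ C) :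
    A θ x (k + 1) a b ≤ C := by
  rw [A_succ]
  rcases h0.eq_or_lt with h0 | h0
  · rw [← h0, zero_mul, add_zero]
    have := h 0 id id (Adm.zero a b id id)
    simpa using this
  · have : sSup {r | ∃ n c d, Adm a b n c d ∧ r = ∑ i ∈ range n, A θ x k (c i) (d i)} ≤
        (C - base x a b) / θ := by
      refine csSup_le ⟨0, zero_mem_set x k a b⟩ ?_
      rintro r ⟨n, c, d, hh, rfl⟩
      rw [le_div_iff₀ h0]
      have := h n c d hh
      linarith
    rw [le_div_iff₀ h0] at this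
    linarith
/-- almost optimal families exist -/
theorem A_succ_exists (h0 : 0 ≤ θ) (h2 : θ ≤ 1 / 2) (x : ℕ → V) (k a b : ℕ) {ε : ℝ} (hε : 0 < ε) :
    ∃ n c d, Adm a b n c d ∧
      A θ x (k + 1) a b - ε ≤ base x a b + θ * ∑ i ∈ range n, A θ x k (c i) (d i) := by
  by_contra hcon
  push Not at hcon
  have := A_succ_le h0 x k a b (C := A θ x (k + 1) a b - ε) fun n c d h => (hcon n c d h).le
  linarith
theorem A_mono_depth_succ (h0 : 0 ≤ θ) (h2 : θ ≤ 1 / 2) (x : ℕ → V) (k : ℕ) :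
    ∀ a b, A θ x k a b ≤ A θ x (k + 1) a b := by
  induction k with
  | zero =>
    intro a b
    have := A_succ_ge h0 h2 x 0 (Adm.zero a b id id)
    simpa [A_zero] using this
  | succ k ih =>
    intro a b
    refine A_succ_le h0 x k a b fun n c d h => ?_
    refine le_trans ?_ (A_succ_ge h0 h2 x (k + 1) h)
    have : ∑ i ∈ range n, A θ x k (c i) (d i) ≤ ∑ i ∈ range n, A θ x (k + 1) (c i) (d i) :=
      sum_le_sum fun i _ => ih _ _
    have := mul_le_mul_of_nonneg_left this h0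
    linarith
theorem A_mono_depth (h0 : 0 ≤ θ) (h2 : θ ≤ 1 / 2) (x : ℕ → V) (a b : ℕ) :
    Monotone (fun k => A θ x k a b) :=
  monotone_nat_of_le_succ fun k => A_mono_depth_succ h0 h2 x k a b
theorem A_mono (h0 : 0 ≤ θ) (h2 : θ ≤ 1 / 2) (x : ℕ → V) (k : ℕ) {a b a' b' : ℕ}
    (ha : a' ≤ a) (hb : b ≤ b') : A θ x k a b ≤ A θ x k a' b' := by
  cases k with
  | zero => exact base_mono x ha hb
  | succ k =>
    refine A_succ_le h0 x k a b fun n c d h => ?_
    refine le_trans ?_ (A_succ_ge h0 h2 x k (h.mono ha hb))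
    have := base_mono x ha hb
    linarith
theorem A_congr (x y : ℕ → V) (k : ℕ) {a b : ℕ} (h : ∀ t, a ≤ t → t ≤ b → x t = y t) :
    A θ x k a b = A θ y k a b := by
  induction k generalizing a b with
  | zero => exact base_congr h
  | succ k ih =>
    rw [A_succ, A_succ, base_congr h]
    congr 3
    ext r
    constructor
    · rintro ⟨n, c, d, hh, rfl⟩
      refine ⟨n, c, d, hh, sum_congr rfl fun i hi => ih fun t ht ht' => h t ?_ ?_⟩
      · exact (hh.lo i (mem_range.1 hi)).trans ht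
      · exact ht'.trans (hh.hi i (mem_range.1 hi))
    · rintro ⟨n, c, d, hh, rfl⟩
      refine ⟨n, c, d, hh, sum_congr rfl fun i hi => (ih fun t ht ht' => h t ?_ ?_).symm⟩
      · exact (hh.lo i (mem_range.1 hi)).trans ht
      · exact ht'.trans (hh.hi i (mem_range.1 hi))
theorem A_add (h0 : 0 ≤ θ) (h2 : θ ≤ 1 / 2) (x y : ℕ → V) (k a b : ℕ) :
    A θ (fun t => x t + y t) k a b ≤ A θ x k a b + A θ y k a b := by
  induction k generalizing a b with
  | zero => exact base_add x y a b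
  | succ k ih =>
    refine A_succ_le h0 _ k a b fun n c d h => ?_
    have h1 := A_succ_ge h0 h2 x k h
    have h3 := A_succ_ge h0 h2 y k h
    have h4 := base_add x y a b
    have h5 : ∑ i ∈ range n, A θ (fun t => x t + y t) k (c i) (d i) ≤
        ∑ i ∈ range n, A θ x k (c i) (d i) + ∑ i ∈ range n, A θ y k (c i) (d i) := by
      rw [← sum_add_distrib]
      exact sum_le_sum fun i _ => ih _ _
    have := mul_le_mul_of_nonneg_left h5 h0
    linarith
theorem A_of_lt (h0 : 0 ≤ θ) (x : ℕ → V) (k : ℕ) {a b : ℕ} (h : b < a) : A θ x k a b = 0 := by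
  cases k with
  | zero => exact base_of_lt x h
  | succ k =>
    refine le_antisymm (A_succ_le h0 x k a b fun n c d hh => ?_) (A_nonneg h0 x _ _ _)
    have hn : n = 0 := by
      by_contra hn
      have h1 := hh.lo 0 (Nat.pos_of_ne_zero hn)
      have h2 := hh.le 0 (Nat.pos_of_ne_zero hn)
      have h3 := hh.hi 0 (Nat.pos_of_ne_zero hn)
      omega
    subst hn
    simp [base_of_lt x h]
theorem Adm.inter_aux (c d : ℕ → ℕ) (p q : ℕ) : ∀ n b, Adm (c 0) b n c d →
    ∃ (n' : ℕ) (c' d' : ℕ → ℕ), n' ≤ n ∧ Adm (max (c 0) p) (min b q) n' c' d' ∧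
      ∀ F : ℕ → ℕ → ℝ, (∀ u v, v < u → F u v = 0) →
        ∑ i ∈ range n, F (max (c i) p) (min (d i) q) = ∑ i ∈ range n', F (c' i) (d' i) := by
  intro n
  induction n with
  | zero => exact fun b _ => ⟨0, id, id, le_rfl, Adm.zero _ _ _ _, fun F _ => by simp⟩
  | succ n ih =>
    intro b h
    have hn : Adm (c 0) (c n - 1) n c d := by
      refine ⟨fun i hi => h.lo i (by omega), fun i hi => h.le i (by omega), fun i hi => ?_,
        fun i hi => h.lt i (by omega), (Nat.le_succ n).trans h.card⟩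
      have := h.lt_of_lt hi (Nat.lt_succ_self n)
      omega
    obtain ⟨n', c', d', hn', hA, hF⟩ := ih _ hn
    have hcn : c 0 ≤ c n := h.lo n (Nat.lt_succ_self n)
    have hdn : c n ≤ d n := h.le n (Nat.lt_succ_self n)
    have hdb : d n ≤ b := h.hi n (Nat.lt_succ_self n)
    by_cases hne : max (c n) p ≤ min (d n) q
    · refine ⟨n' + 1, fun i => if i < n' then c' i else max (c n) p,
        fun i => if i < n' then d' i else min (d n) q, by omega, ⟨?_, ?_, ?_, ?_, ?_⟩, ?_⟩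
      · intro i hi
        split_ifs with hi'
        · exact hA.lo i hi'
        · exact max_le_max_right _ hcn
      · intro i hi
        split_ifs with hi'
        · exact hA.le i hi'
        · exact hne
      · intro i hi
        split_ifs with hi'
        · refine (hA.hi i hi').trans (min_le_min_right _ ?_)
          omega
        · exact min_le_min_right _ hdb
      · intro i hi
        have hi' : i < n' := by omega
        rw [if_pos hi']
        split_ifs with hi''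
        · exact hA.lt i hi''
        · have h1 := hA.hi i hi'
          have h2 := hA.le i hi'
          have h3 := hA.lo i hi'
          have h4 : d' i ≤ c n - 1 := h1.trans (min_le_left _ _)
          have h5 : c 0 ≤ c' i := (le_max_left _ _).trans h3
          rcases Nat.eq_zero_or_pos (c n) with h0 | h0
          · exfalso
            -- `n ≥ 1` since `n' ≥ 1`, and `d 0 < c n`
            have h6 := h.lt_of_lt (i := 0) (j := n) (by omega) (Nat.lt_succ_self n)
            omega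
          · exact lt_of_lt_of_le (by omega) (le_max_left _ _)
      · split_ifs with h0
        · have h3 := hA.lo 0 h0
          exact (by omega : n' + 1 ≤ n + 1).trans (h.card.trans (phi_mono
            ((le_max_left _ _).trans h3)))
        · exact (by omega : n' + 1 ≤ n + 1).trans (h.card.trans (phi_mono
            (hcn.trans (le_max_left _ _))))
      · intro F hF0
        rw [sum_range_succ, hF F hF0, sum_range_succ]
        simp only [lt_irrefl, if_false]
        congr 1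
        exact sum_congr rfl fun i hi => by
          rw [if_pos (mem_range.1 hi), if_pos (mem_range.1 hi)]
    · refine ⟨n', c', d', by omega, hA.mono le_rfl (min_le_min_right _ (by omega)), ?_⟩
      intro F hF0
      rw [sum_range_succ, hF F hF0, hF0 _ _ (not_le.1 hne), add_zero]

/-- intersecting an admissible family with an interval -/
theorem Adm.inter {a b n : ℕ} {c d : ℕ → ℕ} (h : Adm a b n c d) (p q : ℕ) :
    ∃ (n' : ℕ) (c' d' : ℕ → ℕ), n' ≤ n ∧ Adm (max a p) (min b q) n' c' d' ∧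
      ∀ F : ℕ → ℕ → ℝ, (∀ u v, v < u → F u v = 0) →
        ∑ i ∈ range n, F (max (c i) p) (min (d i) q) = ∑ i ∈ range n', F (c' i) (d' i) := by
  rcases Nat.eq_zero_or_pos n with rfl | hn
  · exact ⟨0, id, id, le_rfl, Adm.zero _ _ _ _, fun F _ => by simp⟩
  · have h' : Adm (c 0) b n c d := by
      refine ⟨fun i hi => ?_, h.le, h.hi, h.lt, h.card⟩
      rcases Nat.eq_zero_or_pos i with rfl | hi0
      · exact le_rfl
      · exact (h.le 0 hn).trans (h.lt_of_lt hi0 hi).le
    obtain ⟨n', c', d', h1, h2, h3⟩ := Adm.inter_aux c d p q n b h'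
    exact ⟨n', c', d', h1, h2.mono (max_le_max_right _ (h.lo 0 hn)) le_rfl, h3⟩

theorem base_inter (x : ℕ → V) {p q : ℕ} (h : ∀ t, ¬ (p ≤ t ∧ t ≤ q) → x t = 0) (a b : ℕ) :
    base x a b = base x (max a p) (min b q) := by
  refine le_antisymm ?_ (base_mono x (le_max_left _ _) (min_le_left _ _))
  refine base_le x (base_nonneg _ _ _) fun s t hs _ ht => ?_
  rw [S_inter x h]
  exact le_base x (max_le_max_right _ hs) (min_le_min_right _ ht)

theorem A_inter (h0 : 0 ≤ θ) (h2 : θ ≤ 1 / 2) (x : ℕ → V) {p q : ℕ}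
    (h : ∀ t, ¬ (p ≤ t ∧ t ≤ q) → x t = 0) (k a b : ℕ) :
    A θ x k a b = A θ x k (max a p) (min b q) := by
  induction k generalizing a b with
  | zero => exact base_inter x h a b
  | succ k ih =>
    refine le_antisymm ?_ (A_mono h0 h2 x _ (le_max_left _ _) (min_le_left _ _))
    refine A_succ_le h0 x k a b fun n c d hh => ?_
    obtain ⟨n', c', d', -, hA, hF⟩ := hh.inter p q
    rw [base_inter x h a b, sum_congr rfl fun i _ => ih (c i) (d i),
      hF (fun u v => A θ x k u v) fun u v huv => A_of_lt h0 x k huv]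
    exact A_succ_ge h0 h2 x k hA

theorem A_split (h0 : 0 ≤ θ) (h2 : θ ≤ 1 / 2) (x : ℕ → V) (k : ℕ) (a b m : ℕ) :
    A θ x k a b ≤ A θ x k a m + A θ x k (m + 1) b := by
  classical
  have h1 : A θ x k a b = A θ (fun t => (if 0 ≤ t ∧ t ≤ m then x t else 0) +
      (if m + 1 ≤ t ∧ t ≤ b then x t else 0)) k a b := A_congr _ _ _ fun t _ ht => by
    by_cases hm : t ≤ m
    · rw [if_pos ⟨Nat.zero_le _, hm⟩, if_neg (by omega), add_zero]
    · rw [if_neg (by omega), if_pos (by omega), zero_add]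
  rw [h1]
  refine (A_add h0 h2 _ _ k a b).trans (add_le_add ?_ ?_)
  · rw [A_inter h0 h2 (fun t => if 0 ≤ t ∧ t ≤ m then x t else 0) (p := 0) (q := m)
      (fun t ht => if_neg ht), A_congr (y := x) (h := fun t _ ht' => if_pos
        ⟨Nat.zero_le _, ht'.trans (min_le_right _ _)⟩)]
    exact A_mono h0 h2 x k (le_max_left _ _) (min_le_right _ _)
  · rw [A_inter h0 h2 (fun t => if m + 1 ≤ t ∧ t ≤ b then x t else 0) (p := m + 1) (q := b)
      (fun t ht => if_neg ht), A_congr (y := x) (h := fun t ht ht' => if_pos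
        ⟨(le_max_right _ _).trans ht, ht'.trans (min_le_right _ _)⟩)]
    exact A_mono h0 h2 x k (le_max_right _ _) (min_le_right _ _)

end Pool.Agent.H10.TB
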