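import Mathlib

/-!
General lemmas: Schauder bases of completions, finite nets.
-/

namespace Pool.Agent.H10.TB

open Finset

/-- extension of a bounded linear map to the completion -/
theorem exists_extension {𝕜 : Type*} [RCLike 𝕜] {E : Type*} [NormedAddCommGroup E]
    [NormedSpace 𝕜 E] {F : Type*} [NormedAddCommGroup F] [NormedSpace 𝕜 F] [CompleteSpace F]
    (f : E → F) (hadd : ∀ x y, f (x + y) = f x + f y) (hsmul : ∀ (c : 𝕜) x, f (c • x) = c • f x)
    (C : ℝ) (hC : ∀ x, ‖f x‖ ≤ C * ‖x‖) :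
    ∃ T : UniformSpace.Completion E →L[𝕜] F,
      (∀ x : E, T (x : UniformSpace.Completion E) = f x) ∧ ∀ x, ‖T x‖ ≤ C * ‖x‖ := by
  let g : E →ₗ[𝕜] F := { toFun := f, map_add' := hadd, map_smul' := hsmul }
  let e : E →ₗ[𝕜] UniformSpace.Completion E :=
    (UniformSpace.Completion.toComplₗᵢ : E →ₗᵢ[𝕜] UniformSpace.Completion E).toLinearMap
  have hd : DenseRange e := UniformSpace.Completion.denseRange_coe
  have hn : ∀ x, ‖g x‖ ≤ C * ‖e x‖ := fun x => by
    have : ‖e x‖ = ‖x‖ := LinearIsometry.norm_map _ x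
    rw [this]
    exact hC x
  exact ⟨g.extendOfNorm e, fun x => LinearMap.extendOfNorm_eq hd ⟨C, hn⟩ x,
    LinearMap.norm_extendOfNorm_apply_le hd C hn⟩

/-- An algebraic basis with uniformly bounded partial sum projections gives a Schauder basis of the
completion. -/
theorem exists_schauderBasis {𝕜 : Type*} [RCLike 𝕜] {E : Type*} [NormedAddCommGroup E]
    [NormedSpace 𝕜 E] (v : ℕ → E) (a : ℕ → E → 𝕜)
    (hadd : ∀ n x y, a n (x + y) = a n x + a n y) (hsmul : ∀ n (c : 𝕜) x, a n (c • x) = c * a n x)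
    (hbi : ∀ i j, a i (v j) = if i = j then 1 else 0)
    (hfin : ∀ x, ∃ N, ∀ M, N ≤ M → x = ∑ n ∈ range M, a n x • v n)
    (C : ℝ) (hC : ∀ N x, ‖∑ n ∈ range N, a n x • v n‖ ≤ C * ‖x‖) :
    ∃ b : SchauderBasis 𝕜 (UniformSpace.Completion E),
      (∀ n, b n = (v n : UniformSpace.Completion E)) ∧
      (∀ n (x : E), b.coord n (x : UniformSpace.Completion E) = a n x) ∧
      ∀ N (x : UniformSpace.Completion E), ‖b.proj N x‖ ≤ C * ‖x‖ := by
  have hv : ∀ n, 0 < ‖v n‖ := fun n => by
    rw [norm_pos_iff]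
    intro h
    have h1 := hbi n n
    have h2 := hsmul n 0 (v n)
    rw [if_pos rfl] at h1
    rw [zero_smul, zero_mul] at h2
    rw [h] at h1
    rw [h2] at h1
    exact zero_ne_one h1
  have ha : ∀ n x, ‖a n x‖ ≤ 2 * C / ‖v n‖ * ‖x‖ := fun n x => by
    have h1 : a n x • v n = ∑ i ∈ range (n + 1), a i x • v i - ∑ i ∈ range n, a i x • v i := by
      rw [sum_range_succ]; abel
    have h2 : ‖a n x‖ * ‖v n‖ ≤ 2 * C * ‖x‖ := by
      rw [← norm_smul, h1]
      refine (norm_sub_le _ _).trans ?_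
      have := hC (n + 1) x
      have := hC n x
      linarith
    rw [div_mul_eq_mul_div, le_div_iff₀ (hv n)]
    exact h2
  choose α hα hαb using fun n => exists_extension (a n) (hadd n)
    (fun c x => by rw [hsmul, smul_eq_mul]) _ (ha n)
  -- partial sums
  have hP : ∀ N (x : UniformSpace.Completion E),
      ‖∑ n ∈ range N, α n x • (v n : UniformSpace.Completion E)‖ ≤ C * ‖x‖ := by
    intro N x
    induction x using UniformSpace.Completion.induction_on with
    | hp => exact isClosed_le (by fun_prop) (by fun_prop)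
    | ih x =>
      have : ∑ n ∈ range N, α n x • (v n : UniformSpace.Completion E) =
          ((∑ n ∈ range N, a n x • v n : E) : UniformSpace.Completion E) := by
        simp only [hα]
        have h1 : ∀ (s : Finset ℕ) (f : ℕ → E), ((∑ n ∈ s, f n : E) : UniformSpace.Completion E) =
            ∑ n ∈ s, (f n : UniformSpace.Completion E) := fun s f =>
          map_sum (UniformSpace.Completion.toComplₗᵢ (𝕜 := 𝕜) (E := E)) f s
        rw [h1]
        exact sum_congr rfl fun n _ => (UniformSpace.Completion.coe_smul _ _).symm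
      rw [this, UniformSpace.Completion.norm_coe, UniformSpace.Completion.norm_coe]
      exact hC N x
  have hC0 : 0 ≤ C := by
    have := hC 1 (v 0)
    have h1 : 0 ≤ ‖∑ n ∈ range 1, a n (v 0) • v n‖ := norm_nonneg _
    by_contra hneg
    push Not at hneg
    have := mul_neg_of_neg_of_pos hneg (hv 0)
    linarith
  have hlim : ∀ x : UniformSpace.Completion E, Filter.Tendsto
      (fun N => ∑ n ∈ range N, α n x • (v n : UniformSpace.Completion E)) Filter.atTop
      (nhds x) := by
    intro x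
    rw [Metric.tendsto_atTop]
    intro ε hε
    have hd : DenseRange ((↑) : E → UniformSpace.Completion E) :=
      UniformSpace.Completion.denseRange_coe
    obtain ⟨y, hy⟩ := Metric.denseRange_iff.1 hd x (ε / (2 * (C + 1))) (by positivity)
    obtain ⟨N, hN⟩ := hfin y
    refine ⟨N, fun M hM => ?_⟩
    have h1 : ∑ n ∈ range M, α n (y : UniformSpace.Completion E) •
        (v n : UniformSpace.Completion E) = y := by
      simp only [hα]
      have h1 : ∀ (s : Finset ℕ) (f : ℕ → E), ((∑ n ∈ s, f n : E) : UniformSpace.Completion E) =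
          ∑ n ∈ s, (f n : UniformSpace.Completion E) := fun s f =>
        map_sum (UniformSpace.Completion.toComplₗᵢ (𝕜 := 𝕜) (E := E)) f s
      conv_rhs => rw [hN M hM]
      rw [h1]
      exact sum_congr rfl fun n _ => (UniformSpace.Completion.coe_smul _ _).symm
    have h2 : ∑ n ∈ range M, α n x • (v n : UniformSpace.Completion E) - x =
        ∑ n ∈ range M, α n (x - y) • (v n : UniformSpace.Completion E) - (x - y) := by
      simp only [map_sub, sub_smul, sum_sub_distrib, h1]
      abel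
    rw [dist_eq_norm, h2]
    rw [dist_eq_norm] at hy
    have h3 := hP M (x - y)
    have h4 := norm_sub_le (∑ n ∈ range M, α n (x - y) • (v n : UniformSpace.Completion E)) (x - y)
    have h5 : (C + 1) * ‖x - (y : UniformSpace.Completion E)‖ < ε := by
      rw [lt_div_iff₀ (by positivity)] at hy
      nlinarith [norm_nonneg (x - (y : UniformSpace.Completion E))]
    linarith
  refine ⟨{ basis := fun n => v n, coord := α, ortho := fun i j => ?_, expansion := fun x => ?_ },
    fun n => rfl, hα, fun N x => ?_⟩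
  · rw [hα, hbi]
    simp [Pi.single_apply]
  · rw [HasSum, SummationFilter.conditional_filter_eq_map_range, Filter.tendsto_map'_iff]
    exact hlim x
  · rw [SchauderBasis.proj_apply]
    exact hP N x

/-- finite nets in the unit ball of the span of finitely many vectors -/
theorem exists_net {𝕜 : Type*} [RCLike 𝕜] {E : Type*} [NormedAddCommGroup E] [NormedSpace 𝕜 E]
    (u : ℕ → E) (M : ℕ) (η : ℝ) (hη : 0 < η) :
    ∃ (L : ℕ) (c : ℕ → ℕ → 𝕜), (∀ l < L, ‖∑ k ∈ range M, c l k • u k‖ ≤ 1) ∧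
      ∀ b : ℕ → 𝕜, ‖∑ k ∈ range M, b k • u k‖ ≤ 1 →
        ∃ l < L, ‖∑ k ∈ range M, (b k - c l k) • u k‖ ≤ η := by
  classical
  -- the span
  let W : Submodule 𝕜 E := Submodule.span 𝕜 (u '' (range M : Set ℕ))
  haveI : FiniteDimensional 𝕜 W := FiniteDimensional.span_of_finite 𝕜
    ((Finset.finite_toSet _).image u)
  haveI : ProperSpace W := FiniteDimensional.proper_rclike 𝕜 W
  have hcomp : IsCompact (Metric.closedBall (0 : W) 1) := isCompact_closedBall 0 1
  obtain ⟨t, htsub, htfin, ht⟩ := totallyBounded_iff_subset.1 hcomp.totallyBounded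
    {p | dist p.1 p.2 < η} (Metric.dist_mem_uniformity hη)
  have hcoef : ∀ x : W, ∃ c : ℕ → 𝕜, ∑ k ∈ range M, c k • u k = (x : E) := by
    intro x
    have hx := x.2
    exact (Submodule.mem_span_image_finset_iff_exists_fun' (R := 𝕜) (v := u)
      (s := range M)).1 hx
  choose cf hcf using hcoef
  let e := htfin.toFinset.equivFin
  refine ⟨htfin.toFinset.card, fun l => if h : l < htfin.toFinset.card then
    cf (e.symm ⟨l, h⟩ : W) else 0, fun l hl => ?_, fun b hb => ?_⟩
  · simp only [dif_pos hl, hcf]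
    have hmem : (e.symm ⟨l, hl⟩ : W) ∈ t := htfin.mem_toFinset.1 (e.symm ⟨l, hl⟩).2
    have := htsub hmem
    rw [mem_closedBall_zero_iff] at this
    simpa using this
  · have hW : ∑ k ∈ range M, b k • u k ∈ W := Submodule.sum_mem _ fun k hk =>
      Submodule.smul_mem _ _ (Submodule.subset_span ⟨k, hk, rfl⟩)
    have h1 : (⟨_, hW⟩ : W) ∈ Metric.closedBall (0 : W) 1 := by
      rw [mem_closedBall_zero_iff]
      simpa using hb
    have h2 := ht h1
    obtain ⟨y, hy, hdist⟩ := Set.mem_iUnion₂.1 h2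
    replace hdist : dist (⟨_, hW⟩ : W) y < η := hdist
    have hy' : y ∈ htfin.toFinset := htfin.mem_toFinset.2 hy
    refine ⟨e ⟨y, hy'⟩, (e ⟨y, hy'⟩).2, ?_⟩
    have h3 : ∑ k ∈ range M, (b k - (if h : (e ⟨y, hy'⟩ : ℕ) < htfin.toFinset.card then
        cf (e.symm ⟨(e ⟨y, hy'⟩ : ℕ), h⟩ : W) else 0) k) • u k =
        ∑ k ∈ range M, b k • u k - (y : E) := by
      rw [dif_pos (e ⟨y, hy'⟩).2]
      have : (e.symm ⟨(e ⟨y, hy'⟩ : ℕ), (e ⟨y, hy'⟩).2⟩) = ⟨y, hy'⟩ := by simp
      rw [this]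
      simp only [sub_smul, sum_sub_distrib, hcf]
    rw [h3]
    have h4 : dist (⟨_, hW⟩ : W) y = ‖∑ k ∈ range M, b k • u k - (y : E)‖ := by
      rw [Subtype.dist_eq, dist_eq_norm]
    exact (h4 ▸ hdist).le

/-- a seminorm which is small on differences and almost norming on a net is almost norming -/
theorem lower_of_net {𝕜 : Type*} [RCLike 𝕜] {E : Type*} [NormedAddCommGroup E] [NormedSpace 𝕜 E]
    (u : ℕ → E) (M : ℕ) (η : ℝ) (L : ℕ) (c : ℕ → ℕ → 𝕜)
    (hc : ∀ b : ℕ → 𝕜, ‖∑ k ∈ range M, b k • u k‖ ≤ 1 →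
        ∃ l < L, ‖∑ k ∈ range M, (b k - c l k) • u k‖ ≤ η)
    (ρ : (ℕ → 𝕜) → ℝ) (D κ : ℝ)
    (hρsub : ∀ b b', ρ b ≤ ρ b' + ρ (fun k => b k - b' k))
    (hρsmul : ∀ (r : ℝ) b, ρ (fun k => (r : 𝕜) * b k) = |r| * ρ b)
    (hρle : ∀ b, ρ b ≤ D * ‖∑ k ∈ range M, b k • u k‖)
    (hκ : ∀ l < L, 1 - η ≤ ‖∑ k ∈ range M, c l k • u k‖ → κ ≤ ρ (c l)) (hDη : D * η ≤ κ / 2)
    (hD : 0 ≤ D) (b : ℕ → 𝕜) :
    κ / 2 * ‖∑ k ∈ range M, b k • u k‖ ≤ ρ b := by
  have h0 : ρ (fun _ => 0) = 0 := by
    have := hρsmul 0 (fun _ => 0)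
    simpa using this
  have hpos : ∀ b, 0 ≤ ρ b := by
    intro b
    have h1 := hρsub (fun _ => 0) b
    have h2 := hρsmul (-1) b
    simp only [zero_sub, h0] at h1
    have h3 : (fun k => - b k) = fun k => ((-1 : ℝ) : 𝕜) * b k := by
      funext k; simp
    rw [h3, h2] at h1
    simp at h1
    linarith
  rcases (norm_nonneg (∑ k ∈ range M, b k • u k)).eq_or_lt with hb | hb
  · rw [← hb, mul_zero]
    exact hpos b
  · set r := ‖∑ k ∈ range M, b k • u k‖ with hr
    have key : ∀ b' : ℕ → 𝕜, ‖∑ k ∈ range M, b' k • u k‖ = 1 → κ / 2 ≤ ρ b' := by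
      intro b' hb'
      obtain ⟨l, hl, hle⟩ := hc b' hb'.le
      have h1 : 1 - η ≤ ‖∑ k ∈ range M, c l k • u k‖ := by
        have h2 : ∑ k ∈ range M, b' k • u k = ∑ k ∈ range M, (b' k - c l k) • u k +
            ∑ k ∈ range M, c l k • u k := by
          rw [← sum_add_distrib]
          exact sum_congr rfl fun k _ => by rw [← add_smul, sub_add_cancel]
        have h3 := norm_add_le (∑ k ∈ range M, (b' k - c l k) • u k) (∑ k ∈ range M, c l k • u k)
        rw [← h2, hb'] at h3
        linarith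
      have h2 := hκ l hl h1
      have h3 := hρsub (c l) b'
      have h4 := hρle (fun k => c l k - b' k)
      have h5 : ‖∑ k ∈ range M, (c l k - b' k) • u k‖ = ‖∑ k ∈ range M, (b' k - c l k) • u k‖ := by
        rw [← norm_neg, ← sum_neg_distrib]
        congr 1
        exact sum_congr rfl fun k _ => by rw [← neg_smul, neg_sub]
      rw [h5] at h4
      have h6 := mul_le_mul_of_nonneg_left hle hD
      linarith
    have h1 := key (fun k => ((r⁻¹ : ℝ) : 𝕜) * b k) (by
      simp only [mul_smul, ← smul_sum]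
      rw [norm_smul, ← hr]
      simp only [RCLike.norm_ofReal, abs_inv, abs_of_pos hb]
      exact inv_mul_cancel₀ hb.ne')
    rw [hρsmul, abs_inv, abs_of_pos hb, ← div_eq_inv_mul, le_div_iff₀ hb] at h1
    exact h1

end Pool.Agent.H10.TB
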