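import Pool.Agent.H10.TB.Api

/-!
Theorem S of f83316_proof.md (section 2): local structure of tails.
-/

namespace Pool.Agent.H10.TB

open Finset

namespace SThm

variable {V : Type*} [NormedAddCommGroup V] {θ : ℝ}

/-- the value of a weighted list of intervals -/
noncomputable def val (l : List (ℝ × ℕ × ℕ)) (x : ℕ → V) : ℝ :=
  (l.map (fun p => p.1 * ‖S x p.2.1 p.2.2‖)).sum

theorem val_nil (x : ℕ → V) : val [] x = 0 := rfl

theorem val_cons (p : ℝ × ℕ × ℕ) (l : List (ℝ × ℕ × ℕ)) (x : ℕ → V) :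
    val (p :: l) x = p.1 * ‖S x p.2.1 p.2.2‖ + val l x := by
  simp [val]

theorem val_append (l l' : List (ℝ × ℕ × ℕ)) (x : ℕ → V) :
    val (l ++ l') x = val l x + val l' x := by
  simp [val]

/-- multiply all weights by `c` -/
def scale (c : ℝ) (l : List (ℝ × ℕ × ℕ)) : List (ℝ × ℕ × ℕ) :=
  l.map (fun p => (c * p.1, p.2))

theorem val_scale (c : ℝ) (l : List (ℝ × ℕ × ℕ)) (x : ℕ → V) :
    val (scale c l) x = c * val l x := by
  induction l with
  | nil => simp [val, scale]
  | cons p l ih =>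
    have : scale c (p :: l) = (c * p.1, p.2) :: scale c l := rfl
    rw [this, val_cons, val_cons, ih]
    ring

/-- the list has nonnegative weights and all its intervals lie in `[a, b]` -/
def Inside (a b : ℕ) (l : List (ℝ × ℕ × ℕ)) : Prop :=
  ∀ p ∈ l, 0 ≤ p.1 ∧ a ≤ p.2.1 ∧ p.2.2 ≤ b

theorem Inside.mono {a b a' b' : ℕ} {l : List (ℝ × ℕ × ℕ)} (h : Inside a b l) (ha : a' ≤ a)
    (hb : b ≤ b') : Inside a' b' l :=
  fun p hp => ⟨(h p hp).1, ha.trans (h p hp).2.1, (h p hp).2.2.trans hb⟩

variable (V) in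
/-- a list is good on `[a, b]` if it is dominated by the norm -/
def Good (θ : ℝ) (a b : ℕ) (l : List (ℝ × ℕ × ℕ)) : Prop :=
  Inside a b l ∧ ∀ y : ℕ → V, val l y ≤ Nr θ y a b

variable (V) in
/-- `Fam V θ a b K l`: `l` is the concatenation of `K` good lists on successive intervals of
`[a, b]` -/
inductive Fam (θ : ℝ) : ℕ → ℕ → ℕ → List (ℝ × ℕ × ℕ) → Prop
  | nil (a b : ℕ) : Fam θ a b 0 []
  | cons (a b c d K : ℕ) (τ l : List (ℝ × ℕ × ℕ)) (hac : a ≤ c) (hcd : c ≤ d) (hdb : d ≤ b)
      (hg : Good V θ c d τ) (hF : Fam θ (d + 1) b K l) : Fam θ a b (K + 1) (τ ++ l)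

theorem Fam.mono_left {a a' b K : ℕ} {l : List (ℝ × ℕ × ℕ)} (h : Fam V θ a b K l)
    (ha : a' ≤ a) : Fam V θ a' b K l := by
  cases h with
  | nil => exact Fam.nil _ _
  | cons a b c d K τ l hac hcd hdb hg hF =>
    exact Fam.cons a' b c d K τ l (ha.trans hac) hcd hdb hg hF

theorem Fam.append {a m b K K' : ℕ} {l l' : List (ℝ × ℕ × ℕ)} (h : Fam V θ a m K l)
    (hm : m ≤ b) (h' : Fam V θ (m + 1) b K' l') (ham : a ≤ m + 1) :
    Fam V θ a b (K + K') (l ++ l') := by
  induction h with
  | nil a m =>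
    simpa using h'.mono_left ham
  | cons a m c d K τ l hac hcd hdb hg hF ih =>
    have := ih hm h' (by omega)
    have e : K + 1 + K' = (K + K') + 1 := by omega
    rw [e, List.append_assoc]
    exact Fam.cons a b c d _ τ _ hac hcd (hdb.trans hm) hg this

theorem Fam.inside {a b K : ℕ} {l : List (ℝ × ℕ × ℕ)} (h : Fam V θ a b K l) :
    Inside a b l := by
  induction h with
  | nil a b => intro p hp; simp at hp
  | cons a b c d K τ l hac hcd hdb hg hF ih =>
    intro p hp
    rcases List.mem_append.1 hp with hp | hp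
    · exact (hg.1.mono hac hdb) p hp
    · exact (ih.mono (by omega) le_rfl) p hp

/-- the intervals of a family -/
theorem Fam.exists_adm {a b K : ℕ} {l : List (ℝ × ℕ × ℕ)} (h : Fam V θ a b K l) :
    ∃ c d : ℕ → ℕ, (∀ i < K, a ≤ c i) ∧ (∀ i < K, c i ≤ d i) ∧ (∀ i < K, d i ≤ b) ∧
      (∀ i, i + 1 < K → d i < c (i + 1)) ∧
      ∀ y : ℕ → V, val l y ≤ ∑ i ∈ range K, Nr θ y (c i) (d i) := by
  induction h with
  | nil a b =>
    exact ⟨fun _ => 0, fun _ => 0, by simp, by simp, by simp, by simp, fun y => by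
      simp [val_nil]⟩
  | cons a b c d K τ l hac hcd hdb hg hF ih =>
    obtain ⟨cf, df, h1, h2, h3, h4, h5⟩ := ih
    refine ⟨fun i => Nat.casesOn i c cf, fun i => Nat.casesOn i d df, ?_, ?_, ?_, ?_, ?_⟩
    · rintro (_ | i) hi
      · exact hac
      · have := h1 i (by omega)
        show a ≤ cf i
        omega
    · rintro (_ | i) hi
      · exact hcd
      · exact h2 i (by omega)
    · rintro (_ | i) hi
      · exact hdb
      · exact h3 i (by omega)
    · rintro (_ | i) hi
      · have := h1 0 (by omega)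
        show d < cf 0
        omega
      · exact h4 i (by omega)
    · intro y
      rw [val_append, Finset.sum_range_succ']
      have e1 := hg.2 y
      have e2 := h5 y
      show _ ≤ ∑ k ∈ range K, Nr θ y (cf k) (df k) + Nr θ y c d
      linarith

/-- few good lists on successive intervals make one good list -/
theorem Fam.good (h0 : 0 < θ) (h2 : θ ≤ 1 / 2) {a b K : ℕ} {l : List (ℝ × ℕ × ℕ)}
    (h : Fam V θ a b K l) (hK : K ≤ phi a) : Good V θ a b ((1, a, b) :: scale θ l) := by
  constructor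
  · intro p hp
    rcases List.mem_cons.1 hp with rfl | hp
    · exact ⟨zero_le_one, le_rfl, le_rfl⟩
    · obtain ⟨q, hq, rfl⟩ := List.mem_map.1 hp
      have := h.inside q hq
      exact ⟨mul_nonneg h0.le this.1, this.2⟩
  · intro y
    obtain ⟨c, d, h1, h3, h4, h5, h6⟩ := h.exists_adm
    have hadm : Adm a b K c d := by
      refine ⟨h1, h3, h4, h5, ?_⟩
      rcases Nat.eq_zero_or_pos K with rfl | hpos
      · exact Nat.zero_le _
      · exact hK.trans (phi_mono (h1 0 hpos))
    rw [val_cons, val_scale]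
    have e1 := Nr_ge h0.le h2 y hadm
    have e2 : ‖S y a b‖ ≤ base y a b := le_base y le_rfl le_rfl
    have e3 := mul_le_mul_of_nonneg_left (h6 y) h0.le
    simp only [one_mul]
    linarith

/-- the sum of few good lists on successive intervals is dominated by `θ⁻¹` times the norm -/
theorem Fam.le_inv (h0 : 0 < θ) (h2 : θ ≤ 1 / 2) {a b K : ℕ} {l : List (ℝ × ℕ × ℕ)}
    (h : Fam V θ a b K l) (hK : K ≤ phi a) (y : ℕ → V) : val l y ≤ θ⁻¹ * Nr θ y a b := by
  obtain ⟨c, d, h1, h3, h4, h5, h6⟩ := h.exists_adm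
  have hadm : Adm a b K c d := by
    refine ⟨h1, h3, h4, h5, ?_⟩
    rcases Nat.eq_zero_or_pos K with rfl | hpos
    · exact Nat.zero_le _
    · exact hK.trans (phi_mono (h1 0 hpos))
  have e1 := theta_mul_sum_le h0.le h2 y hadm
  have e2 := h6 y
  have e3 : ∑ i ∈ range K, Nr θ y (c i) (d i) ≤ θ⁻¹ * Nr θ y a b := by
    rw [inv_mul_eq_div, le_div_iff₀ h0]
    linarith
  exact e2.trans e3

/-- induction over a finite set of cut points -/
theorem cut_induction {a b L K0 : ℕ} (D : Finset ℕ) (x : ℕ → ℕ → V) (Ψ : ℕ → ℕ → ℕ → ℝ) (e : ℝ)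
    (hΨ : ∀ j < L, ∀ u m v, u ≤ m → m < v → Ψ j u v ≤ Ψ j u m + Ψ j (m + 1) v)
    (hcell : ∀ u v, a ≤ u → u ≤ v → v ≤ b → (∀ p ∈ D, ¬ (u < p ∧ p ≤ v)) →
      ∃ K ≤ K0, ∃ τ, Fam V θ u v K τ ∧
        ∀ j < L, Ψ j u v - e * ((v : ℝ) + 1 - u) ≤ val τ (x j)) :
    ∀ N : ℕ, ∀ u v, (D.filter (fun p => u < p ∧ p ≤ v)).card ≤ N → a ≤ u → u ≤ v → v ≤ b →
      ∃ K ≤ K0 * (1 + (D.filter (fun p => u < p ∧ p ≤ v)).card), ∃ τ, Fam V θ u v K τ ∧
        ∀ j < L, Ψ j u v - e * ((v : ℝ) + 1 - u) ≤ val τ (x j) := by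
  intro N
  induction N with
  | zero =>
    intro u v hN hau huv hvb
    have hempty : D.filter (fun p => u < p ∧ p ≤ v) = ∅ := by
      rw [← Finset.card_eq_zero]; omega
    obtain ⟨K, hK, τ, hF, hv⟩ := hcell u v hau huv hvb (by
      intro p hp hpp
      have : p ∈ D.filter (fun p => u < p ∧ p ≤ v) := by simp [hp, hpp]
      rw [hempty] at this
      simp at this)
    exact ⟨K, by rw [hempty]; simpa using hK, τ, hF, hv⟩
  | succ N ih =>
    intro u v hN hau huv hvb
    by_cases hempty : ∀ p ∈ D, ¬ (u < p ∧ p ≤ v)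
    · obtain ⟨K, hK, τ, hF, hv⟩ := hcell u v hau huv hvb hempty
      exact ⟨K, hK.trans (Nat.le_mul_of_pos_right _ (by omega)), τ, hF, hv⟩
    · push Not at hempty
      obtain ⟨p, hp, hup, hpv⟩ := hempty
      obtain ⟨m, rfl⟩ : ∃ m, p = m + 1 := ⟨p - 1, by omega⟩
      have hsplit : (D.filter (fun p => u < p ∧ p ≤ m)).card +
          (D.filter (fun p => m + 1 < p ∧ p ≤ v)).card + 1 ≤
          (D.filter (fun p => u < p ∧ p ≤ v)).card := by
        have hd1 : Disjoint (D.filter (fun p => u < p ∧ p ≤ m))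
            (D.filter (fun p => m + 1 < p ∧ p ≤ v)) := by
          rw [Finset.disjoint_left]
          intro q hq hq'
          simp only [Finset.mem_filter] at hq hq'
          omega
        have hd2 : Disjoint ((D.filter (fun p => u < p ∧ p ≤ m)) ∪
            (D.filter (fun p => m + 1 < p ∧ p ≤ v))) {m + 1} := by
          rw [Finset.disjoint_right]
          intro q hq hq'
          simp only [Finset.mem_singleton] at hq
          simp only [Finset.mem_union, Finset.mem_filter] at hq'
          omega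
        have : ((D.filter (fun p => u < p ∧ p ≤ m)) ∪
            (D.filter (fun p => m + 1 < p ∧ p ≤ v)) ∪ {m + 1}).card ≤
            (D.filter (fun p => u < p ∧ p ≤ v)).card := by
          apply Finset.card_le_card
          intro q hq
          simp only [Finset.mem_union, Finset.mem_filter, Finset.mem_singleton] at hq ⊢
          rcases hq with (⟨h1, h2⟩ | ⟨h1, h2⟩) | h1
          · exact ⟨h1, by omega⟩
          · exact ⟨h1, by omega⟩
          · subst h1; exact ⟨hp, by omega⟩
        rw [Finset.card_union_of_disjoint hd2, Finset.card_union_of_disjoint hd1] at this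
        simpa using this
      obtain ⟨K1, hK1, τ1, hF1, hv1⟩ := ih u m (by omega) hau (by omega) (by omega)
      obtain ⟨K2, hK2, τ2, hF2, hv2⟩ := ih (m + 1) v (by omega) (by omega) hpv hvb
      refine ⟨K1 + K2, ?_, τ1 ++ τ2, hF1.append (by omega) hF2 (by omega), ?_⟩
      · calc K1 + K2 ≤ K0 * (1 + (D.filter (fun p => u < p ∧ p ≤ m)).card) +
              K0 * (1 + (D.filter (fun p => m + 1 < p ∧ p ≤ v)).card) := by omega
          _ = K0 * (1 + ((D.filter (fun p => u < p ∧ p ≤ m)).card +
              (D.filter (fun p => m + 1 < p ∧ p ≤ v)).card + 1)) := by ring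
          _ ≤ _ := Nat.mul_le_mul_left _ (by omega)
      · intro j hj
        have e1 := hΨ j hj u m v (by omega) (by omega)
        have e2 := hv1 j hj
        have e3 := hv2 j hj
        rw [val_append]
        push_cast at e3 ⊢
        nlinarith

/-! ### the pieces of a vector -/

theorem A_of_lt (h0 : 0 ≤ θ) (h2 : θ ≤ 1 / 2) (x : ℕ → V) (k : ℕ) {a b : ℕ} (h : b < a) :
    A θ x k a b = 0 := by
  apply le_antisymm _ (A_nonneg h0 x k a b)
  have := A_le_sum h0 h2 x k a b
  rw [Finset.Icc_eq_empty (by omega)] at this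
  simpa using this

theorem norm_S_cut (x : ℕ → V) (α β : ℕ) {u m v : ℕ} (hum : u ≤ m) (hmv : m < v) :
    ‖S x (max α u) (min β v)‖ ≤
      ‖S x (max α u) (min β m)‖ + ‖S x (max α (m + 1)) (min β v)‖ := by
  by_cases hβ : β ≤ m
  · rw [min_eq_left hβ, min_eq_left (by omega : β ≤ v)]
    exact le_add_of_nonneg_right (norm_nonneg _)
  · by_cases hα : m < α
    · rw [max_eq_left (by omega : m + 1 ≤ α), max_eq_left (by omega : u ≤ α)]
      exact le_add_of_nonneg_left (norm_nonneg _)
    · have e1 : min β m = m := min_eq_right (by omega)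
      have e2 : max α (m + 1) = m + 1 := max_eq_right (by omega)
      rw [e1, e2, S_split x (m := m) (by omega) (by omega)]
      exact norm_add_le _ _

theorem A_cut (h0 : 0 ≤ θ) (h2 : θ ≤ 1 / 2) (x : ℕ → V) (k : ℕ) (α β : ℕ) {u m v : ℕ}
    (hum : u ≤ m) (hmv : m < v) :
    A θ x k (max α u) (min β v) ≤
      A θ x k (max α u) (min β m) + A θ x k (max α (m + 1)) (min β v) := by
  by_cases hβ : β ≤ m
  · rw [min_eq_left hβ, min_eq_left (by omega : β ≤ v)]
    exact le_add_of_nonneg_right (A_nonneg h0 _ _ _ _)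
  · by_cases hα : m < α
    · rw [max_eq_left (by omega : m + 1 ≤ α), max_eq_left (by omega : u ≤ α)]
      exact le_add_of_nonneg_left (A_nonneg h0 _ _ _ _)
    · have e1 : min β m = m := min_eq_right (by omega)
      have e2 : max α (m + 1) = m + 1 := max_eq_right (by omega)
      rw [e1, e2]
      exact A_split h0 h2 x k _ _ m

theorem norm_S_cell (x : ℕ → V) (α β : ℕ) {u v : ℕ} (huv : u ≤ v) (hα : ¬ (u < α ∧ α ≤ v))
    (hβ : ¬ (u < β + 1 ∧ β + 1 ≤ v)) : ‖S x (max α u) (min β v)‖ ≤ ‖S x u v‖ := by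
  by_cases h1 : α ≤ u
  · by_cases h3 : v ≤ β
    · rw [max_eq_right h1, min_eq_right h3]
    · rw [S_of_lt x (by omega), norm_zero]
      exact norm_nonneg _
  · rw [S_of_lt x (by omega), norm_zero]
    exact norm_nonneg _

theorem adm_lt {a b n : ℕ} {c d : ℕ → ℕ} (h : Adm a b n c d) {i : ℕ} :
    ∀ {i' : ℕ}, i < i' → i' < n → d i < c i' := by
  intro i' hi
  induction i' with
  | zero => omega
  | succ i' ih =>
    intro hn
    rcases Nat.lt_or_ge i i' with h1 | h1
    · have e1 := ih h1 (by omega)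
      have e2 := h.le i' (by omega)
      have e3 := h.lt i' hn
      omega
    · have : i = i' := by omega
      subst this
      exact h.lt i hn

theorem sum_A_cell (h0 : 0 ≤ θ) (h2 : θ ≤ 1 / 2) (x : ℕ → V) (k : ℕ) {a b n : ℕ} {c d : ℕ → ℕ}
    (h : Adm a b n c d) {u v : ℕ} (huv : u ≤ v)
    (hc : ∀ i < n, ¬ (u < c i ∧ c i ≤ v)) (hd : ∀ i < n, ¬ (u < d i + 1 ∧ d i + 1 ≤ v)) :
    ∑ i ∈ range n, A θ x k (max (c i) u) (min (d i) v) ≤ A θ x k u v := by
  by_cases hex : ∃ i0 < n, c i0 ≤ u ∧ v ≤ d i0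
  · obtain ⟨i0, hi0, hc0, hd0⟩ := hex
    rw [Finset.sum_eq_single i0]
    · rw [max_eq_right hc0, min_eq_right hd0]
    · intro i hi hne
      rw [Finset.mem_range] at hi
      apply A_of_lt h0 h2
      rcases Nat.lt_or_gt_of_ne hne with hlt | hlt
      · have := adm_lt h hlt hi0
        omega
      · have := adm_lt h hlt hi
        omega
    · intro hn
      exact absurd (Finset.mem_range.2 hi0) hn
  · push Not at hex
    rw [Finset.sum_eq_zero]
    · exact A_nonneg h0 _ _ _ _
    · intro i hi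
      rw [Finset.mem_range] at hi
      apply A_of_lt h0 h2
      have e1 := hc i hi
      have e2 := hd i hi
      have e3 := hex i hi
      have e4 := h.le i hi
      by_cases h1 : c i ≤ u
      · have := e3 h1
        omega
      · omega

/-- depth zero -/
theorem P_zero (h0 : 0 < θ) (h2 : θ ≤ 1 / 2) (x : ℕ → ℕ → V) (L : ℕ) {a b : ℕ} (hab : a ≤ b) :
    ∃ K ≤ 4 * L + 1, ∃ τ, Fam V θ a b K τ ∧ ∀ j < L, A θ (x j) 0 a b ≤ val τ (x j) := by
  choose α β hα hαβ hβ hbase using fun j => exists_base (x j) hab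
  have hmem1 : ∀ j < L, α j ∈ (range L).image α ∪ (range L).image (fun j => β j + 1) := by
    intro j hj
    exact Finset.mem_union_left _ (Finset.mem_image.2 ⟨j, Finset.mem_range.2 hj, rfl⟩)
  have hmem2 : ∀ j < L, β j + 1 ∈ (range L).image α ∪ (range L).image (fun j => β j + 1) := by
    intro j hj
    exact Finset.mem_union_right _ (Finset.mem_image.2 ⟨j, Finset.mem_range.2 hj, rfl⟩)
  have hcard : ((range L).image α ∪ (range L).image (fun j => β j + 1)).card ≤ 2 * L := by
    refine (Finset.card_union_le _ _).trans ?_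
    have e1 : ((range L).image α).card ≤ L := by
      simpa using Finset.card_image_le (s := range L) (f := α)
    have e2 : ((range L).image (fun j => β j + 1)).card ≤ L := by
      simpa using Finset.card_image_le (s := range L) (f := fun j => β j + 1)
    omega
  obtain ⟨K, hK, τ, hF, hv⟩ := cut_induction (V := V) (θ := θ) (a := a) (b := b) (L := L) (K0 := 1)
    ((range L).image α ∪ (range L).image (fun j => β j + 1)) x
    (fun j u v => ‖S (x j) (max (α j) u) (min (β j) v)‖) 0
    (fun j _ u m v hum hmv => norm_S_cut (x j) (α j) (β j) hum hmv)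
    (by
      intro u v hau huv hvb hno
      refine ⟨1, le_rfl, [(1, u, v)] ++ [], ?_, ?_⟩
      · have hg := (Fam.nil (V := V) (θ := θ) u v).good h0 h2 (Nat.zero_le _)
        exact Fam.cons u v u v 0 _ _ le_rfl huv le_rfl hg (Fam.nil _ _)
      · intro j hj
        have := norm_S_cell (x j) (α j) (β j) huv (hno _ (hmem1 j hj)) (hno _ (hmem2 j hj))
        simpa [val] using this)
    _ a b le_rfl le_rfl hab le_rfl
  refine ⟨K, ?_, τ, hF, ?_⟩
  · have := Finset.card_filter_le ((range L).image α ∪ (range L).image (fun j => β j + 1))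
      (fun p => a < p ∧ p ≤ b)
    omega
  · intro j hj
    have := hv j hj
    simp only [zero_mul, sub_zero] at this
    rw [max_eq_left (hα j), min_eq_left (hβ j)] at this
    rw [A_zero, hbase j]
    exact this

/-- the induction step -/
theorem P_succ (h0 : 0 < θ) (h2 : θ ≤ 1 / 2) (x : ℕ → ℕ → V) (L r0 k : ℕ)
    (hr : ∀ q, r0 ≤ q → (4 * L + 1) * (1 + 2 * L * phi (q - 1)) ≤ phi q)
    (ih : ∀ a b, r0 ≤ a → a ≤ b → ∀ ε : ℝ, 0 < ε → ∃ K ≤ 4 * L + 1, ∃ τ, Fam V θ a b K τ ∧
      ∀ j < L, A θ (x j) k a b - ε ≤ val τ (x j)) :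
    ∀ a b, r0 ≤ a → a ≤ b → ∀ ε : ℝ, 0 < ε → ∃ K ≤ 4 * L + 1, ∃ τ, Fam V θ a b K τ ∧
      ∀ j < L, A θ (x j) (k + 1) a b - ε ≤ val τ (x j) := by
  intro a b ha hab ε hε
  choose α β hα hαβ hβ hbase using fun j => exists_base (x j) hab
  choose n c d hadm happ using fun j => A_succ_exists h0.le h2 (x j) k a b (half_pos hε)
  set Dc : Finset ℕ := ((range L).image α ∪ (range L).image (fun j => β j + 1)) ∪
    ((range L).image (fun j => c j 0) ∪ (range L).image (fun j => d j 0 + 1)) with hDc
  set Dj : ℕ → Finset ℕ := fun j => (range (n j)).image (c j) ∪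
    (range (n j)).image (fun i => d j i + 1) with hDj
  set Df : Finset ℕ := Dc ∪ (range L).biUnion Dj with hDf
  have m1 : ∀ j < L, α j ∈ Dc := fun j hj => by
    simp only [hDc, Finset.mem_union, Finset.mem_image, Finset.mem_range]
    exact Or.inl (Or.inl ⟨j, hj, rfl⟩)
  have m2 : ∀ j < L, β j + 1 ∈ Dc := fun j hj => by
    simp only [hDc, Finset.mem_union, Finset.mem_image, Finset.mem_range]
    exact Or.inl (Or.inr ⟨j, hj, rfl⟩)
  have m3 : ∀ j < L, c j 0 ∈ Dc := fun j hj => by
    simp only [hDc, Finset.mem_union, Finset.mem_image, Finset.mem_range]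
    exact Or.inr (Or.inl ⟨j, hj, rfl⟩)
  have m4 : ∀ j < L, d j 0 + 1 ∈ Dc := fun j hj => by
    simp only [hDc, Finset.mem_union, Finset.mem_image, Finset.mem_range]
    exact Or.inr (Or.inr ⟨j, hj, rfl⟩)
  have m5 : ∀ j < L, ∀ i < n j, c j i ∈ Df := fun j hj i hi => by
    refine Finset.mem_union_right _ (Finset.mem_biUnion.2 ⟨j, Finset.mem_range.2 hj, ?_⟩)
    exact Finset.mem_union_left _ (Finset.mem_image.2 ⟨i, Finset.mem_range.2 hi, rfl⟩)
  have m6 : ∀ j < L, ∀ i < n j, d j i + 1 ∈ Df := fun j hj i hi => by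
    refine Finset.mem_union_right _ (Finset.mem_biUnion.2 ⟨j, Finset.mem_range.2 hj, ?_⟩)
    exact Finset.mem_union_right _ (Finset.mem_image.2 ⟨i, Finset.mem_range.2 hi, rfl⟩)
  have hDccard : Dc.card ≤ 4 * L := by
    refine (Finset.card_union_le _ _).trans ?_
    have e1 : ((range L).image α).card ≤ L := by
      simpa using Finset.card_image_le (s := range L) (f := α)
    have e2 : ((range L).image (fun j => β j + 1)).card ≤ L := by
      simpa using Finset.card_image_le (s := range L) (f := fun j => β j + 1)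
    have e3 : ((range L).image (fun j => c j 0)).card ≤ L := by
      simpa using Finset.card_image_le (s := range L) (f := fun j => c j 0)
    have e4 : ((range L).image (fun j => d j 0 + 1)).card ≤ L := by
      simpa using Finset.card_image_le (s := range L) (f := fun j => d j 0 + 1)
    have e5 := Finset.card_union_le ((range L).image α) ((range L).image (fun j => β j + 1))
    have e6 := Finset.card_union_le ((range L).image (fun j => c j 0))
      ((range L).image (fun j => d j 0 + 1))
    omega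
  -- the error per unit of length
  have hlen : (0 : ℝ) < (b : ℝ) + 1 - a := by
    have : (a : ℝ) ≤ b := by exact_mod_cast hab
    linarith
  set e : ℝ := ε / 2 / ((b : ℝ) + 1 - a) with he
  have hepos : 0 < e := by positivity
  -- fine level
  have hfine : ∀ u v, a ≤ u → u ≤ v → v ≤ b →
      ∃ K ≤ (4 * L + 1) * (1 + (Df.filter (fun p => u < p ∧ p ≤ v)).card), ∃ τ,
        Fam V θ u v K τ ∧ ∀ j < L,
          (∑ i ∈ range (n j), A θ (x j) k (max (c j i) u) (min (d j i) v)) -
            e * ((v : ℝ) + 1 - u) ≤ val τ (x j) := by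
    intro u v hau huv hvb
    refine cut_induction (V := V) (θ := θ) (a := a) (b := b) (L := L) (K0 := 4 * L + 1) Df x
      (fun j u v => ∑ i ∈ range (n j), A θ (x j) k (max (c j i) u) (min (d j i) v)) e ?_ ?_
      _ u v le_rfl hau huv hvb
    · intro j hj u m v hum hmv
      rw [← Finset.sum_add_distrib]
      exact Finset.sum_le_sum (fun i _ => A_cut h0.le h2 (x j) k (c j i) (d j i) hum hmv)
    · intro u v hau huv hvb hno
      have hlen' : (0 : ℝ) < (v : ℝ) + 1 - u := by
        have : (u : ℝ) ≤ v := by exact_mod_cast huv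
        linarith
      obtain ⟨K, hK, τ, hF, hv⟩ := ih u v (ha.trans hau) huv (e * ((v : ℝ) + 1 - u))
        (mul_pos hepos hlen')
      refine ⟨K, hK, τ, hF, ?_⟩
      intro j hj
      have e1 := hv j hj
      have e2 := sum_A_cell h0.le h2 (x j) k (hadm j) huv
        (fun i hi => hno _ (m5 j hj i hi)) (fun i hi => hno _ (m6 j hj i hi))
      show (∑ i ∈ range (n j), A θ (x j) k (max (c j i) u) (min (d j i) v)) -
            e * ((v : ℝ) + 1 - u) ≤ val τ (x j)
      linarith
  -- counting the fine cut points of a coarse cell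
  have hcount : ∀ u v, a ≤ u → u ≤ v → v ≤ b → (∀ p ∈ Dc, ¬ (u < p ∧ p ≤ v)) →
      (Df.filter (fun p => u < p ∧ p ≤ v)).card ≤ 2 * L * phi (u - 1) := by
    intro u v hau huv hvb hno
    have hsub : Df.filter (fun p => u < p ∧ p ≤ v) ⊆
        (range L).biUnion (fun j => (Dj j).filter (fun p => u < p ∧ p ≤ v)) := by
      intro p hp
      simp only [hDf, Finset.mem_filter, Finset.mem_union, Finset.mem_biUnion] at hp ⊢
      rcases hp with ⟨hp | ⟨j, hj, hp⟩, hp2⟩
      · exact absurd hp2 (hno p hp)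
      · exact ⟨j, hj, hp, hp2⟩
    refine (Finset.card_le_card hsub).trans (Finset.card_biUnion_le.trans ?_)
    have hj : ∀ j ∈ range L, ((Dj j).filter (fun p => u < p ∧ p ≤ v)).card ≤
        2 * phi (u - 1) := by
      intro j hj
      rw [Finset.mem_range] at hj
      by_cases hem : ((Dj j).filter (fun p => u < p ∧ p ≤ v)) = ∅
      · rw [hem]; simp
      · obtain ⟨p, hp⟩ := Finset.nonempty_of_ne_empty hem
        simp only [hDj, Finset.mem_filter, Finset.mem_union, Finset.mem_image,
          Finset.mem_range] at hp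
        obtain ⟨hp1, hp2⟩ := hp
        have n3 := hno _ (m3 j hj)
        have n4 := hno _ (m4 j hj)
        have hlt : n j ≠ 0 ∧ d j 0 < u := by
          have key : ∀ i < n j, d j 0 < u ∨ (v < c j i ∨ c j i ≤ u) ∧
              (v < d j i + 1 ∨ d j i + 1 ≤ u) := by
            intro i hi
            by_cases hd0 : d j 0 < u
            · exact Or.inl hd0
            · right
              have hle0 := (hadm j).le 0 (by omega)
              rcases Nat.eq_zero_or_pos i with rfl | hpos
              · omega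
              · have e1 := adm_lt (hadm j) hpos hi
                have e2 := (hadm j).le i hi
                omega
          rcases hp1 with ⟨i, hi, rfl⟩ | ⟨i, hi, rfl⟩
          · have := key i hi
            omega
          · have := key i hi
            omega
        have hle0 := (hadm j).le 0 (by omega)
        have hcardn : n j ≤ phi (u - 1) := (hadm j).card.trans (phi_mono (by omega))
        calc ((Dj j).filter (fun p => u < p ∧ p ≤ v)).card ≤ (Dj j).card :=
              Finset.card_filter_le _ _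
          _ ≤ ((range (n j)).image (c j)).card +
              ((range (n j)).image (fun i => d j i + 1)).card := Finset.card_union_le _ _
          _ ≤ n j + n j := by
              refine Nat.add_le_add ?_ ?_
              · simpa using Finset.card_image_le (s := range (n j)) (f := c j)
              · simpa using Finset.card_image_le (s := range (n j)) (f := fun i => d j i + 1)
          _ ≤ 2 * phi (u - 1) := by omega
    refine (Finset.sum_le_sum hj).trans ?_
    rw [Finset.sum_const, Finset.card_range, smul_eq_mul]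
    exact le_of_eq (by ring)
  -- coarse level
  obtain ⟨K, hK, τ, hF, hv⟩ := cut_induction (V := V) (θ := θ) (a := a) (b := b) (L := L) (K0 := 1)
    Dc x
    (fun j u v => ‖S (x j) (max (α j) u) (min (β j) v)‖ +
      θ * ∑ i ∈ range (n j), A θ (x j) k (max (c j i) u) (min (d j i) v)) e
    (by
      intro j hj u m v hum hmv
      have e1 := norm_S_cut (x j) (α j) (β j) hum hmv
      have e2 : ∑ i ∈ range (n j), A θ (x j) k (max (c j i) u) (min (d j i) v) ≤
          ∑ i ∈ range (n j), A θ (x j) k (max (c j i) u) (min (d j i) m) +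
          ∑ i ∈ range (n j), A θ (x j) k (max (c j i) (m + 1)) (min (d j i) v) := by
        rw [← Finset.sum_add_distrib]
        exact Finset.sum_le_sum (fun i _ => A_cut h0.le h2 (x j) k (c j i) (d j i) hum hmv)
      have e3 := mul_le_mul_of_nonneg_left e2 h0.le
      rw [mul_add] at e3
      show _ + _ ≤ (_ + _) + (_ + _)
      linarith)
    (by
      intro u v hau huv hvb hno
      obtain ⟨K, hK, τ, hF, hv⟩ := hfine u v hau huv hvb
      have hKphi : K ≤ phi u := by
        refine hK.trans (le_trans ?_ (hr u (ha.trans hau)))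
        exact Nat.mul_le_mul_left _ (Nat.add_le_add_left (hcount u v hau huv hvb hno) 1)
      refine ⟨1, le_rfl, ((1, u, v) :: scale θ τ) ++ [], ?_, ?_⟩
      · exact Fam.cons u v u v 0 _ _ le_rfl huv le_rfl (hF.good h0 h2 hKphi) (Fam.nil _ _)
      · intro j hj
        have e1 := norm_S_cell (x j) (α j) (β j) huv (hno _ (m1 j hj)) (hno _ (m2 j hj))
        have e2 := hv j hj
        have e3 := mul_le_mul_of_nonneg_left e2 h0.le
        have hlen' : (0 : ℝ) < (v : ℝ) + 1 - u := by
          have : (u : ℝ) ≤ v := by exact_mod_cast huv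
          linarith
        have e4 : θ * (e * ((v : ℝ) + 1 - u)) ≤ e * ((v : ℝ) + 1 - u) := by
          have : 0 ≤ e * ((v : ℝ) + 1 - u) := (mul_pos hepos hlen').le
          nlinarith
        rw [List.append_nil, val_cons, val_scale]
        simp only [one_mul]
        rw [mul_sub] at e3
        linarith)
    _ a b le_rfl le_rfl hab le_rfl
  refine ⟨K, ?_, τ, hF, ?_⟩
  · have := Finset.card_filter_le Dc (fun p => a < p ∧ p ≤ b)
    omega
  · intro j hj
    have e1 := hv j hj
    have e2 := happ j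
    have e3 : e * ((b : ℝ) + 1 - a) = ε / 2 := by
      rw [he]; field_simp
    have e4 : ∑ i ∈ range (n j), A θ (x j) k (max (c j i) a) (min (d j i) b) =
        ∑ i ∈ range (n j), A θ (x j) k (c j i) (d j i) := by
      refine Finset.sum_congr rfl (fun i hi => ?_)
      rw [Finset.mem_range] at hi
      rw [max_eq_left ((hadm j).lo i hi), min_eq_left ((hadm j).hi i hi)]
    rw [max_eq_left (hα j), min_eq_left (hβ j), e4, ← hbase j, e3] at e1
    linarith

theorem P_all (h0 : 0 < θ) (h2 : θ ≤ 1 / 2) (x : ℕ → ℕ → V) (L r0 : ℕ)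
    (hr : ∀ q, r0 ≤ q → (4 * L + 1) * (1 + 2 * L * phi (q - 1)) ≤ phi q) (k : ℕ) :
    ∀ a b, r0 ≤ a → a ≤ b → ∀ ε : ℝ, 0 < ε → ∃ K ≤ 4 * L + 1, ∃ τ, Fam V θ a b K τ ∧
      ∀ j < L, A θ (x j) k a b - ε ≤ val τ (x j) := by
  induction k with
  | zero =>
    intro a b _ hab ε hε
    obtain ⟨K, hK, τ, hF, hv⟩ := P_zero h0 h2 x L hab
    exact ⟨K, hK, τ, hF, fun j hj => by linarith [hv j hj]⟩
  | succ k ih => exact P_succ h0 h2 x L r0 k hr ih

theorem val_eq_sum (l : List (ℝ × ℕ × ℕ)) (x : ℕ → V) :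
    val l x = ∑ i ∈ range l.length, (l.getD i (0, 0, 0)).1 *
      ‖S x (l.getD i (0, 0, 0)).2.1 (l.getD i (0, 0, 0)).2.2‖ := by
  induction l with
  | nil => simp [val]
  | cons p l ih =>
    rw [val_cons, List.length_cons, Finset.sum_range_succ', ih]
    simp [add_comm]

end SThm

open SThm in
/-- THEOREM S. Far out, `L` vectors are almost normed by one `ℓ₁(V)`-seminorm which is dominated by
`θ⁻¹` times the norm. -/
theorem tail_structure {θ : ℝ} (h0 : 0 < θ) (h2 : θ ≤ 1 / 2) (V : Type*) [NormedAddCommGroup V]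
    (L : ℕ) : ∃ r0 : ℕ, ∀ (B : ℕ) (x : ℕ → ℕ → V) (ε : ℝ), 0 < ε →
      ∃ (n : ℕ) (w : ℕ → ℝ) (s t : ℕ → ℕ), (∀ i, 0 ≤ w i) ∧ (∀ i < n, r0 ≤ s i ∧ t i ≤ B) ∧
        (∀ y : ℕ → V, ∑ i ∈ range n, w i * ‖S y (s i) (t i)‖ ≤ θ⁻¹ * Nr θ y r0 B) ∧
        ∀ l < L, Nr θ (x l) r0 B - ε ≤ ∑ i ∈ range n, w i * ‖S (x l) (s i) (t i)‖ := by
  obtain ⟨r0, _, hr⟩ := phi_growth ((4 * L + 1) * (1 + 2 * L))
  have hr' : ∀ q, r0 ≤ q → (4 * L + 1) * (1 + 2 * L * phi (q - 1)) ≤ phi q := by
    intro q hq
    refine le_trans ?_ (hr q hq)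
    have h1 := one_le_phi (q - 1)
    rw [mul_assoc (4 * L + 1)]
    refine Nat.mul_le_mul_left _ ?_
    nlinarith
  refine ⟨r0, fun B x ε hε => ?_⟩
  by_cases hB : r0 ≤ B
  · -- a common depth
    choose kk hkk using fun l => exists_A_Nr h0.le h2 (x l) r0 B (half_pos hε)
    set k : ℕ := (range L).sup kk with hk
    obtain ⟨K, hK, τ, hF, hv⟩ := P_all h0 h2 x L r0 hr' k r0 B le_rfl hB (ε / 2) (half_pos hε)
    have hKphi : K ≤ phi r0 := by
      refine hK.trans (le_trans ?_ (hr' r0 le_rfl))
      exact Nat.le_mul_of_pos_right _ (by omega)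
    have hins := hF.inside
    refine ⟨τ.length, fun i => (τ.getD i (0, 0, 0)).1, fun i => (τ.getD i (0, 0, 0)).2.1,
      fun i => (τ.getD i (0, 0, 0)).2.2, ?_, ?_, ?_, ?_⟩
    · intro i
      rcases Nat.lt_or_ge i τ.length with hi | hi
      · have := hins (τ.getD i (0, 0, 0)) (by
          rw [List.getD_eq_getElem _ _ hi]; exact List.getElem_mem hi)
        exact this.1
      · simp only
        rw [List.getD_eq_default _ _ hi]
    · intro i hi
      have := hins (τ.getD i (0, 0, 0)) (by
          rw [List.getD_eq_getElem _ _ hi]; exact List.getElem_mem hi)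
      exact this.2
    · intro y
      have := hF.le_inv h0 h2 hKphi y
      rw [val_eq_sum] at this
      exact this
    · intro l hl
      have e1 := hv l hl
      rw [val_eq_sum] at e1
      have e2 := hkk l
      have e3 : A θ (x l) (kk l) r0 B ≤ A θ (x l) k r0 B :=
        A_mono_depth h0.le h2 (x l) r0 B (Finset.le_sup (f := kk) (Finset.mem_range.2 hl))
      simp only
      linarith
  · refine ⟨0, fun _ => 0, fun _ => 0, fun _ => 0, fun _ => le_rfl, by simp, ?_, ?_⟩
    · intro y
      simp only [Finset.range_zero, Finset.sum_empty]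
      exact mul_nonneg (inv_nonneg.2 h0.le) (Nr_nonneg h0.le h2 _ _ _)
    · intro l hl
      rw [Nr_of_lt h0.le (x l) (by omega)]
      simp only [Finset.range_zero, Finset.sum_empty]
      linarith

end Pool.Agent.H10.TB
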