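import Pool.Agent.H10.TB.CXY
import Pool.Agent.H10.TB.Sthm
import Pool.Agent.H10.TB.BasisGen

/-!
Steps B1-B3 of the proof of Theorem B in f83316_proof.md (section 3).
-/

namespace Pool.Agent.H10.TB

open Finset

universe u

variable {𝕜 : Type u} [RCLike 𝕜]

namespace B1Aux

open Filter Topology

/-! ### ultrafilter limits -/

/-- limit along the hyperfilter -/
noncomputable def ul (f : ℕ → ℝ) : ℝ := limUnder (hyperfilter ℕ : Filter ℕ) f

theorem ul_tendsto {f : ℕ → ℝ} {C : ℝ} (h : ∀ M, |f M| ≤ C) :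
    Tendsto f (hyperfilter ℕ : Filter ℕ) (𝓝 (ul f)) := by
  apply tendsto_nhds_limUnder
  obtain ⟨x, _, hx⟩ := (isCompact_Icc (a := -C) (b := C)).ultrafilter_le_nhds'
    ((hyperfilter ℕ).map f) (by
      rw [Ultrafilter.mem_map]
      refine Filter.univ_mem' fun M => ?_
      exact abs_le.1 (h M))
  exact ⟨x, hx⟩

/-! ### coefficients -/

/-- linear combinations -/
noncomputable def Wc (w : ℕ → XF 𝕜) (b : ℕ →₀ 𝕜) : XF 𝕜 := Finsupp.linearCombination 𝕜 w b

theorem Wc_eq (w : ℕ → XF 𝕜) (b : ℕ →₀ 𝕜) {s : Finset ℕ} (h : ∀ k, k ∉ s → b k = 0) :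
    Wc w b = ∑ k ∈ s, b k • w k := by
  unfold Wc
  rw [Finsupp.linearCombination_apply, Finsupp.sum]
  apply Finset.sum_subset
  · intro k hk
    by_contra hks
    exact (Finsupp.mem_support_iff.1 hk) (h k hks)
  · intro k _ hk
    rw [Finsupp.notMem_support_iff.1 hk, zero_smul]

theorem Wc_add (w : ℕ → XF 𝕜) (b b' : ℕ →₀ 𝕜) : Wc w (b + b') = Wc w b + Wc w b' :=
  map_add _ _ _

theorem Wc_smul (w : ℕ → XF 𝕜) (c : 𝕜) (b : ℕ →₀ 𝕜) : Wc w (c • b) = c • Wc w b :=
  map_smul _ _ _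

theorem Wc_sum (w : ℕ → XF 𝕜) {ι : Type*} (s : Finset ι) (b : ι → ℕ →₀ 𝕜) :
    Wc w (∑ i ∈ s, b i) = ∑ i ∈ s, Wc w (b i) :=
  map_sum _ _ _

theorem mu_Wc (w : ℕ → XF 𝕜) (b : ℕ →₀ 𝕜) (t : ℕ) :
    mu (Wc w b) t = ∑ k ∈ b.support, b k • mu (w k) t := by
  rw [Wc_eq w b (s := b.support) (fun k hk => Finsupp.notMem_support_iff.1 hk), mu_sum]
  exact Finset.sum_congr rfl fun k _ => mu_smul _ _ _

theorem block_lt {p q : ℕ → ℕ} (hpq : ∀ k, p k ≤ q k) (hqp : ∀ k, q k < p (k + 1)) {k l : ℕ}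
    (h : k < l) : q k < p l := by
  induction l with
  | zero => omega
  | succ l ih =>
    rcases Nat.lt_succ_iff_lt_or_eq.1 h with h1 | h1
    · exact (ih h1).trans_le ((hpq l).trans (hqp l).le)
    · subst h1; exact hqp k

theorem mu_Wc_window {w : ℕ → XF 𝕜} {p q : ℕ → ℕ} (hpq : ∀ k, p k ≤ q k)
    (hqp : ∀ k, q k < p (k + 1)) (hs : ∀ k t, ¬ (p k ≤ t ∧ t ≤ q k) → mu (w k) t = 0)
    (b : ℕ →₀ 𝕜) {k t : ℕ} (h1 : p k ≤ t) (h2 : t ≤ q k) :
    mu (Wc w b) t = b k • mu (w k) t := by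
  rw [mu_Wc]
  rw [Finset.sum_eq_single k]
  · intro l _ hl
    rw [hs l t, smul_zero]
    rintro ⟨h3, h4⟩
    rcases lt_or_gt_of_ne hl with h | h
    · have := block_lt hpq hqp h; omega
    · have := block_lt hpq hqp h; omega
  · intro hk
    rw [Finsupp.notMem_support_iff.1 hk, zero_smul]

theorem coef_le {w : ℕ → XF 𝕜} (hw : ZBlock w) (b : ℕ →₀ 𝕜) (k : ℕ) : ‖b k‖ ≤ ‖Wc w b‖ := by
  obtain ⟨p, q, hpq, hqp, hs⟩ := hw.supp
  have h1 : ‖b k • w k‖ = Nr (1 / 4) (mu (b k • w k)) (p k) (q k) :=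
    XF.norm_eq _ fun t ht => by rw [mu_smul, hs k t ht, smul_zero]
  have h2 : Nr (1 / 4) (mu (b k • w k)) (p k) (q k) = Nr (1 / 4) (mu (Wc w b)) (p k) (q k) :=
    Nr_congr _ _ fun t h3 h4 => by rw [mu_smul, mu_Wc_window hpq hqp hs b h3 h4]
  rw [norm_smul, hw.norm_eq, mul_one] at h1
  rw [h1, h2]
  exact Nr_mu_le _ _ _

theorem Wc_injective {w : ℕ → XF 𝕜} (hw : ZBlock w) : Function.Injective (Wc w) := by
  intro b b' h
  have h0 : Wc w (b - b') = 0 := by
    rw [sub_eq_add_neg, show -b' = (-1 : 𝕜) • b' by simp, Wc_add, Wc_smul, h]; simp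
  ext k
  have := coef_le hw (b - b') k
  rw [h0, norm_zero] at this
  have h2 : (b - b') k = 0 := norm_le_zero_iff.1 this
  rw [Finsupp.sub_apply] at h2
  exact sub_eq_zero.1 h2

/-! ### the representing vectors -/

section rep

variable (nn : ℕ → ℕ) (s : ℕ → ℕ → ℕ → YF 𝕜)

/-- the representing vector -/
noncomputable def TT (M : ℕ) (b : ℕ →₀ 𝕜) (j : ℕ) : YF 𝕜 := ∑ k ∈ range M, b k • s M j k

theorem TT_add (M : ℕ) (b b' : ℕ →₀ 𝕜) (j : ℕ) : TT s M (b + b') j = TT s M b j + TT s M b' j := by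
  simp [TT, add_smul, sum_add_distrib]

theorem TT_smul (M : ℕ) (c : 𝕜) (b : ℕ →₀ 𝕜) (j : ℕ) : TT s M (c • b) j = c • TT s M b j := by
  simp [TT, mul_smul, smul_sum]

theorem TT_sum {ι : Type*} (t : Finset ι) (M : ℕ) (b : ι → ℕ →₀ 𝕜) (j : ℕ) :
    TT s M (∑ i ∈ t, b i) j = ∑ i ∈ t, TT s M (b i) j := by
  classical
  induction t using Finset.induction_on with
  | empty => simp [TT]
  | insert a t ha ih => rw [sum_insert ha, sum_insert ha, TT_add, ih]

/-- the limit seminorms -/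
noncomputable def NS (S : Set ℕ) (b : ℕ →₀ 𝕜) : ℝ :=
  ul fun M => ∑ j ∈ range (nn M), ‖(TT s M b j).restrict S‖

variable {nn s} {w : ℕ → XF 𝕜} {K : ℝ}

/-- the representations -/
def IsRep (nn : ℕ → ℕ) (s : ℕ → ℕ → ℕ → YF 𝕜) (w : ℕ → XF 𝕜) (K : ℝ) : Prop :=
  ∀ M (b : ℕ → 𝕜),
    ‖∑ k ∈ range M, b k • w k‖ ≤ ∑ j ∈ range (nn M), ‖∑ k ∈ range M, b k • s M j k‖ ∧
    ∑ j ∈ range (nn M), ‖∑ k ∈ range M, b k • s M j k‖ ≤ K * ‖∑ k ∈ range M, b k • w k‖

theorem K_nonneg (hw : ZBlock w) (hr : IsRep nn s w K) : 0 ≤ K := by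
  have h := hr 1 (fun _ => 1)
  simp only [range_one, sum_singleton, one_smul, hw.norm_eq, mul_one] at h
  linarith [h.1, h.2]

theorem sum_TT_le (hr : IsRep nn s w K) (M : ℕ) (b : ℕ →₀ 𝕜) :
    ∑ j ∈ range (nn M), ‖TT s M b j‖ ≤ K * ‖∑ k ∈ range M, b k • w k‖ := (hr M b).2

theorem le_sum_TT (hr : IsRep nn s w K) (M : ℕ) (b : ℕ →₀ 𝕜) :
    ‖∑ k ∈ range M, b k • w k‖ ≤ ∑ j ∈ range (nn M), ‖TT s M b j‖ := (hr M b).1

theorem bound_TT (hw : ZBlock w) (hr : IsRep nn s w K) (S : Set ℕ) (M : ℕ) (b : ℕ →₀ 𝕜) :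
    |∑ j ∈ range (nn M), ‖(TT s M b j).restrict S‖| ≤ K * ∑ k ∈ b.support, ‖b k‖ := by
  rw [abs_of_nonneg (sum_nonneg fun _ _ => norm_nonneg _)]
  calc ∑ j ∈ range (nn M), ‖(TT s M b j).restrict S‖
      ≤ ∑ j ∈ range (nn M), ‖TT s M b j‖ := sum_le_sum fun j _ => YF.norm_restrict_le _ _
    _ ≤ K * ‖∑ k ∈ range M, b k • w k‖ := sum_TT_le hr M b
    _ ≤ K * ∑ k ∈ range M, ‖b k‖ := by
        apply mul_le_mul_of_nonneg_left _ (K_nonneg hw hr)
        refine (norm_sum_le _ _).trans (sum_le_sum fun k _ => ?_)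
        rw [norm_smul, hw.norm_eq, mul_one]
    _ ≤ K * ∑ k ∈ b.support, ‖b k‖ := by
        apply mul_le_mul_of_nonneg_left _ (K_nonneg hw hr)
        rw [← Finset.sum_filter_add_sum_filter_not (range M) (fun k => k ∈ b.support)]
        rw [Finset.sum_eq_zero (s := filter (fun k => k ∉ b.support) (range M)), add_zero]
        · exact Finset.sum_le_sum_of_subset_of_nonneg (fun k hk => (mem_filter.1 hk).2)
            fun _ _ _ => norm_nonneg _
        · intro k hk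
          rw [Finsupp.notMem_support_iff.1 (mem_filter.1 hk).2, norm_zero]

theorem NS_tendsto (hw : ZBlock w) (hr : IsRep nn s w K) (S : Set ℕ) (b : ℕ →₀ 𝕜) :
    Tendsto (fun M => ∑ j ∈ range (nn M), ‖(TT s M b j).restrict S‖)
      (hyperfilter ℕ : Filter ℕ) (𝓝 (NS nn s S b)) :=
  ul_tendsto fun M => bound_TT hw hr S M b

theorem NS_nonneg (hw : ZBlock w) (hr : IsRep nn s w K) (S : Set ℕ) (b : ℕ →₀ 𝕜) :
    0 ≤ NS nn s S b :=
  ge_of_tendsto' (NS_tendsto hw hr S b) fun _ => sum_nonneg fun _ _ => norm_nonneg _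

theorem NS_mono (hw : ZBlock w) (hr : IsRep nn s w K) {S S' : Set ℕ} (h : S ⊆ S')
    (b : ℕ →₀ 𝕜) : NS nn s S b ≤ NS nn s S' b := by
  refine le_of_tendsto_of_tendsto' (NS_tendsto hw hr S b) (NS_tendsto hw hr S' b) fun M => ?_
  refine sum_le_sum fun j _ => YF.norm_mono fun i => ?_
  classical
  rw [YF.restrict_apply, YF.restrict_apply]
  by_cases h1 : i ∈ S
  · rw [if_pos h1, if_pos (h h1)]
  · rw [if_neg h1, norm_zero]; exact norm_nonneg _

theorem NS_smul (hw : ZBlock w) (hr : IsRep nn s w K) (S : Set ℕ) (c : 𝕜) (b : ℕ →₀ 𝕜) :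
    NS nn s S (c • b) = ‖c‖ * NS nn s S b := by
  refine tendsto_nhds_unique (NS_tendsto hw hr S (c • b)) ?_
  have := (NS_tendsto hw hr S b).const_mul ‖c‖
  refine this.congr fun M => ?_
  rw [mul_sum]
  refine sum_congr rfl fun j _ => ?_
  rw [TT_smul, YF.restrict_smul, norm_smul]

theorem NS_add_le (hw : ZBlock w) (hr : IsRep nn s w K) (S : Set ℕ) (b b' : ℕ →₀ 𝕜) :
    NS nn s S (b + b') ≤ NS nn s S b + NS nn s S b' := by
  refine le_of_tendsto_of_tendsto' (NS_tendsto hw hr S (b + b'))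
    ((NS_tendsto hw hr S b).add (NS_tendsto hw hr S b')) fun M => ?_
  rw [← sum_add_distrib]
  refine sum_le_sum fun j _ => ?_
  rw [TT_add, YF.restrict_add]
  exact norm_add_le _ _

theorem NS_zero (hw : ZBlock w) (hr : IsRep nn s w K) (S : Set ℕ) : NS nn s S 0 = 0 := by
  have := NS_smul hw hr S (0 : 𝕜) 0
  rw [zero_smul, norm_zero, zero_mul] at this
  exact this

theorem NS_sum_le (hw : ZBlock w) (hr : IsRep nn s w K) (S : Set ℕ) {ι : Type*} (t : Finset ι)
    (b : ι → ℕ →₀ 𝕜) : NS nn s S (∑ i ∈ t, b i) ≤ ∑ i ∈ t, NS nn s S (b i) := by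
  classical
  induction t using Finset.induction_on with
  | empty => rw [sum_empty, sum_empty, NS_zero hw hr]
  | insert a t ha ih =>
    rw [sum_insert ha, sum_insert ha]
    exact (NS_add_le hw hr S _ _).trans (add_le_add le_rfl ih)

theorem restrict_univ (y : YF 𝕜) : y.restrict Set.univ = y := by
  classical
  exact YF.ext fun i => by rw [YF.restrict_apply, if_pos (Set.mem_univ _)]

theorem eventually_Wc (w : ℕ → XF 𝕜) (b : ℕ →₀ 𝕜) :
    ∀ᶠ M in (hyperfilter ℕ : Filter ℕ), ∑ k ∈ range M, b k • w k = Wc w b := by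
  have h : ∀ᶠ M in (atTop : Filter ℕ), ∑ k ∈ range M, b k • w k = Wc w b := by
    filter_upwards [eventually_gt_atTop (b.support.sup id)] with M hM
    rw [Wc_eq w b]
    intro k hk
    rw [mem_range, not_lt] at hk
    by_contra hne
    have := Finset.le_sup (f := id) (Finsupp.mem_support_iff.2 hne)
    simp only [id] at this
    omega
  exact Nat.hyperfilter_le_atTop h

theorem NS_le (hw : ZBlock w) (hr : IsRep nn s w K) (S : Set ℕ) (b : ℕ →₀ 𝕜) :
    NS nn s S b ≤ K * ‖Wc w b‖ := by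
  refine le_of_tendsto (NS_tendsto hw hr S b) ?_
  filter_upwards [eventually_Wc w b] with M hM
  rw [← hM]
  exact (sum_le_sum fun j _ => YF.norm_restrict_le _ _).trans (sum_TT_le hr M b)

theorem le_NS (hw : ZBlock w) (hr : IsRep nn s w K) (b : ℕ →₀ 𝕜) :
    ‖Wc w b‖ ≤ NS nn s Set.univ b := by
  refine ge_of_tendsto (NS_tendsto hw hr Set.univ b) ?_
  filter_upwards [eventually_Wc w b] with M hM
  rw [← hM]
  simp only [restrict_univ]
  exact le_sum_TT hr M b

end rep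

/-! ### step B1 -/

/-- representations indexed by a finite type -/
theorem rep_of_fintype {V : Type*} [NormedAddCommGroup V] [NormedSpace 𝕜 V]
    {E : Type*} [NormedAddCommGroup E] [NormedSpace 𝕜 E] {K : ℝ} {u : ℕ → E} {M : ℕ}
    {ι : Type*} [Fintype ι] (s : ι → ℕ → V)
    (h : ∀ b : ℕ → 𝕜, ‖∑ k ∈ range M, b k • u k‖ ≤ ∑ i, ‖∑ k ∈ range M, b k • s i k‖ ∧
      ∑ i, ‖∑ k ∈ range M, b k • s i k‖ ≤ K * ‖∑ k ∈ range M, b k • u k‖) :
    Rep 𝕜 V K u M := by
  let e := Fintype.equivFin ι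
  refine ⟨Fintype.card ι, fun i => if h : i < Fintype.card ι then s (e.symm ⟨i, h⟩) else 0,
    fun b => ?_⟩
  have key : ∑ i ∈ range (Fintype.card ι), ‖∑ k ∈ range M,
      b k • (if h : i < Fintype.card ι then s (e.symm ⟨i, h⟩) else 0) k‖ =
      ∑ i, ‖∑ k ∈ range M, b k • s i k‖ := by
    rw [Finset.sum_range]
    rw [← Equiv.sum_comp e.symm]
    refine Finset.sum_congr rfl fun i _ => ?_
    simp only [i.2, dif_pos, Fin.eta]
  rw [key]
  exact h b

theorem ZBlock.shift {w : ℕ → XF 𝕜} (hw : ZBlock w) (m : ℕ) : ZBlock (fun k => w (m + k)) := by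
  obtain ⟨p, q, hpq, hqp, hs⟩ := hw.supp
  exact ⟨fun k => hw.norm_eq _, fun k => hw.tot _,
    ⟨fun k => p (m + k), fun k => q (m + k), fun k => hpq _, fun k => hqp _, fun k t => hs _ t⟩⟩

theorem norm_restrict_Iio_le (y : YF 𝕜) (n : ℕ) :
    ‖y.restrict (Set.Iio n)‖ ≤ ∑ i ∈ range n, 2 * ‖y i‖ := by
  classical
  refine (YF.norm_le_sum (y.restrict (Set.Iio n)) n fun i hi => ?_).trans ?_
  · rw [YF.restrict_apply, if_neg]
    simpa using hi
  · rw [mul_sum]
    refine sum_le_sum fun i hi => ?_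
    rw [YF.restrict_apply, if_pos (by simpa using hi)]

theorem norm_add_of_disjoint (y : YF 𝕜) (n : ℕ) :
    ‖y‖ ≤ ‖y.restrict (Set.Iio n)‖ + ‖y.restrict (Set.Ici n)‖ := by
  classical
  have : y = y.restrict (Set.Iio n) + y.restrict (Set.Ici n) := by
    refine YF.ext fun i => ?_
    rw [YF.add_apply, YF.restrict_apply, YF.restrict_apply]
    by_cases h : i < n
    · rw [if_pos (by simpa using h), if_neg (by simpa using h), add_zero]
    · rw [if_neg (by simpa using h), if_pos (by simpa using h), zero_add]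
  conv_lhs => rw [this]
  exact norm_add_le _ _

theorem restrict_Ici_eq_Nr (y : YF 𝕜) {n B : ℕ} (hB : ∀ i, B < i → y i = 0) :
    ‖y.restrict (Set.Ici n)‖ = Nr (1 / 2) (dg y) n B := by
  classical
  rw [Nr_dg]
  congr 1
  refine YF.ext fun i => ?_
  rw [YF.restrict_apply, YF.restrict_apply]
  by_cases h : i ∈ Set.Ici n
  · rw [if_pos h]
    by_cases h2 : i ≤ B
    · rw [if_pos ⟨h, h2⟩]
    · rw [if_neg (fun h3 => h2 h3.2), hB i (not_le.1 h2)]
  · rw [if_neg h, if_neg (fun h3 => h h3.1)]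

theorem S_dg_add (y z : YF 𝕜) (a b : ℕ) : S (dg (y + z)) a b = S (dg y) a b + S (dg z) a b := by
  rw [← S_add]
  congr 1
  funext t
  simp [dg, YF.add_apply, add_smul]

theorem S_dg_smul (c : 𝕜) (y : YF 𝕜) (a b : ℕ) : S (dg (c • y)) a b = c • S (dg y) a b := by
  rw [← S_smul]
  congr 1
  funext t
  simp [dg, YF.smul_apply, mul_smul]

theorem S_dg_zero (a b : ℕ) : S (dg (0 : YF 𝕜)) a b = 0 := by
  have := S_dg_smul (0 : 𝕜) (0 : YF 𝕜) a b
  rwa [zero_smul, zero_smul] at this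

theorem S_dg_sum {ι : Type*} (t : Finset ι) (y : ι → YF 𝕜) (a b : ℕ) :
    S (dg (∑ i ∈ t, y i)) a b = ∑ i ∈ t, S (dg (y i)) a b := by
  classical
  induction t using Finset.induction_on with
  | empty => simp [S_dg_zero]
  | insert a t ha ih => rw [sum_insert ha, sum_insert ha, S_dg_add, ih]

/-- The main finite dimensional estimate: at one good `M` the vectors
`w m, ..., w (m + M₀ - 1)` are representable in `ℓ₁(Hs)`. -/
theorem rep_of_good {nn : ℕ → ℕ} {s : ℕ → ℕ → ℕ → YF 𝕜} {w : ℕ → XF 𝕜} {K : ℝ}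
    (hw : ZBlock w) (hr : IsRep nn s w K) (m n : ℕ) {δ : ℝ} (hδ : 0 < δ)
    (hcon : ∀ (b : ℕ →₀ 𝕜), (∀ k < m, b k = 0) → ‖Wc w b‖ = 1 → ∀ n',
      δ ≤ NS nn s (Set.Iio n) b + NS nn s (Set.Ici n') b) (M₀ : ℕ) :
    Rep 𝕜 (Hs 𝕜) (4 / δ * ((2 * n + 2) * K)) (fun k => w (m + k)) M₀ := by
  classical
  have hK := K_nonneg hw hr
  set D : ℝ := (2 * n + 2) * K with hD
  have hD0 : 0 ≤ D := by positivity
  -- the net
  set η : ℝ := min (1 / 4) (δ / (4 * (D + 1))) with hη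
  have hη0 : 0 < η := lt_min (by norm_num) (by positivity)
  obtain ⟨L, c, hc1, hc2⟩ := exists_net (𝕜 := 𝕜) (fun k => w (m + k)) M₀ η hη0
  obtain ⟨r0, hr0⟩ := tail_structure (θ := 1 / 2) (by norm_num) le_rfl (Hs 𝕜) L
  -- finitely supported coefficient vectors
  let cf : (ℕ → 𝕜) → (ℕ →₀ 𝕜) := fun b => ∑ k ∈ range M₀, Finsupp.single (m + k) (b k)
  have hcf_lt : ∀ b, ∀ k < m, cf b k = 0 := by
    intro b k hk
    simp only [cf, Finsupp.finsetSum_apply]
    refine sum_eq_zero fun j _ => ?_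
    rw [Finsupp.single_apply, if_neg (by omega)]
  have hcf_W : ∀ b, Wc w (cf b) = ∑ k ∈ range M₀, b k • w (m + k) := by
    intro b
    simp only [cf]
    rw [Wc_sum]
    refine sum_congr rfl fun k _ => ?_
    unfold Wc
    rw [Finsupp.linearCombination_single]
  -- the values at the net vectors
  have hlow : ∀ b, δ * ‖Wc w (cf b)‖ ≤ NS nn s (Set.Iio n) (cf b) + NS nn s (Set.Ici r0) (cf b) := by
    intro b
    by_cases h0 : ‖Wc w (cf b)‖ = 0
    · rw [h0, mul_zero]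
      exact add_nonneg (NS_nonneg hw hr _ _) (NS_nonneg hw hr _ _)
    · have hpos : 0 < ‖Wc w (cf b)‖ := lt_of_le_of_ne (norm_nonneg _) (Ne.symm h0)
      have h1 := hcon (((‖Wc w (cf b)‖⁻¹ : ℝ) : 𝕜) • cf b) (by
        intro k hk
        rw [Finsupp.smul_apply, hcf_lt b k hk, smul_zero]) (by
        rw [Wc_smul, norm_smul, RCLike.norm_ofReal, abs_of_pos (inv_pos.2 hpos),
          inv_mul_cancel₀ h0]) r0
      rw [NS_smul hw hr, NS_smul hw hr, RCLike.norm_ofReal, abs_of_pos (inv_pos.2 hpos),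
        ← mul_add] at h1
      have h2 := mul_le_mul_of_nonneg_right h1 hpos.le
      calc δ * ‖Wc w (cf b)‖ ≤ _ := h2
        _ = _ := by field_simp
  -- a good `M`
  have hev : ∀ᶠ M in (hyperfilter ℕ : Filter ℕ), (∀ l ∈ range L,
      δ * ‖Wc w (cf (c l))‖ - δ / 8 < (∑ j ∈ range (nn M), ‖(TT s M (cf (c l)) j).restrict (Set.Iio n)‖)
        + ∑ j ∈ range (nn M), ‖(TT s M (cf (c l)) j).restrict (Set.Ici r0)‖) ∧ m + M₀ ≤ M := by
    refine Filter.Eventually.and ?_ (Nat.hyperfilter_le_atTop (eventually_ge_atTop _))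
    rw [Filter.eventually_all_finset]
    intro l _
    have h1 := (NS_tendsto hw hr (Set.Iio n) (cf (c l))).add (NS_tendsto hw hr (Set.Ici r0) (cf (c l)))
    refine h1.eventually_const_lt ?_
    have := hlow (c l)
    linarith
  obtain ⟨M, hM1, hM2⟩ := hev.exists
  -- the representing vectors at `M`, restricted to our span
  have hTT : ∀ b j, TT s M (cf b) j = ∑ k ∈ range M₀, b k • s M j (m + k) := by
    intro b j
    have h1 : ∀ k ∈ range M₀, TT s M (Finsupp.single (m + k) (b k)) j = b k • s M j (m + k) := by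
      intro k hk
      unfold TT
      rw [Finset.sum_eq_single (m + k)]
      · rw [Finsupp.single_eq_same]
      · intro i _ hi
        rw [Finsupp.single_apply, if_neg (fun h => hi h.symm), zero_smul]
      · intro h
        exfalso; apply h
        rw [mem_range] at hk ⊢
        omega
    simp only [cf]
    rw [TT_sum]
    exact sum_congr rfl h1
  -- bound for the supports
  obtain ⟨B, hB⟩ : ∃ B, ∀ l < L, ∀ j < nn M, ∀ i, B < i → TT s M (cf (c l)) j i = 0 := by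
    choose f hf using fun (l j : ℕ) => (TT s M (cf (c l)) j).exists_bound
    refine ⟨∑ l ∈ range L, ∑ j ∈ range (nn M), f l j, fun l hl j hj i hi => hf l j i ?_⟩
    refine lt_of_le_of_lt ?_ hi
    calc f l j ≤ ∑ j ∈ range (nn M), f l j :=
          Finset.single_le_sum (f := fun j => f l j) (fun _ _ => Nat.zero_le _) (mem_range.2 hj)
      _ ≤ _ := Finset.single_le_sum (f := fun l => ∑ j ∈ range (nn M), f l j)
          (fun _ _ => Nat.zero_le _) (mem_range.2 hl)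
  set ε' : ℝ := δ / (8 * (nn M + 1)) with hε'
  have hε'0 : 0 < ε' := by positivity
  choose nt wt st tt hwt hst hup hlo using fun j : ℕ =>
    hr0 B (fun l => dg (TT s M (cf (c l)) j)) ε' hε'0
  -- the seminorm
  let ρ : (ℕ → 𝕜) → ℝ := fun b => ∑ j ∈ range (nn M),
    ((∑ i ∈ range n, 2 * ‖TT s M (cf b) j i‖) +
      ∑ i ∈ range (nt j), wt j i * ‖S (dg (TT s M (cf b) j)) (st j i) (tt j i)‖)
  have hcf_sub : ∀ b b' : ℕ → 𝕜, cf b = cf b' + cf (fun k => b k - b' k) := by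
    intro b b'
    simp only [cf]
    rw [← sum_add_distrib]
    refine sum_congr rfl fun k _ => ?_
    rw [← Finsupp.single_add]
    congr 1
    ring
  have hcf_smul : ∀ (r : ℝ) (b : ℕ → 𝕜), cf (fun k => (r : 𝕜) * b k) = (r : 𝕜) • cf b := by
    intro r b
    simp only [cf]
    rw [smul_sum]
    refine sum_congr rfl fun k _ => ?_
    rw [Finsupp.smul_single, smul_eq_mul]
  have hρsub : ∀ b b', ρ b ≤ ρ b' + ρ (fun k => b k - b' k) := by
    intro b b'
    simp only [ρ]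
    rw [← sum_add_distrib]
    refine sum_le_sum fun j _ => ?_
    have h1 : TT s M (cf b) j = TT s M (cf b') j + TT s M (cf fun k => b k - b' k) j := by
      rw [← TT_add, ← hcf_sub]
    have h2 : ∑ i ∈ range n, 2 * ‖TT s M (cf b) j i‖ ≤ (∑ i ∈ range n, 2 * ‖TT s M (cf b') j i‖) +
        ∑ i ∈ range n, 2 * ‖TT s M (cf fun k => b k - b' k) j i‖ := by
      rw [← sum_add_distrib]
      refine sum_le_sum fun i _ => ?_
      rw [h1, YF.add_apply, ← mul_add]
      exact mul_le_mul_of_nonneg_left (norm_add_le _ _) (by norm_num)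
    have h3 : ∑ i ∈ range (nt j), wt j i * ‖S (dg (TT s M (cf b) j)) (st j i) (tt j i)‖ ≤
        (∑ i ∈ range (nt j), wt j i * ‖S (dg (TT s M (cf b') j)) (st j i) (tt j i)‖) +
        ∑ i ∈ range (nt j), wt j i *
          ‖S (dg (TT s M (cf fun k => b k - b' k) j)) (st j i) (tt j i)‖ := by
      rw [← sum_add_distrib]
      refine sum_le_sum fun i _ => ?_
      rw [h1, S_dg_add, ← mul_add]
      exact mul_le_mul_of_nonneg_left (norm_add_le _ _) (hwt j i)
    linarith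
  have hρsmul : ∀ (r : ℝ) b, ρ (fun k => (r : 𝕜) * b k) = |r| * ρ b := by
    intro r b
    simp only [ρ]
    rw [mul_sum]
    refine sum_congr rfl fun j _ => ?_
    rw [hcf_smul, TT_smul, mul_add, mul_sum, mul_sum]
    congr 1
    · refine sum_congr rfl fun i _ => ?_
      rw [YF.smul_apply, norm_mul, RCLike.norm_ofReal]
      ring
    · refine sum_congr rfl fun i _ => ?_
      rw [S_dg_smul, norm_smul, RCLike.norm_ofReal]
      ring
  have hρle : ∀ b, ρ b ≤ D * ‖∑ k ∈ range M₀, b k • w (m + k)‖ := by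
    intro b
    have h1 : ρ b ≤ ∑ j ∈ range (nn M), (2 * n + 2) * ‖TT s M (cf b) j‖ := by
      simp only [ρ]
      refine sum_le_sum fun j _ => ?_
      have h2 : ∑ i ∈ range n, 2 * ‖TT s M (cf b) j i‖ ≤ 2 * n * ‖TT s M (cf b) j‖ := by
        calc ∑ i ∈ range n, 2 * ‖TT s M (cf b) j i‖ ≤ ∑ i ∈ range n, 2 * ‖TT s M (cf b) j‖ :=
              sum_le_sum fun i _ => mul_le_mul_of_nonneg_left (YF.norm_apply_le _ _) (by norm_num)
          _ = 2 * n * ‖TT s M (cf b) j‖ := by rw [sum_const, card_range, nsmul_eq_mul]; ring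
      have h3 := hup j (dg (TT s M (cf b) j))
      have h4 : Nr (1 / 2) (dg (TT s M (cf b) j)) r0 B ≤ ‖TT s M (cf b) j‖ := by
        rw [Nr_dg]; exact YF.norm_restrict_le _ _
      have h5 : (1 / 2 : ℝ)⁻¹ = 2 := by norm_num
      rw [h5] at h3
      linarith
    rw [← mul_sum] at h1
    have h6 : ∑ j ∈ range (nn M), ‖TT s M (cf b) j‖ ≤ K * ‖∑ k ∈ range M₀, b k • w (m + k)‖ := by
      have h7 := sum_TT_le hr M (cf b)
      have h8 : ∑ k ∈ range M, cf b k • w k = Wc w (cf b) := by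
        rw [Wc_eq w (cf b)]
        intro k hk
        simp only [cf, Finsupp.finsetSum_apply]
        refine sum_eq_zero fun j hj => ?_
        rw [Finsupp.single_apply, if_neg]
        rw [mem_range] at hj hk
        omega
      rwa [h8, hcf_W] at h7
    calc ρ b ≤ (2 * n + 2) * ∑ j ∈ range (nn M), ‖TT s M (cf b) j‖ := h1
      _ ≤ (2 * n + 2) * (K * ‖∑ k ∈ range M₀, b k • w (m + k)‖) :=
          mul_le_mul_of_nonneg_left h6 (by positivity)
      _ = _ := by rw [hD]; ring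
  have hκ : ∀ l < L, 1 - η ≤ ‖∑ k ∈ range M₀, c l k • w (m + k)‖ → δ / 2 ≤ ρ (c l) := by
    intro l hl hnorm
    have h1 := hM1 l (mem_range.2 hl)
    rw [hcf_W] at h1
    have h2 : (∑ j ∈ range (nn M), ‖(TT s M (cf (c l)) j).restrict (Set.Iio n)‖)
        + ∑ j ∈ range (nn M), ‖(TT s M (cf (c l)) j).restrict (Set.Ici r0)‖ ≤
        ρ (c l) + nn M * ε' := by
      rw [← sum_add_distrib]
      have h3 : (nn M : ℝ) * ε' = ∑ j ∈ range (nn M), ε' := by
        rw [sum_const, card_range, nsmul_eq_mul]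
      rw [h3]
      simp only [ρ]
      rw [← sum_add_distrib]
      refine sum_le_sum fun j hj => ?_
      have h4 := norm_restrict_Iio_le (TT s M (cf (c l)) j) n
      have h5 := hlo j l hl
      rw [← restrict_Ici_eq_Nr _ (hB l hl j (mem_range.1 hj))] at h5
      linarith
    have h6 : (nn M : ℝ) * ε' ≤ δ / 8 := by
      rw [hε', mul_div_assoc']
      rw [div_le_div_iff₀ (by positivity) (by norm_num)]
      nlinarith
    have h7 : η ≤ 1 / 4 := min_le_left _ _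
    nlinarith
  have hDη : D * η ≤ δ / 2 / 2 := by
    calc D * η ≤ D * (δ / (4 * (D + 1))) := mul_le_mul_of_nonneg_left (min_le_right _ _) hD0
      _ ≤ δ / 2 / 2 := by
        rw [mul_div_assoc', div_div, div_le_div_iff₀ (by positivity) (by norm_num)]
        nlinarith
  have hmain := lower_of_net (fun k => w (m + k)) M₀ η L c hc2 ρ D (δ / 2) hρsub hρsmul hρle hκ
    hDη hD0
  -- assemble the representation
  refine rep_of_fintype (ι := Σ j : Fin (nn M), (Fin n ⊕ Fin (nt j)))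
    (fun x k => match x with
      | ⟨j, Sum.inl i⟩ => ((4 / δ * 2 : ℝ) : 𝕜) • (s M j (m + k) i • hv 𝕜 0)
      | ⟨j, Sum.inr i⟩ => ((4 / δ * wt j i : ℝ) : 𝕜) • S (dg (s M j (m + k))) (st j i) (tt j i))
    fun b => ?_
  have hval : ∑ x : (Σ j : Fin (nn M), (Fin n ⊕ Fin (nt j))), ‖∑ k ∈ range M₀, b k • (match x with
      | ⟨j, Sum.inl i⟩ => ((4 / δ * 2 : ℝ) : 𝕜) • (s M j (m + k) i • hv 𝕜 0)
      | ⟨j, Sum.inr i⟩ => ((4 / δ * wt j i : ℝ) : 𝕜) • S (dg (s M j (m + k))) (st j i) (tt j i))‖ =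
      4 / δ * ρ b := by
    rw [Fintype.sum_sigma]
    simp only [Fintype.sum_sum_type]
    simp only [ρ]
    rw [mul_sum, Finset.sum_range]
    refine Finset.sum_congr rfl fun j _ => ?_
    rw [mul_add, mul_sum, mul_sum, Finset.sum_range, Finset.sum_range]
    congr 1
    · refine Finset.sum_congr rfl fun i _ => ?_
      have h1 : ∑ k ∈ range M₀, b k • (((4 / δ * 2 : ℝ) : 𝕜) • (s M j (m + k) i • hv 𝕜 0)) =
          ((4 / δ * 2 : ℝ) : 𝕜) • ((TT s M (cf b) j i) • hv 𝕜 0) := by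
        rw [hTT, YF.sum_apply, sum_smul, smul_sum]
        refine sum_congr rfl fun k _ => ?_
        rw [YF.smul_apply, mul_smul, smul_comm]
      rw [h1, norm_smul, norm_smul, norm_hv, RCLike.norm_ofReal, abs_of_pos (by positivity)]
      ring
    · refine Finset.sum_congr rfl fun i _ => ?_
      have h1 : ∑ k ∈ range M₀, b k • (((4 / δ * wt j i : ℝ) : 𝕜) •
          S (dg (s M j (m + k))) (st j i) (tt j i)) =
          ((4 / δ * wt j i : ℝ) : 𝕜) • S (dg (TT s M (cf b) j)) (st j i) (tt j i) := by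
        rw [hTT, S_dg_sum, smul_sum]
        refine sum_congr rfl fun k _ => ?_
        rw [S_dg_smul, smul_comm]
      rw [h1, norm_smul, RCLike.norm_ofReal, abs_of_nonneg (mul_nonneg (by positivity) (hwt j i))]
      ring
  rw [hval]
  constructor
  · have h1 := hmain b
    have h2 := mul_le_mul_of_nonneg_left h1 (show (0 : ℝ) ≤ 4 / δ by positivity)
    calc ‖∑ k ∈ range M₀, b k • w (m + k)‖ = 4 / δ * (δ / 2 / 2 * ‖∑ k ∈ range M₀, b k • w (m + k)‖) := by
          field_simp; ring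
      _ ≤ _ := h2
  · rw [mul_assoc]
    exact mul_le_mul_of_nonneg_left (hρle b) (by positivity)

theorem exists_small {nn : ℕ → ℕ} {s : ℕ → ℕ → ℕ → YF 𝕜} {w : ℕ → XF 𝕜} {K : ℝ}
    (hw : ZBlock w) (hr : IsRep nn s w K) (m n : ℕ) {δ : ℝ} (hδ : 0 < δ) :
    ∃ (b : ℕ →₀ 𝕜) (n' : ℕ), (∀ k < m, b k = 0) ∧ ‖Wc w b‖ = 1 ∧
      NS nn s (Set.Iio n) b + NS nn s (Set.Ici n') b < δ := by
  by_contra hcon
  push Not at hcon
  obtain ⟨M, hM⟩ := thmCX (fun k => w (m + k)) (ZBlock.shift hw m) (4 / δ * ((2 * n + 2) * K))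
  exact hM (rep_of_good hw hr m n hδ (fun b h1 h2 n' => hcon b n' h1 h2) M)


/-! ### step B2 -/

theorem exists_block {nn : ℕ → ℕ} {s : ℕ → ℕ → ℕ → YF 𝕜} {w : ℕ → XF 𝕜} {K : ℝ}
    (hw : ZBlock w) (hr : IsRep nn s w K) (k m n : ℕ) :
    ∃ (b : ℕ →₀ 𝕜) (m' n' : ℕ), m < m' ∧ n < n' ∧ (∀ j, ¬ (m ≤ j ∧ j < m') → b j = 0) ∧
      ‖Wc w b‖ = 1 ∧ NS nn s (Set.Iio (n + k)) b ≤ (1 / 2) ^ k ∧
      NS nn s (Set.Ici n') b ≤ (1 / 2) ^ k := by
  obtain ⟨b, n0, h1, h2, h3⟩ := exists_small hw hr m (n + k) (δ := (1 / 2) ^ k) (by positivity)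
  refine ⟨b, max (m + 1) (b.support.sup id + 1), max (n + 1) n0, by omega, by omega, ?_, h2, ?_, ?_⟩
  · intro j hj
    by_cases hjm : j < m
    · exact h1 j hjm
    · by_contra hne
      have := Finset.le_sup (f := id) (Finsupp.mem_support_iff.2 hne)
      simp only [id] at this
      omega
  · have := NS_nonneg hw hr (Set.Ici n0) b
    linarith
  · have h4 := NS_nonneg hw hr (Set.Iio (n + k)) b
    have h5 := NS_mono hw hr (S := Set.Ici (max (n + 1) n0)) (S' := Set.Ici n0)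
      (fun i hi => by rw [Set.mem_Ici] at hi ⊢; omega) b
    linarith

theorem exists_blocks {nn : ℕ → ℕ} {s : ℕ → ℕ → ℕ → YF 𝕜} {w : ℕ → XF 𝕜} {K : ℝ}
    (hw : ZBlock w) (hr : IsRep nn s w K) :
    ∃ (bb : ℕ → ℕ →₀ 𝕜) (mm N : ℕ → ℕ), StrictMono mm ∧ StrictMono N ∧
      (∀ k j, ¬ (mm k ≤ j ∧ j < mm (k + 1)) → bb k j = 0) ∧
      (∀ k, ‖Wc w (bb k)‖ = 1) ∧ (∀ k, NS nn s (Set.Iio (N k + k)) (bb k) ≤ (1 / 2) ^ k) ∧
      (∀ k, NS nn s (Set.Ici (N (k + 1))) (bb k) ≤ (1 / 2) ^ k) := by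
  choose b m' n' h1 h2 h3 h4 h5 h6 using fun k m n => exists_block hw hr k m n
  let σ : ℕ → ℕ × ℕ := fun k => Nat.rec (0, 0) (fun k st => (m' k st.1 st.2, n' k st.1 st.2)) k
  have hσ : ∀ k, σ (k + 1) = (m' k (σ k).1 (σ k).2, n' k (σ k).1 (σ k).2) := fun k => rfl
  refine ⟨fun k => b k (σ k).1 (σ k).2, fun k => (σ k).1, fun k => (σ k).2,
    strictMono_nat_of_lt_succ fun k => ?_, strictMono_nat_of_lt_succ fun k => ?_,
    fun k j hj => ?_, fun k => h4 _ _ _, fun k => h5 _ _ _, fun k => ?_⟩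
  · rw [hσ]; exact h1 _ _ _
  · rw [hσ]; exact h2 _ _ _
  · simp only [hσ] at hj ⊢; exact h3 _ _ _ j hj
  · simp only [hσ]; exact h6 _ _ _

theorem zblock_of_blocks {w : ℕ → XF 𝕜} (hw : ZBlock w) {bb : ℕ → ℕ →₀ 𝕜} {mm : ℕ → ℕ}
    (hmm : StrictMono mm) (hb : ∀ k j, ¬ (mm k ≤ j ∧ j < mm (k + 1)) → bb k j = 0)
    (hn : ∀ k, ‖Wc w (bb k)‖ = 1) : ZBlock (fun k => Wc w (bb k)) := by
  obtain ⟨p, q, hpq, hqp, hs⟩ := hw.supp
  have hp : Monotone p := monotone_nat_of_le_succ fun k => (hpq k).trans (hqp k).le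
  have hq : Monotone q := monotone_nat_of_le_succ fun k => (hqp k).le.trans (hpq _)
  refine ⟨hn, fun k => ?_, fun k => p (mm k), fun k => q (mm (k + 1) - 1), fun k => ?_,
    fun k => ?_, fun k t ht => ?_⟩
  · rw [Wc_eq w (bb k) (s := (bb k).support) (fun k hk => Finsupp.notMem_support_iff.1 hk), Tot_sum]
    refine Finset.sum_eq_zero fun j _ => ?_
    rw [Tot_smul, hw.tot, smul_zero]
  · have := hmm (Nat.lt_succ_self k)
    exact (hpq _).trans (hq (by simp only [Nat.succ_eq_add_one] at this; omega))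
  · have := hmm (Nat.lt_succ_self k)
    simp only [Nat.succ_eq_add_one] at this
    have h := hqp (mm (k + 1) - 1)
    rwa [Nat.sub_add_cancel (by omega)] at h
  · rw [mu_Wc]
    refine Finset.sum_eq_zero fun j hj => ?_
    have h1 : mm k ≤ j ∧ j < mm (k + 1) := by
      by_contra h
      exact (Finsupp.mem_support_iff.1 hj) (hb k j h)
    rw [hs j t, smul_zero]
    rintro ⟨h2, h3⟩
    exact ht ⟨(hp h1.1).trans h2, h3.trans (hq (by omega))⟩

/-! ### step B3 -/

theorem split3 (y : YF 𝕜) {c d : ℕ} (hcd : c ≤ d) :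
    y = y.restrict (Set.Icc c d) + (y.restrict (Set.Iio c) + y.restrict (Set.Ici (d + 1))) := by
  classical
  refine YF.ext fun i => ?_
  simp only [YF.add_apply, YF.restrict_apply, Set.mem_Icc, Set.mem_Iio, Set.mem_Ici]
  rcases lt_or_ge i c with h | h
  · rw [if_neg (by omega), if_pos h, if_neg (by omega), zero_add, add_zero]
  · rcases le_or_gt i d with h' | h'
    · rw [if_pos ⟨h, h'⟩, if_neg (by omega), if_neg (by omega), add_zero, add_zero]
    · rw [if_neg (by omega), if_neg (by omega), if_pos (by omega), zero_add, zero_add]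

theorem pointwise (y : ℕ → YF 𝕜) {a b n : ℕ} {c d : ℕ → ℕ} (h : Adm a b n c d) :
    ∑ i ∈ range n, ‖y i‖ ≤ 2 * ‖∑ i ∈ range n, y i‖ +
      3 * ∑ i ∈ range n,
        (‖(y i).restrict (Set.Iio (c i))‖ + ‖(y i).restrict (Set.Ici (d i + 1))‖) := by
  have h1 := YF.lower_estimate (fun i => (y i).restrict (Set.Icc (c i) (d i))) h (by
    classical
    intro i _ t ht
    simp only [YF.restrict_apply]
    exact if_neg ht)
  have h2 : ∑ i ∈ range n, ‖y i‖ ≤ ∑ i ∈ range n, ‖(y i).restrict (Set.Icc (c i) (d i))‖ +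
      ∑ i ∈ range n,
        (‖(y i).restrict (Set.Iio (c i))‖ + ‖(y i).restrict (Set.Ici (d i + 1))‖) := by
    rw [← sum_add_distrib]
    refine sum_le_sum fun i hi => ?_
    have h0 : ‖y i‖ = ‖(y i).restrict (Set.Icc (c i) (d i)) +
        ((y i).restrict (Set.Iio (c i)) + (y i).restrict (Set.Ici (d i + 1)))‖ := by
      rw [← split3 (y i) (h.le i (mem_range.1 hi))]
    rw [h0]
    exact (norm_add_le _ _).trans (add_le_add le_rfl (norm_add_le _ _))
  have h3 : ‖∑ i ∈ range n, (y i).restrict (Set.Icc (c i) (d i))‖ ≤ ‖∑ i ∈ range n, y i‖ +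
      ∑ i ∈ range n,
        (‖(y i).restrict (Set.Iio (c i))‖ + ‖(y i).restrict (Set.Ici (d i + 1))‖) := by
    have h4 : ∑ i ∈ range n, (y i).restrict (Set.Icc (c i) (d i)) = ∑ i ∈ range n, y i -
        ∑ i ∈ range n, ((y i).restrict (Set.Iio (c i)) + (y i).restrict (Set.Ici (d i + 1))) := by
      rw [eq_sub_iff_add_eq, ← sum_add_distrib]
      exact sum_congr rfl fun i hi => (split3 (y i) (h.le i (mem_range.1 hi))).symm
    rw [h4]
    exact (norm_sub_le _ _).trans (add_le_add le_rfl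
      ((norm_sum_le _ _).trans (sum_le_sum fun i _ => norm_add_le _ _)))
  linarith

theorem NS_lower {nn : ℕ → ℕ} {s : ℕ → ℕ → ℕ → YF 𝕜} {w : ℕ → XF 𝕜} {K : ℝ}
    (hw : ZBlock w) (hr : IsRep nn s w K) (β : ℕ → ℕ →₀ 𝕜) {a b n : ℕ} {c d : ℕ → ℕ}
    (h : Adm a b n c d) :
    ∑ i ∈ range n, NS nn s Set.univ (β i) ≤ 2 * NS nn s Set.univ (∑ i ∈ range n, β i) +
      3 * ∑ i ∈ range n,
        (NS nn s (Set.Iio (c i)) (β i) + NS nn s (Set.Ici (d i + 1)) (β i)) := by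
  refine le_of_tendsto_of_tendsto'
    (tendsto_finsetSum _ fun i _ => NS_tendsto hw hr Set.univ (β i))
    (((NS_tendsto hw hr Set.univ (∑ i ∈ range n, β i)).const_mul 2).add
      ((tendsto_finsetSum _ fun i _ => (NS_tendsto hw hr (Set.Iio (c i)) (β i)).add
        (NS_tendsto hw hr (Set.Ici (d i + 1)) (β i))).const_mul 3)) fun M => ?_
  simp only [restrict_univ]
  calc ∑ i ∈ range n, ∑ j ∈ range (nn M), ‖TT s M (β i) j‖
      = ∑ j ∈ range (nn M), ∑ i ∈ range n, ‖TT s M (β i) j‖ := sum_comm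
    _ ≤ ∑ j ∈ range (nn M), (2 * ‖∑ i ∈ range n, TT s M (β i) j‖ +
          3 * ∑ i ∈ range n, (‖(TT s M (β i) j).restrict (Set.Iio (c i))‖ +
            ‖(TT s M (β i) j).restrict (Set.Ici (d i + 1))‖)) :=
        sum_le_sum fun j _ => pointwise (fun i => TT s M (β i) j) h
    _ = _ := by
        rw [sum_add_distrib, ← mul_sum, ← mul_sum, sum_comm]
        simp only [TT_sum, sum_add_distrib]

theorem half_geom_le (a b : ℕ) : ∑ k ∈ Ico a b, ((1 : ℝ) / 2) ^ k ≤ 2 * (1 / 2) ^ a := by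
  rcases le_total b a with h | h
  · rw [Ico_eq_empty_of_le h, sum_empty]; positivity
  · have h1 : ∑ k ∈ Ico a b, ((1 : ℝ) / 2) ^ k = 2 * (1 / 2) ^ a - 2 * (1 / 2) ^ b := by
      induction b, h using Nat.le_induction with
      | base => simp
      | succ b hab ih =>
        rw [sum_Ico_succ_top hab, ih, pow_succ]
        ring
    rw [h1]
    have : (0 : ℝ) < (1 / 2) ^ b := by positivity
    linarith

end B1Aux

open B1Aux in
/-- STEPS B1-B3. -/
theorem stepB1 (w : ℕ → XF 𝕜) (hw : ZBlock w) (K : ℝ) (hrep : ∀ M, Rep 𝕜 (YF 𝕜) K w M) :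
    ∃ (w' : ℕ → XF 𝕜) (tn : XF 𝕜 → ℝ), ZBlock w' ∧
      (∀ z ∈ Submodule.span 𝕜 (Set.range w'), ‖z‖ ≤ tn z) ∧
      (∀ z ∈ Submodule.span 𝕜 (Set.range w'), tn z ≤ K * ‖z‖) ∧
      (∀ (c : ℝ) (z : XF 𝕜), 0 ≤ c → tn ((c : 𝕜) • z) = c * tn z) ∧
      (∀ (n : ℕ) (ε : ℝ), 0 < ε → ∃ k0 : ℕ, ∀ l : ℕ → ℕ, Monotone l → k0 ≤ l 0 →
        ∀ z : ℕ → XF 𝕜, (∀ i < n, z i ∈ Submodule.span 𝕜 (w' '' Set.Ico (l i) (l (i + 1)))) →
          1 / 2 * ∑ i ∈ range n, tn (z i) - ε * ∑ i ∈ range n, ‖z i‖ ≤ tn (∑ i ∈ range n, z i)) := by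
  classical
  choose nn s hrs using hrep
  have hr : IsRep nn s w K := hrs
  obtain ⟨bb, mm, N, hmm, hN, hb, hn1, hlo, hhi⟩ := exists_blocks hw hr
  have hw' := zblock_of_blocks hw hmm hb hn1
  let tn : XF 𝕜 → ℝ := fun z => if h : ∃ b, Wc w b = z then NS nn s Set.univ h.choose else 0
  have htn : ∀ b, tn (Wc w b) = NS nn s Set.univ b := by
    intro b
    have h : ∃ b', Wc w b' = Wc w b := ⟨b, rfl⟩
    simp only [tn, dif_pos h]
    rw [Wc_injective hw h.choose_spec]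
  have hspan : ∀ z ∈ Submodule.span 𝕜 (Set.range fun k => Wc w (bb k)), ∃ b, Wc w b = z := by
    intro z hz
    have h1 : Submodule.span 𝕜 (Set.range fun k => Wc w (bb k)) ≤
        LinearMap.range (Finsupp.linearCombination 𝕜 w) := by
      rw [Submodule.span_le]
      rintro _ ⟨k, rfl⟩
      exact ⟨bb k, rfl⟩
    exact h1 hz
  refine ⟨fun k => Wc w (bb k), tn, hw', ?_, ?_, ?_, ?_⟩
  · intro z hz
    obtain ⟨b, rfl⟩ := hspan z hz
    rw [htn]
    exact le_NS hw hr b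
  · intro z hz
    obtain ⟨b, rfl⟩ := hspan z hz
    rw [htn]
    exact NS_le hw hr _ b
  · intro c z hc
    by_cases h : ∃ b, Wc w b = z
    · obtain ⟨b, rfl⟩ := h
      rw [← Wc_smul, htn, htn, NS_smul hw hr, RCLike.norm_ofReal, abs_of_nonneg hc]
    · have h0 : tn z = 0 := by simp only [tn, dif_neg h]
      rw [h0, mul_zero]
      rcases hc.eq_or_lt with rfl | hc
      · have h1 : ((0 : ℝ) : 𝕜) • z = Wc w 0 := by
          rw [RCLike.ofReal_zero, zero_smul]
          unfold Wc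
          rw [map_zero]
        rw [h1, htn, NS_zero hw hr]
      · have h1 : ¬ ∃ b, Wc w b = (c : 𝕜) • z := by
          rintro ⟨b, hb⟩
          apply h
          refine ⟨((c : 𝕜)⁻¹) • b, ?_⟩
          rw [Wc_smul, hb, smul_smul, inv_mul_cancel₀, one_smul]
          exact_mod_cast hc.ne'
        simp only [tn, dif_neg h1]
  · intro n ε hε
    obtain ⟨k1, hk1⟩ := exists_pow_lt_of_lt_one (show (0 : ℝ) < ε / 6 by positivity)
      (show (1 / 2 : ℝ) < 1 by norm_num)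
    refine ⟨max n k1, fun l hl hl0 z hz => ?_⟩
    have hz' : ∀ i, ∃ a : ℕ →₀ 𝕜, i < n → (∀ k, k ∉ Ico (l i) (l (i + 1)) → a k = 0) ∧
        Wc (fun k => Wc w (bb k)) a = z i := by
      intro i
      by_cases hi : i < n
      · obtain ⟨a, ha1, ha2⟩ := (Finsupp.mem_span_image_iff_linearCombination 𝕜).1 (hz i hi)
        refine ⟨a, fun _ => ⟨fun k hk => ?_, ha2⟩⟩
        by_contra hne
        have := ha1 (Finsupp.mem_support_iff.2 hne)
        exact hk (by simpa using this)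
      · exact ⟨0, fun h => absurd h hi⟩
    choose a ha using hz'
    let β : ℕ → ℕ →₀ 𝕜 := fun i => ∑ k ∈ Ico (l i) (l (i + 1)), a i k • bb k
    have hβ : ∀ i < n, Wc w (β i) = z i := by
      intro i hi
      rw [← (ha i hi).2, Wc_eq _ (a i) (ha i hi).1]
      simp only [β]
      rw [Wc_sum]
      exact sum_congr rfl fun k _ => Wc_smul _ _ _
    have hcoef : ∀ i < n, ∀ k, ‖a i k‖ ≤ ‖z i‖ := by
      intro i hi k
      rw [← (ha i hi).2]
      exact coef_le hw' (a i) k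
    have hNge : ∀ k, k ≤ N k := hN.id_le
    have hadm : Adm 0 (N (l n) + n) n (fun i => N (l i) + i) (fun i => N (l (i + 1)) + i) := by
      refine ⟨fun i _ => Nat.zero_le _, fun i _ => ?_, fun i hi => ?_, fun i _ => ?_, ?_⟩
      · exact Nat.add_le_add_right (hN.monotone (hl (Nat.le_succ i))) _
      · exact Nat.add_le_add (hN.monotone (hl hi)) hi.le
      · omega
      · refine le_trans ?_ (le_phi _)
        have := hNge (l 0)
        simp only [add_zero]
        omega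
    have hmain := NS_lower hw hr β hadm
    have hpow : ∀ i, ∑ k ∈ Ico (l i) (l (i + 1)), ((1 : ℝ) / 2) ^ k ≤ 2 * (ε / 6) := by
      intro i
      refine (half_geom_le _ _).trans ?_
      have h1 : ((1 : ℝ) / 2) ^ (l i) ≤ (1 / 2) ^ k1 :=
        pow_le_pow_of_le_one (by norm_num) (by norm_num)
          ((le_max_right n k1).trans (hl0.trans (hl (Nat.zero_le i))))
      linarith
    have hpart : ∀ (i : ℕ), i < n → ∀ (U : Set ℕ), (∀ k ∈ Ico (l i) (l (i + 1)),
        NS nn s U (bb k) ≤ (1 / 2) ^ k) → NS nn s U (β i) ≤ ‖z i‖ * (2 * (ε / 6)) := by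
      intro i hi U hU
      calc NS nn s U (β i) ≤ ∑ k ∈ Ico (l i) (l (i + 1)), NS nn s U (a i k • bb k) :=
            NS_sum_le hw hr U _ _
        _ ≤ ∑ k ∈ Ico (l i) (l (i + 1)), ‖z i‖ * (1 / 2) ^ k := by
            refine sum_le_sum fun k hk => ?_
            rw [NS_smul hw hr]
            exact mul_le_mul (hcoef i hi k) (hU k hk) (NS_nonneg hw hr _ _) (norm_nonneg _)
        _ = ‖z i‖ * ∑ k ∈ Ico (l i) (l (i + 1)), ((1 : ℝ) / 2) ^ k := by rw [mul_sum]
        _ ≤ _ := mul_le_mul_of_nonneg_left (hpow i) (norm_nonneg _)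
    have houter : ∑ i ∈ range n, (NS nn s (Set.Iio (N (l i) + i)) (β i) +
        NS nn s (Set.Ici (N (l (i + 1)) + i + 1)) (β i)) ≤
        ∑ i ∈ range n, ‖z i‖ * (4 * (ε / 6)) := by
      refine sum_le_sum fun i hi => ?_
      rw [mem_range] at hi
      have h1 := hpart i hi (Set.Iio (N (l i) + i)) fun k hk => by
        rw [mem_Ico] at hk
        refine (NS_mono hw hr (fun t ht => ?_) (bb k)).trans (hlo k)
        have h2 := hN.monotone hk.1
        have h3 : n ≤ l i := (le_max_left n k1).trans (hl0.trans (hl (Nat.zero_le i)))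
        rw [Set.mem_Iio] at ht ⊢
        omega
      have h4 := hpart i hi (Set.Ici (N (l (i + 1)) + i + 1)) fun k hk => by
        rw [mem_Ico] at hk
        refine (NS_mono hw hr (fun t ht => ?_) (bb k)).trans (hhi k)
        have h2 := hN.monotone (show k + 1 ≤ l (i + 1) from hk.2)
        rw [Set.mem_Ici] at ht ⊢
        omega
      linarith
    have hsum1 : ∑ i ∈ range n, tn (z i) = ∑ i ∈ range n, NS nn s Set.univ (β i) :=
      sum_congr rfl fun i hi => by rw [← hβ i (mem_range.1 hi), htn]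
    have hsum2 : tn (∑ i ∈ range n, z i) = NS nn s Set.univ (∑ i ∈ range n, β i) := by
      rw [← htn, Wc_sum]
      congr 1
      exact sum_congr rfl fun i hi => (hβ i (mem_range.1 hi)).symm
    rw [hsum1, hsum2]
    rw [← sum_mul] at houter
    nlinarith

end Pool.Agent.H10.TB
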