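import Pool.Agent.H10.TB.XApi

/-!
Step B4 of the proof of Theorem B in f83316_proof.md (section 3).
-/

namespace Pool.Agent.H10.TB

open Finset

universe u

variable {𝕜 : Type u} [RCLike 𝕜]

/-- `s` successive intervals -/
def Fam (s : ℕ) (c d : ℕ → ℕ) : Prop :=
  (∀ i < s, c i ≤ d i) ∧ ∀ i, i + 1 < s → d i < c (i + 1)

/-- the supremum of the sum of the norms over at most `s` successive intervals -/
noncomputable def NS (s : ℕ) (z : XF 𝕜) : ℝ :=
  sSup {r | ∃ n c d, n ≤ s ∧ Fam n c d ∧ r = ∑ i ∈ range n, Nr (1 / 4) (mu z) (c i) (d i)}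

theorem NS_bdd (s : ℕ) (z : XF 𝕜) : BddAbove {r : ℝ | ∃ n c d, n ≤ s ∧ Fam n c d ∧
    r = ∑ i ∈ range n, Nr (1 / 4) (mu z) (c i) (d i)} := by
  refine ⟨s * ‖z‖, ?_⟩
  rintro r ⟨n, c, d, hn, -, rfl⟩
  calc ∑ i ∈ range n, Nr (1 / 4) (mu z) (c i) (d i) ≤ ∑ _i ∈ range n, ‖z‖ :=
        sum_le_sum fun i _ => Nr_mu_le z _ _
    _ = n * ‖z‖ := by simp
    _ ≤ s * ‖z‖ := by
        have : (n : ℝ) ≤ s := by exact_mod_cast hn
        exact mul_le_mul_of_nonneg_right this (norm_nonneg _)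

theorem le_NS {s n : ℕ} {c d : ℕ → ℕ} (z : XF 𝕜) (hn : n ≤ s) (h : Fam n c d) :
    ∑ i ∈ range n, Nr (1 / 4) (mu z) (c i) (d i) ≤ NS s z :=
  le_csSup (NS_bdd s z) ⟨n, c, d, hn, h, rfl⟩

theorem NS_le {s : ℕ} {z : XF 𝕜} {C : ℝ} (h : ∀ n c d, n ≤ s → Fam n c d →
    ∑ i ∈ range n, Nr (1 / 4) (mu z) (c i) (d i) ≤ C) : NS s z ≤ C := by
  refine csSup_le ⟨0, 0, fun _ => 0, fun _ => 0, Nat.zero_le _, ⟨by simp, by simp⟩, by simp⟩ ?_
  rintro r ⟨n, c, d, hn, hf, rfl⟩
  exact h n c d hn hf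

theorem NS_nonneg (s : ℕ) (z : XF 𝕜) : 0 ≤ NS s z := by
  have := le_NS (s := s) (n := 0) (c := fun _ => 0) (d := fun _ => 0) z (Nat.zero_le _)
    ⟨by simp, by simp⟩
  simpa using this

theorem norm_le_NS {s : ℕ} (hs : 1 ≤ s) (z : XF 𝕜) : ‖z‖ ≤ NS s z := by
  obtain ⟨B, hB⟩ := z.exists_mu_bound
  have h1 := z.norm_eq (p := 0) (q := B) fun t ht => hB t (by simpa using ht)
  have := le_NS (s := s) (n := 1) (c := fun _ => 0) (d := fun _ => B) z hs
    ⟨by simp, fun i hi => by omega⟩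
  rw [h1]
  simpa using this

theorem NS_smul_le (s : ℕ) (z : XF 𝕜) {c : ℝ} (hc : 0 ≤ c) :
    NS s ((c : 𝕜) • z) ≤ c * NS s z := by
  refine NS_le fun n a b hn hf => ?_
  have h1 : mu ((c : 𝕜) • z) = fun t => (c : 𝕜) • mu z t := by
    funext t
    exact mu_smul _ _ _
  have h2 : ∀ i, Nr (1 / 4) (mu ((c : 𝕜) • z)) (a i) (b i) = c * Nr (1 / 4) (mu z) (a i) (b i) := by
    intro i
    rw [h1, Nr_smul (by norm_num), RCLike.norm_ofReal, abs_of_nonneg hc]
  simp only [h2]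
  rw [← mul_sum]
  exact mul_le_mul_of_nonneg_left (le_NS z hn hf) hc

/-! ### counting incidences -/

theorem succ_lt {P Q : ℕ → ℕ} (hPQ : ∀ i, P i ≤ Q i) (hlt : ∀ i, Q i < P (i + 1)) {i j : ℕ}
    (hij : i < j) : Q i < P j := by
  induction j with
  | zero => omega
  | succ j ih =>
    rcases Nat.lt_succ_iff_lt_or_eq.1 hij with h | rfl
    · exact ((ih h).trans_le (hPQ j)).trans (hlt j)
    · exact hlt i

theorem Fam.lt_of_lt {s : ℕ} {c d : ℕ → ℕ} (h : Fam s c d) {i j : ℕ} (hij : i < j) (hj : j < s) :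
    d i < c j := by
  induction j with
  | zero => omega
  | succ j ih =>
    rcases Nat.lt_succ_iff_lt_or_eq.1 hij with h' | rfl
    · exact ((ih h' (by omega)).trans_le (h.1 j (by omega))).trans (h.2 j hj)
    · exact h.2 i hj

theorem card_le_one_of {s : Finset ℕ} (h : ∀ i ∈ s, ∀ j ∈ s, ¬ i < j) : s.card ≤ 1 := by
  rw [Finset.card_le_one]
  intro i hi j hj
  rcases lt_trichotomy i j with h' | h' | h'
  · exact absurd h' (h i hi j hj)
  · exact h'
  · exact absurd h' (h j hj i hi)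

theorem incid {P Q : ℕ → ℕ} (hPQ : ∀ i, P i ≤ Q i) (hlt : ∀ i, Q i < P (i + 1)) {n s : ℕ}
    {c d : ℕ → ℕ} (hf : Fam s c d) :
    ∑ l ∈ range s, ((range n).filter (fun i => P i ≤ d l ∧ c l ≤ Q i)).card ≤ s + n := by
  have h1 : ∀ l ∈ range s, ((range n).filter (fun i => P i ≤ d l ∧ c l ≤ Q i)).card ≤
      1 + ((range n).filter (fun i => c l < P i ∧ P i ≤ d l)).card := by
    intro l _
    calc ((range n).filter (fun i => P i ≤ d l ∧ c l ≤ Q i)).card
        ≤ ((range n).filter (fun i => P i ≤ c l ∧ c l ≤ Q i) ∪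
          (range n).filter (fun i => c l < P i ∧ P i ≤ d l)).card := by
          apply card_le_card
          intro i hi
          rw [mem_filter] at hi
          rw [mem_union, mem_filter, mem_filter]
          by_cases h : P i ≤ c l
          · exact Or.inl ⟨hi.1, h, hi.2.2⟩
          · exact Or.inr ⟨hi.1, not_le.1 h, hi.2.1⟩
      _ ≤ ((range n).filter (fun i => P i ≤ c l ∧ c l ≤ Q i)).card +
          ((range n).filter (fun i => c l < P i ∧ P i ≤ d l)).card := card_union_le _ _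
      _ ≤ _ := by
          gcongr
          apply card_le_one_of
          intro i hi j hj hij
          rw [mem_filter] at hi hj
          have := succ_lt hPQ hlt hij
          omega
  have h2 : ∑ l ∈ range s, ((range n).filter (fun i => c l < P i ∧ P i ≤ d l)).card =
      ∑ i ∈ range n, ((range s).filter (fun l => c l < P i ∧ P i ≤ d l)).card := by
    simp only [card_filter]
    exact sum_comm
  have h3 : ∀ i ∈ range n, ((range s).filter (fun l => c l < P i ∧ P i ≤ d l)).card ≤ 1 := by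
    intro i _
    apply card_le_one_of
    intro l hl j hj hlj
    rw [mem_filter, mem_range] at hl hj
    have := hf.lt_of_lt hlj hj.1
    omega
  calc _ ≤ ∑ l ∈ range s, (1 + ((range n).filter (fun i => c l < P i ∧ P i ≤ d l)).card) :=
        sum_le_sum h1
    _ = s + ∑ i ∈ range n, ((range s).filter (fun l => c l < P i ∧ P i ≤ d l)).card := by
        rw [sum_add_distrib, h2]; simp
    _ ≤ s + ∑ _i ∈ range n, 1 := by
        gcongr with i hi
        exact h3 i hi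
    _ = s + n := by simp

/-! ### sums of blocks -/

theorem Nr_mu_sum_le (z : ℕ → XF 𝕜) (n a b : ℕ) :
    Nr (1 / 4) (mu (∑ i ∈ range n, z i)) a b ≤ ∑ i ∈ range n, Nr (1 / 4) (mu (z i)) a b := by
  have h : mu (∑ i ∈ range n, z i) = fun t => ∑ i ∈ range n, mu (z i) t := by
    funext t
    exact mu_sum _ _ _
  rw [h]
  exact Nr_sum (by norm_num) (by norm_num) _ _ _ _

theorem Nr_eq_zero_of_disj {z : XF 𝕜} {P Q : ℕ} (h : ∀ t, ¬ (P ≤ t ∧ t ≤ Q) → mu z t = 0)
    {a b : ℕ} (hab : ¬ (P ≤ b ∧ a ≤ Q)) : Nr (1 / 4) (mu z) a b = 0 :=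
  Nr_eq_zero (by norm_num) (by norm_num) _ fun t h1 h2 => h t (by omega)

theorem NS_sum_le {z : ℕ → XF 𝕜} {P Q : ℕ → ℕ} (hPQ : ∀ i, P i ≤ Q i)
    (hlt : ∀ i, Q i < P (i + 1))
    (hsupp : ∀ i t, ¬ (P i ≤ t ∧ t ≤ Q i) → mu (z i) t = 0) (hn : ∀ i, ‖z i‖ ≤ 1) (s n : ℕ) :
    NS s (∑ i ∈ range n, z i) ≤ s + n := by
  refine NS_le fun m c d hm hf => ?_
  calc ∑ l ∈ range m, Nr (1 / 4) (mu (∑ i ∈ range n, z i)) (c l) (d l)
      ≤ ∑ l ∈ range m, ∑ i ∈ range n, Nr (1 / 4) (mu (z i)) (c l) (d l) :=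
        sum_le_sum fun l _ => Nr_mu_sum_le z n _ _
    _ ≤ ∑ l ∈ range m, ∑ i ∈ range n, (if P i ≤ d l ∧ c l ≤ Q i then (1 : ℝ) else 0) := by
        refine sum_le_sum fun l _ => sum_le_sum fun i _ => ?_
        split_ifs with h
        · exact (Nr_mu_le _ _ _).trans (hn i)
        · exact (Nr_eq_zero_of_disj (hsupp i) h).le
    _ = ((∑ l ∈ range m, ((range n).filter (fun i => P i ≤ d l ∧ c l ≤ Q i)).card : ℕ) : ℝ) := by
        rw [Nat.cast_sum]
        refine sum_congr rfl fun l _ => ?_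
        rw [sum_boole]
    _ ≤ ((m + n : ℕ) : ℝ) := by exact_mod_cast incid hPQ hlt hf
    _ ≤ s + n := by
        push_cast
        have : (m : ℝ) ≤ s := by exact_mod_cast hm
        linarith

/-- the interval sums of a sum of zero mass blocks of norm at most one -/
theorem norm_S_sum_le {z : ℕ → XF 𝕜} {P Q : ℕ → ℕ} (hPQ : ∀ i, P i ≤ Q i)
    (hlt : ∀ i, Q i < P (i + 1))
    (hsupp : ∀ i t, ¬ (P i ≤ t ∧ t ≤ Q i) → mu (z i) t = 0) (hn : ∀ i, ‖z i‖ ≤ 1)
    (htot : ∀ i, Tot (z i) = 0) (n s t : ℕ) :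
    ‖S (mu (∑ i ∈ range n, z i)) s t‖ ≤ 2 := by
  have h : mu (∑ i ∈ range n, z i) = fun t => ∑ i ∈ range n, mu (z i) t := by
    funext t
    exact mu_sum _ _ _
  rw [h, S_sum]
  have key : ∀ i, ‖S (mu (z i)) s t‖ ≤ (if P i < s ∧ s ≤ Q i then (1 : ℝ) else 0) +
      (if P i ≤ t ∧ t < Q i then (1 : ℝ) else 0) := by
    intro i
    by_cases h1 : P i < s ∧ s ≤ Q i
    · rw [if_pos h1]
      have := (norm_S_mu_le (z i) s t).trans (hn i)
      split_ifs <;> linarith
    · rw [if_neg h1]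
      by_cases h2 : P i ≤ t ∧ t < Q i
      · rw [if_pos h2]
        have := (norm_S_mu_le (z i) s t).trans (hn i)
        linarith
      · rw [if_neg h2]
        have : S (mu (z i)) s t = 0 := by
          rw [S_inter _ (hsupp i)]
          by_cases h3 : s ≤ P i ∧ Q i ≤ t
          · rw [max_eq_right h3.1, min_eq_right h3.2, ← Tot_eq_S _ (hsupp i), htot i]
          · apply S_of_lt
            have := hPQ i
            omega
        rw [this]
        simp
  calc ‖∑ i ∈ range n, S (mu (z i)) s t‖ ≤ ∑ i ∈ range n, ‖S (mu (z i)) s t‖ := norm_sum_le _ _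
    _ ≤ ∑ i ∈ range n, ((if P i < s ∧ s ≤ Q i then (1 : ℝ) else 0) +
      (if P i ≤ t ∧ t < Q i then (1 : ℝ) else 0)) := sum_le_sum fun i _ => key i
    _ = ((range n).filter (fun i => P i < s ∧ s ≤ Q i)).card +
        ((range n).filter (fun i => P i ≤ t ∧ t < Q i)).card := by
        rw [sum_add_distrib, sum_boole, sum_boole]
    _ ≤ 1 + 1 := by
        gcongr
        · have : ((range n).filter (fun i => P i < s ∧ s ≤ Q i)).card ≤ 1 := by
            apply card_le_one_of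
            intro i hi j hj hij
            rw [mem_filter] at hi hj
            have := succ_lt hPQ hlt hij
            omega
          exact_mod_cast this
        · have : ((range n).filter (fun i => P i ≤ t ∧ t < Q i)).card ≤ 1 := by
            apply card_le_one_of
            intro i hi j hj hij
            rw [mem_filter] at hi hj
            have := succ_lt hPQ hlt hij
            omega
          exact_mod_cast this
    _ = 2 := by norm_num

/-- the norm on an interval of a sum of rapidly increasing zero mass blocks -/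
theorem Nr_interval_le {z : ℕ → XF 𝕜} {P Q : ℕ → ℕ} (hPQ : ∀ i, P i ≤ Q i)
    (hlt : ∀ i, Q i < P (i + 1))
    (hsupp : ∀ i t, ¬ (P i ≤ t ∧ t ≤ Q i) → mu (z i) t = 0) (hn : ∀ i, ‖z i‖ ≤ 1)
    (htot : ∀ i, Tot (z i) = 0) (hNS : ∀ i, NS (phi (Q i)) (z (i + 1)) ≤ 1) (n a b : ℕ) :
    Nr (1 / 4) (mu (∑ i ∈ range n, z i)) a b ≤
      3 + 1 / 4 * ((range n).filter (fun i => P i ≤ b ∧ a ≤ Q i)).card := by
  classical
  refine Nr_le (by norm_num) (by norm_num) _ fun q c d hadm => ?_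
  have hbase : base (mu (∑ i ∈ range n, z i)) a b ≤ 2 :=
    base_le _ (by norm_num) fun s t _ _ _ => norm_S_sum_le hPQ hlt hsupp hn htot n s t
  have hfam : Fam q c d := ⟨hadm.le, hadm.lt⟩
  have hc0 : ∀ j < q, c 0 ≤ c j := by
    intro j hj
    rcases Nat.eq_zero_or_pos j with rfl | h
    · exact le_rfl
    · exact (hadm.le 0 (by omega)).trans (hfam.lt_of_lt h hj).le
  have key : ∀ i, ∑ j ∈ range q, Nr (1 / 4) (mu (z i)) (c j) (d j) ≤
      (if P i ≤ b ∧ a ≤ Q i then (1 : ℝ) else 0) +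
      4 * (if c 0 ≤ Q i ∧ ∀ j < i, Q j < c 0 then (1 : ℝ) else 0) := by
    intro i
    have hz1 : (0 : ℝ) ≤ if P i ≤ b ∧ a ≤ Q i then (1 : ℝ) else 0 := by split_ifs <;> norm_num
    by_cases h1 : c 0 ≤ Q i
    · by_cases h2 : ∀ j < i, Q j < c 0
      · rw [if_pos (show c 0 ≤ Q i ∧ ∀ j < i, Q j < c 0 from ⟨h1, h2⟩)]
        have h3 := theta_mul_sum_le (θ := 1 / 4) (by norm_num) (by norm_num) (mu (z i)) hadm
        have h4 := (Nr_mu_le (z i) a b).trans (hn i)
        linarith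
      · rw [if_neg (show ¬ (c 0 ≤ Q i ∧ ∀ j < i, Q j < c 0) from fun h => h2 h.2)]
        push Not at h2
        obtain ⟨j, hj, hj2⟩ := h2
        obtain ⟨i', rfl⟩ : ∃ i', i = i' + 1 := ⟨i - 1, by omega⟩
        by_cases h5 : P (i' + 1) ≤ b ∧ a ≤ Q (i' + 1)
        · rw [if_pos h5]
          have h6 : Q j ≤ Q i' := by
            rcases Nat.lt_or_eq_of_le (Nat.le_of_lt_succ hj) with h | rfl
            · exact ((succ_lt hPQ hlt h).le.trans (hPQ _))
            · exact le_rfl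
          have h7 : q ≤ phi (Q i') := hadm.card.trans (phi_mono (hj2.trans h6))
          have := (le_NS (z (i' + 1)) h7 hfam).trans (hNS i')
          linarith
        · rw [if_neg h5]
          have : ∑ j ∈ range q, Nr (1 / 4) (mu (z (i' + 1))) (c j) (d j) = 0 := by
            refine sum_eq_zero fun j hj => ?_
            rw [mem_range] at hj
            refine Nr_eq_zero_of_disj (hsupp _) ?_
            have := hadm.lo j hj
            have := hadm.hi j hj
            omega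
          rw [this]
          norm_num
    · have : ∑ j ∈ range q, Nr (1 / 4) (mu (z i)) (c j) (d j) = 0 := by
        refine sum_eq_zero fun j hj => ?_
        rw [mem_range] at hj
        refine Nr_eq_zero_of_disj (hsupp _) ?_
        have := hc0 j hj
        omega
      rw [this, if_neg (show ¬ (c 0 ≤ Q i ∧ ∀ j < i, Q j < c 0) from fun h => h1 h.1)]
      linarith
  have hsum : ∑ j ∈ range q, Nr (1 / 4) (mu (∑ i ∈ range n, z i)) (c j) (d j) ≤
      ((range n).filter (fun i => P i ≤ b ∧ a ≤ Q i)).card + 4 := by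
    calc _ ≤ ∑ j ∈ range q, ∑ i ∈ range n, Nr (1 / 4) (mu (z i)) (c j) (d j) :=
          sum_le_sum fun j _ => Nr_mu_sum_le z n _ _
      _ = ∑ i ∈ range n, ∑ j ∈ range q, Nr (1 / 4) (mu (z i)) (c j) (d j) := sum_comm
      _ ≤ ∑ i ∈ range n, ((if P i ≤ b ∧ a ≤ Q i then (1 : ℝ) else 0) +
          4 * (if c 0 ≤ Q i ∧ ∀ j < i, Q j < c 0 then (1 : ℝ) else 0)) :=
          sum_le_sum fun i _ => key i
      _ = ((range n).filter (fun i => P i ≤ b ∧ a ≤ Q i)).card +
          4 * ((range n).filter (fun i => c 0 ≤ Q i ∧ ∀ j < i, Q j < c 0)).card := by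
          rw [sum_add_distrib, ← mul_sum, sum_boole, sum_boole]
      _ ≤ _ := by
          have : ((range n).filter (fun i => c 0 ≤ Q i ∧ ∀ j < i, Q j < c 0)).card ≤ 1 := by
            apply card_le_one_of
            intro i hi j hj hij
            rw [mem_filter] at hi hj
            exact absurd (hj.2.2 i hij) (not_lt.2 hi.2.1)
          have h' : (((range n).filter (fun i => c 0 ≤ Q i ∧ ∀ j < i, Q j < c 0)).card : ℝ) ≤ 1 := by
            exact_mod_cast this
          linarith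
  linarith

theorem NS_sum_le' {z : ℕ → XF 𝕜} {P Q : ℕ → ℕ} (hPQ : ∀ i, P i ≤ Q i)
    (hlt : ∀ i, Q i < P (i + 1))
    (hsupp : ∀ i t, ¬ (P i ≤ t ∧ t ≤ Q i) → mu (z i) t = 0) (hn : ∀ i, ‖z i‖ ≤ 1)
    (htot : ∀ i, Tot (z i) = 0) (hNS : ∀ i, NS (phi (Q i)) (z (i + 1)) ≤ 1) (s n : ℕ) :
    NS s (∑ i ∈ range n, z i) ≤ 3 * s + 1 / 4 * (s + n) := by
  refine NS_le fun m c d hm hf => ?_
  have hms : (m : ℝ) ≤ s := by exact_mod_cast hm
  calc ∑ l ∈ range m, Nr (1 / 4) (mu (∑ i ∈ range n, z i)) (c l) (d l)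
      ≤ ∑ l ∈ range m,
        (3 + 1 / 4 * (((range n).filter (fun i => P i ≤ d l ∧ c l ≤ Q i)).card : ℝ)) :=
        sum_le_sum fun l _ => Nr_interval_le hPQ hlt hsupp hn htot hNS n _ _
    _ = 3 * m + 1 / 4 *
        ((∑ l ∈ range m, ((range n).filter (fun i => P i ≤ d l ∧ c l ≤ Q i)).card : ℕ) : ℝ) := by
        rw [sum_add_distrib, ← mul_sum, Nat.cast_sum]
        simp [mul_comm]
    _ ≤ 3 * m + 1 / 4 * ((m + n : ℕ) : ℝ) := by
        have := incid hPQ hlt (n := n) hf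
        have h' : ((∑ l ∈ range m,
          ((range n).filter (fun i => P i ≤ d l ∧ c l ≤ Q i)).card : ℕ) : ℝ) ≤ ((m + n : ℕ) : ℝ) := by
          exact_mod_cast this
        linarith
    _ ≤ _ := by
        push_cast
        linarith

/-! ### spans -/

theorem exists_Ico {w : ℕ → XF 𝕜} {l : ℕ} {z : XF 𝕜}
    (hz : z ∈ Submodule.span 𝕜 (w '' Set.Ici l)) :
    ∃ l', l < l' ∧ z ∈ Submodule.span 𝕜 (w '' Set.Ico l l') := by
  induction hz using Submodule.span_induction with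
  | mem x hx =>
    obtain ⟨k, hk, rfl⟩ := hx
    rw [Set.mem_Ici] at hk
    exact ⟨k + 1, by omega, Submodule.subset_span ⟨k, ⟨hk, by omega⟩, rfl⟩⟩
  | zero => exact ⟨l + 1, by omega, Submodule.zero_mem _⟩
  | add x y _ _ hx hy =>
    obtain ⟨a, ha, hxa⟩ := hx
    obtain ⟨b, hb, hyb⟩ := hy
    refine ⟨max a b, lt_max_of_lt_left ha, Submodule.add_mem _ ?_ ?_⟩
    · exact Submodule.span_mono (Set.image_mono (Set.Ico_subset_Ico_right (le_max_left _ _))) hxa
    · exact Submodule.span_mono (Set.image_mono (Set.Ico_subset_Ico_right (le_max_right _ _))) hyb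
  | smul c x _ hx =>
    obtain ⟨a, ha, hxa⟩ := hx
    exact ⟨a, ha, Submodule.smul_mem _ _ hxa⟩

theorem supp_of_mem {w : ℕ → XF 𝕜} {p q : ℕ → ℕ} (hpq : ∀ k, p k ≤ q k)
    (hlt : ∀ k, q k < p (k + 1))
    (hsupp : ∀ k t, ¬ (p k ≤ t ∧ t ≤ q k) → mu (w k) t = 0) {l l' : ℕ} {z : XF 𝕜}
    (hz : z ∈ Submodule.span 𝕜 (w '' Set.Ico l l')) :
    ∀ t, ¬ (p l ≤ t ∧ t ≤ q (l' - 1)) → mu z t = 0 := by
  have hp : Monotone p := monotone_nat_of_le_succ fun k => ((hpq k).trans_lt (hlt k)).le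
  have hq : Monotone q := monotone_nat_of_le_succ fun k => ((hlt k).trans_le (hpq _)).le
  intro t ht
  induction hz using Submodule.span_induction with
  | mem x hx =>
    obtain ⟨k, hk, rfl⟩ := hx
    rw [Set.mem_Ico] at hk
    refine hsupp k t fun h => ht ⟨(hp hk.1).trans h.1, h.2.trans (hq (by omega))⟩
  | zero => exact mu_zero t
  | add x y _ _ hx hy => rw [mu_add, hx, hy, add_zero]
  | smul c x _ hx => rw [mu_smul, hx, smul_zero]

theorem tot_of_mem {w : ℕ → XF 𝕜} (h : ∀ k, Tot (w k) = 0) {s : Set ℕ} {z : XF 𝕜}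
    (hz : z ∈ Submodule.span 𝕜 (w '' s)) : Tot z = 0 := by
  induction hz using Submodule.span_induction with
  | mem x hx =>
    obtain ⟨k, -, rfl⟩ := hx
    exact h k
  | zero =>
    have := Tot_smul (0 : 𝕜) (0 : XF 𝕜)
    simpa using this
  | add x y _ _ hx hy => rw [Tot_add, hx, hy, add_zero]
  | smul c x _ hx => rw [Tot_smul, hx, smul_zero]

/-- STEP B4. There is no equivalent norm `tn` on the span of a zero mass block sequence `w` which
satisfies the asymptotic lower estimate with constant `1/2`. -/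
theorem stepB4 (w : ℕ → XF 𝕜) (hw : ZBlock w) (tn : XF 𝕜 → ℝ) (K : ℝ)
    (h1 : ∀ z ∈ Submodule.span 𝕜 (Set.range w), ‖z‖ ≤ tn z)
    (h2 : ∀ z ∈ Submodule.span 𝕜 (Set.range w), tn z ≤ K * ‖z‖)
    (h3 : ∀ (c : ℝ) (z : XF 𝕜), 0 ≤ c → tn ((c : 𝕜) • z) = c * tn z)
    (h4 : ∀ (n : ℕ) (ε : ℝ), 0 < ε → ∃ k0 : ℕ, ∀ l : ℕ → ℕ, Monotone l → k0 ≤ l 0 →
      ∀ z : ℕ → XF 𝕜, (∀ i < n, z i ∈ Submodule.span 𝕜 (w '' Set.Ico (l i) (l (i + 1)))) →
        1 / 2 * ∑ i ∈ range n, tn (z i) - ε * ∑ i ∈ range n, ‖z i‖ ≤ tn (∑ i ∈ range n, z i)) :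
    False := by
  obtain ⟨p, q, hpq, hlt, hsupp⟩ := hw.supp
  have hp : StrictMono p := strictMono_nat_of_lt_succ fun k => (hpq k).trans_lt (hlt k)
  have hq : Monotone q := monotone_nat_of_le_succ fun k => ((hlt k).trans_le (hpq _)).le
  have hspan : ∀ s : Set ℕ, Submodule.span 𝕜 (w '' s) ≤ Submodule.span 𝕜 (Set.range w) := fun s =>
    Submodule.span_mono (Set.image_subset_range _ _)
  set Λ : Set ℝ := {lam | ∃ s m : ℕ, ∀ z ∈ Submodule.span 𝕜 (w '' Set.Ici m),
    tn z ≤ lam * NS s z} with hΛ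
  -- every element of `Λ` is at least `1/10`
  have hlow : ∀ lam ∈ Λ, 1 / 10 ≤ lam := by
    rintro lam ⟨s, m, hs⟩
    by_contra hlam
    rw [not_le] at hlam
    set n : ℕ := max s 1 with hn
    set k : ℕ := max m n with hk
    have hn1 : 1 ≤ n := le_max_right _ _
    have hns : s ≤ n := le_max_left _ _
    have hkn : n ≤ k := le_max_right _ _
    have hkm : m ≤ k := le_max_left _ _
    have hlt' : ∀ i, q (k + i) < p (k + (i + 1)) := fun i => hlt (k + i)
    have hadm : Adm 0 (q (k + n)) n (fun i => p (k + i)) (fun i => q (k + i)) := by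
      refine ⟨fun _ _ => Nat.zero_le _, fun i _ => hpq _, fun i hi => hq (by omega),
        fun i _ => hlt' i, ?_⟩
      exact hkn.trans ((hp.id_le k).trans (le_phi _))
    have h5 := XF.lower_estimate (fun i => w (k + i)) hadm fun i _ t ht => hsupp _ t ht
    simp only [hw.norm_eq] at h5
    rw [sum_const, card_range, nsmul_eq_mul, mul_one] at h5
    set z : XF 𝕜 := ∑ i ∈ range n, w (k + i) with hz
    have hzm : z ∈ Submodule.span 𝕜 (w '' Set.Ici m) :=
      Submodule.sum_mem _ fun i _ => Submodule.subset_span ⟨k + i, by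
        rw [Set.mem_Ici]; omega, rfl⟩
    have h6 := h1 z (hspan _ hzm)
    have h7 := hs z hzm
    have h8 : NS s z ≤ s + n := NS_sum_le (z := fun i => w (k + i)) (P := fun i => p (k + i))
      (Q := fun i => q (k + i)) (fun i => hpq _) hlt' (fun i t ht => hsupp _ t ht)
      (fun i => (hw.norm_eq _).le) s n
    have h9 := NS_nonneg s z
    have h10 : (s : ℝ) ≤ n := by exact_mod_cast hns
    have h11 : (1 : ℝ) ≤ n := by exact_mod_cast hn1
    have h12 : lam * NS s z ≤ 1 / 10 * NS s z := mul_le_mul_of_nonneg_right hlam.le h9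
    linarith
  have hne : Λ.Nonempty := ⟨max K 0, 1, 0, fun z hz => (h2 z (hspan _ hz)).trans
    ((mul_le_mul_of_nonneg_right (le_max_left _ _) (norm_nonneg _)).trans
      (mul_le_mul_of_nonneg_left (norm_le_NS le_rfl z) (le_max_right _ _)))⟩
  have hbdd : BddBelow Λ := ⟨1 / 10, fun lam h => hlow lam h⟩
  set L : ℝ := sInf Λ with hL
  have hL1 : 1 / 10 ≤ L := le_csInf hne hlow
  obtain ⟨lam, ⟨s0, m0, hlam⟩, hlamL⟩ := exists_lt_of_csInf_lt hne
    (show sInf Λ < 11 / 10 * L by rw [← hL]; linarith)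
  have hlam0 : 0 ≤ lam := by
    have := hlow lam ⟨s0, m0, hlam⟩
    linarith
  -- almost optimal vectors
  have hex : ∀ l : ℕ, ∃ (z : XF 𝕜) (l' : ℕ), l < l' ∧
      z ∈ Submodule.span 𝕜 (w '' Set.Ico l l') ∧ NS (phi (q (l - 1))) z ≤ 1 ∧
      9 / 10 * L ≤ tn z := by
    intro l
    have h5 : 9 / 10 * L ∉ Λ := notMem_of_lt_csInf (by rw [← hL]; linarith) hbdd
    have h6 : ¬ ∀ z ∈ Submodule.span 𝕜 (w '' Set.Ici l),
        tn z ≤ 9 / 10 * L * NS (phi (q (l - 1))) z := fun h => h5 ⟨_, _, h⟩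
    push Not at h6
    obtain ⟨z, hz, hz2⟩ := h6
    have h7 := NS_nonneg (phi (q (l - 1))) z
    have h8 := norm_le_NS (one_le_phi (q (l - 1))) z
    have h9 : 0 < NS (phi (q (l - 1))) z := by
      rcases h7.lt_or_eq with h | h
      · exact h
      · exfalso
        rw [← h] at h8 hz2
        have h10 : ‖z‖ = 0 := le_antisymm h8 (norm_nonneg _)
        have h11 := h2 z (hspan _ hz)
        rw [h10] at h11
        linarith
    set N := NS (phi (q (l - 1))) z with hN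
    have hmem : ((N⁻¹ : ℝ) : 𝕜) • z ∈ Submodule.span 𝕜 (w '' Set.Ici l) :=
      Submodule.smul_mem _ _ hz
    obtain ⟨l', hl', hmem'⟩ := exists_Ico hmem
    refine ⟨((N⁻¹ : ℝ) : 𝕜) • z, l', hl', hmem', ?_, ?_⟩
    · refine (NS_smul_le _ z (inv_nonneg.2 h9.le)).trans ?_
      rw [← hN, inv_mul_cancel₀ h9.ne']
    · rw [h3 _ _ (inv_nonneg.2 h9.le), inv_mul_eq_div, le_div_iff₀ h9]
      exact hz2.le
  choose Z nx hnx hZmem hZNS hZtn using hex
  set n : ℕ := 50 * s0 + 50 with hn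
  obtain ⟨k0, hk0⟩ := h4 n (1 / 1000) (by norm_num)
  set l : ℕ → ℕ := fun i => nx^[i] (max k0 m0 + 1) with hl
  have hl_succ : ∀ i, l (i + 1) = nx (l i) := fun i => Function.iterate_succ_apply' _ _ _
  have hl_lt : ∀ i, l i < l (i + 1) := fun i => by rw [hl_succ]; exact hnx _
  have hl_mono : StrictMono l := strictMono_nat_of_lt_succ hl_lt
  have hl0 : l 0 = max k0 m0 + 1 := rfl
  have hl1 : ∀ i, max k0 m0 + 1 ≤ l i := fun i => by
    rw [← hl0]; exact hl_mono.monotone (Nat.zero_le i)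
  have hmem : ∀ i, Z (l i) ∈ Submodule.span 𝕜 (w '' Set.Ico (l i) (l (i + 1))) := fun i => by
    rw [hl_succ]; exact hZmem _
  have hnorm : ∀ i, ‖Z (l i)‖ ≤ 1 := fun i => (norm_le_NS (one_le_phi _) _).trans (hZNS _)
  set z : XF 𝕜 := ∑ i ∈ range n, Z (l i) with hz
  have hlower := hk0 l hl_mono.monotone (by rw [hl0]; omega) (fun i => Z (l i))
    fun i _ => hmem i
  have hzmem : z ∈ Submodule.span 𝕜 (w '' Set.Ici m0) :=
    Submodule.sum_mem _ fun i _ => Submodule.span_mono (Set.image_mono fun k hk => by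
      rw [Set.mem_Ico] at hk
      rw [Set.mem_Ici]
      have := hl1 i
      have := le_max_right k0 m0
      omega) (hmem i)
  have hupper := hlam z hzmem
  have hNSz : NS s0 z ≤ 3 * s0 + 1 / 4 * (s0 + n) := by
    refine NS_sum_le' (z := fun i => Z (l i)) (P := fun i => p (l i))
      (Q := fun i => q (l (i + 1) - 1)) (fun i => ?_) (fun i => ?_)
      (fun i => supp_of_mem hpq hlt hsupp (hmem i)) hnorm
      (fun i => tot_of_mem hw.tot (hmem i)) (fun i => hZNS _) s0 n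
    · have := hl_lt i
      exact (hpq _).trans (hq (by omega))
    · have h5 := hl1 (i + 1)
      have h6 := hlt (l (i + 1) - 1)
      rwa [show l (i + 1) - 1 + 1 = l (i + 1) by omega] at h6
  have hs1 : (n : ℝ) * (9 / 10 * L) ≤ ∑ i ∈ range n, tn (Z (l i)) := by
    calc (n : ℝ) * (9 / 10 * L) = ∑ _i ∈ range n, 9 / 10 * L := by simp
      _ ≤ _ := sum_le_sum fun i _ => hZtn _
  have hs2 : ∑ i ∈ range n, ‖Z (l i)‖ ≤ n := by
    calc ∑ i ∈ range n, ‖Z (l i)‖ ≤ ∑ _i ∈ range n, (1 : ℝ) := sum_le_sum fun i _ => hnorm i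
      _ = n := by simp
  have hnR : (n : ℝ) = 50 * s0 + 50 := by rw [hn]; push_cast; ring
  have hs0 : (0 : ℝ) ≤ s0 := Nat.cast_nonneg _
  have hNS0 := NS_nonneg s0 z
  have e1 : tn z ≤ 11 / 10 * L * (3 * s0 + 1 / 4 * (s0 + n)) := by
    calc tn z ≤ lam * NS s0 z := hupper
      _ ≤ lam * (3 * s0 + 1 / 4 * (s0 + n)) := mul_le_mul_of_nonneg_left hNSz hlam0
      _ ≤ _ := mul_le_mul_of_nonneg_right hlamL.le (by positivity)
  have e2 : 1 / 2 * (n * (9 / 10 * L)) - 1 / 1000 * n ≤ tn z := by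
    refine le_trans ?_ hlower
    linarith
  rw [hnR] at e1 e2
  have hL0 : 0 < L := by linarith
  nlinarith [mul_nonneg hL0.le hs0]

end Pool.Agent.H10.TB
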