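import Mathlib

/-!
# Base file for MP_f83316_an (tight Banach space with a non-tight basis)

Interval sums, admissible families and the recursive norms `Nr θ x a b`
(the norm of the restriction of `x : ℕ → V` to the interval `[a, b]`).
-/

namespace Pool.Agent.H10.TB

open Finset

/-- the admissibility function (superexponential growth is all that matters) -/
def phi (n : ℕ) : ℕ := (n + 1).factorial

/-- `Adm a b n c d`: the `n` successive intervals `[c i, d i]`, `i < n`, lie in `[a, b]`
and their number is at most `phi (c 0)`. -/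
structure Adm (a b n : ℕ) (c d : ℕ → ℕ) : Prop where
  lo : ∀ i < n, a ≤ c i
  le : ∀ i < n, c i ≤ d i
  hi : ∀ i < n, d i ≤ b
  lt : ∀ i, i + 1 < n → d i < c (i + 1)
  card : n ≤ phi (c 0)

section norm

variable {V : Type*} [NormedAddCommGroup V]

/-- the sum of `x` over the interval `[a, b]` -/
def S (x : ℕ → V) (a b : ℕ) : V := ∑ t ∈ Icc a b, x t

/-- `sup` of `‖x(E)‖` over all intervals `E ⊆ [a, b]` -/
noncomputable def base (x : ℕ → V) (a b : ℕ) : ℝ :=
  sSup {r | ∃ s t, a ≤ s ∧ t ≤ b ∧ r = ‖S x s t‖}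

/-- the depth `k` approximation of the norm on the interval `[a, b]` -/
noncomputable def A (θ : ℝ) (x : ℕ → V) : ℕ → ℕ → ℕ → ℝ
  | 0, a, b => base x a b
  | k + 1, a, b => base x a b +
      θ * sSup {r | ∃ n c d, Adm a b n c d ∧ r = ∑ i ∈ range n, A θ x k (c i) (d i)}

/-- the norm of the restriction of `x` to the interval `[a, b]` -/
noncomputable def Nr (θ : ℝ) (x : ℕ → V) (a b : ℕ) : ℝ := ⨆ k, A θ x k a b

/-- the global norm of a finitely supported `x : ℕ → V` -/
noncomputable def jn (θ : ℝ) (x : ℕ → V) : ℝ := ⨆ b, Nr θ x 0 b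

end norm

end Pool.Agent.H10.TB
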