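import Mathlib.Analysis.Normed.Module.Bases
import Mathlib.Analysis.RCLike.Lemmas

/-!
Tightness of a subspace in a Schauder basis, and tight bases.
-/

namespace Pool.Agent.H10.TB

/-- The subspace `U` of `X` is tight in the basis `b` of `X`: there are successive nonempty finite
intervals `[lo i, hi i]` of `ℕ` such that for every infinite set `A` of indices the space `U` is not
isomorphic to a subspace of the closed linear span of the `b n`, `n ∉ ⋃_{i ∈ A} [lo i, hi i]`, that is,
there is no bounded operator `T : U → X` which is bounded below and takes its values in this span. -/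
def TightIn {𝕜 : Type*} [RCLike 𝕜] {X : Type*} [NormedAddCommGroup X] [NormedSpace 𝕜 X]
    (U : Submodule 𝕜 X) (b : SchauderBasis 𝕜 X) : Prop :=
  ∃ lo hi : ℕ → ℕ, (∀ i, lo i ≤ hi i) ∧ (∀ i, hi i < lo (i + 1)) ∧
    ∀ A : Set ℕ, A.Infinite → ¬ ∃ T : U →L[𝕜] X, (∃ c : ℝ, 0 < c ∧ ∀ x, c * ‖x‖ ≤ ‖T x‖) ∧
      ∀ x, T x ∈ (Submodule.span 𝕜
        (b '' {n | ∀ i ∈ A, ¬ (lo i ≤ n ∧ n ≤ hi i)})).topologicalClosure

/-- The basis `b` of `X` is tight: every infinite-dimensional closed subspace of `X` is tight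
in `b`. -/
def TightBasis {𝕜 : Type*} [RCLike 𝕜] {X : Type*} [NormedAddCommGroup X] [NormedSpace 𝕜 X]
    (b : SchauderBasis 𝕜 X) : Prop :=
  ∀ U : Submodule 𝕜 X, IsClosed (U : Set X) → ¬ FiniteDimensional 𝕜 U → TightIn U b

end Pool.Agent.H10.TB
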