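import Pool.Agent.H10.TB.XApi

/-!
The two algebraic bases `fF`, `eF` of `XF` : section 1b of f83316_proof.md.
-/

namespace Pool.Agent.H10.TB

open Finset

universe u

variable {𝕜 : Type u} [RCLike 𝕜]

/-! ### auxiliary lemmas -/

theorem XF.sum_apply' {ι : Type*} (s : Finset ι) (f : ι → XF 𝕜) (i : ℕ) :
    (∑ j ∈ s, f j) i = ∑ j ∈ s, f j i :=
  Finsupp.finsetSum_apply s f i

theorem XF.sub_apply' (x y : XF 𝕜) (i : ℕ) : (x - y) i = x i - y i := Finsupp.sub_apply ..

theorem fF_apply' (n m : ℕ) : fF 𝕜 n m = if n = m then 1 else 0 := Finsupp.single_apply ..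

/-- the next index in the same fibre -/
theorem rd_next (n : ℕ) : rd (n + (rd n + 1)) = rd n + 1 := by
  have h1 : n + (rd n + 1) = tri (rd n + 1) + ix n := by
    rw [tri_succ]
    have := tri_rd_add_ix n
    omega
  rw [h1]
  exact rd_tri_add ((ix_le_rd n).trans (Nat.le_succ _))

theorem ix_next (n : ℕ) : ix (n + (rd n + 1)) = ix n := by
  have h1 : n + (rd n + 1) = tri (rd n + 1) + ix n := by
    rw [tri_succ]
    have := tri_rd_add_ix n
    omega
  rw [h1]
  exact ix_tri_add ((ix_le_rd n).trans (Nat.le_succ _))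

theorem eq_of_rd_ix {n m : ℕ} (h1 : rd n = rd m) (h2 : ix n = ix m) : n = m := by
  rw [← tri_rd_add_ix n, ← tri_rd_add_ix m, h1, h2]

/-- the previous index in the same fibre -/
theorem prev_spec {k : ℕ} (h : ix k ≠ rd k) :
    rd (k - rd k) + 1 = rd k ∧ ix (k - rd k) = ix k ∧ k - rd k + rd k = k := by
  have h1 := ix_le_rd k
  have h2 : ix k < rd k := lt_of_le_of_ne h1 h
  obtain ⟨r, hr⟩ : ∃ r, rd k = r + 1 := ⟨rd k - 1, by omega⟩
  have h3 : k = tri r + ix k + (r + 1) := by
    have := tri_rd_add_ix k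
    rw [hr, tri_succ] at this
    omega
  have h4 : k - rd k = tri r + ix k := by rw [hr]; omega
  have h5 : ix k ≤ r := by omega
  rw [h4, rd_tri_add h5, ix_tri_add h5, hr]
  exact ⟨rfl, rfl, by omega⟩

theorem eF_apply' (k n : ℕ) : eF 𝕜 k n = (if k = n then 1 else 0) -
    (if k = n + (rd n + 1) then 1 else 0) := by
  unfold eF
  by_cases h : ix k = rd k
  · rw [if_pos h, fF_apply']
    have h1 : k ≠ n + (rd n + 1) := by
      intro hk
      rw [hk, ix_next, rd_next] at h
      have := ix_le_rd n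
      omega
    rw [if_neg h1, sub_zero]
  · rw [if_neg h, XF.sub_apply', fF_apply', fF_apply']
    congr 1
    obtain ⟨h1, h2, h3⟩ := prev_spec h
    by_cases h4 : k = n + (rd n + 1)
    · rw [if_pos h4, if_pos]
      have h5 : rd k = rd n + 1 := by rw [h4, rd_next]
      omega
    · rw [if_neg h4, if_neg]
      intro h5
      apply h4
      rw [← h5]
      omega

theorem XF.ext_sum_fF (x : XF 𝕜) (M n : ℕ) :
    (∑ k ∈ range M, x k • fF 𝕜 k) n = if n < M then x n else 0 := by
  rw [XF.sum_apply']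
  simp only [XF.smul_apply, fF_apply', mul_ite, mul_one, mul_zero]
  rw [Finset.sum_ite_eq']
  simp only [mem_range]

/-! ### the two bases -/

theorem XF.eq_sum_fF (x : XF 𝕜) : ∃ N, ∀ M, N ≤ M → x = ∑ n ∈ range M, x n • fF 𝕜 n := by
  obtain ⟨B, hB⟩ := x.exists_bound
  refine ⟨B + 1, fun M hM => XF.ext fun i => ?_⟩
  rw [XF.ext_sum_fF]
  split_ifs with h
  · rfl
  · exact hB i (by omega)

theorem norm_partial_fF (x : XF 𝕜) (N : ℕ) : ‖∑ n ∈ range N, x n • fF 𝕜 n‖ ≤ 3 * ‖x‖ := by
  set E := ∑ n ∈ range N, x n • fF 𝕜 n with hE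
  have hEa : ∀ n, E n = if n < N then x n else 0 := fun n => XF.ext_sum_fF x N n
  have hN := tri_rd_add_ix N
  set m := rd N with hm
  set j := ix N with hj
  have hjm : j ≤ m := ix_le_rd N
  have hmu1 : ∀ t, t < m → mu E t = mu x t := by
    intro t ht
    refine YF.ext fun i => ?_
    rw [mu_apply, mu_apply]
    split_ifs with hi
    · rw [hEa, if_pos]
      have := tri_strictMono.monotone (show t + 1 ≤ m by omega)
      rw [tri_succ] at this
      omega
    · rfl
  have hmu2 : mu E m = (mu x m).restrict {i | i < j} := by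
    refine YF.ext fun i => ?_
    rw [mu_apply, YF.restrict_apply, mu_apply]
    simp only [Set.mem_ofPred_eq]
    by_cases hi : i ≤ m
    · rw [if_pos hi, hEa, if_pos hi]
      by_cases hij : i < j
      · rw [if_pos (by omega), if_pos hij]
      · rw [if_neg (by omega), if_neg hij]
    · rw [if_neg hi, if_neg (show ¬ i < j by omega)]
  have hmu3 : ∀ t, m < t → mu E t = 0 := by
    intro t ht
    refine YF.ext fun i => ?_
    rw [mu_apply, YF.zero_apply]
    split_ifs with hi
    · rw [hEa, if_neg]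
      have := tri_strictMono.monotone (show m + 1 ≤ t by omega)
      rw [tri_succ] at this
      omega
    · rfl
  have h0 : (0 : ℝ) ≤ 1 / 4 := by norm_num
  have h2 : (1 / 4 : ℝ) ≤ 1 / 2 := by norm_num
  rw [E.norm_eq (p := 0) (q := m) fun t ht => hmu3 t (by simpa using ht)]
  have hsplit : ∀ t, mu E t = (if t < m then mu x t else 0) + (if t = m then mu E m else 0) := by
    intro t
    rcases lt_trichotomy t m with h | h | h
    · rw [if_pos h, if_neg h.ne, add_zero, hmu1 t h]
    · rw [h, if_neg (lt_irrefl _), if_pos rfl, zero_add]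
    · rw [if_neg h.not_gt, if_neg h.ne', add_zero, hmu3 t h]
  have e1 : Nr (1 / 4) (mu E) 0 m = Nr (1 / 4) (fun t => (if t < m then mu x t else 0) +
      (if t = m then mu E m else 0)) 0 m := Nr_congr _ _ fun t _ _ => hsplit t
  rw [e1]
  refine (Nr_add h0 h2 _ _ 0 m).trans ?_
  have e2 : Nr (1 / 4) (fun t => if t < m then mu x t else 0) 0 m ≤ ‖x‖ := by
    rcases Nat.eq_zero_or_pos m with h | h
    · rw [Nr_eq_zero h0 h2 _ fun t _ _ => by rw [if_neg (by omega)]]
      exact norm_nonneg _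
    · rw [Nr_inter h0 h2 (fun t => if t < m then mu x t else 0) (p := 0) (q := m - 1)
        (fun t ht => if_neg (by omega))]
      refine le_trans (le_of_eq ?_) (Nr_mu_le x (max 0 0) (min m (m - 1)))
      exact Nr_congr _ _ fun t _ ht => if_pos (by omega)
  have e3 : Nr (1 / 4) (fun t => if t = m then mu E m else 0) 0 m ≤ 2 * ‖x‖ := by
    refine (Nr_le_sum h0 h2 _ 0 m).trans ?_
    have : ∑ t ∈ Icc 0 m, ‖(if t = m then mu E m else 0 : YF 𝕜)‖ = ‖mu E m‖ := by
      rw [Finset.sum_eq_single m]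
      · rw [if_pos rfl]
      · intro t _ ht
        rw [if_neg ht, norm_zero]
      · intro h
        exact absurd (mem_Icc.2 ⟨Nat.zero_le _, le_rfl⟩) h
    rw [this, hmu2]
    have := (YF.norm_restrict_le (mu x m) {i | i < j}).trans (norm_mu_le x m)
    linarith
  linarith

theorem ac_add (n : ℕ) (x y : XF 𝕜) : ac n (x + y) = ac n x + ac n y := by
  unfold ac
  refine Finsupp.sum_add_index' (f := x) (g := y) ?_ ?_
  · intro a
    split_ifs <;> rfl
  · intro a b c
    split_ifs
    · rfl
    · rw [add_zero]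

theorem ac_smul (n : ℕ) (c : 𝕜) (x : XF 𝕜) : ac n (c • x) = c * ac n x := by
  unfold ac
  have h := Finsupp.sum_smul_index' (g := x) (b := c)
    (h := fun m (c : 𝕜) => if ix m = ix n ∧ rd n ≤ rd m then c else 0) (fun i => by
      split_ifs <;> rfl)
  refine h.trans ?_
  rw [Finsupp.sum, Finsupp.sum, mul_sum]
  refine sum_congr rfl fun a _ => ?_
  split_ifs
  · rfl
  · rw [mul_zero]

theorem ac_fF' (n m : ℕ) : ac n (fF 𝕜 m) = if ix m = ix n ∧ rd n ≤ rd m then 1 else 0 := by
  unfold ac fF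
  refine Finsupp.sum_single_index ?_
  split_ifs <;> rfl

theorem ac_sub' (n : ℕ) (x y : XF 𝕜) : ac n (x - y) = ac n x - ac n y := by
  have h := ac_add n (x - y) y
  rw [sub_add_cancel] at h
  rw [h, add_sub_cancel_right]

theorem ac_eF (n m : ℕ) : ac n (eF 𝕜 m) = if n = m then 1 else 0 := by
  unfold eF
  by_cases h : ix m = rd m
  · rw [if_pos h, ac_fF']
    by_cases hnm : n = m
    · rw [if_pos hnm, if_pos]
      rw [hnm]
      exact ⟨rfl, le_rfl⟩
    · rw [if_neg hnm, if_neg]
      rintro ⟨h1, h2⟩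
      apply hnm
      have h3 := ix_le_rd n
      exact eq_of_rd_ix (by omega) h1.symm
  · rw [if_neg h, ac_sub', ac_fF', ac_fF']
    obtain ⟨h1, h2, h3⟩ := prev_spec h
    rw [h2]
    by_cases hnm : n = m
    · rw [hnm, if_pos ⟨rfl, le_rfl⟩, if_neg (by omega), if_pos rfl, sub_zero]
    · rw [if_neg hnm]
      by_cases hi : ix m = ix n
      · by_cases hr : rd n ≤ rd m
        · have hr' : rd n ≠ rd m := fun h => hnm (eq_of_rd_ix h hi.symm)
          rw [if_pos ⟨hi, hr⟩, if_pos ⟨hi, by omega⟩, sub_self]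
        · rw [if_neg (fun h => hr h.2), if_neg (fun h => by omega), sub_self]
      · rw [if_neg (fun h => hi h.1), if_neg (fun h => hi h.1), sub_self]

/-- the coordinate functionals in terms of `mu` -/
theorem ac_eq_S (x : XF 𝕜) {B : ℕ} (hB : ∀ t, B < t → mu x t = 0) {r i : ℕ} (hi : i ≤ r) :
    ac (tri r + i) x = (S (mu x) r B) i := by
  classical
  unfold ac S
  rw [YF.sum_apply, rd_tri_add hi, ix_tri_add hi]
  have h1 : ∀ t ∈ Icc r B, mu x t i = x (tri t + i) := by
    intro t ht
    rw [mu_apply, if_pos (hi.trans (mem_Icc.1 ht).1)]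
  rw [sum_congr rfl h1]
  have h2 : ∑ t ∈ Icc r B, x (tri t + i) = ∑ m ∈ (Icc r B).image (fun t => tri t + i), x m := by
    rw [sum_image]
    intro a _ b _ hab
    exact tri_strictMono.injective (Nat.add_right_cancel hab)
  rw [h2]
  have h3 : Finsupp.sum x (fun m c => if ix m = i ∧ r ≤ rd m then c else 0)
      = ∑ m ∈ (Finsupp.support x).filter (fun m => ix m = i ∧ r ≤ rd m), x m := by
    rw [Finset.sum_filter]
    rfl
  rw [h3]
  apply sum_subset
  · intro m hm
    rw [mem_filter] at hm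
    obtain ⟨hm1, hm2, hm3⟩ := hm
    rw [mem_image]
    refine ⟨rd m, ?_, ?_⟩
    · rw [mem_Icc]
      refine ⟨hm3, ?_⟩
      by_contra hlt
      rw [not_le] at hlt
      have h4 : mu x (rd m) (ix m) = x m := by
        rw [mu_apply, if_pos (ix_le_rd m), tri_rd_add_ix]
      rw [hB _ hlt] at h4
      exact (Finsupp.mem_support_iff.1 hm1) h4.symm
    · rw [← hm2, tri_rd_add_ix]
  · intro m hm hm'
    rw [mem_image] at hm
    obtain ⟨t, ht, rfl⟩ := hm
    rw [mem_Icc] at ht
    by_contra hne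
    apply hm'
    rw [mem_filter]
    refine ⟨Finsupp.mem_support_iff.2 hne, ?_, ?_⟩
    · rw [ix_tri_add (hi.trans ht.1)]
    · rw [rd_tri_add (hi.trans ht.1)]
      exact ht.1

theorem ac_sub_next (x : XF 𝕜) (n : ℕ) : ac n x - ac (n + (rd n + 1)) x = x n := by
  obtain ⟨B, hB⟩ := x.exists_mu_bound
  have hi := ix_le_rd n
  have h1 : n = tri (rd n) + ix n := (tri_rd_add_ix n).symm
  have h2 : n + (rd n + 1) = tri (rd n + 1) + ix n := by
    rw [tri_succ]
    omega
  have hB' : ∀ t, max B (rd n) < t → mu x t = 0 := fun t ht =>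
    hB t ((le_max_left _ _).trans_lt ht)
  have h3 : ac n x = (S (mu x) (rd n) (max B (rd n))) (ix n) := by
    conv_lhs => rw [h1]
    exact ac_eq_S x hB' hi
  rw [h3, h2, ac_eq_S x hB' (hi.trans (Nat.le_succ _))]
  rw [S_split (mu x) (m := rd n) (Nat.le_succ _) (le_max_right _ _), YF.add_apply, S_self,
    add_sub_cancel_right, mu_apply, if_pos hi, tri_rd_add_ix]

theorem ac_eq_zero (x : XF 𝕜) {B : ℕ} (hB : ∀ i, B < i → x i = 0) {n : ℕ} (hn : B < n) :
    ac n x = 0 := by
  unfold ac
  rw [Finsupp.sum]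
  refine sum_eq_zero fun m hm => ?_
  split_ifs with h
  · have h1 : n ≤ m := by
      rw [← tri_rd_add_ix n, ← tri_rd_add_ix m, h.1]
      exact Nat.add_le_add_right (tri_strictMono.monotone h.2) _
    exact hB m (hn.trans_le h1)
  · rfl

theorem XF.ext_sum_eF (x : XF 𝕜) (M n : ℕ) :
    (∑ k ∈ range M, ac k x • eF 𝕜 k) n = (if n < M then ac n x else 0) -
      (if n + (rd n + 1) < M then ac (n + (rd n + 1)) x else 0) := by
  rw [XF.sum_apply']
  simp only [XF.smul_apply, eF_apply', mul_sub, mul_ite, mul_one, mul_zero]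
  rw [sum_sub_distrib, Finset.sum_ite_eq', Finset.sum_ite_eq']
  simp only [mem_range]

theorem XF.eq_sum_eF (x : XF 𝕜) : ∃ N, ∀ M, N ≤ M → x = ∑ n ∈ range M, ac n x • eF 𝕜 n := by
  obtain ⟨B, hB⟩ := x.exists_bound
  refine ⟨B + 1, fun M hM => XF.ext fun n => ?_⟩
  rw [XF.ext_sum_eF]
  by_cases h1 : n < M
  · rw [if_pos h1]
    by_cases h2 : n + (rd n + 1) < M
    · rw [if_pos h2, ac_sub_next]
    · rw [if_neg h2]
      have h3 := ac_sub_next x n
      rw [ac_eq_zero x hB (n := n + (rd n + 1)) (by omega)] at h3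
      exact h3.symm
  · rw [if_neg h1, if_neg (by omega), sub_zero]
    exact hB n (by omega)

theorem norm_partial_eF (x : XF 𝕜) (N : ℕ) : ‖∑ n ∈ range N, ac n x • eF 𝕜 n‖ ≤ 7 * ‖x‖ := by
  set E := ∑ n ∈ range N, ac n x • eF 𝕜 n with hE
  have hEa : ∀ n, E n = (if n < N then ac n x else 0) -
      (if n + (rd n + 1) < N then ac (n + (rd n + 1)) x else 0) := fun n => XF.ext_sum_eF x N n
  obtain ⟨B, hB⟩ := x.exists_mu_bound
  have hN := tri_rd_add_ix N
  set m := rd N with hm
  set j := ix N with hj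
  have hjm : j ≤ m := ix_le_rd N
  have hx : 0 ≤ ‖x‖ := norm_nonneg x
  -- values of E
  have hval : ∀ t i, i ≤ t → E (tri t + i) = (if tri t + i < N then ac (tri t + i) x else 0) -
      (if tri (t + 1) + i < N then ac (tri (t + 1) + i) x else 0) := by
    intro t i hi
    rw [hEa, rd_tri_add hi]
    have : tri t + i + (t + 1) = tri (t + 1) + i := by rw [tri_succ]; omega
    rw [this]
  have hnext : ∀ t i, i ≤ t → ac (tri t + i) x - ac (tri (t + 1) + i) x = mu x t i := by
    intro t i hi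
    have h := ac_sub_next x (tri t + i)
    rw [rd_tri_add hi] at h
    have h' : tri t + i + (t + 1) = tri (t + 1) + i := by rw [tri_succ]; omega
    rw [h'] at h
    rw [h, mu_apply, if_pos hi]
  have hmu1 : ∀ t, t + 1 < m → mu E t = mu x t := by
    intro t ht
    refine YF.ext fun i => ?_
    rw [mu_apply]
    by_cases hi : i ≤ t
    · have h1 := tri_strictMono.monotone (show t + 1 + 1 ≤ m by omega)
      rw [tri_succ] at h1
      have h2 := tri_succ t
      rw [if_pos hi, hval t i hi, if_pos (by omega), if_pos (by omega), hnext t i hi]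
    · rw [if_neg hi, mu_apply, if_neg hi]
  have hmu3 : ∀ t, m < t → mu E t = 0 := by
    intro t ht
    refine YF.ext fun i => ?_
    rw [mu_apply, YF.zero_apply]
    by_cases hi : i ≤ t
    · have h1 := tri_strictMono.monotone (show m + 1 ≤ t by omega)
      rw [tri_succ] at h1
      have h2 := tri_succ t
      rw [if_pos hi, hval t i hi, if_neg (by omega), if_neg (by omega), sub_zero]
    · rw [if_neg hi]
  have hmu2 : ‖mu E m‖ ≤ ‖x‖ := by
    refine le_trans (YF.norm_mono fun i => ?_) (norm_S_mu_le x m B)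
    rw [mu_apply]
    by_cases hi : i ≤ m
    · have h2 := tri_succ m
      rw [if_pos hi, hval m i hi, if_neg (show ¬ tri (m + 1) + i < N by omega), sub_zero,
        ← ac_eq_S x hB hi]
      split_ifs
      · exact le_rfl
      · rw [norm_zero]; exact norm_nonneg _
    · rw [if_neg hi, norm_zero]; exact norm_nonneg _
  have hmu4 : ∀ t, t + 1 = m → ‖mu E t‖ ≤ 2 * ‖x‖ := by
    intro t ht
    have hdec : mu E t = (mu x t).restrict {i | i < j} +
        (S (mu x) t B).restrict {i | j ≤ i ∧ i ≤ t} := by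
      refine YF.ext fun i => ?_
      rw [YF.add_apply, mu_apply, YF.restrict_apply, YF.restrict_apply]
      simp only [Set.mem_ofPred_eq]
      by_cases hi : i ≤ t
      · have h2 := tri_succ t
        rw [if_pos hi, hval t i hi]
        rw [ht] at h2
        rw [if_pos (show tri t + i < N by omega)]
        by_cases hij : i < j
        · rw [if_pos hij, if_neg (show ¬ (j ≤ i ∧ i ≤ t) by omega), add_zero]
          rw [if_pos (show tri (t + 1) + i < N by rw [ht]; omega), hnext t i hi]
        · rw [if_neg hij, if_pos (show j ≤ i ∧ i ≤ t by omega), zero_add,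
            if_neg (show ¬ tri (t + 1) + i < N by rw [ht]; omega), sub_zero, ac_eq_S x hB hi]
      · rw [if_neg hi, if_neg (show ¬ (j ≤ i ∧ i ≤ t) by omega), add_zero, mu_apply, if_neg hi,
          ite_self]
    rw [hdec]
    refine (norm_add_le _ _).trans ?_
    have h3 := (YF.norm_restrict_le (mu x t) {i | i < j}).trans (norm_mu_le x t)
    have h4 := (YF.norm_restrict_le (S (mu x) t B) {i | j ≤ i ∧ i ≤ t}).trans
      (norm_S_mu_le x t B)
    linarith
  have h0 : (0 : ℝ) ≤ 1 / 4 := by norm_num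
  have h2 : (1 / 4 : ℝ) ≤ 1 / 2 := by norm_num
  rw [E.norm_eq (p := 0) (q := m) fun t ht => hmu3 t (by simpa using ht)]
  have hsplit : ∀ t, mu E t = (if t + 1 < m then mu x t else 0) +
      ((if t + 1 = m then mu E t else 0) + (if t = m then mu E t else 0)) := by
    intro t
    by_cases h1 : t + 1 < m
    · rw [if_pos h1, if_neg (by omega), if_neg (by omega), add_zero, add_zero, hmu1 t h1]
    · by_cases h3 : t + 1 = m
      · rw [if_neg h1, if_pos h3, if_neg (by omega), add_zero, zero_add]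
      · by_cases h4 : t = m
        · rw [if_neg h1, if_neg h3, if_pos h4, zero_add, zero_add]
        · rw [if_neg h1, if_neg h3, if_neg h4, zero_add, zero_add, hmu3 t (by omega)]
  have e1 : Nr (1 / 4) (mu E) 0 m = Nr (1 / 4) (fun t => (if t + 1 < m then mu x t else 0) +
      ((if t + 1 = m then mu E t else 0) + (if t = m then mu E t else 0))) 0 m :=
    Nr_congr _ _ fun t _ _ => hsplit t
  rw [e1]
  refine (Nr_add h0 h2 _ _ 0 m).trans ?_
  have e2 : Nr (1 / 4) (fun t => if t + 1 < m then mu x t else 0) 0 m ≤ ‖x‖ := by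
    by_cases h : m < 2
    · rw [Nr_eq_zero h0 h2 _ fun t _ _ => by rw [if_neg (by omega)]]
      exact norm_nonneg _
    · rw [Nr_inter h0 h2 (fun t => if t + 1 < m then mu x t else 0) (p := 0) (q := m - 2)
        (fun t ht => if_neg (by omega))]
      refine le_trans (le_of_eq ?_) (Nr_mu_le x (max 0 0) (min m (m - 2)))
      exact Nr_congr _ _ fun t _ ht => if_pos (by omega)
  have e3 : Nr (1 / 4) (fun t => (if t + 1 = m then mu E t else 0) +
      (if t = m then mu E t else 0)) 0 m ≤ 6 * ‖x‖ := by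
    refine (Nr_add h0 h2 _ _ 0 m).trans ?_
    have e4 : Nr (1 / 4) (fun t => if t + 1 = m then mu E t else 0) 0 m ≤ 4 * ‖x‖ := by
      refine (Nr_le_sum h0 h2 _ 0 m).trans ?_
      have : ∑ t ∈ Icc 0 m, ‖(if t + 1 = m then mu E t else 0 : YF 𝕜)‖ ≤ 2 * ‖x‖ := by
        rcases Nat.eq_zero_or_pos m with h | h
        · rw [sum_eq_zero]
          · linarith
          · intro t _
            rw [if_neg (by omega), norm_zero]
        · rw [Finset.sum_eq_single (m - 1)]
          · rw [if_pos (by omega)]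
            exact hmu4 (m - 1) (by omega)
          · intro t _ ht
            rw [if_neg (by omega), norm_zero]
          · intro h'
            exact absurd (mem_Icc.2 ⟨Nat.zero_le _, Nat.sub_le _ _⟩) h'
      linarith
    have e5 : Nr (1 / 4) (fun t => if t = m then mu E t else 0) 0 m ≤ 2 * ‖x‖ := by
      refine (Nr_le_sum h0 h2 _ 0 m).trans ?_
      have : ∑ t ∈ Icc 0 m, ‖(if t = m then mu E t else 0 : YF 𝕜)‖ ≤ ‖x‖ := by
        rw [Finset.sum_eq_single m]
        · rw [if_pos rfl]
          exact hmu2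
        · intro t _ ht
          rw [if_neg ht, norm_zero]
        · intro h
          exact absurd (mem_Icc.2 ⟨Nat.zero_le _, le_rfl⟩) h
      linarith
    linarith
  linarith

theorem mu_eF_of_lt (n t : ℕ) (h : rd n < t) : mu (eF 𝕜 n) t = 0 := by
  refine YF.ext fun i => ?_
  rw [mu_apply, YF.zero_apply]
  by_cases hi : i ≤ t
  · rw [if_pos hi, eF_apply', rd_tri_add hi]
    rw [if_neg, if_neg, sub_zero]
    · intro hn
      have h1 : tri t + i + (t + 1) = tri (t + 1) + i := by rw [tri_succ]; omega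
      rw [h1] at hn
      rw [hn, rd_tri_add (hi.trans (Nat.le_succ _))] at h
      omega
    · intro hn
      rw [hn, rd_tri_add hi] at h
      omega
  · rw [if_neg hi]

theorem mu_eF_of_gt (n t : ℕ) (h : t + 1 < rd n) : mu (eF 𝕜 n) t = 0 := by
  refine YF.ext fun i => ?_
  rw [mu_apply, YF.zero_apply]
  by_cases hi : i ≤ t
  · rw [if_pos hi, eF_apply', rd_tri_add hi]
    rw [if_neg, if_neg, sub_zero]
    · intro hn
      have h1 : tri t + i + (t + 1) = tri (t + 1) + i := by rw [tri_succ]; omega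
      rw [h1] at hn
      rw [hn, rd_tri_add (hi.trans (Nat.le_succ _))] at h
      omega
    · intro hn
      rw [hn, rd_tri_add hi] at h
      omega
  · rw [if_neg hi]

theorem Tot_fF' (n : ℕ) : Tot (fF 𝕜 n) = yv 𝕜 (ix n) := Finsupp.mapDomain_single

theorem Tot_sub' (x y : XF 𝕜) : Tot (x - y) = Tot x - Tot y := by
  have h := Tot_add (x - y) y
  rw [sub_add_cancel] at h
  rw [h, add_sub_cancel_right]

theorem Tot_eF_of_lt (n : ℕ) (h : ix n < rd n) : Tot (eF 𝕜 n) = 0 := by
  unfold eF
  rw [if_neg h.ne, Tot_sub', Tot_fF', Tot_fF', (prev_spec h.ne).2.1, sub_self]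

theorem Tot_eF_of_eq (n : ℕ) (h : ix n = rd n) : Tot (eF 𝕜 n) = yv 𝕜 (rd n) := by
  unfold eF
  rw [if_pos h, Tot_fF', h]

theorem eF_of_eq (n : ℕ) (h : ix n = rd n) : eF 𝕜 n = fF 𝕜 n := by
  unfold eF
  rw [if_pos h]

end Pool.Agent.H10.TB
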