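import Pool.Agent.H10.TB.XApi

/-!
The maps `Jr` : section 1a of f83316_proof.md.
-/

namespace Pool.Agent.H10.TB

open Finset

universe u

variable {𝕜 : Type u} [RCLike 𝕜]

/-! ### the maps `Jr` (section 1a) -/

theorem Jr_add (r : ℕ → ℕ) (x y : YF 𝕜) : Jr r (x + y) = Jr r x + Jr r y :=
  Finsupp.mapDomain_add

theorem Jr_smul (r : ℕ → ℕ) (c : 𝕜) (x : YF 𝕜) : Jr r (c • x) = c • Jr r x :=
  Finsupp.mapDomain_smul c _

theorem Jr_zero (r : ℕ → ℕ) : Jr r (0 : YF 𝕜) = 0 := Finsupp.mapDomain_zero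

theorem Jr_yv (r : ℕ → ℕ) (k : ℕ) : Jr r (yv 𝕜 k) = fF 𝕜 (tri (r k) + k) :=
  Finsupp.mapDomain_single

theorem Tot_Jr {r : ℕ → ℕ} (hk : ∀ k, k ≤ r k) (y : YF 𝕜) : Tot (Jr r y) = y := by
  induction y using YF.induction with
  | h0 => rw [Jr_zero, Tot_zero]
  | hadd y z hy hz => rw [Jr_add, Tot_add, hy, hz]
  | hs n c => rw [Jr_smul, Tot_smul, Jr_yv, Tot_fF, ix_tri_add (hk n)]

theorem norm_le_Jr {r : ℕ → ℕ} (hk : ∀ k, k ≤ r k) (y : YF 𝕜) : ‖y‖ ≤ ‖Jr r y‖ := by
  have := norm_Tot_le (Jr r y)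
  rwa [Tot_Jr hk] at this

theorem mu_Jr {r : ℕ → ℕ} (hk : ∀ k, k ≤ r k) (y : YF 𝕜) (t i : ℕ) :
    mu (Jr r y) t i = if r i = t then y i else 0 := by
  induction y using YF.induction with
  | h0 => rw [Jr_zero, mu_zero]; simp [YF.zero_apply]
  | hadd y z hy hz =>
    rw [Jr_add, mu_add, YF.add_apply, hy, hz, YF.add_apply]
    split_ifs <;> simp
  | hs n c =>
    rw [Jr_smul, mu_smul, YF.smul_apply, Jr_yv, mu_fF, rd_tri_add (hk n), ix_tri_add (hk n),
      YF.smul_apply]
    by_cases h1 : r n = t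
    · rw [if_pos h1, yv_apply]
      by_cases h2 : n = i
      · subst h2
        rw [if_pos h1]
      · rw [if_neg h2, mul_zero]; simp
    · rw [if_neg h1, YF.zero_apply, mul_zero, yv_apply]
      by_cases h2 : n = i
      · subst h2
        rw [if_neg h1]
      · rw [if_neg h2, mul_zero]; simp

theorem S_mu_Jr {r : ℕ → ℕ} (hk : ∀ k, k ≤ r k) (y : YF 𝕜) (a b : ℕ) :
    S (mu (Jr r y)) a b = y.restrict {l | a ≤ r l ∧ r l ≤ b} := by
  apply YF.ext
  intro i
  unfold S
  rw [YF.sum_apply, YF.restrict_apply]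
  simp only [mu_Jr hk]
  rw [Finset.sum_ite_eq]
  simp only [Finset.mem_Icc, Set.mem_ofPred_eq]
  by_cases h : a ≤ r i ∧ r i ≤ b
  · rw [if_pos h, if_pos h]
  · rw [if_neg h, if_neg h]

theorem YF.norm_restrict_mono (y : YF 𝕜) {s t : Set ℕ} (h : s ⊆ t) :
    ‖y.restrict s‖ ≤ ‖y.restrict t‖ := by
  classical
  apply YF.norm_mono
  intro i
  rw [YF.restrict_apply, YF.restrict_apply]
  by_cases h1 : i ∈ s
  · rw [if_pos h1, if_pos (h h1)]
  · rw [if_neg h1, norm_zero]
    exact norm_nonneg _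

theorem YF.restrict_restrict (y : YF 𝕜) {s t : Set ℕ} (h : s ⊆ t) :
    (y.restrict t).restrict s = y.restrict s := by
  classical
  apply YF.ext
  intro i
  rw [YF.restrict_apply, YF.restrict_apply, YF.restrict_apply]
  by_cases h1 : i ∈ s
  · rw [if_pos h1, if_pos (h h1), if_pos h1]
  · rw [if_neg h1, if_neg h1]

theorem YF.restrict_empty (y : YF 𝕜) : y.restrict ∅ = 0 := by
  classical
  apply YF.ext
  intro i
  rw [YF.restrict_apply, if_neg (by simp), YF.zero_apply]

/-- the nonempty preimages form a family of successive intervals -/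
theorem squeeze {r : ℕ → ℕ} (hk : ∀ k, k ≤ r k) (hm : Monotone r) (y : YF 𝕜) (c d : ℕ → ℕ)
    (n : ℕ) (hlt : ∀ i j, i < j → j < n → d i < c j) :
    ∃ m ≤ n, ∃ c' d' : ℕ → ℕ, (∀ j < m, c' j ≤ d' j) ∧
      (∀ j, j + 1 < m → r (d' j) < r (c' (j + 1))) ∧
      (∀ j < m, ∃ i < n, c i ≤ r (c' j) ∧ r (d' j) ≤ d i) ∧
      ∑ i ∈ range n, ‖y.restrict {l | c i ≤ r l ∧ r l ≤ d i}‖ =
        ∑ j ∈ range m, ‖y.restrict (Set.Icc (c' j) (d' j))‖ := by
  induction n with
  | zero => exact ⟨0, le_rfl, fun _ => 0, fun _ => 0, by simp, by simp, by simp, by simp⟩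
  | succ n ih =>
    obtain ⟨m, hmn, c', d', h1, h2, h3, h4⟩ := ih (fun i j hij hj => hlt i j hij (by omega))
    by_cases hP : ∃ l, c n ≤ r l ∧ r l ≤ d n
    · obtain ⟨l, hl⟩ := hP
      set P : Finset ℕ := (Finset.range (d n + 1)).filter (fun l => c n ≤ r l ∧ r l ≤ d n) with hPd
      have hmem : ∀ l, l ∈ P ↔ c n ≤ r l ∧ r l ≤ d n := by
        intro l
        simp only [hPd, Finset.mem_filter, Finset.mem_range]
        constructor
        · exact fun h => h.2
        · intro h
          have := hk l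
          exact ⟨by omega, h⟩
      have hne : P.Nonempty := ⟨l, (hmem l).2 hl⟩
      have hmin := (hmem _).1 (P.min'_mem hne)
      have hmax := (hmem _).1 (P.max'_mem hne)
      have hle : P.min' hne ≤ P.max' hne := Finset.min'_le _ _ (Finset.max'_mem _ _)
      have hset : {l | c n ≤ r l ∧ r l ≤ d n} = Set.Icc (P.min' hne) (P.max' hne) := by
        ext l
        simp only [Set.mem_ofPred_eq, Set.mem_Icc]
        constructor
        · intro h
          exact ⟨Finset.min'_le _ _ ((hmem l).2 h), Finset.le_max' _ _ ((hmem l).2 h)⟩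
        · intro h
          exact ⟨hmin.1.trans (hm h.1), (hm h.2).trans hmax.2⟩
      refine ⟨m + 1, by omega, fun j => if j < m then c' j else P.min' hne,
        fun j => if j < m then d' j else P.max' hne, ?_, ?_, ?_, ?_⟩
      · intro j hj
        by_cases hjm : j < m
        · simp only [if_pos hjm]; exact h1 j hjm
        · simp only [if_neg hjm]; exact hle
      · intro j hj
        have hjm : j < m := by omega
        by_cases hjm' : j + 1 < m
        · simp only [if_pos hjm, if_pos hjm']; exact h2 j hjm'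
        · simp only [if_pos hjm, if_neg hjm']
          obtain ⟨i, hi, h5, h6⟩ := h3 j hjm
          have := hlt i n hi (by omega)
          omega
      · intro j hj
        by_cases hjm : j < m
        · simp only [if_pos hjm]
          obtain ⟨i, hi, h5, h6⟩ := h3 j hjm
          exact ⟨i, by omega, h5, h6⟩
        · simp only [if_neg hjm]
          exact ⟨n, by omega, hmin.1, hmax.2⟩
      · rw [Finset.sum_range_succ, Finset.sum_range_succ, h4, hset]
        congr 1
        · refine Finset.sum_congr rfl (fun j hj => ?_)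
          rw [Finset.mem_range] at hj
          simp only [if_pos hj]
        · simp
    · refine ⟨m, by omega, c', d', h1, h2, ?_, ?_⟩
      · intro j hj
        obtain ⟨i, hi, h5, h6⟩ := h3 j hj
        exact ⟨i, by omega, h5, h6⟩
      · have hset : {l | c n ≤ r l ∧ r l ≤ d n} = ∅ := by
          ext l
          simp only [Set.mem_ofPred_eq, Set.mem_empty_iff_false, iff_false]
          exact fun h => hP ⟨l, h⟩
        rw [Finset.sum_range_succ, h4, hset, YF.restrict_empty, norm_zero, add_zero]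

theorem sum_restrict_le {r : ℕ → ℕ} (hk : ∀ k, k ≤ r k) (hm : Monotone r)
    (hr : ∀ k l, r k < r l → r k < l) (y : YF 𝕜) {a b n : ℕ} {c d : ℕ → ℕ} (h : Adm a b n c d) :
    ∑ i ∈ range n, ‖y.restrict {l | c i ≤ r l ∧ r l ≤ d i}‖ ≤
      3 * ‖y.restrict {l | a ≤ r l ∧ r l ≤ b}‖ := by
  have hlt : ∀ i j, i < j → j < n → d i < c j := by
    intro i j hij
    induction j with
    | zero => omega
    | succ j ih =>
      intro hn
      rcases Nat.lt_or_ge i j with h1 | h1
      · have e1 := ih h1 (by omega)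
        have e2 := h.le j (by omega)
        have e3 := h.lt j hn
        omega
      · have : i = j := by omega
        subst this
        exact h.lt i hn
  obtain ⟨m, hmn, c', d', h1, h2, h3, h4⟩ := squeeze hk hm y c d n hlt
  rw [h4]
  rcases Nat.eq_zero_or_pos m with rfl | hpos
  · simp only [Finset.range_zero, Finset.sum_empty]
    positivity
  obtain ⟨m, rfl⟩ : ∃ m', m = m' + 1 := ⟨m - 1, by omega⟩
  rw [Finset.sum_range_succ']
  have hsub : ∀ j < m + 1, Set.Icc (c' j) (d' j) ⊆ {l | a ≤ r l ∧ r l ≤ b} := by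
    intro j hj l hl
    obtain ⟨i, hi, h5, h6⟩ := h3 j hj
    have e1 := h.lo i hi
    have e2 := h.hi i hi
    have e3 := hm hl.1
    have e4 := hm hl.2
    exact ⟨by omega, by omega⟩
  have e0 : ‖y.restrict (Set.Icc (c' 0) (d' 0))‖ ≤ ‖y.restrict {l | a ≤ r l ∧ r l ≤ b}‖ :=
    YF.norm_restrict_mono y (hsub 0 (by omega))
  have hadm : Adm 0 b m (fun j => c' (j + 1)) (fun j => d' (j + 1)) := by
    refine ⟨fun i _ => Nat.zero_le _, fun i hi => h1 _ (by omega), ?_, ?_, ?_⟩
    · intro j hj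
      obtain ⟨i, hi, h5, h6⟩ := h3 (j + 1) (by omega)
      have e2 := h.hi i hi
      have e3 := hk (d' (j + 1))
      omega
    · intro j hj
      have e1 := h2 (j + 1) (by omega)
      by_contra hcon
      rw [not_lt] at hcon
      have := hm hcon
      omega
    · rcases Nat.eq_zero_or_pos m with rfl | hmpos
      · exact Nat.zero_le _
      · have hn : m ≤ n := by omega
        refine hn.trans (h.card.trans (phi_mono ?_))
        obtain ⟨i, hi, h5, h6⟩ := h3 0 (by omega)
        have e1 := h2 0 (by omega)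
        have e2 : r (c' 0) ≤ r (d' 0) := hm (h1 0 (by omega))
        have e3 := hr (c' 0) (c' (0 + 1)) (by omega)
        have e4 : c 0 ≤ c i := by
          rcases Nat.eq_zero_or_pos i with rfl | hip
          · exact le_rfl
          · have e5 := hlt 0 i hip hi
            have e6 := h.le 0 (by omega)
            omega
        show c 0 ≤ c' (0 + 1)
        omega
  have e1 := YF.norm_ge (y.restrict {l | a ≤ r l ∧ r l ≤ b}) hadm
  have e2 : ∑ i ∈ range m, ‖(y.restrict {l | a ≤ r l ∧ r l ≤ b}).restrict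
      (Set.Icc (c' (i + 1)) (d' (i + 1)))‖ =
      ∑ i ∈ range m, ‖y.restrict (Set.Icc (c' (i + 1)) (d' (i + 1)))‖ := by
    refine Finset.sum_congr rfl (fun i hi => ?_)
    rw [Finset.mem_range] at hi
    rw [YF.restrict_restrict y (hsub (i + 1) (by omega))]
  have e3 := YF.norm_restrict_le (y.restrict {l | a ≤ r l ∧ r l ≤ b}) (Set.Icc 0 b)
  rw [e2] at e1
  linarith

theorem A_Jr_le {r : ℕ → ℕ} (hk : ∀ k, k ≤ r k) (hm : Monotone r)
    (hr : ∀ k l, r k < r l → r k < l) (y : YF 𝕜) (k : ℕ) :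
    ∀ a b, A (1 / 4) (mu (Jr r y)) k a b ≤ 4 * ‖y.restrict {l | a ≤ r l ∧ r l ≤ b}‖ := by
  have hbase : ∀ a b, base (mu (Jr r y)) a b ≤ ‖y.restrict {l | a ≤ r l ∧ r l ≤ b}‖ := by
    intro a b
    apply base_le _ (norm_nonneg _)
    intro s t hs _ ht
    rw [S_mu_Jr hk]
    apply YF.norm_restrict_mono
    rintro l ⟨h1, h2⟩
    exact ⟨by omega, by omega⟩
  induction k with
  | zero =>
    intro a b
    have := hbase a b
    rw [A_zero]
    have := norm_nonneg (y.restrict {l | a ≤ r l ∧ r l ≤ b})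
    linarith
  | succ k ih =>
    intro a b
    apply A_succ_le (by norm_num)
    intro n c d h
    have e1 := hbase a b
    have e2 := sum_restrict_le hk hm hr y h
    have e3 : ∑ i ∈ range n, A (1 / 4) (mu (Jr r y)) k (c i) (d i) ≤
        4 * ∑ i ∈ range n, ‖y.restrict {l | c i ≤ r l ∧ r l ≤ d i}‖ := by
      rw [Finset.mul_sum]
      exact Finset.sum_le_sum (fun i _ => ih (c i) (d i))
    linarith

theorem norm_Jr_le {r : ℕ → ℕ} (hk : ∀ k, k ≤ r k) (hm : Monotone r)
    (hr : ∀ k l, r k < r l → r k < l) (y : YF 𝕜) : ‖Jr r y‖ ≤ 4 * ‖y‖ := by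
  obtain ⟨B, _, hB⟩ := (Jr r y).exists_norm_eq
  rw [hB]
  apply Nr_le_of_A
  intro k
  refine (A_Jr_le hk hm hr y k 0 B).trans ?_
  have := YF.norm_restrict_le y {l | 0 ≤ r l ∧ r l ≤ B}
  linarith

end Pool.Agent.H10.TB
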