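import Pool.Agent.H10.TB.BasisGen
import Pool.Agent.H10.TB.XBas
import Pool.Agent.H10.TB.XJr
import Pool.Agent.H10.TB.TightDef

/-!
The space `X` and its two bases (section 1b of f83316_proof.md).
-/

namespace Pool.Agent.H10.TB

open Finset UniformSpace

universe u

/-- the space `X` -/
abbrev XC (𝕜 : Type u) [RCLike 𝕜] : Type u := Completion (XF 𝕜)

variable (𝕜 : Type u) [RCLike 𝕜]

theorem exists_fB : ∃ b : SchauderBasis 𝕜 (XC 𝕜), (∀ n, b n = (fF 𝕜 n : XC 𝕜)) ∧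
    (∀ n (x : XF 𝕜), b.coord n (x : XC 𝕜) = x n) ∧ ∀ N (x : XC 𝕜), ‖b.proj N x‖ ≤ 3 * ‖x‖ :=
  exists_schauderBasis (fF 𝕜) (fun n x => x n) (fun n x y => XF.add_apply x y n)
    (fun n c x => XF.smul_apply c x n) (fun i j => by
      change (Finsupp.single j (1 : 𝕜) : ℕ →₀ 𝕜) i = _
      rw [Finsupp.single_apply]
      simp only [eq_comm]) XF.eq_sum_fF 3 (fun N x => norm_partial_fF x N)

theorem exists_eB : ∃ b : SchauderBasis 𝕜 (XC 𝕜), (∀ n, b n = (eF 𝕜 n : XC 𝕜)) ∧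
    (∀ n (x : XF 𝕜), b.coord n (x : XC 𝕜) = ac n x) ∧ ∀ N (x : XC 𝕜), ‖b.proj N x‖ ≤ 7 * ‖x‖ :=
  exists_schauderBasis (eF 𝕜) ac ac_add ac_smul ac_eF XF.eq_sum_eF 7
    (fun N x => norm_partial_eF x N)

/-- the basis `f` of `X` -/
noncomputable def fB : SchauderBasis 𝕜 (XC 𝕜) := (exists_fB 𝕜).choose

/-- the basis `e` of `X` -/
noncomputable def eB : SchauderBasis 𝕜 (XC 𝕜) := (exists_eB 𝕜).choose

variable {𝕜}

theorem fB_apply (n : ℕ) : fB 𝕜 n = (fF 𝕜 n : XC 𝕜) := (exists_fB 𝕜).choose_spec.1 n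
theorem fB_coord (n : ℕ) (x : XF 𝕜) : (fB 𝕜).coord n (x : XC 𝕜) = x n :=
  (exists_fB 𝕜).choose_spec.2.1 n x
theorem norm_fB_proj_le (N : ℕ) (x : XC 𝕜) : ‖(fB 𝕜).proj N x‖ ≤ 3 * ‖x‖ :=
  (exists_fB 𝕜).choose_spec.2.2 N x
theorem eB_apply (n : ℕ) : eB 𝕜 n = (eF 𝕜 n : XC 𝕜) := (exists_eB 𝕜).choose_spec.1 n
theorem eB_coord (n : ℕ) (x : XF 𝕜) : (eB 𝕜).coord n (x : XC 𝕜) = ac n x :=
  (exists_eB 𝕜).choose_spec.2.1 n x
theorem norm_eB_proj_le (N : ℕ) (x : XC 𝕜) : ‖(eB 𝕜).proj N x‖ ≤ 7 * ‖x‖ :=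
  (exists_eB 𝕜).choose_spec.2.2 N x

/-- total mass, extended to the completion -/
theorem exists_TotC : ∃ T : XC 𝕜 →L[𝕜] Completion (YF 𝕜),
    (∀ x : XF 𝕜, T (x : XC 𝕜) = ((Tot x : YF 𝕜) : Completion (YF 𝕜))) ∧ ∀ x, ‖T x‖ ≤ ‖x‖ := by
  obtain ⟨T, h1, h2⟩ := exists_extension (𝕜 := 𝕜)
    (fun x : XF 𝕜 => ((Tot x : YF 𝕜) : Completion (YF 𝕜)))
    (fun x y => by rw [Tot_add, Completion.coe_add]) (fun c x => by rw [Tot_smul, Completion.coe_smul])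
    1 (fun x => by rw [Completion.norm_coe, one_mul]; exact norm_Tot_le x)
  exact ⟨T, h1, fun x => by simpa using h2 x⟩

variable (𝕜) in
/-- total mass, extended to the completion -/
noncomputable def TotC : XC 𝕜 →L[𝕜] Completion (YF 𝕜) := (exists_TotC (𝕜 := 𝕜)).choose
theorem TotC_coe (x : XF 𝕜) : TotC 𝕜 (x : XC 𝕜) = ((Tot x : YF 𝕜) : Completion (YF 𝕜)) :=
  (exists_TotC (𝕜 := 𝕜)).choose_spec.1 x
theorem norm_TotC_le (x : XC 𝕜) : ‖TotC 𝕜 x‖ ≤ ‖x‖ := (exists_TotC (𝕜 := 𝕜)).choose_spec.2 x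

variable (𝕜) in
/-- the projection onto the rounds `< n` of the basis `e` -/
noncomputable def Rn (n : ℕ) : XC 𝕜 →L[𝕜] XC 𝕜 := (eB 𝕜).proj (tri n)

/-- the closed span of the `e n`, `n ∉ ⋃_{i ∈ A} [lo i, hi i]` -/
noncomputable def avoid (lo hi : ℕ → ℕ) (A : Set ℕ) : Submodule 𝕜 (XC 𝕜) :=
  (Submodule.span 𝕜 (eB 𝕜 '' {n | ∀ i ∈ A, ¬ (lo i ≤ n ∧ n ≤ hi i)})).topologicalClosure

/-- on `avoid` the coordinates in the gaps vanish -/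
theorem coord_avoid {lo hi : ℕ → ℕ} {A : Set ℕ} {x : XC 𝕜} (hx : x ∈ avoid lo hi A) {i n : ℕ}
    (hi' : i ∈ A) (h1 : lo i ≤ n) (h2 : n ≤ hi i) : (eB 𝕜).coord n x = 0 := by
  have hsub : avoid (𝕜 := 𝕜) lo hi A ≤ LinearMap.ker ((eB 𝕜).coord n).toLinearMap := by
    refine Submodule.topologicalClosure_minimal _ ?_ ?_
    · rw [Submodule.span_le]
      rintro _ ⟨m, hm, rfl⟩
      change (eB 𝕜).coord n (eB 𝕜 m) = 0
      have hnm : n ≠ m := by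
        rintro rfl
        exact hm i hi' ⟨h1, h2⟩
      rw [(eB 𝕜).ortho]
      simp [Pi.single_apply, hnm]
    · exact ((eB 𝕜).coord n).isClosed_ker
  exact hsub hx

end Pool.Agent.H10.TB
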