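import Pool.Agent.H10.TB.Api

/-!
Lemma D of f83316_proof.md (section 3): no `ℓ₁` (James' argument).
-/

namespace Pool.Agent.H10.TB

open Finset

namespace LemD

theorem chain_lt {n : ℕ} {c d : ℕ → ℕ} (hcd : ∀ i, i + 1 < n → d i < c (i + 1))
    (hle : ∀ i < n, c i ≤ d i) : ∀ i' i, i < i' → i' < n → d i < c i' := by
  intro i'
  induction i' with
  | zero => intro i h; omega
  | succ k ih =>
    intro i h hk
    rcases Nat.lt_succ_iff_lt_or_eq.1 h with h1 | h1
    · have h2 := ih i h1 (by omega)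
      have h3 := hle k (by omega)
      have h4 := hcd k hk
      omega
    · rw [h1]
      exact hcd k hk

/-- the number of pairs of meeting intervals of two successive families -/
theorem count_pairs {n r : ℕ} {c d : ℕ → ℕ} (hcd : ∀ i, i + 1 < n → d i < c (i + 1))
    (hle : ∀ i < n, c i ≤ d i) {a b : ℕ → ℕ} (hab : ∀ j, a j ≤ b j)
    (hba : ∀ j, b j < a (j + 1)) :
    ((range n ×ˢ range r).filter
      (fun ij => max (c ij.1) (a ij.2) ≤ min (d ij.1) (b ij.2))).card ≤ n + r := by
  have h1 := chain_lt hcd hle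
  have h2 : ∀ j' j, j < j' → b j < a j' := fun j' j hj =>
    chain_lt (n := j' + 1) (c := a) (d := b) (fun i _ => hba i) (fun i _ => hab i) j' j hj
      (Nat.lt_succ_self _)
  calc _ ≤ (range (n + r)).card := by
        apply card_le_card_of_injOn (fun ij => ij.1 + ij.2)
        · intro ij hij
          simp only [coe_filter, mem_product, mem_range, Set.mem_ofPred_eq] at hij
          simp only [coe_range, Set.mem_Iio]
          omega
        · rintro ⟨i, j⟩ hij ⟨i', j'⟩ hij' heq
          simp only [coe_filter, mem_product, mem_range, Set.mem_ofPred_eq] at hij hij'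
          simp only at heq
          obtain ⟨⟨hi, hj⟩, hm⟩ := hij
          obtain ⟨⟨hi', hj'⟩, hm'⟩ := hij'
          rw [Nat.max_le, Nat.le_min, Nat.le_min] at hm hm'
          rcases lt_trichotomy i i' with h | h | h
          · have h3 := h1 i' i h hi'
            have h4 := h2 j j' (by omega)
            omega
          · rw [Prod.mk.injEq]
            omega
          · have h3 := h1 i i' h hi
            have h4 := h2 j' j (by omega)
            omega
    _ = n + r := card_range _

end LemD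

open LemD in
/-- LEMMA D. -/
theorem lemD {𝕜 : Type*} [RCLike 𝕜] {V : Type*} [NormedAddCommGroup V] [NormedSpace 𝕜 V]
    {θ : ℝ} (h0 : 0 < θ) (h2 : θ ≤ 1 / 2) (x : ℕ → ℕ → V) (p q : ℕ → ℕ)
    (hpq : ∀ k, p k ≤ q k) (hqp : ∀ k, q k < p (k + 1))
    (hsupp : ∀ k t, ¬ (p k ≤ t ∧ t ≤ q k) → x k t = 0)
    (hnorm : ∀ k, Nr θ (x k) (p k) (q k) = 1)
    (hQ : ∀ (n : ℕ) (c : ℕ → 𝕜) (s t : ℕ), ‖S (fun r => ∑ k ∈ range n, c k • x k r) s t‖ ^ 2 ≤
      2 * ∑ k ∈ range n, ‖c k‖ ^ 2 * ‖S (x k) s t‖ ^ 2)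
    (c0 : ℝ) (hc0 : 0 < c0) :
    ∃ (n : ℕ) (b : ℕ → ℝ), (∀ k, 0 ≤ b k) ∧ 0 < ∑ k ∈ range n, b k ∧
      ∀ e : ℕ → ℝ, (∀ k, e k = 1 ∨ e k = -1) →
        Nr θ (fun t => ∑ k ∈ range n, ((e k * b k : ℝ) : 𝕜) • x k t) 0 (q n) <
          c0 * ∑ k ∈ range n, b k := by
  classical
  by_contra hcon
  push Not at hcon
  have h0' := h0.le
  have hqm : StrictMono q := strictMono_nat_of_lt_succ fun k => (hqp k).trans_le (hpq _)
  have hpm : StrictMono p := strictMono_nat_of_lt_succ fun k => (hpq k).trans_lt (hqp k)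
  have hen : ∀ e : ℕ → ℝ, (∀ k, e k = 1 ∨ e k = -1) → ∀ k, |e k| = 1 := by
    intro e he k
    rcases he k with h | h <;> rw [h] <;> simp
  set G : ℕ → Set ℝ := fun m => {γ | ∃ (n : ℕ) (b : ℕ → ℝ), (∀ k, 0 ≤ b k) ∧
    (∀ k < m, b k = 0) ∧ ∑ k ∈ range n, b k = 1 ∧ ∀ e : ℕ → ℝ, (∀ k, e k = 1 ∨ e k = -1) →
      Nr θ (fun t => ∑ k ∈ range n, ((e k * b k : ℝ) : 𝕜) • x k t) 0 (q n) ≤ γ} with hG
  have hG1 : ∀ m, ∀ γ ∈ G m, c0 ≤ γ := by
    rintro m γ ⟨n, b, hb0, -, hb1, hb2⟩
    obtain ⟨e, he, hle⟩ := hcon n b hb0 (by rw [hb1]; exact one_pos)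
    rw [hb1, mul_one] at hle
    exact hle.trans (hb2 e he)
  have hG2 : ∀ m, (1 : ℝ) ∈ G m := by
    intro m
    refine ⟨m + 1, fun k => if k = m then 1 else 0, fun k => by positivity,
      fun k hk => if_neg hk.ne, ?_, fun e he => ?_⟩
    · rw [sum_range_succ, if_pos rfl, sum_eq_zero, zero_add]
      intro k hk
      rw [mem_range] at hk
      exact if_neg hk.ne
    · have h1 : (fun t => ∑ k ∈ range (m + 1), ((e k * (if k = m then 1 else 0) : ℝ) : 𝕜) • x k t) =
          fun t => ((e m : ℝ) : 𝕜) • x m t := by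
        funext t
        rw [sum_range_succ, sum_eq_zero, zero_add, if_pos rfl, mul_one]
        intro k hk
        rw [mem_range] at hk
        rw [if_neg hk.ne, mul_zero, RCLike.ofReal_zero, zero_smul]
      rw [h1, Nr_smul h0', RCLike.norm_ofReal, hen e he, one_mul, Nr_inter h0' h2 (x m) (hsupp m),
        Nat.max_eq_right (Nat.zero_le _), Nat.min_eq_right (hqm (Nat.lt_succ_self m)).le, hnorm]
  have hG3 : ∀ m m', m ≤ m' → G m' ⊆ G m := by
    rintro m m' hm γ ⟨n, b, hb0, hb1, hb2⟩
    exact ⟨n, b, hb0, fun k hk => hb1 k (hk.trans_le hm), hb2⟩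
  have hbdd : ∀ m, BddBelow (G m) := fun m => ⟨c0, fun γ hγ => hG1 m γ hγ⟩
  set c : ℕ → ℝ := fun m => sInf (G m) with hc
  have hc1 : ∀ m, c m ≤ 1 := fun m => csInf_le (hbdd m) (hG2 m)
  have hc2 : ∀ m, c0 ≤ c m := fun m => le_csInf ⟨1, hG2 m⟩ fun γ hγ => hG1 m γ hγ
  have hcb : BddAbove (Set.range c) := ⟨1, by rintro _ ⟨m, rfl⟩; exact hc1 m⟩
  set cc : ℝ := ⨆ m, c m with hcc
  have hcle : ∀ m, c m ≤ cc := fun m => le_ciSup hcb m
  have hcc0 : c0 ≤ cc := (hc2 0).trans (hcle 0)
  have hccp : 0 < cc := hc0.trans_le hcc0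
  have hcc1 : cc ≤ 1 := ciSup_le hc1
  set ε : ℝ := θ / 16 with hε
  have hεp : 0 < ε := by positivity
  obtain ⟨m, hm⟩ : ∃ m, (1 - ε) * cc < c m := by
    apply exists_lt_of_lt_ciSup
    rw [← hcc]
    nlinarith
  set β : ℝ := (1 + ε) * cc with hβ
  have hβp : 0 < β := by positivity
  have hchoice : ∀ m', ∃ (N : ℕ) (b : ℕ → ℝ), m' < N ∧ (∀ k, 0 ≤ b k) ∧ (∀ k < m', b k = 0) ∧
      (∀ k, N ≤ k → b k = 0) ∧ ∑ k ∈ range N, b k = 1 ∧
      ∀ e : ℕ → ℝ, (∀ k, e k = 1 ∨ e k = -1) →
      Nr θ (fun t => ∑ k ∈ range N, ((e k * b k : ℝ) : 𝕜) • x k t) 0 (q N) ≤ β := by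
    intro m'
    obtain ⟨γ, ⟨n, b, hb0, hb1, hb2, hb3⟩, hγ⟩ : ∃ γ ∈ G m', γ < β := by
      apply exists_lt_of_csInf_lt ⟨1, hG2 m'⟩
      have := hcle m'
      have h3 : cc < β := by rw [hβ]; nlinarith
      exact lt_of_le_of_lt this h3
    have hn : m' < n := by
      by_contra hn
      push Not at hn
      rw [sum_eq_zero (fun k hk => hb1 k ((mem_range.1 hk).trans_le hn))] at hb2
      exact zero_ne_one hb2
    refine ⟨n, fun k => if k < n then b k else 0, hn, fun k => ?_, fun k hk => ?_,
      fun k hk => if_neg (not_lt.2 hk), ?_, fun e he => ?_⟩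
    · simp only
      split_ifs
      · exact hb0 k
      · exact le_rfl
    · simp only
      rw [hb1 k hk, ite_self]
    · rw [← hb2]
      exact sum_congr rfl fun k hk => if_pos (mem_range.1 hk)
    · have h1 : (fun t => ∑ k ∈ range n, ((e k * (if k < n then b k else 0) : ℝ) : 𝕜) • x k t) =
          fun t => ∑ k ∈ range n, ((e k * b k : ℝ) : 𝕜) • x k t := by
        funext t
        refine sum_congr rfl fun k hk => ?_
        rw [if_pos (mem_range.1 hk)]
      rw [h1]
      exact (hb3 e he).trans hγ.le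
  choose N Bf hN1 hB0 hBlo hBhi hBsum hBn using hchoice
  obtain ⟨nn, hnn0, hnns⟩ : ∃ nn : ℕ → ℕ, nn 0 = m ∧ ∀ j, nn (j + 1) = N (nn j) :=
    ⟨fun j => Nat.rec m (fun _ k => N k) j, rfl, fun _ => rfl⟩
  have hnm : StrictMono nn := strictMono_nat_of_lt_succ fun j => by rw [hnns]; exact hN1 _
  set bb : ℕ → ℕ → ℝ := fun j => Bf (nn j) with hbb
  have hbb0 : ∀ j k, 0 ≤ bb j k := fun j k => hB0 _ _
  have hbblo : ∀ j k, k < nn j → bb j k = 0 := fun j k hk => hBlo _ _ hk
  have hbbhi : ∀ j k, nn (j + 1) ≤ k → bb j k = 0 := fun j k hk =>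
    hBhi _ _ (by rw [← hnns]; exact hk)
  have hbbsum : ∀ j L, nn (j + 1) ≤ L → ∑ k ∈ range L, bb j k = 1 := by
    intro j L hL
    rw [← hBsum (nn j), ← hnns]
    symm
    apply sum_subset (range_subset_range.2 hL)
    intro k _ hk
    rw [mem_range, not_lt] at hk
    exact hbbhi j k hk
  have hbb1 : ∀ j k, bb j k ≤ 1 := by
    intro j k
    rw [← hbbsum j (max (nn (j + 1)) (k + 1)) (le_max_left _ _)]
    exact single_le_sum (f := bb j) (fun k _ => hbb0 j k)
      (mem_range.2 ((Nat.lt_succ_self k).trans_le (le_max_right _ _)))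
  -- the end of the first block
  set q0 : ℕ := q (nn 1 - 1) with hq0
  obtain ⟨r, hr⟩ := exists_nat_gt (max (32 / (θ * c0) ^ 2) (4 * phi q0 / (θ * c0)))
  have hr1 := (le_max_left _ _).trans_lt hr
  have hr2 := (le_max_right _ _).trans_lt hr
  have hθc : 0 < θ * c0 := by positivity
  have hrp : (0 : ℝ) < r := lt_of_le_of_lt (by positivity) hr1
  set L : ℕ := nn (r + 1) with hL
  set B : ℕ := q L with hB
  -- the combination
  set w : ℕ → ℝ := fun k => (1 / r : ℝ) * ∑ j ∈ range r, bb (j + 1) k with hw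
  have hw0 : ∀ k, 0 ≤ w k := fun k =>
    mul_nonneg (by positivity) (sum_nonneg fun j _ => hbb0 _ _)
  have hwsum : ∑ k ∈ range L, w k = 1 := by
    simp only [hw]
    rw [← mul_sum, sum_comm, sum_congr rfl (fun j hj => hbbsum (j + 1) L
      (hnm.monotone (by rw [mem_range] at hj; omega))), sum_const, card_range, nsmul_eq_mul,
      mul_one]
    field_simp
  have hb0sum : ∑ k ∈ range L, bb 0 k = 1 := hbbsum 0 L (hnm.monotone (by omega))
  -- the bad signs
  obtain ⟨e, he, hbad⟩ : ∃ e : ℕ → ℝ, (∀ k, e k = 1 ∨ e k = -1) ∧ 2 * ((1 - 2 * ε) * cc) <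
      Nr θ (fun t => ∑ k ∈ range L, ((e k * (bb 0 k + w k) : ℝ) : 𝕜) • x k t) 0 B := by
    by_contra hno
    push Not at hno
    have hmem : (1 - 2 * ε) * cc ∈ G m := by
      refine ⟨L, fun k => (bb 0 k + w k) / 2, fun k => ?_, fun k hk => ?_, ?_, fun e he => ?_⟩
      · have := hbb0 0 k
        have := hw0 k
        positivity
      · have h3 : bb 0 k = 0 := hbblo 0 k (by rw [hnn0]; exact hk)
        have h4 : w k = 0 := by
          simp only [hw]
          rw [sum_eq_zero, mul_zero]
          intro j _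
          refine hbblo (j + 1) k (hk.trans_le ?_)
          rw [← hnn0]
          exact hnm.monotone (Nat.zero_le _)
        change (bb 0 k + w k) / 2 = 0
        rw [h3, h4]
        norm_num
      · rw [← sum_div, sum_add_distrib, hb0sum, hwsum]
        norm_num
      · have h3 := hno e he
        have h4 : (fun t => ∑ k ∈ range L, ((e k * ((bb 0 k + w k) / 2) : ℝ) : 𝕜) • x k t) =
            fun t => (((1 / 2 : ℝ)) : 𝕜) •
              ∑ k ∈ range L, ((e k * (bb 0 k + w k) : ℝ) : 𝕜) • x k t := by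
          funext t
          rw [smul_sum]
          refine sum_congr rfl fun k _ => ?_
          rw [smul_smul, ← RCLike.ofReal_mul]
          congr 2
          ring
        rw [h4, Nr_smul h0', RCLike.norm_ofReal, abs_of_pos (by norm_num : (0 : ℝ) < 1 / 2)]
        change 1 / 2 * Nr θ _ 0 B ≤ _
        linarith
    have h3 : c m ≤ (1 - 2 * ε) * cc := csInf_le (hbdd m) hmem
    nlinarith
  -- the vectors
  set v : ℕ → ℕ → V := fun j t => ∑ k ∈ range L, ((e k * bb j k : ℝ) : 𝕜) • x k t with hv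
  set W : ℕ → V := fun t => ∑ k ∈ range L, ((e k * w k : ℝ) : 𝕜) • x k t with hW
  have hsplit : (fun t => ∑ k ∈ range L, ((e k * (bb 0 k + w k) : ℝ) : 𝕜) • x k t) =
      fun t => v 0 t + W t := by
    funext t
    simp only [hv, hW]
    rw [← sum_add_distrib]
    refine sum_congr rfl fun k _ => ?_
    rw [← add_smul, ← RCLike.ofReal_add, mul_add]
  have hWv : W = fun t => (((1 / r : ℝ)) : 𝕜) • ∑ j ∈ range r, v (j + 1) t := by
    funext t
    simp only [hv, hW, hw]
    rw [sum_comm, smul_sum]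
    refine sum_congr rfl fun k _ => ?_
    rw [← sum_smul, smul_smul]
    congr 1
    push_cast
    rw [mul_sum, mul_sum, mul_sum]
    exact sum_congr rfl fun i _ => by ring
  have hvsupp : ∀ j t, ¬ (p (nn j) ≤ t ∧ t ≤ q (nn (j + 1) - 1)) → v j t = 0 := by
    intro j t ht
    simp only [hv]
    apply sum_eq_zero
    intro k _
    by_cases h1 : k < nn j
    · rw [hbblo j k h1, mul_zero, RCLike.ofReal_zero, zero_smul]
    by_cases h3 : nn (j + 1) ≤ k
    · rw [hbbhi j k h3, mul_zero, RCLike.ofReal_zero, zero_smul]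
    rw [hsupp k t, smul_zero]
    rintro ⟨h4, h5⟩
    refine ht ⟨(hpm.monotone (not_lt.1 h1)).trans h4, h5.trans (hqm.monotone ?_)⟩
    omega
  have hvβ : ∀ j, j ≤ r → ∀ a b, Nr θ (v j) a b ≤ β := by
    intro j hj a b
    have h1 : v j = fun t => ∑ k ∈ range (N (nn j)), ((e k * Bf (nn j) k : ℝ) : 𝕜) • x k t := by
      funext t
      simp only [hv]
      symm
      apply sum_subset (range_subset_range.2 ?_)
      · intro k _ hk
        rw [mem_range, not_lt] at hk
        rw [hBhi _ _ hk, mul_zero, RCLike.ofReal_zero, zero_smul]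
      · rw [← hnns]
        exact hnm.monotone (by omega)
    have h3 : ∀ t, ¬ (0 ≤ t ∧ t ≤ q (N (nn j))) → v j t = 0 := by
      intro t ht
      apply hvsupp
      rintro ⟨h4, h5⟩
      refine ht ⟨Nat.zero_le _, h5.trans (hqm.monotone ?_)⟩
      rw [hnns]
      omega
    rw [Nr_inter h0' h2 (v j) h3]
    refine (Nr_mono h0' h2 (v j) (Nat.zero_le _) (min_le_right _ _)).trans ?_
    rw [h1]
    exact hBn (nn j) e he
  -- the base of `W`
  have hWS : ∀ s t, ‖S W s t‖ ≤ θ * c0 / 4 := by
    intro s t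
    have h1 := hQ L (fun k => ((e k * w k : ℝ) : 𝕜)) s t
    have hSx : ∀ k, ‖S (x k) s t‖ ^ 2 ≤ 1 := by
      intro k
      rw [S_inter (x k) (hsupp k)]
      have := norm_S_le_Nr h0' h2 (x k) (a := p k) (b := q k) (s := max s (p k))
        (t := min t (q k)) (le_max_right _ _) (min_le_right _ _)
      rw [hnorm] at this
      exact pow_le_one₀ (norm_nonneg _) this
    have hwk : ∀ k, w k ≤ 1 / r := by
      intro k
      simp only [hw]
      have h3 : ∑ j ∈ range r, bb (j + 1) k ≤ 1 := by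
        by_cases h : ∃ j ∈ range r, bb (j + 1) k ≠ 0
        · obtain ⟨j, hj, hjk⟩ := h
          rw [sum_eq_single_of_mem j hj]
          · exact hbb1 _ _
          · intro j' hj' hne
            have hk1 : nn (j + 1) ≤ k := by
              by_contra h
              exact hjk (hbblo _ _ (not_le.1 h))
            have hk2 : k < nn (j + 1 + 1) := by
              by_contra h
              exact hjk (hbbhi _ _ (not_lt.1 h))
            rcases lt_or_gt_of_ne hne with h | h
            · exact hbbhi _ _ ((hnm.monotone (by omega : j' + 1 + 1 ≤ j + 1)).trans hk1)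
            · exact hbblo _ _ (hk2.trans_le (hnm.monotone (by omega)))
        · push Not at h
          rw [sum_eq_zero h]
          exact zero_le_one
      calc (1 / r : ℝ) * ∑ j ∈ range r, bb (j + 1) k ≤ (1 / r : ℝ) * 1 :=
            mul_le_mul_of_nonneg_left h3 (by positivity)
        _ = 1 / r := mul_one _
    have h3 : ∑ k ∈ range L, ‖((e k * w k : ℝ) : 𝕜)‖ ^ 2 * ‖S (x k) s t‖ ^ 2 ≤ 1 / r := by
      calc ∑ k ∈ range L, ‖((e k * w k : ℝ) : 𝕜)‖ ^ 2 * ‖S (x k) s t‖ ^ 2
          ≤ ∑ k ∈ range L, (1 / r) * w k := by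
            refine sum_le_sum fun k _ => ?_
            rw [RCLike.norm_ofReal, abs_mul, hen e he, one_mul, abs_of_nonneg (hw0 k)]
            calc w k ^ 2 * ‖S (x k) s t‖ ^ 2 ≤ w k ^ 2 * 1 :=
                  mul_le_mul_of_nonneg_left (hSx k) (by positivity)
              _ = w k * w k := by ring
              _ ≤ (1 / r) * w k := mul_le_mul_of_nonneg_right (hwk k) (hw0 k)
        _ = 1 / r := by rw [← mul_sum, hwsum, mul_one]
    have h4 : ‖S W s t‖ ^ 2 ≤ (θ * c0 / 4) ^ 2 := by
      have h5 : ‖S W s t‖ ^ 2 ≤ 2 * (1 / r) := h1.trans (by linarith)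
      refine h5.trans ?_
      rw [div_lt_iff₀ (by positivity)] at hr1
      rw [mul_one_div, div_le_iff₀ hrp]
      nlinarith
    exact le_of_sq_le_sq h4 (by positivity)
  -- the upper estimate
  have hmain : Nr θ (fun t => v 0 t + W t) 0 B ≤ (2 - θ) * β + θ * c0 / 2 := by
    apply Nr_le h0' h2
    intro n cI dI hadm
    have hbase : base (fun t => v 0 t + W t) 0 B ≤ base (v 0) 0 B + θ * c0 / 4 := by
      apply base_le _ (add_nonneg (base_nonneg _ _ _) (by positivity))
      intro s t hs _ ht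
      rw [S_add]
      exact (norm_add_le _ _).trans (add_le_add (le_base _ hs ht) (hWS s t))
    have hadd : ∀ i, Nr θ (fun t => v 0 t + W t) (cI i) (dI i) ≤
        Nr θ (v 0) (cI i) (dI i) + Nr θ W (cI i) (dI i) := fun i => Nr_add h0' h2 _ _ _ _
    have hWN : ∀ a b, Nr θ W a b ≤ (1 / r) * ∑ j ∈ range r, Nr θ (v (j + 1)) a b := by
      intro a b
      rw [hWv, Nr_smul h0', RCLike.norm_ofReal, abs_of_nonneg (by positivity)]
      exact mul_le_mul_of_nonneg_left (Nr_sum h0' h2 _ _ _ _) (by positivity)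
    have hsumadd : ∑ i ∈ range n, Nr θ (fun t => v 0 t + W t) (cI i) (dI i) ≤
        ∑ i ∈ range n, Nr θ (v 0) (cI i) (dI i) + ∑ i ∈ range n, Nr θ W (cI i) (dI i) := by
      rw [← sum_add_distrib]
      exact sum_le_sum fun i _ => hadd i
    by_cases hcase : cI 0 ≤ q0
    · -- few intervals
      have hn : n ≤ phi q0 := hadm.card.trans (phi_mono hcase)
      have h3 : base (v 0) 0 B + θ * ∑ i ∈ range n, Nr θ (v 0) (cI i) (dI i) ≤ β :=
        (Nr_ge h0' h2 (v 0) hadm).trans (hvβ 0 (Nat.zero_le _) _ _)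
      have h4 : ∑ i ∈ range n, Nr θ W (cI i) (dI i) ≤ (1 / r) * ((n + r) * β) := by
        calc ∑ i ∈ range n, Nr θ W (cI i) (dI i)
            ≤ ∑ i ∈ range n, (1 / r) * ∑ j ∈ range r, Nr θ (v (j + 1)) (cI i) (dI i) :=
              sum_le_sum fun i _ => hWN _ _
          _ = (1 / r) * ∑ i ∈ range n, ∑ j ∈ range r, Nr θ (v (j + 1)) (cI i) (dI i) := by
              rw [mul_sum]
          _ ≤ (1 / r) * ((n + r) * β) := by
              refine mul_le_mul_of_nonneg_left ?_ (by positivity)
              rw [← sum_product']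
              calc ∑ ij ∈ range n ×ˢ range r, Nr θ (v (ij.2 + 1)) (cI ij.1) (dI ij.1)
                  ≤ ∑ ij ∈ range n ×ˢ range r, (if max (cI ij.1) (p (nn (ij.2 + 1))) ≤
                    min (dI ij.1) (q (nn (ij.2 + 1 + 1) - 1)) then β else 0) := by
                    refine sum_le_sum fun ij hij => ?_
                    rw [mem_product, mem_range, mem_range] at hij
                    split_ifs with h
                    · exact hvβ _ (by omega) _ _
                    · rw [Nr_inter h0' h2 _ (hvsupp (ij.2 + 1)), Nr_of_lt h0' _ (not_le.1 h)]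
                _ = ((range n ×ˢ range r).filter (fun ij => max (cI ij.1) (p (nn (ij.2 + 1))) ≤
                    min (dI ij.1) (q (nn (ij.2 + 1 + 1) - 1)))).card * β := by
                    rw [← sum_filter, sum_const, nsmul_eq_mul]
                _ ≤ (n + r) * β := by
                    refine mul_le_mul_of_nonneg_right ?_ hβp.le
                    have := count_pairs (n := n) (r := r) (c := cI) (d := dI) hadm.lt hadm.le
                      (a := fun j => p (nn (j + 1))) (b := fun j => q (nn (j + 1 + 1) - 1))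
                      (fun j => by
                        have h5 : nn (j + 1) < nn (j + 1 + 1) := hnm (Nat.lt_succ_self _)
                        exact (hpq _).trans (hqm.monotone (by omega)))
                      (fun j => by
                        have h5 : nn (j + 1) < nn (j + 1 + 1) := hnm (Nat.lt_succ_self _)
                        have h6 := hqp (nn (j + 1 + 1) - 1)
                        rwa [Nat.sub_add_cancel (by omega)] at h6)
                    exact_mod_cast this
      have h5 : (1 / r : ℝ) * ((n + r) * β) ≤ β + θ * c0 / 4 * β := by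
        rw [div_lt_iff₀ hθc] at hr2
        have h6 : (n : ℝ) ≤ phi q0 := by exact_mod_cast hn
        rw [one_div, inv_mul_le_iff₀ hrp]
        nlinarith
      have hβ2 : β ≤ 2 := by
        rw [hβ]
        nlinarith
      have h6 : θ * (θ * c0 / 4 * β) ≤ θ * c0 / 4 := by
        have : θ * β ≤ 1 := by nlinarith
        nlinarith
      have h7 := mul_le_mul_of_nonneg_left hsumadd h0'
      have h8 := mul_le_mul_of_nonneg_left (h4.trans h5) h0'
      nlinarith
    · -- far intervals
      push Not at hcase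
      have h3 : ∑ i ∈ range n, Nr θ (v 0) (cI i) (dI i) = 0 := by
        apply sum_eq_zero
        intro i hi
        rw [mem_range] at hi
        have h4 : cI 0 ≤ cI i := by
          rcases Nat.eq_zero_or_pos i with h | h
          · rw [h]
          · have := chain_lt hadm.lt hadm.le i 0 h hi
            have := hadm.le 0 (by omega)
            omega
        apply Nr_eq_zero h0' h2
        intro t ht1 _
        apply hvsupp
        rintro ⟨-, h5⟩
        have : t ≤ q0 := h5
        omega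
      have h4 : θ * ∑ i ∈ range n, Nr θ W (cI i) (dI i) ≤ β := by
        refine (theta_mul_sum_le h0' h2 W hadm).trans ((hWN _ _).trans ?_)
        calc (1 / r : ℝ) * ∑ j ∈ range r, Nr θ (v (j + 1)) 0 B ≤
              (1 / r) * ∑ j ∈ range r, β := by
              refine mul_le_mul_of_nonneg_left (sum_le_sum fun j hj => ?_) (by positivity)
              rw [mem_range] at hj
              exact hvβ _ (by omega) _ _
          _ = β := by
              rw [sum_const, card_range, nsmul_eq_mul]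
              field_simp
      have h5 : base (v 0) 0 B ≤ (1 - θ) * β :=
        (base_le_mul_Nr h0' h2 (v 0) 0 B).trans
          (mul_le_mul_of_nonneg_left (hvβ 0 (Nat.zero_le _) _ _) (by linarith))
      have h6 := mul_le_mul_of_nonneg_left hsumadd h0'
      rw [h3, zero_add] at h6
      nlinarith
  rw [hsplit] at hbad
  have h3 := hbad.trans_le hmain
  have h4 : θ * c0 ≤ θ * cc := mul_le_mul_of_nonneg_left hcc0 h0'
  rw [hβ, hε] at h3
  nlinarith [mul_pos h0 hccp, mul_pos (mul_pos h0 h0) hccp]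

end Pool.Agent.H10.TB
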