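import Pool.Agent.H10.TB.YApi

/-!
API for the space `XF`.
-/

namespace Pool.Agent.H10.TB

open Finset

universe u

variable {𝕜 : Type u} [RCLike 𝕜]

theorem mu_sum {ι : Type*} (s : Finset ι) (x : ι → XF 𝕜) (t : ℕ) :
    mu (∑ i ∈ s, x i) t = ∑ i ∈ s, mu (x i) t := by
  classical
  induction s using Finset.induction_on with
  | empty => simp [mu_zero]
  | insert a s ha ih => rw [Finset.sum_insert ha, Finset.sum_insert ha, mu_add, ih]

theorem XF.apply_eq_mu (x : XF 𝕜) (n : ℕ) : x n = mu x (rd n) (ix n) := by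
  rw [mu_apply, if_pos (ix_le_rd n), tri_rd_add_ix]

/-- the norm is computed on an initial interval -/
theorem XF.exists_norm_eq (x : XF 𝕜) : ∃ B, (∀ t, B < t → mu x t = 0) ∧
    ‖x‖ = Nr (1 / 4) (mu x) 0 B := by
  obtain ⟨B, hB⟩ := x.exists_mu_bound
  exact ⟨B, hB, x.norm_eq (p := 0) (q := B) fun t ht => hB t (by simpa using ht)⟩

theorem Nr_mu_le (x : XF 𝕜) (a b : ℕ) : Nr (1 / 4) (mu x) a b ≤ ‖x‖ := by
  obtain ⟨B, hB⟩ := x.exists_mu_bound
  rw [XF.norm_def]
  exact Nr_le_jn (by norm_num) (by norm_num) _ hB a b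

theorem norm_S_mu_le (x : XF 𝕜) (a b : ℕ) : ‖S (mu x) a b‖ ≤ ‖x‖ :=
  (norm_S_le_Nr (θ := 1 / 4) (by norm_num) (by norm_num) (mu x) le_rfl le_rfl).trans
    (Nr_mu_le x a b)

theorem norm_mu_le (x : XF 𝕜) (t : ℕ) : ‖mu x t‖ ≤ ‖x‖ := by
  have := norm_S_mu_le x t t
  rwa [S_self] at this

theorem XF.norm_le_sum (x : XF 𝕜) {p q : ℕ} (h : ∀ t, ¬ (p ≤ t ∧ t ≤ q) → mu x t = 0) :
    ‖x‖ ≤ 2 * ∑ t ∈ Icc p q, ‖mu x t‖ := by
  rw [x.norm_eq h]
  exact Nr_le_sum (by norm_num) (by norm_num) _ _ _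

/-- lower estimate for successive vectors -/
theorem XF.lower_estimate (x : ℕ → XF 𝕜) {a b n : ℕ} {c d : ℕ → ℕ} (h : Adm a b n c d)
    (hx : ∀ i < n, ∀ t, ¬ (c i ≤ t ∧ t ≤ d i) → mu (x i) t = 0) :
    ∑ i ∈ range n, ‖x i‖ ≤ 4 * ‖∑ i ∈ range n, x i‖ := by
  -- the intervals are disjoint
  have hlt : ∀ i j, i < j → j < n → d i < c j := by
    intro i j hij
    induction j with
    | zero => omega
    | succ j ih =>
      intro hn
      rcases Nat.lt_or_ge i j with h1 | h1
      · have e1 := ih h1 (by omega)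
        have e2 := h.le j (by omega)
        have e3 := h.lt j hn
        omega
      · have : i = j := by omega
        subst this
        exact h.lt i hn
  have key : ∀ i < n, Nr (1 / 4) (mu (∑ i ∈ range n, x i)) (c i) (d i) = ‖x i‖ := by
    intro i hi
    rw [(x i).norm_eq (hx i hi)]
    apply Nr_congr
    intro t h1 h2
    rw [mu_sum, Finset.sum_eq_single i]
    · intro j hj hne
      rw [Finset.mem_range] at hj
      apply hx j hj
      rintro ⟨h3, h4⟩
      rcases Nat.lt_or_gt_of_ne hne with hl | hl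
      · have := hlt j i hl hi; omega
      · have := hlt i j hl hj; omega
    · intro hn
      exact absurd (Finset.mem_range.2 hi) hn
  have e1 := theta_mul_sum_le (θ := 1 / 4) (by norm_num) (by norm_num)
    (mu (∑ i ∈ range n, x i)) h
  have e2 := Nr_mu_le (∑ i ∈ range n, x i) a b
  rw [Finset.sum_congr rfl (fun i hi => key i (Finset.mem_range.1 hi))] at e1
  linarith

/-! ### total mass -/

theorem Tot_add (x y : XF 𝕜) : Tot (x + y) = Tot x + Tot y :=
  Finsupp.mapDomain_add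

theorem Tot_smul (c : 𝕜) (x : XF 𝕜) : Tot (c • x) = c • Tot x :=
  Finsupp.mapDomain_smul c _

theorem Tot_zero : Tot (0 : XF 𝕜) = 0 := Finsupp.mapDomain_zero

theorem Tot_sum {ι : Type*} (s : Finset ι) (x : ι → XF 𝕜) :
    Tot (∑ i ∈ s, x i) = ∑ i ∈ s, Tot (x i) := by
  classical
  induction s using Finset.induction_on with
  | empty => simp [Tot_zero]
  | insert a s ha ih => rw [Finset.sum_insert ha, Finset.sum_insert ha, Tot_add, ih]

theorem fF_apply (n m : ℕ) : fF 𝕜 n m = if n = m then 1 else 0 := Finsupp.single_apply ..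

theorem Tot_fF (n : ℕ) : Tot (fF 𝕜 n) = yv 𝕜 (ix n) := Finsupp.mapDomain_single

theorem mu_fF (n t : ℕ) : mu (fF 𝕜 n) t = if rd n = t then yv 𝕜 (ix n) else 0 := by
  apply YF.ext
  intro i
  rw [mu_apply, fF_apply]
  by_cases h : rd n = t
  · rw [if_pos h, yv_apply]
    by_cases hi : i ≤ t
    · rw [if_pos hi]
      by_cases h2 : ix n = i
      · rw [if_pos h2, if_pos]
        rw [← h, ← h2, tri_rd_add_ix]
      · rw [if_neg h2, if_neg]
        intro h3
        apply h2
        rw [h3, ix_tri_add hi]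
    · rw [if_neg hi, if_neg]
      intro h2
      have := ix_le_rd n
      omega
  · rw [if_neg h, YF.zero_apply]
    split_ifs with h1 h2
    · exfalso
      apply h
      rw [h2, rd_tri_add h1]
    · rfl
    · rfl

/-- every vector of `XF` is a finite combination of the `fF n` -/
theorem XF.induction {P : XF 𝕜 → Prop} (x : XF 𝕜) (h0 : P 0) (hadd : ∀ y z, P y → P z → P (y + z))
    (hs : ∀ n (c : 𝕜), P (c • fF 𝕜 n)) : P x := by
  have : ∀ y : ℕ →₀ 𝕜, P (y : XF 𝕜) := by
    intro y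
    induction y using Finsupp.induction_linear with
    | zero => exact h0
    | add f g hf hg => exact hadd f g hf hg
    | single n c =>
      have := hs n c
      have e : (c • fF 𝕜 n : XF 𝕜) = (Finsupp.single n c : ℕ →₀ 𝕜) := by
        show c • (Finsupp.single n (1 : 𝕜) : ℕ →₀ 𝕜) = _
        rw [Finsupp.smul_single, smul_eq_mul, mul_one]
      rw [e] at this
      exact this
  exact this x

/-- every vector of `YF` is a finite combination of the `yv n` -/
theorem YF.induction {P : YF 𝕜 → Prop} (x : YF 𝕜) (h0 : P 0) (hadd : ∀ y z, P y → P z → P (y + z))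
    (hs : ∀ n (c : 𝕜), P (c • yv 𝕜 n)) : P x := by
  have : ∀ y : ℕ →₀ 𝕜, P (y : YF 𝕜) := by
    intro y
    induction y using Finsupp.induction_linear with
    | zero => exact h0
    | add f g hf hg => exact hadd f g hf hg
    | single n c =>
      have := hs n c
      have e : (c • yv 𝕜 n : YF 𝕜) = (Finsupp.single n c : ℕ →₀ 𝕜) := by
        show c • (Finsupp.single n (1 : 𝕜) : ℕ →₀ 𝕜) = _
        rw [Finsupp.smul_single, smul_eq_mul, mul_one]
      rw [e] at this
      exact this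
  exact this x

/-- `Tot x` is the sum of all `mu x t` -/
theorem Tot_eq_S_zero (x : XF 𝕜) : ∃ B0, ∀ B, B0 ≤ B → Tot x = S (mu x) 0 B := by
  induction x using XF.induction with
  | h0 => exact ⟨0, fun B _ => by simp [Tot_zero, S, mu_zero]⟩
  | hadd y z hy hz =>
    obtain ⟨B1, h1⟩ := hy
    obtain ⟨B2, h2⟩ := hz
    refine ⟨max B1 B2, fun B hB => ?_⟩
    rw [Tot_add, h1 B (le_trans (le_max_left _ _) hB), h2 B (le_trans (le_max_right _ _) hB),
      ← S_add]
    congr 1
    funext t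
    rw [mu_add]
  | hs n c =>
    refine ⟨rd n, fun B hB => ?_⟩
    rw [Tot_smul, Tot_fF]
    have : (fun t => mu (c • fF 𝕜 n) t) = fun t => c • mu (fF 𝕜 n) t := by
      funext t; rw [mu_smul]
    show _ = S (fun t => mu (c • fF 𝕜 n) t) 0 B
    rw [this, S_smul]
    congr 1
    unfold S
    simp only [mu_fF]
    rw [Finset.sum_ite_eq, if_pos (by simpa using hB)]

theorem Tot_eq_S (x : XF 𝕜) {p q : ℕ} (h : ∀ t, ¬ (p ≤ t ∧ t ≤ q) → mu x t = 0) :
    Tot x = S (mu x) p q := by
  obtain ⟨B0, hB⟩ := Tot_eq_S_zero x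
  rw [hB (max B0 q) (le_max_left _ _), S_inter (mu x) h, max_eq_right (Nat.zero_le p),
    min_eq_right (le_max_right _ _)]

theorem norm_Tot_le (x : XF 𝕜) : ‖Tot x‖ ≤ ‖x‖ := by
  obtain ⟨B, hB⟩ := x.exists_mu_bound
  rw [Tot_eq_S x (p := 0) (q := B) fun t ht => hB t (by simpa using ht)]
  exact norm_S_mu_le x 0 B

end Pool.Agent.H10.TB
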