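import Pool.Agent.H10.TB.LemC
import Pool.Agent.H10.TB.LemD
import Pool.Agent.H10.TB.XApi

/-!
Theorems C_X and C_Y of f83316_proof.md (section 3).
-/

namespace Pool.Agent.H10.TB

open Finset

universe u

variable {𝕜 : Type u} [RCLike 𝕜]

theorem CXY.lt_of_lt {p q : ℕ → ℕ} (hpq : ∀ k, p k ≤ q k) (hqp : ∀ k, q k < p (k + 1)) {i j : ℕ}
    (hij : i < j) : q i < p j := by
  induction j with
  | zero => omega
  | succ j ih =>
    rcases Nat.lt_succ_iff_lt_or_eq.1 hij with h | rfl
    · exact ((ih h).trans_le (hpq j)).trans (hqp j)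
    · exact hqp i

/-- at most one non-zero term -/
theorem CXY.norm_sum_sq_le {E : Type*} [NormedAddCommGroup E] (n : ℕ) (f : ℕ → E)
    (h : ∀ i < n, ∀ j < n, i < j → f i = 0 ∨ f j = 0) :
    ‖∑ k ∈ range n, f k‖ ^ 2 ≤ ∑ k ∈ range n, ‖f k‖ ^ 2 := by
  by_cases h0 : ∀ k ∈ range n, f k = 0
  · rw [sum_eq_zero h0]
    simp only [norm_zero]
    have : 0 ≤ ∑ k ∈ range n, ‖f k‖ ^ 2 := sum_nonneg fun k _ => by positivity
    simpa using this
  · push Not at h0
    obtain ⟨k, hk, hfk⟩ := h0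
    rw [sum_eq_single k]
    · exact single_le_sum (f := fun k => ‖f k‖ ^ 2) (fun i _ => by positivity) hk
    · intro j hj hjk
      rw [mem_range] at hk hj
      rcases lt_or_gt_of_ne hjk with h' | h'
      · exact (h j hj k hk h').resolve_right hfk
      · exact (h k hk j hj h').resolve_left hfk
    · intro h'
      exact absurd hk h'

theorem thmCY (v : ℕ → YF 𝕜) (hv : YBlock v) (K : ℝ) : ∃ M : ℕ, ¬ Rep 𝕜 (Hs 𝕜) K v M := by
  obtain ⟨p, q, hpq, hqp, hsupp⟩ := hv.supp
  have hp : StrictMono p := strictMono_nat_of_lt_succ fun k => (hpq k).trans_lt (hqp k)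
  have hq : Monotone q := monotone_nat_of_le_succ fun k => ((hqp k).trans_le (hpq _)).le
  refine lemC (θ := 1 / 2) (by norm_num) v hv.norm_eq ?_ ?_ K
  · intro n
    refine ⟨n, fun κ hκ h0 e he => ?_⟩
    have hadm : Adm 0 (q (κ n)) n (fun i => p (κ i)) (fun i => q (κ i)) :=
      ⟨fun _ _ => Nat.zero_le _, fun i _ => hpq _, fun i hi => hq (hκ hi).le,
        fun i _ => CXY.lt_of_lt hpq hqp (hκ (Nat.lt_succ_self i)),
        h0.trans ((hp.id_le _).trans (le_phi _))⟩
    have h1 := YF.lower_estimate (fun i => ((e i : ℝ) : 𝕜) • v (κ i)) hadm (fun i _ t ht => by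
      rw [YF.smul_apply, hsupp _ t ht, mul_zero])
    have h2 : ∀ i, ‖((e i : ℝ) : 𝕜) • v (κ i)‖ = 1 := by
      intro i
      rw [norm_smul, hv.norm_eq, RCLike.norm_ofReal, mul_one]
      rcases he i with h | h <;> rw [h] <;> norm_num
    simp only [h2] at h1
    rw [sum_const, card_range, nsmul_eq_mul, mul_one] at h1
    linarith
  · intro κ hκ c hc
    have hdg : ∀ (n : ℕ) (a : ℕ → 𝕜), (fun r => ∑ k ∈ range n, a k • dg (v (κ k)) r) =
        dg (∑ k ∈ range n, a k • v (κ k)) := by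
      intro n a
      funext r
      simp only [dg, YF.sum_apply, YF.smul_apply, sum_smul, mul_smul]
    obtain ⟨n, b, hb0, hb1, hb2⟩ := lemD (𝕜 := 𝕜) (V := Hs 𝕜) (θ := 1 / 2) (by norm_num)
      (by norm_num) (fun k => dg (v (κ k))) (fun k => p (κ k)) (fun k => q (κ k))
      (fun k => hpq _) (fun k => CXY.lt_of_lt hpq hqp (hκ (Nat.lt_succ_self k)))
      (fun k t ht => by
        show dg (v (κ k)) t = 0
        rw [dg, hsupp _ t ht, zero_smul])
      (fun k => by
        show Nr (1 / 2) (dg (v (κ k))) (p (κ k)) (q (κ k)) = 1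
        rw [← YF.norm_eq _ (hsupp (κ k)), hv.norm_eq])
      (fun n c s t => by
        show ‖S (fun r => ∑ k ∈ range n, c k • dg (v (κ k)) r) s t‖ ^ 2 ≤
          2 * ∑ k ∈ range n, ‖c k‖ ^ 2 * ‖S (dg (v (κ k))) s t‖ ^ 2
        rw [hdg, norm_S_dg_sq]
        simp only [norm_S_dg_sq]
        have h1 : ∑ i ∈ Icc s t, ‖(∑ k ∈ range n, c k • v (κ k)) i‖ ^ 2 ≤
            ∑ i ∈ Icc s t, ∑ k ∈ range n, ‖c k‖ ^ 2 * ‖v (κ k) i‖ ^ 2 := by
          refine sum_le_sum fun i _ => ?_
          rw [YF.sum_apply]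
          refine (CXY.norm_sum_sq_le n (fun k => (c k • v (κ k)) i) ?_).trans (le_of_eq ?_)
          · intro k _ l _ hkl
            by_cases h : p (κ k) ≤ i ∧ i ≤ q (κ k)
            · right
              have := CXY.lt_of_lt hpq hqp (hκ hkl)
              show (c l • v (κ l)) i = 0
              rw [YF.smul_apply, hsupp _ i (by omega), mul_zero]
            · left
              show (c k • v (κ k)) i = 0
              rw [YF.smul_apply, hsupp _ i h, mul_zero]
          · refine sum_congr rfl fun k _ => ?_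
            show ‖(c k • v (κ k)) i‖ ^ 2 = _
            rw [YF.smul_apply, norm_mul, mul_pow]
        rw [sum_comm] at h1
        have h2 : ∑ k ∈ range n, ∑ i ∈ Icc s t, ‖c k‖ ^ 2 * ‖v (κ k) i‖ ^ 2 =
            ∑ k ∈ range n, ‖c k‖ ^ 2 * ∑ i ∈ Icc s t, ‖v (κ k) i‖ ^ 2 :=
          sum_congr rfl fun k _ => (mul_sum _ _ _).symm
        rw [h2] at h1
        have h3 : 0 ≤ ∑ k ∈ range n, ‖c k‖ ^ 2 * ∑ i ∈ Icc s t, ‖v (κ k) i‖ ^ 2 :=
          sum_nonneg fun k _ => mul_nonneg (by positivity) (sum_nonneg fun i _ => by positivity)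
        linarith)
      c hc
    refine ⟨n, b, hb0, hb1, fun e he => ?_⟩
    have h1 := hb2 e he
    have h2 : (fun t => ∑ k ∈ range n, ((e k * b k : ℝ) : 𝕜) • dg (v (κ k)) t) =
        dg (∑ k ∈ range n, ((e k * b k : ℝ) : 𝕜) • v (κ k)) := hdg n _
    have h3 : ∀ t, ¬ (0 ≤ t ∧ t ≤ q (κ n)) →
        (∑ k ∈ range n, ((e k * b k : ℝ) : 𝕜) • v (κ k)) t = 0 := by
      intro t ht
      rw [YF.sum_apply]
      refine sum_eq_zero fun k hk => ?_
      rw [mem_range] at hk
      have := hq (hκ hk).le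
      rw [YF.smul_apply, hsupp _ t (by omega), mul_zero]
    rw [YF.norm_eq _ h3]
    rw [← h2]
    exact h1

theorem thmCX (w : ℕ → XF 𝕜) (hw : ZBlock w) (K : ℝ) : ∃ M : ℕ, ¬ Rep 𝕜 (Hs 𝕜) K w M := by
  classical
  obtain ⟨p, q, hpq, hqp, hsupp⟩ := hw.supp
  have hp : StrictMono p := strictMono_nat_of_lt_succ fun k => (hpq k).trans_lt (hqp k)
  have hq : Monotone q := monotone_nat_of_le_succ fun k => ((hqp k).trans_le (hpq _)).le
  refine lemC (θ := 1 / 4) (by norm_num) w hw.norm_eq ?_ ?_ K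
  · intro n
    refine ⟨n, fun κ hκ h0 e he => ?_⟩
    have hadm : Adm 0 (q (κ n)) n (fun i => p (κ i)) (fun i => q (κ i)) :=
      ⟨fun _ _ => Nat.zero_le _, fun i _ => hpq _, fun i hi => hq (hκ hi).le,
        fun i _ => CXY.lt_of_lt hpq hqp (hκ (Nat.lt_succ_self i)),
        h0.trans ((hp.id_le _).trans (le_phi _))⟩
    have h1 := XF.lower_estimate (fun i => ((e i : ℝ) : 𝕜) • w (κ i)) hadm (fun i _ t ht => by
      rw [mu_smul, hsupp _ t ht, smul_zero])
    have h2 : ∀ i, ‖((e i : ℝ) : 𝕜) • w (κ i)‖ = 1 := by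
      intro i
      rw [norm_smul, hw.norm_eq, RCLike.norm_ofReal, mul_one]
      rcases he i with h | h <;> rw [h] <;> norm_num
    simp only [h2] at h1
    rw [sum_const, card_range, nsmul_eq_mul, mul_one] at h1
    linarith
  · intro κ hκ c hc
    have hmu : ∀ (n : ℕ) (a : ℕ → 𝕜), (fun r => ∑ k ∈ range n, a k • mu (w (κ k)) r) =
        mu (∑ k ∈ range n, a k • w (κ k)) := by
      intro n a
      funext r
      rw [mu_sum]
      exact sum_congr rfl fun k _ => (mu_smul _ _ _).symm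
    obtain ⟨n, b, hb0, hb1, hb2⟩ := lemD (𝕜 := 𝕜) (V := YF 𝕜) (θ := 1 / 4) (by norm_num)
      (by norm_num) (fun k => mu (w (κ k))) (fun k => p (κ k)) (fun k => q (κ k))
      (fun k => hpq _) (fun k => CXY.lt_of_lt hpq hqp (hκ (Nat.lt_succ_self k)))
      (fun k t ht => hsupp _ t ht)
      (fun k => by
        show Nr (1 / 4) (mu (w (κ k))) (p (κ k)) (q (κ k)) = 1
        rw [← XF.norm_eq _ (hsupp (κ k)), hw.norm_eq])
      (fun n c s t => by
        have hzero : ∀ k, ¬ (p (κ k) < s ∧ s ≤ q (κ k)) → ¬ (p (κ k) ≤ t ∧ t < q (κ k)) →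
            S (mu (w (κ k))) s t = 0 := by
          intro k h1 h2
          rw [S_inter _ (hsupp (κ k))]
          by_cases h3 : s ≤ p (κ k) ∧ q (κ k) ≤ t
          · rw [max_eq_right h3.1, min_eq_right h3.2, ← Tot_eq_S _ (hsupp (κ k)), hw.tot]
          · apply S_of_lt
            have := hpq (κ k)
            omega
        have hS : S (fun r => ∑ k ∈ range n, c k • mu (w (κ k)) r) s t =
            ∑ k ∈ range n, c k • S (mu (w (κ k))) s t := by
          rw [S_sum]
          exact sum_congr rfl fun k _ => S_smul _ _ _ _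
        show ‖S (fun r => ∑ k ∈ range n, c k • mu (w (κ k)) r) s t‖ ^ 2 ≤
          2 * ∑ k ∈ range n, ‖c k‖ ^ 2 * ‖S (mu (w (κ k))) s t‖ ^ 2
        rw [hS]
        set f : ℕ → YF 𝕜 := fun k => c k • S (mu (w (κ k))) s t with hf
        set g : ℕ → YF 𝕜 := fun k => if p (κ k) < s ∧ s ≤ q (κ k) then f k else 0 with hg
        set h : ℕ → YF 𝕜 := fun k => if p (κ k) < s ∧ s ≤ q (κ k) then 0 else f k with hh
        have hfgh : ∀ k, f k = g k + h k := by
          intro k
          simp only [hg, hh]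
          split_ifs <;> simp
        have hfgh2 : ∀ k, ‖f k‖ ^ 2 = ‖g k‖ ^ 2 + ‖h k‖ ^ 2 := by
          intro k
          simp only [hg, hh]
          split_ifs <;> simp
        have h1 : ‖∑ k ∈ range n, g k‖ ^ 2 ≤ ∑ k ∈ range n, ‖g k‖ ^ 2 := by
          refine CXY.norm_sum_sq_le n g fun k _ l _ hkl => ?_
          have := CXY.lt_of_lt hpq hqp (hκ hkl)
          by_cases h' : p (κ k) < s ∧ s ≤ q (κ k)
          · right
            simp only [hg]
            rw [if_neg]
            omega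
          · left
            simp only [hg]
            rw [if_neg h']
        have h2 : ‖∑ k ∈ range n, h k‖ ^ 2 ≤ ∑ k ∈ range n, ‖h k‖ ^ 2 := by
          refine CXY.norm_sum_sq_le n h fun k _ l _ hkl => ?_
          have := CXY.lt_of_lt hpq hqp (hκ hkl)
          by_cases h' : p (κ k) ≤ t ∧ t < q (κ k)
          · right
            simp only [hh]
            split_ifs with h3
            · rfl
            · simp only [hf]
              rw [hzero l h3 (by omega), smul_zero]
          · left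
            simp only [hh]
            split_ifs with h3
            · rfl
            · simp only [hf]
              rw [hzero k h3 h', smul_zero]
        have h3 : ‖∑ k ∈ range n, f k‖ ≤ ‖∑ k ∈ range n, g k‖ + ‖∑ k ∈ range n, h k‖ := by
          rw [show ∑ k ∈ range n, f k = ∑ k ∈ range n, g k + ∑ k ∈ range n, h k by
            rw [← sum_add_distrib]; exact sum_congr rfl fun k _ => hfgh k]
          exact norm_add_le _ _
        have h4 : ∑ k ∈ range n, ‖c k‖ ^ 2 * ‖S (mu (w (κ k))) s t‖ ^ 2 =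
            ∑ k ∈ range n, ‖g k‖ ^ 2 + ∑ k ∈ range n, ‖h k‖ ^ 2 := by
          rw [← sum_add_distrib]
          refine sum_congr rfl fun k _ => ?_
          rw [← hfgh2, hf, norm_smul, mul_pow]
        rw [h4]
        have h5 := norm_nonneg (∑ k ∈ range n, f k)
        have h6 := norm_nonneg (∑ k ∈ range n, g k)
        have h7 := norm_nonneg (∑ k ∈ range n, h k)
        have h8 : ‖∑ k ∈ range n, f k‖ ^ 2 ≤
            (‖∑ k ∈ range n, g k‖ + ‖∑ k ∈ range n, h k‖) ^ 2 := by gcongr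
        nlinarith [sq_nonneg (‖∑ k ∈ range n, g k‖ - ‖∑ k ∈ range n, h k‖)])
      c hc
    refine ⟨n, b, hb0, hb1, fun e he => ?_⟩
    have h1 := hb2 e he
    have h2 : (fun t => ∑ k ∈ range n, ((e k * b k : ℝ) : 𝕜) • mu (w (κ k)) t) =
        mu (∑ k ∈ range n, ((e k * b k : ℝ) : 𝕜) • w (κ k)) := hmu n _
    have h3 : ∀ t, ¬ (0 ≤ t ∧ t ≤ q (κ n)) →
        mu (∑ k ∈ range n, ((e k * b k : ℝ) : 𝕜) • w (κ k)) t = 0 := by
      intro t ht
      rw [mu_sum]
      refine sum_eq_zero fun k hk => ?_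
      rw [mem_range] at hk
      have := hq (hκ hk).le
      rw [mu_smul, hsupp _ t (by omega), smul_zero]
    rw [XF.norm_eq _ h3]
    rw [← h2]
    exact h1

end Pool.Agent.H10.TB
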