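import Pool.Agent.H10.TB.Bases

/-!
Extraction of zero mass block sequences (section 4c of f83316_proof.md).
-/

namespace Pool.Agent.H10.TB

open Finset UniformSpace

universe u

variable {𝕜 : Type u} [RCLike 𝕜]

/-! ### auxiliary lemmas -/

theorem mu_sub (x y : XF 𝕜) (t : ℕ) : mu (x - y) t = mu x t - mu y t := by
  rw [sub_eq_add_neg, mu_add, ← neg_one_smul 𝕜 y, mu_smul, neg_one_smul, ← sub_eq_add_neg]

theorem Tot_sub (x y : XF 𝕜) : Tot (x - y) = Tot x - Tot y := by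
  rw [sub_eq_add_neg, Tot_add, ← neg_one_smul 𝕜 y, Tot_smul, neg_one_smul, ← sub_eq_add_neg]

theorem mu_fF_diag (i t : ℕ) : mu (fF 𝕜 (tri i + i)) t = if t = i then yv 𝕜 i else 0 := by
  refine YF.ext fun j => ?_
  rw [mu_apply, fF_apply]
  by_cases hj : j ≤ t
  · rw [if_pos hj]
    by_cases h : tri i + i = tri t + j
    · have h1 : rd (tri i + i) = i := rd_tri_add le_rfl
      have h2 : rd (tri t + j) = t := rd_tri_add hj
      have h3 : ix (tri i + i) = i := ix_tri_add le_rfl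
      have h4 : ix (tri t + j) = j := ix_tri_add hj
      rw [h] at h1 h3
      have ht : t = i := h2.symm.trans h1
      have hji : j = i := h4.symm.trans h3
      rw [if_pos h, if_pos ht, yv_apply, if_pos hji.symm]
    · rw [if_neg h]
      by_cases ht : t = i
      · rw [if_pos ht, yv_apply, if_neg]
        rintro rfl
        exact h (by rw [ht])
      · rw [if_neg ht]
        rfl
  · rw [if_neg hj]
    by_cases ht : t = i
    · rw [if_pos ht, yv_apply, if_neg]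
      rintro rfl
      exact hj (by rw [ht])
    · rw [if_neg ht]
      rfl

theorem mu_Jr_id (y : YF 𝕜) (t : ℕ) : mu (Jr id y) t = y t • yv 𝕜 t := by
  have h1 : ∀ z : ℕ →₀ 𝕜, mu (Jr id (show YF 𝕜 from z)) t = (show YF 𝕜 from z) t • yv 𝕜 t := by
    intro z
    induction z using Finsupp.induction_linear with
    | zero =>
      have : Jr id (0 : YF 𝕜) = 0 := by
        have := Jr_smul id (0 : 𝕜) (0 : YF 𝕜)
        rwa [zero_smul, zero_smul] at this
      refine (congrArg (fun x => mu x t) this).trans ?_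
      rw [mu_zero]
      exact (zero_smul 𝕜 (yv 𝕜 t)).symm
    | add f g hf hg =>
      have h2 : Jr id ((show YF 𝕜 from f) + (show YF 𝕜 from g)) = _ := Jr_add id _ _
      refine (congrArg (fun x => mu x t) h2).trans ?_
      rw [mu_add]
      refine (congrArg₂ (· + ·) hf hg).trans ?_
      rw [← add_smul]
      rfl
    | single i c =>
      have h2 : (show YF 𝕜 from Finsupp.single i c) = c • yv 𝕜 i := by
        refine YF.ext fun j => ?_
        rw [YF.smul_apply, yv_apply]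
        have : (show YF 𝕜 from Finsupp.single i c) j = if i = j then c else 0 :=
          Finsupp.single_apply ..
        rw [this]
        split_ifs <;> simp
      rw [h2, Jr_smul, Jr_yv, mu_smul, YF.smul_apply, yv_apply]
      have h3 := mu_fF_diag (𝕜 := 𝕜) i t
      simp only [id]
      rw [h3]
      by_cases ht : t = i
      · subst ht
        simp
      · rw [if_neg ht, if_neg (fun h => ht h.symm)]
        simp
  exact h1 y

/-- the norm of a linear combination restricted to one block -/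
theorem ZBlock.norm_coeff_le {w : ℕ → XF 𝕜} (hw : ZBlock w) (M : ℕ) (b : ℕ → 𝕜) {k : ℕ}
    (hk : k < M) : ‖b k‖ ≤ ‖∑ j ∈ range M, b j • w j‖ := by
  obtain ⟨p, q, hpq, hlt, hs⟩ := hw.supp
  have hmono : ∀ i j, i < j → q i < p j := by
    intro i j hij
    induction j, hij using Nat.le_induction with
    | base => exact hlt i
    | succ n _ ih => exact (ih.trans_le (hpq n)).trans (hlt n)
  have h1 := Nr_mu_le (∑ j ∈ range M, b j • w j) (p k) (q k)
  have h2 : Nr (1 / 4) (mu (∑ j ∈ range M, b j • w j)) (p k) (q k) =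
      Nr (1 / 4) (mu (b k • w k)) (p k) (q k) := by
    refine Nr_congr _ _ fun t ht1 ht2 => ?_
    rw [mu_sum, Finset.sum_eq_single k]
    · intro j _ hjk
      rw [mu_smul, hs j t, smul_zero]
      rintro ⟨h3, h4⟩
      rcases Nat.lt_or_gt_of_ne hjk with h | h
      · have := hmono _ _ h
        omega
      · have := hmono _ _ h
        omega
    · intro h
      exact absurd (Finset.mem_range.2 hk) h
  have h3 : ‖b k • w k‖ = Nr (1 / 4) (mu (b k • w k)) (p k) (q k) :=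
    XF.norm_eq _ fun t ht => by rw [mu_smul, hs k t ht, smul_zero]
  rw [h2, ← h3, norm_smul, hw.norm_eq, mul_one] at h1
  exact h1

theorem YBlock.norm_coeff_le {v : ℕ → YF 𝕜} (hv : YBlock v) (M : ℕ) (b : ℕ → 𝕜) {k : ℕ}
    (hk : k < M) : ‖b k‖ ≤ ‖∑ j ∈ range M, b j • v j‖ := by
  obtain ⟨p, q, hpq, hlt, hs⟩ := hv.supp
  have hmono : ∀ i j, i < j → q i < p j := by
    intro i j hij
    induction j, hij using Nat.le_induction with
    | base => exact hlt i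
    | succ n _ ih => exact (ih.trans_le (hpq n)).trans (hlt n)
  have h1 := YF.norm_restrict_le (∑ j ∈ range M, b j • v j) (Set.Icc (p k) (q k))
  have h2 : (∑ j ∈ range M, b j • v j).restrict (Set.Icc (p k) (q k)) = b k • v k := by
    refine YF.ext fun t => ?_
    rw [YF.restrict_apply]
    split_ifs with ht
    · rw [YF.sum_apply, Finset.sum_eq_single k]
      · intro j _ hjk
        rw [YF.smul_apply, hs j t, mul_zero]
        rintro ⟨h3, h4⟩
        obtain ⟨h5, h6⟩ := ht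
        rcases Nat.lt_or_gt_of_ne hjk with h | h
        · have := hmono _ _ h
          omega
        · have := hmono _ _ h
          omega
      · intro h
        exact absurd (Finset.mem_range.2 hk) h
    · rw [YF.smul_apply, hs k t (fun h => ht h), mul_zero]
  rw [h2, norm_smul, hv.norm_eq, mul_one] at h1
  exact h1

/-- geometric perturbations -/
theorem perturb_gen {E : Type*} [NormedAddCommGroup E] [NormedSpace 𝕜 E] (g x : ℕ → E)
    (hg : ∀ k, ‖g k - x k‖ ≤ (1 / 2) ^ (k + 5)) (M : ℕ) (b : ℕ → 𝕜)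
    (hb : ∀ k < M, ‖b k‖ ≤ ‖∑ k ∈ range M, b k • x k‖) :
    3 / 4 * ‖∑ k ∈ range M, b k • x k‖ ≤ ‖∑ k ∈ range M, b k • g k‖ ∧
      ‖∑ k ∈ range M, b k • g k‖ ≤ 5 / 4 * ‖∑ k ∈ range M, b k • x k‖ := by
  set R := ‖∑ k ∈ range M, b k • x k‖ with hR
  have hR0 : 0 ≤ R := norm_nonneg _
  have hd : ‖∑ k ∈ range M, b k • g k - ∑ k ∈ range M, b k • x k‖ ≤ 1 / 16 * R := by
    rw [← Finset.sum_sub_distrib]
    have h1 : ∀ k ∈ range M, ‖b k • g k - b k • x k‖ ≤ R * (1 / 2) ^ (k + 5) := by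
      intro k hk
      rw [← smul_sub, norm_smul]
      exact mul_le_mul (hb k (Finset.mem_range.1 hk)) (hg k) (norm_nonneg _) hR0
    refine (norm_sum_le_of_le _ h1).trans ?_
    rw [← Finset.mul_sum, mul_comm]
    refine mul_le_mul_of_nonneg_right ?_ hR0
    have h2 : ∀ n : ℕ, ∑ k ∈ range n, (1 / 2 : ℝ) ^ (k + 5) ≤ 1 / 16 := by
      intro n
      have : ∀ n : ℕ, ∑ k ∈ range n, (1 / 2 : ℝ) ^ (k + 5) = 1 / 16 - (1 / 2) ^ (n + 4) := by
        intro n
        induction n with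
        | zero => norm_num
        | succ n ih =>
          rw [Finset.sum_range_succ, ih]
          ring
      rw [this]
      have : (0 : ℝ) ≤ (1 / 2) ^ (n + 4) := by positivity
      linarith
    exact h2 M
  constructor
  · have := norm_sub_norm_le (∑ k ∈ range M, b k • x k) (∑ k ∈ range M, b k • g k)
    rw [norm_sub_rev] at this
    linarith
  · have := norm_sub_norm_le (∑ k ∈ range M, b k • g k) (∑ k ∈ range M, b k • x k)
    linarith

theorem coe_sum_smul {E : Type*} [NormedAddCommGroup E] [NormedSpace 𝕜 E] (s : Finset ℕ)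
    (b : ℕ → 𝕜) (x : ℕ → E) :
    ((∑ k ∈ s, b k • x k : E) : Completion E) = ∑ k ∈ s, b k • (x k : Completion E) := by
  have h := map_sum (Completion.toComplL (𝕜 := 𝕜) (E := E)) (fun k => b k • x k) s
  simp only [map_smul] at h
  exact h

theorem coe_sub' {E : Type*} [NormedAddCommGroup E] (x y : E) :
    ((x - y : E) : Completion E) = (x : Completion E) - (y : Completion E) :=
  Completion.coe_sub x y

/-- coordinates of combinations of the `e n` from round `n` on -/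
theorem Tot_comb_eF (c : ℕ → 𝕜) (n n' : ℕ) :
    ∀ i < n, Tot (∑ k ∈ Ico (tri n) (tri n'), c k • eF 𝕜 k) i = 0 := by
  intro i hi
  rw [Tot_sum, YF.sum_apply]
  refine Finset.sum_eq_zero fun k hk => ?_
  rw [Tot_smul, YF.smul_apply]
  have hk1 := (Finset.mem_Ico.1 hk).1
  have hrd : n ≤ rd k := by
    by_contra h
    have h1 : rd k + 1 ≤ n := by omega
    have h2 := tri_strictMono.monotone h1
    have h3 := lt_tri_rd_succ k
    omega
  rcases Nat.lt_or_ge (ix k) (rd k) with h | h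
  · rw [Tot_eF_of_lt k h]
    exact mul_zero _
  · rw [Tot_eF_of_eq k (le_antisymm (ix_le_rd k) h), yv_apply, if_neg (by omega), mul_zero]

theorem mu_comb_eF (c : ℕ → 𝕜) (n n' t : ℕ) (ht : t + 1 < n) :
    mu (∑ k ∈ Ico (tri n) (tri n'), c k • eF 𝕜 k) t = 0 := by
  rw [mu_sum]
  refine Finset.sum_eq_zero fun k hk => ?_
  have hk1 := (Finset.mem_Ico.1 hk).1
  have hrd : n ≤ rd k := by
    by_contra h
    have h1 : rd k + 1 ≤ n := by omega
    have h2 := tri_strictMono.monotone h1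
    have h3 := lt_tri_rd_succ k
    omega
  rw [mu_smul, mu_eF_of_gt k t (by omega), smul_zero]

/-- one step of the extraction -/
theorem extract_step (G : Set (XC 𝕜))
    (hG : ∀ (n : ℕ) (δ : ℝ), 0 < δ → ∃ g ∈ G, ‖g‖ = 1 ∧ ‖TotC 𝕜 g‖ + ‖Rn 𝕜 n g‖ < δ)
    (P : ℕ) (ε : ℝ) (hε : 0 < ε) : ∃ g ∈ G, ∃ w : XF 𝕜, ‖w‖ = 1 ∧ Tot w = 0 ∧
      (∀ t < P, mu w t = 0) ∧ ‖g - (w : XC 𝕜)‖ ≤ ε := by
  set δ : ℝ := min (ε / 28) (1 / 28) with hδ
  have hδ0 : 0 < δ := lt_min (by positivity) (by norm_num)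
  have hδ1 : δ ≤ ε / 28 := min_le_left _ _
  have hδ2 : δ ≤ 1 / 28 := min_le_right _ _
  obtain ⟨g, hgG, hg1, hg2⟩ := hG (P + 1) δ hδ0
  -- a late partial sum
  obtain ⟨n', hn', hn'd⟩ : ∃ n', P + 1 ≤ n' ∧ ‖g - Rn 𝕜 n' g‖ < δ := by
    have h1 := SchauderBasis.tendsto_proj (eB 𝕜) g
    have h2 : Filter.Tendsto (fun n => (eB 𝕜).proj (tri n) g) Filter.atTop (nhds g) :=
      h1.comp tri_strictMono.tendsto_atTop
    obtain ⟨N, hN⟩ := (Metric.tendsto_atTop.1 h2) δ hδ0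
    refine ⟨max N (P + 1), le_max_right _ _, ?_⟩
    have := hN (max N (P + 1)) (le_max_left _ _)
    rw [dist_eq_norm, norm_sub_rev] at this
    exact this
  set h₀ : XF 𝕜 := ∑ k ∈ Ico (tri (P + 1)) (tri n'), (eB 𝕜).coord k g • eF 𝕜 k with hh₀
  have hh : (h₀ : XC 𝕜) = Rn 𝕜 n' g - Rn 𝕜 (P + 1) g := by
    rw [hh₀, coe_sum_smul]
    unfold Rn
    rw [SchauderBasis.proj_apply, SchauderBasis.proj_apply,
      ← Finset.sum_range_add_sum_Ico _ (tri_strictMono.monotone hn'), add_sub_cancel_left]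
    refine Finset.sum_congr rfl fun k _ => ?_
    rw [eB_apply]
  have hT0 := norm_nonneg (TotC 𝕜 g)
  have hR0 := norm_nonneg (Rn 𝕜 (P + 1) g)
  have hgh : ‖g - (h₀ : XC 𝕜)‖ ≤ 2 * δ := by
    have : g - (h₀ : XC 𝕜) = (g - Rn 𝕜 n' g) + Rn 𝕜 (P + 1) g := by
      rw [hh]
      abel
    rw [this]
    refine (norm_add_le _ _).trans ?_
    linarith
  have hTot : ‖Tot h₀‖ ≤ 3 * δ := by
    have h1 : ‖Tot h₀‖ = ‖TotC 𝕜 (h₀ : XC 𝕜)‖ := by
      rw [TotC_coe, Completion.norm_coe]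
    have h2 : TotC 𝕜 (h₀ : XC 𝕜) = TotC 𝕜 g - TotC 𝕜 (g - (h₀ : XC 𝕜)) := by
      rw [map_sub]
      abel
    rw [h1, h2]
    refine (norm_sub_le _ _).trans ?_
    have := norm_TotC_le (g - (h₀ : XC 𝕜))
    linarith
  have hJ : ‖Jr id (Tot h₀)‖ ≤ 12 * δ := by
    have := norm_Jr_le (𝕜 := 𝕜) (r := id) (fun k => le_rfl) monotone_id (fun k l h => h) (Tot h₀)
    linarith
  set w' : XF 𝕜 := h₀ - Jr id (Tot h₀) with hw'
  have hTw : Tot w' = 0 := by
    rw [hw', Tot_sub, Tot_Jr (r := id) (fun k => le_rfl), sub_self]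
  have hgw : ‖g - (w' : XC 𝕜)‖ ≤ 14 * δ := by
    have : g - (w' : XC 𝕜) = (g - (h₀ : XC 𝕜)) + ((Jr id (Tot h₀) : XF 𝕜) : XC 𝕜) := by
      rw [hw', coe_sub']
      abel
    rw [this]
    refine (norm_add_le _ _).trans ?_
    rw [Completion.norm_coe]
    linarith
  have hwn : |‖w'‖ - 1| ≤ 14 * δ := by
    have h1 : ‖(w' : XC 𝕜)‖ = ‖w'‖ := Completion.norm_coe _
    rw [← h1, ← hg1, abs_sub_comm]
    exact (abs_norm_sub_norm_le _ _).trans hgw
  have hwpos : 0 < ‖w'‖ := by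
    have := (abs_le.1 hwn).1
    linarith
  refine ⟨g, hgG, ((‖w'‖⁻¹ : ℝ) : 𝕜) • w', ?_, ?_, ?_, ?_⟩
  · rw [norm_smul, RCLike.norm_ofReal, abs_of_pos (inv_pos.2 hwpos), inv_mul_cancel₀ hwpos.ne']
  · rw [Tot_smul, hTw, smul_zero]
  · intro t ht
    rw [mu_smul, hw', mu_sub, hh₀, mu_comb_eF _ _ _ _ (by omega), ← hh₀, mu_Jr_id,
      Tot_comb_eF _ _ _ t (by omega), zero_smul, sub_zero, smul_zero]
  · have h1 : ‖w' - ((‖w'‖⁻¹ : ℝ) : 𝕜) • w'‖ ≤ 14 * δ := by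
      have h2 : w' - ((‖w'‖⁻¹ : ℝ) : 𝕜) • w' = ((1 - ‖w'‖⁻¹ : ℝ) : 𝕜) • w' := by
        rw [RCLike.ofReal_sub, sub_smul, RCLike.ofReal_one, one_smul]
      rw [h2, norm_smul, RCLike.norm_ofReal]
      have h3 : |1 - ‖w'‖⁻¹| * ‖w'‖ = |‖w'‖ - 1| := by
        rw [← abs_of_pos hwpos, ← abs_mul, abs_of_pos hwpos, sub_mul, one_mul,
          inv_mul_cancel₀ hwpos.ne']
      rw [h3]
      exact hwn
    have h4 : g - ((((‖w'‖⁻¹ : ℝ) : 𝕜) • w' : XF 𝕜) : XC 𝕜) =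
        (g - (w' : XC 𝕜)) + ((w' - ((‖w'‖⁻¹ : ℝ) : 𝕜) • w' : XF 𝕜) : XC 𝕜) := by
      rw [coe_sub' w' (((‖w'‖⁻¹ : ℝ) : 𝕜) • w')]
      abel
    rw [h4]
    refine (norm_add_le _ _).trans ?_
    rw [Completion.norm_coe]
    linarith

/-- EXTRACTION (4c). -/
theorem extraction (G : Set (XC 𝕜))
    (hG : ∀ (n : ℕ) (δ : ℝ), 0 < δ → ∃ g ∈ G, ‖g‖ = 1 ∧ ‖TotC 𝕜 g‖ + ‖Rn 𝕜 n g‖ < δ) :
    ∃ (g : ℕ → XC 𝕜) (w : ℕ → XF 𝕜), (∀ k, g k ∈ G) ∧ ZBlock w ∧
      ∀ k, ‖g k - (w k : XC 𝕜)‖ ≤ (1 / 2) ^ (k + 5) := by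
  have step : ∀ (k P : ℕ), ∃ (g : XC 𝕜) (w : XF 𝕜) (B : ℕ), g ∈ G ∧ ‖w‖ = 1 ∧ Tot w = 0 ∧
      P ≤ B ∧ (∀ t, ¬ (P ≤ t ∧ t ≤ B) → mu w t = 0) ∧ ‖g - (w : XC 𝕜)‖ ≤ (1 / 2) ^ (k + 5) := by
    intro k P
    obtain ⟨g, hg, w, h1, h2, h3, h4⟩ := extract_step G hG P ((1 / 2) ^ (k + 5)) (by positivity)
    obtain ⟨B, hB⟩ := w.exists_mu_bound
    refine ⟨g, w, max P B, hg, h1, h2, le_max_left _ _, ?_, h4⟩
    intro t ht
    rcases Nat.lt_or_ge t P with h | h
    · exact h3 t h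
    · refine hB t ?_
      by_contra hc
      exact ht ⟨h, (not_lt.1 hc).trans (le_max_right _ _)⟩
  choose g w B hg hn ht hPB hs hgw using step
  let P : ℕ → ℕ := fun k => Nat.rec 0 (fun k p => B k p + 1) k
  have hP : ∀ k, P (k + 1) = B k (P k) + 1 := fun k => rfl
  refine ⟨fun k => g k (P k), fun k => w k (P k), fun k => hg _ _, ⟨fun k => hn _ _,
    fun k => ht _ _, P, fun k => B k (P k), fun k => hPB _ _, fun k => ?_, fun k t h => hs _ _ t h⟩,
    fun k => hgw _ _⟩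
  rw [hP]
  exact Nat.lt_succ_self _

/-- small perturbations of zero mass block sequences -/
theorem perturbZ {w : ℕ → XF 𝕜} (hw : ZBlock w) {g : ℕ → XC 𝕜}
    (hg : ∀ k, ‖g k - (w k : XC 𝕜)‖ ≤ (1 / 2) ^ (k + 5)) (M : ℕ) (b : ℕ → 𝕜) :
    3 / 4 * ‖∑ k ∈ range M, b k • w k‖ ≤ ‖∑ k ∈ range M, b k • g k‖ ∧
      ‖∑ k ∈ range M, b k • g k‖ ≤ 5 / 4 * ‖∑ k ∈ range M, b k • w k‖ := by
  have h : ‖∑ k ∈ range M, b k • w k‖ = ‖∑ k ∈ range M, b k • (w k : XC 𝕜)‖ := by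
    rw [← coe_sum_smul, Completion.norm_coe]
  rw [h]
  refine perturb_gen g (fun k => (w k : XC 𝕜)) hg M b fun k hk => ?_
  rw [← h]
  exact hw.norm_coeff_le M b hk

/-- small perturbations of block sequences of `YF` -/
theorem perturbY {v : ℕ → YF 𝕜} (hv : YBlock v) {g : ℕ → Completion (YF 𝕜)}
    (hg : ∀ k, ‖g k - (v k : Completion (YF 𝕜))‖ ≤ (1 / 2) ^ (k + 5)) (M : ℕ) (b : ℕ → 𝕜) :
    3 / 4 * ‖∑ k ∈ range M, b k • v k‖ ≤ ‖∑ k ∈ range M, b k • g k‖ ∧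
      ‖∑ k ∈ range M, b k • g k‖ ≤ 5 / 4 * ‖∑ k ∈ range M, b k • v k‖ := by
  have h : ‖∑ k ∈ range M, b k • v k‖ = ‖∑ k ∈ range M, b k • (v k : Completion (YF 𝕜))‖ := by
    rw [← coe_sum_smul, Completion.norm_coe]
  rw [h]
  refine perturb_gen g (fun k => (v k : Completion (YF 𝕜))) hg M b fun k hk => ?_
  rw [← h]
  exact hv.norm_coeff_le M b hk

end Pool.Agent.H10.TB
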