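import Pool.Agent.H10.TB.Bases

/-!
Section 5 of f83316_proof.md: the basis `f` is not tight.
-/

namespace Pool.Agent.H10.TB

open Finset UniformSpace

universe u

variable {𝕜 : Type u} [RCLike 𝕜]

namespace NTF

/-! ### extension of `Jr r` to the completions -/

/-- `Jr r` as a linear map -/
noncomputable def JL (𝕜 : Type u) [RCLike 𝕜] (r : ℕ → ℕ) : YF 𝕜 →ₗ[𝕜] XF 𝕜 where
  toFun := Jr r
  map_add' := Jr_add r
  map_smul' := Jr_smul r

theorem exists_ext {r : ℕ → ℕ} (hk : ∀ k, k ≤ r k) (hm : Monotone r)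
    (hr : ∀ k l, r k < r l → r k < l) :
    ∃ T : Completion (YF 𝕜) →L[𝕜] XC 𝕜, (∀ y : YF 𝕜, T (y : Completion (YF 𝕜)) =
      ((Jr r y : XF 𝕜) : XC 𝕜)) ∧ (∀ y, ‖y‖ ≤ ‖T y‖) ∧ ∀ y, ‖T y‖ ≤ 4 * ‖y‖ := by
  let J1 : YF 𝕜 →L[𝕜] XF 𝕜 := (JL 𝕜 r).mkContinuous 4 (norm_Jr_le hk hm hr)
  let e : YF 𝕜 →L[𝕜] Completion (YF 𝕜) := Completion.toComplL
  let f : YF 𝕜 →L[𝕜] XC 𝕜 := Completion.toComplL.comp J1
  have hd : DenseRange e := Completion.denseRange_coe
  have hu : IsUniformInducing e := Completion.isUniformInducing_coe _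
  refine ⟨f.extend e, ?_, ?_, ?_⟩
  · intro y
    exact ContinuousLinearMap.extend_eq f hd hu y
  · intro y
    refine Completion.induction_on y (isClosed_le (by fun_prop) (by fun_prop)) fun z => ?_
    have : f.extend e (z : Completion (YF 𝕜)) = ((Jr r z : XF 𝕜) : XC 𝕜) :=
      ContinuousLinearMap.extend_eq f hd hu z
    rw [this, Completion.norm_coe, Completion.norm_coe]
    exact norm_le_Jr hk z
  · intro y
    refine Completion.induction_on y (isClosed_le (by fun_prop) (by fun_prop)) fun z => ?_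
    have : f.extend e (z : Completion (YF 𝕜)) = ((Jr r z : XF 𝕜) : XC 𝕜) :=
      ContinuousLinearMap.extend_eq f hd hu z
    rw [this, Completion.norm_coe, Completion.norm_coe]
    exact norm_Jr_le hk hm hr z

theorem YF.eq_sum (y : YF 𝕜) : ∃ s : Finset ℕ, y = ∑ k ∈ s, y k • yv 𝕜 k := by
  obtain ⟨B, hB⟩ := y.exists_bound
  refine ⟨range (B + 1), YF.ext fun i => ?_⟩
  rw [YF.sum_apply]
  simp only [YF.smul_apply, yv_apply, mul_ite, mul_one, mul_zero]
  rw [Finset.sum_ite_eq']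
  split_ifs with h
  · rfl
  · refine hB i ?_
    rw [mem_range] at h
    omega

theorem Jr_mem_span {r : ℕ → ℕ} {P : Set ℕ} (hP : ∀ k, tri (r k) + k ∈ P) (y : YF 𝕜) :
    ((Jr r y : XF 𝕜) : XC 𝕜) ∈ Submodule.span 𝕜 (fB 𝕜 '' P) := by
  obtain ⟨s, hs⟩ := YF.eq_sum y
  have h1 : ((Jr r y : XF 𝕜) : XC 𝕜) = ∑ k ∈ s, y k • fB 𝕜 (tri (r k) + k) := by
    have h2 : Jr r y = ∑ k ∈ s, y k • fF 𝕜 (tri (r k) + k) := by
      conv_lhs => rw [hs]
      change JL 𝕜 r (∑ k ∈ s, y k • yv 𝕜 k) = _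
      rw [map_sum]
      refine sum_congr rfl fun k _ => ?_
      rw [map_smul]
      change y k • Jr r (yv 𝕜 k) = _
      rw [Jr_yv]
    rw [h2]
    change (Completion.toComplL (𝕜 := 𝕜) (E := XF 𝕜)
      (∑ k ∈ s, y k • fF 𝕜 (tri (r k) + k)) : XC 𝕜) = _
    rw [map_sum]
    refine sum_congr rfl fun k _ => ?_
    rw [map_smul, fB_apply]
    rfl
  rw [h1]
  exact Submodule.sum_mem _ fun k _ => Submodule.smul_mem _ _
    (Submodule.subset_span ⟨_, hP k, rfl⟩)

/-! ### rounds -/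

theorem le_rd_iff {r n : ℕ} : r ≤ rd n ↔ tri r ≤ n := by
  constructor
  · intro h
    exact (tri_strictMono.monotone h).trans (tri_rd_le n)
  · intro h
    by_contra hlt
    rw [not_le] at hlt
    have h1 := lt_tri_rd_succ n
    have h2 : tri (rd n + 1) ≤ tri r := tri_strictMono.monotone hlt
    omega

theorem rd_mono : Monotone rd := fun _ _ h => le_rd_iff.2 ((tri_rd_le _).trans h)

/-- the sparse subsequence of gaps -/
def sq (lo hi : ℕ → ℕ) : ℕ → ℕ
  | 0 => 0
  | j + 1 => max (sq lo hi j + 1) (tri (rd (hi (sq lo hi j)) + 2))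

theorem sq_strictMono (lo hi : ℕ → ℕ) : StrictMono (sq lo hi) :=
  strictMono_nat_of_lt_succ fun j => by
    show sq lo hi j < max (sq lo hi j + 1) _
    exact (Nat.lt_succ_self _).trans_le (le_max_left _ _)

section

variable (a b : ℕ → ℕ)

open Classical in
/-- the shifted times -/
noncomputable def rr (k : ℕ) : ℕ := if h : ∃ j, a j ≤ k ∧ k ≤ b j then b h.choose + 1 else k

variable {a b}
variable (hab : ∀ j, a j ≤ b j) (hsep : ∀ j, b j + 1 < a (j + 1))

include hab hsep in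
theorem sep_lt {i j : ℕ} (h : i < j) : b i + 1 < a j := by
  induction j with
  | zero => exact absurd h (Nat.not_lt_zero _)
  | succ j ih =>
    rcases Nat.lt_succ_iff_lt_or_eq.1 h with h1 | h1
    · have := ih h1
      have h2 := hab j
      have h3 := hsep j
      omega
    · subst h1
      exact hsep _

include hab hsep in
theorem rr_of_mem {k j : ℕ} (h1 : a j ≤ k) (h2 : k ≤ b j) : rr a b k = b j + 1 := by
  have h : ∃ j, a j ≤ k ∧ k ≤ b j := ⟨j, h1, h2⟩
  unfold rr
  rw [dif_pos h]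
  obtain ⟨h3, h4⟩ := h.choose_spec
  have : h.choose = j := by
    by_contra hne
    rcases Nat.lt_or_gt_of_ne hne with h5 | h5
    · have := sep_lt hab hsep h5
      omega
    · have := sep_lt hab hsep h5
      omega
  rw [this]

theorem rr_of_not {k : ℕ} (h : ¬ ∃ j, a j ≤ k ∧ k ≤ b j) : rr a b k = k := by
  unfold rr
  rw [dif_neg h]

include hab hsep in
theorem rr_cases (k : ℕ) : (∃ j, a j ≤ k ∧ k ≤ b j ∧ rr a b k = b j + 1) ∨
    ((∀ j, ¬ (a j ≤ k ∧ k ≤ b j)) ∧ rr a b k = k) := by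
  by_cases h : ∃ j, a j ≤ k ∧ k ≤ b j
  · obtain ⟨j, h1, h2⟩ := h
    exact Or.inl ⟨j, h1, h2, rr_of_mem hab hsep h1 h2⟩
  · exact Or.inr ⟨fun j hj => h ⟨j, hj⟩, rr_of_not h⟩

include hab hsep in
theorem le_rr (k : ℕ) : k ≤ rr a b k := by
  rcases rr_cases hab hsep k with ⟨j, h1, h2, h3⟩ | ⟨-, h3⟩ <;> omega

include hab hsep in
theorem rr_mono : Monotone (rr a b) := by
  intro k l hkl
  rcases rr_cases hab hsep k with ⟨j, h1, h2, h3⟩ | ⟨h2, h3⟩
  · rcases rr_cases hab hsep l with ⟨j', h1', h2', h3'⟩ | ⟨h2', h3'⟩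
    · rw [h3, h3']
      rcases Nat.lt_trichotomy j j' with h | h | h
      · have := sep_lt hab hsep h
        omega
      · rw [h]
      · have := sep_lt hab hsep h
        omega
    · rw [h3, h3']
      have := h2' j
      omega
  · have := le_rr hab hsep l
    omega

include hab hsep in
theorem rr_lt {k l : ℕ} (h : rr a b k < rr a b l) : rr a b k < l := by
  rcases rr_cases hab hsep l with ⟨j', h1', h2', h3'⟩ | ⟨h2', h3'⟩
  · rcases rr_cases hab hsep k with ⟨j, h1, h2, h3⟩ | ⟨h2, h3⟩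
    · rw [h3, h3'] at h
      rw [h3]
      rcases Nat.lt_trichotomy j j' with h4 | h4 | h4
      · have := sep_lt hab hsep h4
        omega
      · subst h4
        omega
      · have := sep_lt hab hsep h4
        have := hab j
        omega
    · rw [h3, h3'] at h
      rw [h3]
      have := h2 j'
      omega
  · omega

include hab hsep in
theorem rr_avoid (k j : ℕ) : ¬ (a j ≤ rr a b k ∧ rr a b k ≤ b j) := by
  rintro ⟨h4, h5⟩
  rcases rr_cases hab hsep k with ⟨j', h1, h2, h3⟩ | ⟨h2, h3⟩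
  · rw [h3] at h4 h5
    rcases Nat.lt_trichotomy j j' with h6 | h6 | h6
    · have := sep_lt hab hsep h6
      have := hab j'
      omega
    · subst h6
      omega
    · have := sep_lt hab hsep h6
      omega
  · rw [h3] at h4 h5
    exact h2 j ⟨h4, h5⟩

end

end NTF

open NTF in
theorem not_tight_fB : ¬ TightBasis (fB 𝕜) := by
  intro htight
  obtain ⟨T0, hT0, hlow0, hup0⟩ := exists_ext (𝕜 := 𝕜) (r := id) (fun k => le_rfl) monotone_id
    (fun k l h => h)
  have hinj : Function.Injective T0 := by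
    rw [injective_iff_map_eq_zero]
    intro y hy
    have := hlow0 y
    rw [hy, norm_zero] at this
    exact norm_le_zero_iff.1 this
  have hanti : AntilipschitzWith 1 T0 := by
    refine AddMonoidHomClass.antilipschitz_of_bound T0 fun y => ?_
    simpa using hlow0 y
  set U : Submodule 𝕜 (XC 𝕜) := LinearMap.range T0.toLinearMap with hU
  have hUclosed : IsClosed (U : Set (XC 𝕜)) := by
    have : (U : Set (XC 𝕜)) = Set.range T0 := by
      rw [hU]
      exact LinearMap.coe_range _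
    rw [this]
    exact hanti.isClosed_range T0.uniformContinuous
  let E : Completion (YF 𝕜) ≃ₗ[𝕜] U := LinearEquiv.ofInjective T0.toLinearMap hinj
  have hE : ∀ x : U, T0 (E.symm x) = x := by
    intro x
    have h1 := E.apply_symm_apply x
    have h2 : ((E (E.symm x) : U) : XC 𝕜) = T0 (E.symm x) := rfl
    rw [← h2, h1]
  have hUinf : ¬ FiniteDimensional 𝕜 U := by
    intro hfin
    have h1 : FiniteDimensional 𝕜 (Completion (YF 𝕜)) := E.symm.finiteDimensional
    let I : (ℕ →₀ 𝕜) →ₗ[𝕜] Completion (YF 𝕜) :=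
      (Completion.toComplL (𝕜 := 𝕜) (E := YF 𝕜)).toLinearMap
    have hI : Function.Injective I := Completion.coe_injective (YF 𝕜)
    have h2 : Module.Finite 𝕜 (ℕ →₀ 𝕜) := Module.Finite.of_injective I hI
    rw [Module.finite_finsupp_self_iff] at h2
    rcases h2 with h2 | h2
    · exact not_subsingleton 𝕜 h2
    · exact not_finite ℕ
  obtain ⟨lo, hi, hlohi, hlt, hno⟩ := htight U hUclosed hUinf
  -- the sparse set of gaps
  have hlo_ge : ∀ m, m ≤ lo m := by
    intro m
    induction m with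
    | zero => exact Nat.zero_le _
    | succ m ih =>
      have h1 := hlohi m
      have h2 := hlt m
      omega
  set s := sq lo hi with hs
  let a : ℕ → ℕ := fun j => rd (lo (s j))
  let b : ℕ → ℕ := fun j => rd (hi (s j))
  have hab : ∀ j, a j ≤ b j := fun j => rd_mono (hlohi _)
  have hsep : ∀ j, b j + 1 < a (j + 1) := by
    intro j
    show b j + 2 ≤ rd (lo (s (j + 1)))
    rw [le_rd_iff]
    refine le_trans ?_ (hlo_ge _)
    show _ ≤ max (sq lo hi j + 1) (tri (rd (hi (sq lo hi j)) + 2))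
    exact le_max_right _ _
  obtain ⟨T1, hT1, hlow1, hup1⟩ := exists_ext (𝕜 := 𝕜) (r := rr a b) (le_rr hab hsep)
    (rr_mono hab hsep) (fun k l h => rr_lt hab hsep h)
  have hP : ∀ k, tri (rr a b k) + k ∈
      {n | ∀ i ∈ Set.range s, ¬ (lo i ≤ n ∧ n ≤ hi i)} := by
    rintro k _ ⟨j, rfl⟩ ⟨h1, h2⟩
    have h3 := rd_mono h1
    have h4 := rd_mono h2
    rw [rd_tri_add (le_rr hab hsep k)] at h3 h4
    exact rr_avoid hab hsep k j ⟨h3, h4⟩
  refine hno (Set.range s) (Set.infinite_range_of_injective (sq_strictMono lo hi).injective) ?_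
  let T : U →ₗ[𝕜] XC 𝕜 := T1.toLinearMap.comp E.symm.toLinearMap
  have hTapp : ∀ x, T x = T1 (E.symm x) := fun x => rfl
  have hTle : ∀ x, ‖T x‖ ≤ 4 * ‖x‖ := by
    intro x
    rw [hTapp]
    refine (hup1 _).trans ?_
    have h1 := hlow0 (E.symm x)
    rw [hE x] at h1
    have h2 : ‖(x : XC 𝕜)‖ = ‖x‖ := rfl
    rw [h2] at h1
    linarith
  refine ⟨T.mkContinuous 4 hTle, ⟨1 / 4, by norm_num, ?_⟩, ?_⟩
  · intro x
    rw [LinearMap.mkContinuous_apply, hTapp]
    have h1 := hup0 (E.symm x)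
    rw [hE x] at h1
    have h2 : ‖(x : XC 𝕜)‖ = ‖x‖ := rfl
    rw [h2] at h1
    have h3 := hlow1 (E.symm x)
    linarith
  · intro x
    rw [LinearMap.mkContinuous_apply, hTapp]
    refine Completion.induction_on (E.symm x) ?_ fun z => ?_
    · exact (Submodule.isClosed_topologicalClosure _).preimage T1.continuous
    · rw [hT1]
      exact Submodule.le_topologicalClosure _ (Jr_mem_span hP z)

end Pool.Agent.H10.TB
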