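import Pool.Agent.H10.TB.TightE
import Pool.Agent.H10.TB.NotTightF

/-!
Final statement.
-/

namespace Pool.Agent.H10.TB

universe u

theorem not_finiteDimensional_XC (𝕜 : Type u) [RCLike 𝕜] : ¬ FiniteDimensional 𝕜 (XC 𝕜) := by
  intro h
  have h1 : Finite ℕ := (fB 𝕜).linearIndependent.finite
  exact not_finite ℕ

theorem exists_tight_space_nontight_basis (𝕜 : Type u) [RCLike 𝕜] :
    ∃ (X : Type u) (_ : NormedAddCommGroup X) (_ : NormedSpace 𝕜 X), CompleteSpace X ∧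
      ¬ FiniteDimensional 𝕜 X ∧
      ∃ e f : SchauderBasis 𝕜 X, TightBasis e ∧ ¬ TightBasis f :=
  ⟨XC 𝕜, inferInstance, inferInstance, inferInstance, not_finiteDimensional_XC 𝕜, eB 𝕜, fB 𝕜,
    tight_eB, not_tight_fB⟩

end Pool.Agent.H10.TB
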