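import Pool.Agent.H10.TB.Spaces

/-!
Lemma C of f83316_proof.md (section 3).
-/

namespace Pool.Agent.H10.TB

open Finset

namespace LemC

variable {𝕜 : Type*} [RCLike 𝕜]

theorem exists_sign_le {H : Type*} [NormedAddCommGroup H] [InnerProductSpace 𝕜 H]
    (m n : ℕ) (w : ℕ → ℝ) (p : ℕ → ℕ → H) :
    ∃ e : ℕ → ℝ, (∀ k, e k = 1 ∨ e k = -1) ∧
      ∑ i ∈ range m, w i * ‖∑ j ∈ range n, ((e j : ℝ) : 𝕜) • p i j‖ ^ 2 ≤
        ∑ j ∈ range n, ∑ i ∈ range m, w i * ‖p i j‖ ^ 2 := by
  induction n with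
  | zero => exact ⟨fun _ => 1, fun _ => Or.inl rfl, by simp⟩
  | succ n ih =>
    obtain ⟨e, he, h⟩ := ih
    set x : ℕ → H := fun i => ∑ j ∈ range n, ((e j : ℝ) : 𝕜) • p i j with hx
    have key : ∑ i ∈ range m, w i * ‖x i + p i n‖ ^ 2 + ∑ i ∈ range m, w i * ‖x i - p i n‖ ^ 2 =
        2 * (∑ i ∈ range m, w i * ‖x i‖ ^ 2 + ∑ i ∈ range m, w i * ‖p i n‖ ^ 2) := by
      rw [← sum_add_distrib, ← sum_add_distrib, mul_sum]
      refine sum_congr rfl fun i _ => ?_
      have := parallelogram_law_with_norm 𝕜 (x i) (p i n)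
      rw [← mul_add, this]
      ring
    have hupd : ∀ (ε : ℝ) (i : ℕ),
        ∑ j ∈ range (n + 1), ((Function.update e n ε j : ℝ) : 𝕜) • p i j =
          x i + ((ε : ℝ) : 𝕜) • p i n := by
      intro ε i
      rw [sum_range_succ, Function.update_self]
      congr 1
      refine sum_congr rfl fun j hj => ?_
      rw [mem_range] at hj
      rw [Function.update_of_ne hj.ne]
    have hsgn : ∀ ε : ℝ, (ε = 1 ∨ ε = -1) → ∀ k, Function.update e n ε k = 1 ∨
        Function.update e n ε k = -1 := by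
      intro ε hε k
      by_cases hk : k = n
      · rw [hk, Function.update_self]
        exact hε
      · rw [Function.update_of_ne hk]
        exact he k
    by_cases hc : ∑ i ∈ range m, w i * ‖x i + p i n‖ ^ 2 ≤
        ∑ i ∈ range m, w i * ‖x i‖ ^ 2 + ∑ i ∈ range m, w i * ‖p i n‖ ^ 2
    · refine ⟨Function.update e n 1, hsgn 1 (Or.inl rfl), ?_⟩
      rw [sum_range_succ (fun j => ∑ i ∈ range m, w i * ‖p i j‖ ^ 2)]
      simp only [hupd, RCLike.ofReal_one, one_smul]
      linarith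
    · refine ⟨Function.update e n (-1), hsgn (-1) (Or.inr rfl), ?_⟩
      rw [sum_range_succ (fun j => ∑ i ∈ range m, w i * ‖p i j‖ ^ 2)]
      simp only [hupd, RCLike.ofReal_neg, RCLike.ofReal_one, neg_smul, one_smul, ← sub_eq_add_neg]
      push Not at hc
      linarith

theorem exists_sign_ge {E : Type*} [NormedAddCommGroup E] [NormedSpace 𝕜 E]
    (m n : ℕ) (x : ℕ → ℕ → E) (J : ℕ → ℕ) :
    ∃ e : ℕ → ℝ, (∀ k, e k = 1 ∨ e k = -1) ∧
      ∑ i ∈ range m, (if J i < n then ‖x i (J i)‖ else 0) ≤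
        ∑ i ∈ range m, (if J i < n then ‖∑ j ∈ range n, ((e j : ℝ) : 𝕜) • x i j‖ else 0) := by
  induction n with
  | zero => exact ⟨fun _ => 1, fun _ => Or.inl rfl, by simp⟩
  | succ n ih =>
    obtain ⟨e, he, h⟩ := ih
    set y : ℕ → E := fun i => ∑ j ∈ range n, ((e j : ℝ) : 𝕜) • x i j with hy
    have key : 2 * ∑ i ∈ range m, (if J i < n + 1 then ‖x i (J i)‖ else 0) ≤
        ∑ i ∈ range m, (if J i < n + 1 then ‖y i + x i n‖ else 0) +
        ∑ i ∈ range m, (if J i < n + 1 then ‖y i - x i n‖ else 0) := by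
      have h1 : ∑ i ∈ range m, (if J i < n + 1 then ‖x i (J i)‖ else 0) =
          ∑ i ∈ range m, (if J i < n then ‖x i (J i)‖ else 0) +
          ∑ i ∈ range m, (if J i = n then ‖x i n‖ else 0) := by
        rw [← sum_add_distrib]
        refine sum_congr rfl fun i _ => ?_
        rcases lt_trichotomy (J i) n with hi | hi | hi
        · rw [if_pos (hi.trans (Nat.lt_succ_self n)), if_pos hi, if_neg hi.ne, add_zero]
        · rw [hi, if_pos (Nat.lt_succ_self n), if_neg (lt_irrefl n), if_pos rfl, zero_add]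
        · rw [if_neg (by omega), if_neg (by omega), if_neg hi.ne', add_zero]
      have h2 : 2 * (∑ i ∈ range m, (if J i < n then ‖y i‖ else 0) +
          ∑ i ∈ range m, (if J i = n then ‖x i n‖ else 0)) ≤
          ∑ i ∈ range m, (if J i < n + 1 then ‖y i + x i n‖ else 0) +
          ∑ i ∈ range m, (if J i < n + 1 then ‖y i - x i n‖ else 0) := by
        rw [← sum_add_distrib, ← sum_add_distrib, mul_sum]
        refine sum_le_sum fun i _ => ?_
        have hyi : 2 * ‖y i‖ ≤ ‖y i + x i n‖ + ‖y i - x i n‖ := by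
          have h3 : (2 : 𝕜) • y i = (y i + x i n) + (y i - x i n) := by
            rw [two_smul]
            abel
          have h4 := norm_add_le (y i + x i n) (y i - x i n)
          rw [← h3, norm_smul, RCLike.norm_ofNat] at h4
          exact h4
        have hxi : 2 * ‖x i n‖ ≤ ‖y i + x i n‖ + ‖y i - x i n‖ := by
          have h3 : (2 : 𝕜) • x i n = (y i + x i n) - (y i - x i n) := by
            rw [two_smul]
            abel
          have h4 := norm_sub_le (y i + x i n) (y i - x i n)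
          rw [← h3, norm_smul, RCLike.norm_ofNat] at h4
          exact h4
        rcases lt_trichotomy (J i) n with hi | hi | hi
        · rw [if_pos hi, if_neg hi.ne, if_pos (hi.trans (Nat.lt_succ_self n)),
            if_pos (hi.trans (Nat.lt_succ_self n))]
          linarith
        · rw [hi, if_pos (Nat.lt_succ_self n), if_neg (lt_irrefl n), if_pos rfl,
            if_pos (Nat.lt_succ_self n)]
          linarith
        · have hi1 : ¬ J i < n + 1 := by omega
          have hi2 : ¬ J i < n := by omega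
          simp [hi1, hi2, hi.ne']
      rw [h1]
      linarith
    have hupd : ∀ (ε : ℝ) (i : ℕ),
        ∑ j ∈ range (n + 1), ((Function.update e n ε j : ℝ) : 𝕜) • x i j =
          y i + ((ε : ℝ) : 𝕜) • x i n := by
      intro ε i
      rw [sum_range_succ, Function.update_self]
      congr 1
      refine sum_congr rfl fun j hj => ?_
      rw [mem_range] at hj
      rw [Function.update_of_ne hj.ne]
    have hsgn : ∀ ε : ℝ, (ε = 1 ∨ ε = -1) → ∀ k, Function.update e n ε k = 1 ∨
        Function.update e n ε k = -1 := by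
      intro ε hε k
      by_cases hk : k = n
      · rw [hk, Function.update_self]
        exact hε
      · rw [Function.update_of_ne hk]
        exact he k
    by_cases hc : ∑ i ∈ range m, (if J i < n + 1 then ‖x i (J i)‖ else 0) ≤
        ∑ i ∈ range m, (if J i < n + 1 then ‖y i + x i n‖ else 0)
    · refine ⟨Function.update e n 1, hsgn 1 (Or.inl rfl), ?_⟩
      simp only [hupd, RCLike.ofReal_one, one_smul]
      exact hc
    · refine ⟨Function.update e n (-1), hsgn (-1) (Or.inr rfl), ?_⟩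
      simp only [hupd, RCLike.ofReal_neg, RCLike.ofReal_one, neg_smul, one_smul, ← sub_eq_add_neg]
      push Not at hc
      linarith

theorem sum_family {E : Type*} [AddCommGroup E] [Module 𝕜 E] (v : ℕ → E) {M N : ℕ}
    (κ : ℕ → ℕ) (hκ : ∀ j < N, κ j < M) (c : ℕ → 𝕜) :
    ∑ k ∈ range M, (∑ j ∈ range N, if κ j = k then c j else 0) • v k =
      ∑ j ∈ range N, c j • v (κ j) := by
  simp only [sum_smul]
  rw [sum_comm]
  refine sum_congr rfl fun j hj => ?_
  rw [mem_range] at hj
  simp only [ite_smul, zero_smul]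
  rw [sum_ite_eq, if_pos (mem_range.2 (hκ j hj))]

theorem rep_family {H : Type*} [NormedAddCommGroup H] [NormedSpace 𝕜 H]
    {E : Type*} [NormedAddCommGroup E] [NormedSpace 𝕜 E] {K : ℝ} {u : ℕ → E} {M : ℕ}
    {n : ℕ} {s : ℕ → ℕ → H} (h : ∀ b : ℕ → 𝕜,
    ‖∑ k ∈ range M, b k • u k‖ ≤ ∑ i ∈ range n, ‖∑ k ∈ range M, b k • s i k‖ ∧
    ∑ i ∈ range n, ‖∑ k ∈ range M, b k • s i k‖ ≤ K * ‖∑ k ∈ range M, b k • u k‖)
    (N : ℕ) (κ : ℕ → ℕ) (hκ : ∀ j < N, κ j < M) (c : ℕ → 𝕜) :
    ‖∑ j ∈ range N, c j • u (κ j)‖ ≤ ∑ i ∈ range n, ‖∑ j ∈ range N, c j • s i (κ j)‖ ∧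
    ∑ i ∈ range n, ‖∑ j ∈ range N, c j • s i (κ j)‖ ≤ K * ‖∑ j ∈ range N, c j • u (κ j)‖ := by
  have := h (fun k => ∑ j ∈ range N, if κ j = k then c j else 0)
  simp only [sum_family _ κ hκ] at this
  exact this

end LemC

open LemC Filter in
/-- LEMMA C. If `u` has the lower estimate `(b)` for far out `n`-tuples and no subsequence of `u` satisfies
a lower `ℓ₁`-estimate for some choice of signs, then for every `K` the sequence `u` is not
`K`-representable in `ℓ₁(H)` up to some `M`. -/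
theorem lemC {𝕜 : Type*} [RCLike 𝕜] {H : Type*} [NormedAddCommGroup H] [InnerProductSpace 𝕜 H]
    {E : Type*} [NormedAddCommGroup E] [NormedSpace 𝕜 E] {θ : ℝ} (hθ : 0 < θ) (u : ℕ → E)
    (hu : ∀ k, ‖u k‖ = 1)
    (hb : ∀ n : ℕ, ∃ k0 : ℕ, ∀ κ : ℕ → ℕ, StrictMono κ → k0 ≤ κ 0 → ∀ e : ℕ → ℝ,
      (∀ k, e k = 1 ∨ e k = -1) → θ * n ≤ ‖∑ i ∈ range n, ((e i : ℝ) : 𝕜) • u (κ i)‖)
    (hd : ∀ κ : ℕ → ℕ, StrictMono κ → ∀ c : ℝ, 0 < c → ∃ (n : ℕ) (b : ℕ → ℝ), (∀ k, 0 ≤ b k) ∧
      0 < ∑ k ∈ range n, b k ∧ ∀ e : ℕ → ℝ, (∀ k, e k = 1 ∨ e k = -1) →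
        ‖∑ k ∈ range n, ((e k * b k : ℝ) : 𝕜) • u (κ k)‖ < c * ∑ k ∈ range n, b k)
    (K : ℝ) : ∃ M : ℕ, ¬ Rep 𝕜 H K u M := by
  classical
  by_contra hcon
  push Not at hcon
  choose n s hs using hcon
  have hfam : ∀ M (N : ℕ) (κ : ℕ → ℕ), (∀ j < N, κ j < M) → ∀ c : ℕ → 𝕜,
      ‖∑ j ∈ range N, c j • u (κ j)‖ ≤ ∑ i ∈ range (n M), ‖∑ j ∈ range N, c j • s M i (κ j)‖ ∧
      ∑ i ∈ range (n M), ‖∑ j ∈ range N, c j • s M i (κ j)‖ ≤
        K * ‖∑ j ∈ range N, c j • u (κ j)‖ := fun M N κ hκ c => rep_family (hs M) N κ hκ c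
  -- single vectors
  have hsum : ∀ M k, k < M → ∑ i ∈ range (n M), ‖s M i k‖ ≤ K := by
    intro M k hk
    have := (hfam M 1 (fun _ => k) (fun _ _ => hk) (fun _ => 1)).2
    simpa [hu] using this
  have hK : 0 < K := by
    have h1 := (hfam 1 1 (fun _ => 0) (fun _ _ => Nat.one_pos) (fun _ => 1))
    simp only [range_one, sum_singleton, one_smul, hu, mul_one] at h1
    linarith
  -- the majorant
  set g : ℕ → ℕ → ℝ := fun M i => ∑ k ∈ range M, (1 / 2 : ℝ) ^ (k + 1) * ‖s M i k‖ with hg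
  have hg0 : ∀ M i, 0 ≤ g M i := fun M i => sum_nonneg fun k _ => by positivity
  have hgK : ∀ M, ∑ i ∈ range (n M), g M i ≤ K := by
    intro M
    simp only [hg]
    rw [sum_comm]
    calc ∑ k ∈ range M, ∑ i ∈ range (n M), (1 / 2 : ℝ) ^ (k + 1) * ‖s M i k‖
        ≤ ∑ k ∈ range M, (1 / 2 : ℝ) ^ (k + 1) * K := by
          refine sum_le_sum fun k hk => ?_
          rw [← mul_sum]
          exact mul_le_mul_of_nonneg_left (hsum M k (mem_range.1 hk)) (by positivity)
      _ = (1 - (1 / 2 : ℝ) ^ M) * K := by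
          rw [← sum_mul]
          congr 1
          induction M with
          | zero => simp
          | succ M ih =>
            rw [sum_range_succ, ih]
            ring
      _ ≤ K := by
          have : (0 : ℝ) < (1 / 2 : ℝ) ^ M := by positivity
          nlinarith
  have hsg : ∀ M i k, k < M → ‖s M i k‖ ≤ 2 ^ (k + 1) * g M i := by
    intro M i k hk
    have h1 : (1 / 2 : ℝ) ^ (k + 1) * ‖s M i k‖ ≤ g M i :=
      single_le_sum (f := fun k => (1 / 2 : ℝ) ^ (k + 1) * ‖s M i k‖)
        (fun k _ => by positivity) (mem_range.2 hk)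
    calc ‖s M i k‖ = 2 ^ (k + 1) * ((1 / 2 : ℝ) ^ (k + 1) * ‖s M i k‖) := by
          rw [← mul_assoc, ← mul_pow]
          norm_num
      _ ≤ _ := mul_le_mul_of_nonneg_left h1 (by positivity)
  -- the large parts
  set σ : ℝ → ℕ → ℕ → ℝ := fun t M k =>
    ∑ i ∈ range (n M), if t * g M i < ‖s M i k‖ then ‖s M i k‖ else 0 with hσ
  -- (*)
  have star : ∀ t : ℝ, 0 < t → ∀ k0 : ℕ, ∃ k, k0 ≤ k ∧
      ∀ᶠ M in (hyperfilter ℕ : Filter ℕ), θ / 2 < σ t M k := by
    intro t ht k0
    obtain ⟨N, hN⟩ := exists_nat_gt ((2 * t * K / θ) ^ 2)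
    obtain ⟨k1, hk1⟩ := hb N
    set κ : ℕ → ℕ := fun j => max k0 k1 + j with hκ
    have hκm : StrictMono κ := fun a b hab => by simp only [hκ]; omega
    have hex : ∀ᶠ M in (hyperfilter ℕ : Filter ℕ), ∃ j ∈ range N, θ / 2 < σ t M (κ j) := by
      have hbig : ∀ᶠ M in (hyperfilter ℕ : Filter ℕ), κ N < M :=
        Filter.Tendsto.eventually_gt_atTop
          (Filter.Tendsto.mono_left Filter.tendsto_id (Nat.hyperfilter_le_atTop)) (κ N)
      filter_upwards [hbig] with M hM
      by_contra hno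
      push Not at hno
      have hlt : ∀ j < N, κ j < M := fun j hj => (hκm hj).trans hM
      set p : ℕ → ℕ → H := fun i j => if t * g M i < ‖s M i (κ j)‖ then 0 else s M i (κ j)
        with hp
      have hple : ∀ i j, ‖p i j‖ ≤ t * g M i := by
        intro i j
        simp only [hp]
        split_ifs with h
        · rw [norm_zero]
          exact mul_nonneg ht.le (hg0 M i)
        · exact not_lt.1 h
      obtain ⟨e, he, hle⟩ := exists_sign_le (𝕜 := 𝕜) (n M) N (fun i => (g M i)⁻¹) p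
      have h1 := hk1 κ hκm (by simp [hκ]) e he
      have h2 := (hfam M N κ hlt (fun j => ((e j : ℝ) : 𝕜))).1
      -- split
      have h3 : ∀ i, ‖∑ j ∈ range N, ((e j : ℝ) : 𝕜) • s M i (κ j)‖ ≤
          ‖∑ j ∈ range N, ((e j : ℝ) : 𝕜) • p i j‖ +
          ∑ j ∈ range N, if t * g M i < ‖s M i (κ j)‖ then ‖s M i (κ j)‖ else 0 := by
        intro i
        have h4 : ∑ j ∈ range N, ((e j : ℝ) : 𝕜) • s M i (κ j) =
            ∑ j ∈ range N, ((e j : ℝ) : 𝕜) • p i j + ∑ j ∈ range N, ((e j : ℝ) : 𝕜) •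
              (if t * g M i < ‖s M i (κ j)‖ then s M i (κ j) else 0) := by
          rw [← sum_add_distrib]
          refine sum_congr rfl fun j _ => ?_
          rw [← smul_add]
          simp only [hp]
          split_ifs <;> simp
        rw [h4]
        refine (norm_add_le _ _).trans (add_le_add le_rfl ?_)
        refine (norm_sum_le _ _).trans (sum_le_sum fun j _ => ?_)
        rw [norm_smul]
        have h5 : ‖((e j : ℝ) : 𝕜)‖ = 1 := by
          rw [RCLike.norm_ofReal]
          rcases he j with h | h <;> rw [h] <;> simp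
        rw [h5, one_mul]
        split_ifs <;> simp
      have h4 : ∑ i ∈ range (n M), ‖∑ j ∈ range N, ((e j : ℝ) : 𝕜) • p i j‖ ≤
          Real.sqrt N * t * K := by
        have h5 : (∑ i ∈ range (n M), ‖∑ j ∈ range N, ((e j : ℝ) : 𝕜) • p i j‖) ^ 2 ≤
            K * (N * t ^ 2 * K) := by
          have h6 : (∑ i ∈ range (n M), ‖∑ j ∈ range N, ((e j : ℝ) : 𝕜) • p i j‖) ^ 2 ≤
              (∑ i ∈ range (n M), g M i) *
              (∑ i ∈ range (n M), (g M i)⁻¹ * ‖∑ j ∈ range N, ((e j : ℝ) : 𝕜) • p i j‖ ^ 2) := by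
            have h7 := sum_mul_sq_le_sq_mul_sq (range (n M)) (fun i => Real.sqrt (g M i))
              (fun i => (Real.sqrt (g M i))⁻¹ * ‖∑ j ∈ range N, ((e j : ℝ) : 𝕜) • p i j‖)
            have h8 : ∀ i, Real.sqrt (g M i) * ((Real.sqrt (g M i))⁻¹ *
                ‖∑ j ∈ range N, ((e j : ℝ) : 𝕜) • p i j‖) =
                ‖∑ j ∈ range N, ((e j : ℝ) : 𝕜) • p i j‖ := by
              intro i
              by_cases hgi : g M i = 0
              · have h9 : ∀ j, p i j = 0 := fun j => by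
                  have := hple i j
                  rw [hgi, mul_zero] at this
                  exact norm_le_zero_iff.1 this
                simp [h9]
              · rw [mul_inv_cancel_left₀]
                exact (Real.sqrt_pos.2 (lt_of_le_of_ne (hg0 M i) (Ne.symm hgi))).ne'
            simp only [h8, Real.sq_sqrt (hg0 M _), mul_pow, inv_pow] at h7
            exact h7
          refine h6.trans (mul_le_mul (hgK M) ?_ ?_ hK.le)
          · refine hle.trans ?_
            calc ∑ j ∈ range N, ∑ i ∈ range (n M), (g M i)⁻¹ * ‖p i j‖ ^ 2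
                ≤ ∑ j ∈ range N, ∑ i ∈ range (n M), t ^ 2 * g M i := by
                  refine sum_le_sum fun j _ => sum_le_sum fun i _ => ?_
                  by_cases hgi : g M i = 0
                  · simp [hgi]
                  · have hgp : 0 < g M i := lt_of_le_of_ne (hg0 M i) (Ne.symm hgi)
                    calc (g M i)⁻¹ * ‖p i j‖ ^ 2 ≤ (g M i)⁻¹ * (t * g M i) ^ 2 := by
                          refine mul_le_mul_of_nonneg_left ?_ (by positivity)
                          exact pow_le_pow_left₀ (norm_nonneg _) (hple i j) 2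
                      _ = t ^ 2 * g M i := by
                          field_simp
              _ = N * (t ^ 2 * ∑ i ∈ range (n M), g M i) := by
                  rw [sum_const, card_range, nsmul_eq_mul, ← mul_sum]
              _ ≤ N * (t ^ 2 * K) := by
                  refine mul_le_mul_of_nonneg_left ?_ (Nat.cast_nonneg _)
                  exact mul_le_mul_of_nonneg_left (hgK M) (by positivity)
              _ = N * t ^ 2 * K := by ring
          · exact sum_nonneg fun i _ => mul_nonneg (inv_nonneg.2 (hg0 M i)) (by positivity)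
        apply le_of_sq_le_sq _ (by positivity)
        refine h5.trans (le_of_eq ?_)
        rw [mul_pow, mul_pow, Real.sq_sqrt (Nat.cast_nonneg _)]
        ring
      have h5 : ∑ i ∈ range (n M), ∑ j ∈ range N,
          (if t * g M i < ‖s M i (κ j)‖ then ‖s M i (κ j)‖ else 0) ≤ N * (θ / 2) := by
        rw [sum_comm]
        calc ∑ j ∈ range N, ∑ i ∈ range (n M),
              (if t * g M i < ‖s M i (κ j)‖ then ‖s M i (κ j)‖ else 0)
            ≤ ∑ j ∈ range N, θ / 2 := sum_le_sum fun j hj => hno j hj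
          _ = N * (θ / 2) := by rw [sum_const, card_range, nsmul_eq_mul]
      have h6 : θ * N ≤ Real.sqrt N * t * K + N * (θ / 2) := by
        calc θ * N ≤ _ := h1
          _ ≤ _ := h2
          _ ≤ ∑ i ∈ range (n M), (‖∑ j ∈ range N, ((e j : ℝ) : 𝕜) • p i j‖ +
              ∑ j ∈ range N, if t * g M i < ‖s M i (κ j)‖ then ‖s M i (κ j)‖ else 0) :=
              sum_le_sum fun i _ => h3 i
          _ ≤ _ := by
              rw [sum_add_distrib]
              exact add_le_add h4 h5
      have hN0 : (0 : ℝ) < N := lt_of_le_of_lt (sq_nonneg _) hN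
      have hsq : 0 < Real.sqrt N := Real.sqrt_pos.2 hN0
      have h7 : 2 * t * K / θ < Real.sqrt N := by
        rw [← Real.sqrt_sq (show 0 ≤ 2 * t * K / θ by positivity)]
        exact Real.sqrt_lt_sqrt (sq_nonneg _) hN
      rw [div_lt_iff₀ hθ] at h7
      have h8 : (N : ℝ) = Real.sqrt N * Real.sqrt N := (Real.mul_self_sqrt hN0.le).symm
      nlinarith
    obtain ⟨j, hj, hj2⟩ := (Ultrafilter.eventually_exists_mem_iff (f := hyperfilter ℕ)
      (is := (range N : Set ℕ)) (P := fun j M => θ / 2 < σ t M (κ j))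
      (range N).finite_toSet).1 (by simpa using hex)
    exact ⟨κ j, by simp only [hκ]; omega, hj2⟩
  have star' : ∀ t : ℝ, ∀ k0 : ℕ, ∃ k, k0 ≤ k ∧
      (0 < t → ∀ᶠ M in (hyperfilter ℕ : Filter ℕ), θ / 2 < σ t M k) := by
    intro t k0
    by_cases ht : 0 < t
    · obtain ⟨k, hk, hk2⟩ := star t ht k0
      exact ⟨k, hk, fun _ => hk2⟩
    · exact ⟨k0, le_rfl, fun h => absurd h ht⟩
  choose f hf1 hf2 using star'
  set τ : ℕ → ℕ → ℝ := fun j k => 2 ^ (k + 1) * K * (4 / θ) * 2 ^ (j + 1) with hτ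
  have hτ0 : ∀ j k, 0 < τ j k := fun j k => by simp only [hτ]; positivity
  set κ : ℕ → ℕ := fun j => Nat.rec (f 1 0) (fun j k => f (τ (j + 1) k) (k + 1)) j with hκ
  have hκs : ∀ j, κ (j + 1) = f (τ (j + 1) (κ j)) (κ j + 1) := fun j => rfl
  have hκm : StrictMono κ := strictMono_nat_of_lt_succ fun j => by
    rw [hκs]
    exact hf1 _ _
  obtain ⟨T, hT0, hTs⟩ : ∃ T : ℕ → ℝ, T 0 = 1 ∧ ∀ j, T (j + 1) = τ (j + 1) (κ j) :=
    ⟨fun j => Nat.casesOn j 1 (fun j => τ (j + 1) (κ j)), rfl, fun _ => rfl⟩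
  have hTpos : ∀ j, 0 < T j := by
    intro j
    cases j with
    | zero => rw [hT0]; exact one_pos
    | succ j => rw [hTs]; exact hτ0 _ _
  have hTσ : ∀ j, ∀ᶠ M in (hyperfilter ℕ : Filter ℕ), θ / 2 < σ (T j) M (κ j) := by
    intro j
    cases j with
    | zero => rw [hT0]; exact hf2 1 0 one_pos
    | succ j => rw [hTs, hκs]; exact hf2 _ _ (hτ0 _ _)
  have hTbig : ∀ j j', j < j' → 2 ^ (κ j + 1) * K * (4 / θ) * 2 ^ (j' + 1) ≤ T j' := by
    intro j j' hjj
    obtain ⟨i, rfl⟩ : ∃ i, j' = i + 1 := ⟨j' - 1, by omega⟩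
    rw [hTs]
    simp only [hτ]
    have h1 : κ j ≤ κ i := hκm.monotone (by omega)
    have h2 : (2 : ℝ) ^ (κ j + 1) ≤ 2 ^ (κ i + 1) := pow_le_pow_right₀ (by norm_num) (by omega)
    gcongr
  obtain ⟨n0, b, hb0, hbpos, hbe⟩ := hd κ hκm (θ / (4 * K)) (by positivity)
  have hbig : ∀ᶠ M in (hyperfilter ℕ : Filter ℕ), κ n0 < M :=
    Filter.Tendsto.eventually_gt_atTop
      (Filter.Tendsto.mono_left Filter.tendsto_id (Nat.hyperfilter_le_atTop)) (κ n0)
  have hall : ∀ᶠ M in (hyperfilter ℕ : Filter ℕ), ∀ j ∈ range n0, θ / 2 < σ (T j) M (κ j) :=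
    (Filter.eventually_all_finset (range n0)).2 fun j _ => hTσ j
  obtain ⟨M, hM1, hM2⟩ := (hbig.and hall).exists
  have hlt : ∀ j < n0, κ j < M := fun j hj => (hκm hj).trans hM1
  set PA : ℕ → ℕ → Prop := fun i j => T j * g M i < ‖s M i (κ j)‖ with hPA
  set PB : ℕ → ℕ → Prop := fun i j => PA i j ∧ ∀ j', j < j' → j' < n0 → ¬ PA i j' with hPB
  obtain ⟨J, hJ⟩ : ∃ J : ℕ → ℕ, ∀ i j, j < n0 → PB i j → J i = j := by
    refine ⟨fun i => if h : ∃ j, j < n0 ∧ PB i j then h.choose else n0, fun i j hj hij => ?_⟩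
    have h : ∃ j, j < n0 ∧ PB i j := ⟨j, hj, hij⟩
    simp only [dif_pos h]
    obtain ⟨h1, h2⟩ := h.choose_spec
    rcases lt_trichotomy h.choose j with h3 | h3 | h3
    · exact absurd hij.1 (h2.2 j h3 hj)
    · exact h3
    · exact absurd h2.1 (hij.2 _ h3 h1)
  have hone : ∀ j j', j < j' → j' < n0 →
      ∑ i ∈ range (n M), (if PA i j' then ‖s M i (κ j)‖ else 0) ≤ θ / 4 * (1 / 2) ^ (j' + 1) := by
    intro j j' hjj hj'
    have h1 : ∀ i, (if PA i j' then ‖s M i (κ j)‖ else 0) ≤
        2 ^ (κ j + 1) / T j' * ‖s M i (κ j')‖ := by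
      intro i
      split_ifs with h
      · have h2 := hsg M i (κ j) (hlt j (hjj.trans hj'))
        have h3 : g M i ≤ ‖s M i (κ j')‖ / T j' := by
          rw [le_div_iff₀ (hTpos j')]
          have : T j' * g M i < ‖s M i (κ j')‖ := h
          linarith
        calc ‖s M i (κ j)‖ ≤ 2 ^ (κ j + 1) * g M i := h2
          _ ≤ 2 ^ (κ j + 1) * (‖s M i (κ j')‖ / T j') :=
              mul_le_mul_of_nonneg_left h3 (by positivity)
          _ = _ := by ring
      · have := hTpos j'
        positivity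
    calc ∑ i ∈ range (n M), (if PA i j' then ‖s M i (κ j)‖ else 0)
        ≤ ∑ i ∈ range (n M), 2 ^ (κ j + 1) / T j' * ‖s M i (κ j')‖ := sum_le_sum fun i _ => h1 i
      _ = 2 ^ (κ j + 1) / T j' * ∑ i ∈ range (n M), ‖s M i (κ j')‖ := by rw [mul_sum]
      _ ≤ 2 ^ (κ j + 1) / T j' * K := by
          refine mul_le_mul_of_nonneg_left (hsum M (κ j') (hlt j' hj')) ?_
          have := hTpos j'
          positivity
      _ ≤ θ / 4 * (1 / 2) ^ (j' + 1) := by
          have h2 := hTbig j j' hjj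
          rw [div_mul_eq_mul_div, div_le_iff₀ (hTpos j')]
          have h3 : θ / 4 * (1 / 2) ^ (j' + 1) * (2 ^ (κ j + 1) * K * (4 / θ) * 2 ^ (j' + 1)) =
              2 ^ (κ j + 1) * K := by
            have h4 : ((1 : ℝ) / 2) ^ (j' + 1) * 2 ^ (j' + 1) = 1 := by
              rw [← mul_pow]
              norm_num
            have h5 : θ / 4 * (4 / θ) = 1 := by field_simp
            calc _ = (θ / 4 * (4 / θ)) * (((1 : ℝ) / 2) ^ (j' + 1) * 2 ^ (j' + 1)) *
                  (2 ^ (κ j + 1) * K) := by ring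
              _ = _ := by rw [h4, h5]; ring
          rw [← h3]
          exact mul_le_mul_of_nonneg_left h2 (by positivity)
  have hBj : ∀ j < n0, θ / 4 ≤ ∑ i ∈ range (n M), (if J i = j then ‖s M i (κ j)‖ else 0) := by
    intro j hj
    have h1 : ∀ i, (if PA i j then ‖s M i (κ j)‖ else 0) ≤
        (if J i = j then ‖s M i (κ j)‖ else 0) +
        ∑ j' ∈ range n0, (if j < j' then (if PA i j' then ‖s M i (κ j)‖ else 0) else 0) := by
      intro i
      have hnn : ∀ j' ∈ range n0,
          0 ≤ (if j < j' then (if PA i j' then ‖s M i (κ j)‖ else 0) else 0) := by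
        intro j' _
        split_ifs <;> positivity
      by_cases hA : PA i j
      · rw [if_pos hA]
        by_cases hB : PB i j
        · rw [if_pos (hJ i j hj hB)]
          have := sum_nonneg hnn
          linarith
        · have : ∃ j', j < j' ∧ j' < n0 ∧ PA i j' := by
            by_contra hno
            push Not at hno
            exact hB ⟨hA, hno⟩
          obtain ⟨j', h1, h2, h3⟩ := this
          have h4 := single_le_sum hnn (mem_range.2 h2)
          rw [if_pos h1, if_pos h3] at h4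
          have h5 : 0 ≤ (if J i = j then ‖s M i (κ j)‖ else 0) := by
            split_ifs <;> positivity
          linarith
      · rw [if_neg hA]
        have := sum_nonneg hnn
        have h5 : 0 ≤ (if J i = j then ‖s M i (κ j)‖ else 0) := by
          split_ifs <;> positivity
        linarith
    have h2 : σ (T j) M (κ j) ≤ ∑ i ∈ range (n M), (if J i = j then ‖s M i (κ j)‖ else 0) +
        ∑ j' ∈ range n0, θ / 4 * (1 / 2) ^ (j' + 1) := by
      calc σ (T j) M (κ j) ≤ ∑ i ∈ range (n M), ((if J i = j then ‖s M i (κ j)‖ else 0) +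
            ∑ j' ∈ range n0, (if j < j' then (if PA i j' then ‖s M i (κ j)‖ else 0) else 0)) :=
            sum_le_sum fun i _ => h1 i
        _ = ∑ i ∈ range (n M), (if J i = j then ‖s M i (κ j)‖ else 0) +
            ∑ j' ∈ range n0, ∑ i ∈ range (n M),
              (if j < j' then (if PA i j' then ‖s M i (κ j)‖ else 0) else 0) := by
            rw [sum_add_distrib, sum_comm (s := range (n M)) (t := range n0)]
        _ ≤ _ := by
            refine add_le_add le_rfl (sum_le_sum fun j' hj' => ?_)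
            by_cases hjj : j < j'
            · simp only [if_pos hjj]
              exact hone j j' hjj (mem_range.1 hj')
            · simp only [if_neg hjj, sum_const_zero]
              positivity
    have h3 : ∑ j' ∈ range n0, θ / 4 * (1 / 2 : ℝ) ^ (j' + 1) ≤ θ / 4 := by
      have h4 : ∀ N : ℕ, ∑ j' ∈ range N, θ / 4 * (1 / 2 : ℝ) ^ (j' + 1) =
          θ / 4 * (1 - (1 / 2) ^ N) := by
        intro N
        induction N with
        | zero => simp
        | succ N ih =>
          rw [sum_range_succ, ih]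
          ring
      rw [h4]
      have h5 : (0 : ℝ) < (1 / 2 : ℝ) ^ n0 := by positivity
      nlinarith
    have h4 := hM2 j (mem_range.2 hj)
    linarith
  obtain ⟨e, he, hle⟩ := exists_sign_ge (𝕜 := 𝕜) (n M) n0
    (fun i j => ((b j : ℝ) : 𝕜) • s M i (κ j)) J
  have h1 := (hfam M n0 κ hlt (fun j => ((e j * b j : ℝ) : 𝕜))).2
  have h2 := hbe e he
  have h3 : ∑ i ∈ range (n M), (if J i < n0 then
      ‖∑ j ∈ range n0, ((e j : ℝ) : 𝕜) • ((b j : ℝ) : 𝕜) • s M i (κ j)‖ else 0) ≤
      ∑ i ∈ range (n M), ‖∑ j ∈ range n0, ((e j * b j : ℝ) : 𝕜) • s M i (κ j)‖ := by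
    refine sum_le_sum fun i _ => ?_
    simp only [smul_smul, ← RCLike.ofReal_mul]
    split_ifs
    · exact le_rfl
    · exact norm_nonneg _
  have h4 : θ / 4 * ∑ k ∈ range n0, b k ≤
      ∑ i ∈ range (n M), (if J i < n0 then ‖((b (J i) : ℝ) : 𝕜) • s M i (κ (J i))‖ else 0) := by
    calc θ / 4 * ∑ k ∈ range n0, b k
        = ∑ j ∈ range n0, b j * (θ / 4) := by rw [mul_sum]; exact sum_congr rfl fun _ _ => mul_comm _ _
      _ ≤ ∑ j ∈ range n0, b j * ∑ i ∈ range (n M), (if J i = j then ‖s M i (κ j)‖ else 0) :=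
          sum_le_sum fun j hj => mul_le_mul_of_nonneg_left (hBj j (mem_range.1 hj)) (hb0 j)
      _ = ∑ i ∈ range (n M), ∑ j ∈ range n0, (if J i = j then b j * ‖s M i (κ j)‖ else 0) := by
          rw [sum_comm]
          refine sum_congr rfl fun j _ => ?_
          rw [mul_sum]
          refine sum_congr rfl fun i _ => ?_
          rw [mul_ite, mul_zero]
      _ = _ := by
          refine sum_congr rfl fun i _ => ?_
          rw [sum_ite_eq]
          simp only [mem_range]
          refine if_congr Iff.rfl ?_ rfl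
          rw [norm_smul, RCLike.norm_ofReal, abs_of_nonneg (hb0 _)]
  have h5 : K * ‖∑ k ∈ range n0, ((e k * b k : ℝ) : 𝕜) • u (κ k)‖ <
      K * (θ / (4 * K) * ∑ k ∈ range n0, b k) := mul_lt_mul_of_pos_left h2 hK
  have h6 : K * (θ / (4 * K) * ∑ k ∈ range n0, b k) = θ / 4 * ∑ k ∈ range n0, b k := by
    field_simp
  rw [h6] at h5
  linarith

end Pool.Agent.H10.TB
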