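import Pool.Agent.H10.TB.Api

/-!
Definitions for MP_f83316_an: representability, the spaces `YF` and `XF`.
-/

namespace Pool.Agent.H10.TB

open Finset

universe u

/-- `(u k)_{k<M}` is `K`-representable in (a finite sum) `ℓ₁(V)`. -/
def Rep (𝕜 : Type*) [RCLike 𝕜] (V : Type*) [NormedAddCommGroup V] [NormedSpace 𝕜 V]
    {E : Type*} [NormedAddCommGroup E] [NormedSpace 𝕜 E] (K : ℝ) (u : ℕ → E) (M : ℕ) : Prop :=
  ∃ (n : ℕ) (s : ℕ → ℕ → V), ∀ b : ℕ → 𝕜,
    ‖∑ k ∈ range M, b k • u k‖ ≤ ∑ i ∈ range n, ‖∑ k ∈ range M, b k • s i k‖ ∧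
    ∑ i ∈ range n, ‖∑ k ∈ range M, b k • s i k‖ ≤ K * ‖∑ k ∈ range M, b k • u k‖

variable (𝕜 : Type u) [RCLike 𝕜]

/-! ### the space `Y₀` -/

/-- the Hilbert space used for `Y` -/
abbrev Hs : Type u := lp (fun _ : ℕ => 𝕜) 2

/-- unit vectors of `Hs` -/
noncomputable def hv (i : ℕ) : Hs 𝕜 := lp.single 2 i (1 : 𝕜)

/-- the dense subspace `Y₀` of `Y`: finitely supported scalar sequences -/
def YF : Type u := ℕ →₀ 𝕜

noncomputable instance : AddCommGroup (YF 𝕜) := inferInstanceAs (AddCommGroup (ℕ →₀ 𝕜))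
noncomputable instance : Module 𝕜 (YF 𝕜) := inferInstanceAs (Module 𝕜 (ℕ →₀ 𝕜))
instance : FunLike (YF 𝕜) ℕ 𝕜 := inferInstanceAs (FunLike (ℕ →₀ 𝕜) ℕ 𝕜)

variable {𝕜}

/-- the diagonal embedding: `dg y i = y i • h_i` -/
noncomputable def dg (y : YF 𝕜) (i : ℕ) : Hs 𝕜 := y i • hv 𝕜 i

noncomputable instance : Norm (YF 𝕜) := ⟨fun y => jn (1 / 2) (dg y)⟩

theorem YF.norm_def (y : YF 𝕜) : ‖y‖ = jn (1 / 2) (dg y) := rfl

theorem YF.add_apply (y z : YF 𝕜) (i : ℕ) : (y + z) i = y i + z i := Finsupp.add_apply ..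
theorem YF.smul_apply (c : 𝕜) (y : YF 𝕜) (i : ℕ) : (c • y) i = c * y i := Finsupp.smul_apply ..
theorem YF.zero_apply (i : ℕ) : (0 : YF 𝕜) i = 0 := rfl
theorem YF.ext {y z : YF 𝕜} (h : ∀ i, y i = z i) : y = z := Finsupp.ext h

/-- finite support -/
theorem YF.exists_bound (y : YF 𝕜) : ∃ B, ∀ i, B < i → y i = 0 := by
  refine ⟨(Finsupp.support y).sup id, fun i hi => ?_⟩
  by_contra h
  have := Finset.le_sup (f := id) (Finsupp.mem_support_iff.2 h : i ∈ Finsupp.support y)
  simp only [id] at this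
  exact absurd this (not_le.2 hi)

theorem YF.norm_eq (y : YF 𝕜) {p q : ℕ} (h : ∀ t, ¬ (p ≤ t ∧ t ≤ q) → y t = 0) :
    ‖y‖ = Nr (1 / 2) (dg y) p q :=
  jn_eq (by norm_num) (by norm_num) _ fun t ht => by simp [dg, h t ht]

theorem norm_hv (i : ℕ) : ‖hv 𝕜 i‖ = 1 := by
  simp [hv]

theorem norm_dg (y : YF 𝕜) (i : ℕ) : ‖dg y i‖ = ‖y i‖ := by
  simp [dg, norm_smul, norm_hv]

theorem YF.norm_core : NormedSpace.Core 𝕜 (YF 𝕜) where
  norm_nonneg y := by
    obtain ⟨B, hB⟩ := y.exists_bound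
    rw [y.norm_eq (p := 0) (q := B) fun t ht => hB t (by simpa using ht)]
    exact Nr_nonneg (by norm_num) (by norm_num) _ _ _
  norm_smul c y := by
    obtain ⟨B, hB⟩ := y.exists_bound
    rw [y.norm_eq (p := 0) (q := B) fun t ht => hB t (by simpa using ht),
      (c • y).norm_eq (p := 0) (q := B) fun t ht => by
        rw [YF.smul_apply, hB t (by simpa using ht), mul_zero]]
    rw [← Nr_smul (by norm_num)]
    congr 1
    funext t
    simp [dg, YF.smul_apply, mul_smul]
  norm_triangle y z := by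
    obtain ⟨B, hB⟩ := y.exists_bound
    obtain ⟨C, hC⟩ := z.exists_bound
    rw [y.norm_eq (p := 0) (q := max B C) fun t ht => hB t (by
        have : max B C < t := by simpa using ht
        exact (le_max_left _ _).trans_lt this),
      z.norm_eq (p := 0) (q := max B C) fun t ht => hC t (by
        have : max B C < t := by simpa using ht
        exact (le_max_right _ _).trans_lt this),
      (y + z).norm_eq (p := 0) (q := max B C) fun t ht => by
        have : max B C < t := by simpa using ht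
        rw [YF.add_apply, hB t ((le_max_left _ _).trans_lt this),
          hC t ((le_max_right _ _).trans_lt this), add_zero]]
    refine le_trans (le_of_eq ?_) (Nr_add (by norm_num) (by norm_num) _ _ _ _)
    congr 1
    funext t
    simp [dg, YF.add_apply, add_smul]
  norm_eq_zero_iff y := by
    obtain ⟨B, hB⟩ := y.exists_bound
    rw [y.norm_eq (p := 0) (q := B) fun t ht => hB t (by simpa using ht)]
    constructor
    · intro h
      refine YF.ext fun i => ?_
      by_cases hi : i ≤ B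
      · have := norm_apply_le_Nr (θ := 1 / 2) (by norm_num) (by norm_num) (dg y) (Nat.zero_le i) hi
        rw [h, norm_dg] at this
        rw [YF.zero_apply]
        simpa using this
      · exact hB i (not_le.1 hi)
    · rintro rfl
      exact Nr_eq_zero (by norm_num) (by norm_num) _ fun t _ _ => by simp [dg, YF.zero_apply]

noncomputable instance : NormedAddCommGroup (YF 𝕜) := NormedAddCommGroup.ofCore YF.norm_core
noncomputable instance : NormedSpace 𝕜 (YF 𝕜) := NormedSpace.ofCore YF.norm_core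

/-- unit vectors of `YF` -/
noncomputable def yv (𝕜 : Type u) [RCLike 𝕜] (i : ℕ) : YF 𝕜 := (Finsupp.single i (1 : 𝕜) : ℕ →₀ 𝕜)

theorem yv_apply (i j : ℕ) : yv 𝕜 i j = if i = j then 1 else 0 := Finsupp.single_apply ..

/-- restriction of `y` to a set of indices -/
noncomputable def YF.restrict (y : YF 𝕜) (s : Set ℕ) : YF 𝕜 := by
  classical exact (Finsupp.filter (· ∈ s) y : ℕ →₀ 𝕜)

open Classical in
theorem YF.restrict_apply (y : YF 𝕜) (s : Set ℕ) (i : ℕ) :
    y.restrict s i = if i ∈ s then y i else 0 := by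
  unfold YF.restrict
  exact Finsupp.filter_apply ..

/-! ### the space `X₀` -/

/-- triangular numbers: round `r` consists of the indices `tri r + i`, `i ≤ r` -/
def tri (r : ℕ) : ℕ := r * (r + 1) / 2

/-- the round of an index -/
def rd (n : ℕ) : ℕ := Nat.findGreatest (fun r => tri r ≤ n) n

/-- the fibre of an index -/
def ix (n : ℕ) : ℕ := n - tri (rd n)

theorem tri_succ (r : ℕ) : tri (r + 1) = tri r + (r + 1) := by
  unfold tri
  rw [show (r + 1) * (r + 1 + 1) = r * (r + 1) + (r + 1) * 2 by ring,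
    Nat.add_mul_div_right _ _ (by norm_num)]

theorem le_tri (r : ℕ) : r ≤ tri r := by
  induction r with
  | zero => simp [tri]
  | succ r ih => rw [tri_succ]; omega

theorem tri_strictMono : StrictMono tri := strictMono_nat_of_lt_succ fun r => by
  rw [tri_succ]; omega

theorem tri_rd_le (n : ℕ) : tri (rd n) ≤ n :=
  Nat.findGreatest_spec (P := fun r => tri r ≤ n) (Nat.zero_le n) (by simp [tri])

theorem lt_tri_rd_succ (n : ℕ) : n < tri (rd n + 1) := by
  by_contra h
  rw [not_lt] at h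
  have h1 : rd n + 1 ≤ n := (le_tri _).trans h
  have := Nat.le_findGreatest (P := fun r => tri r ≤ n) h1 h
  unfold rd at this
  omega

theorem ix_le_rd (n : ℕ) : ix n ≤ rd n := by
  have h1 := lt_tri_rd_succ n
  have h2 := tri_rd_le n
  rw [tri_succ] at h1
  unfold ix
  omega

theorem tri_rd_add_ix (n : ℕ) : tri (rd n) + ix n = n := by
  have h2 := tri_rd_le n
  unfold ix
  omega

theorem rd_tri_add {r i : ℕ} (h : i ≤ r) : rd (tri r + i) = r := by
  apply le_antisymm
  · by_contra hlt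
    rw [not_le] at hlt
    have h1 := tri_rd_le (tri r + i)
    have h2 : tri (r + 1) ≤ tri (rd (tri r + i)) := tri_strictMono.monotone hlt
    rw [tri_succ] at h2
    omega
  · by_contra hlt
    rw [not_le] at hlt
    have h1 := lt_tri_rd_succ (tri r + i)
    have h2 : tri (rd (tri r + i) + 1) ≤ tri r := tri_strictMono.monotone hlt
    omega

theorem ix_tri_add {r i : ℕ} (h : i ≤ r) : ix (tri r + i) = i := by
  unfold ix
  rw [rd_tri_add h]
  omega

variable (𝕜) in
/-- the dense subspace `X₀` of `X`: finitely supported scalar sequences; the index `n`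
stands for `f_{i,r}` with `r = rd n`, `i = ix n`. -/
def XF : Type u := ℕ →₀ 𝕜

noncomputable instance : AddCommGroup (XF 𝕜) := inferInstanceAs (AddCommGroup (ℕ →₀ 𝕜))
noncomputable instance : Module 𝕜 (XF 𝕜) := inferInstanceAs (Module 𝕜 (ℕ →₀ 𝕜))
instance : FunLike (XF 𝕜) ℕ 𝕜 := inferInstanceAs (FunLike (ℕ →₀ 𝕜) ℕ 𝕜)

theorem XF.add_apply (y z : XF 𝕜) (i : ℕ) : (y + z) i = y i + z i := Finsupp.add_apply ..
theorem XF.smul_apply (c : 𝕜) (y : XF 𝕜) (i : ℕ) : (c • y) i = c * y i := Finsupp.smul_apply ..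
theorem XF.zero_apply (i : ℕ) : (0 : XF 𝕜) i = 0 := rfl
theorem XF.ext {y z : XF 𝕜} (h : ∀ i, y i = z i) : y = z := Finsupp.ext h

/-- finite support -/
theorem XF.exists_bound (y : XF 𝕜) : ∃ B, ∀ i, B < i → y i = 0 := YF.exists_bound (𝕜 := 𝕜) y

/-- the vector measure `mu x r = ∑_{i ≤ r} x_{(i,r)} y_i` -/
noncomputable def mu (x : XF 𝕜) (r : ℕ) : YF 𝕜 := ∑ i ∈ range (r + 1), x (tri r + i) • yv 𝕜 i

noncomputable instance : Norm (XF 𝕜) := ⟨fun x => jn (1 / 4) (mu x)⟩

theorem XF.norm_def (x : XF 𝕜) : ‖x‖ = jn (1 / 4) (mu x) := rfl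

theorem mu_add (x y : XF 𝕜) (r : ℕ) : mu (x + y) r = mu x r + mu y r := by
  simp [mu, XF.add_apply, add_smul, sum_add_distrib]

theorem mu_smul (c : 𝕜) (x : XF 𝕜) (r : ℕ) : mu (c • x) r = c • mu x r := by
  simp [mu, XF.smul_apply, mul_smul, smul_sum]

theorem mu_zero (r : ℕ) : mu (0 : XF 𝕜) r = 0 := by
  simp [mu, XF.zero_apply]

theorem mu_apply (x : XF 𝕜) (r i : ℕ) : mu x r i = if i ≤ r then x (tri r + i) else 0 := by
  classical
  unfold mu
  have h : ∀ (s : Finset ℕ) (f : ℕ → YF 𝕜), (∑ j ∈ s, f j) i = ∑ j ∈ s, f j i := fun s f =>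
    Finsupp.finsetSum_apply s f i
  rw [h]
  simp only [YF.smul_apply, yv_apply, mul_ite, mul_one, mul_zero]
  rw [Finset.sum_ite_eq']
  simp

theorem XF.exists_mu_bound (x : XF 𝕜) : ∃ B, ∀ t, B < t → mu x t = 0 := by
  obtain ⟨B, hB⟩ := x.exists_bound
  refine ⟨B, fun t ht => ?_⟩
  unfold mu
  refine sum_eq_zero fun i _ => ?_
  rw [hB _ (ht.trans_le ((le_tri t).trans (Nat.le_add_right _ _))), zero_smul]

theorem XF.norm_eq (x : XF 𝕜) {p q : ℕ} (h : ∀ t, ¬ (p ≤ t ∧ t ≤ q) → mu x t = 0) :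
    ‖x‖ = Nr (1 / 4) (mu x) p q :=
  jn_eq (by norm_num) (by norm_num) _ h

theorem XF.norm_core : NormedSpace.Core 𝕜 (XF 𝕜) where
  norm_nonneg y := by
    obtain ⟨B, hB⟩ := y.exists_mu_bound
    rw [y.norm_eq (p := 0) (q := B) fun t ht => hB t (by simpa using ht)]
    exact Nr_nonneg (by norm_num) (by norm_num) _ _ _
  norm_smul c y := by
    obtain ⟨B, hB⟩ := y.exists_mu_bound
    rw [y.norm_eq (p := 0) (q := B) fun t ht => hB t (by simpa using ht),
      (c • y).norm_eq (p := 0) (q := B) fun t ht => by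
        rw [mu_smul, hB t (by simpa using ht), smul_zero]]
    rw [← Nr_smul (by norm_num)]
    congr 1
    funext t
    simp [mu_smul]
  norm_triangle y z := by
    obtain ⟨B, hB⟩ := y.exists_mu_bound
    obtain ⟨C, hC⟩ := z.exists_mu_bound
    rw [y.norm_eq (p := 0) (q := max B C) fun t ht => hB t (by
        have : max B C < t := by simpa using ht
        exact (le_max_left _ _).trans_lt this),
      z.norm_eq (p := 0) (q := max B C) fun t ht => hC t (by
        have : max B C < t := by simpa using ht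
        exact (le_max_right _ _).trans_lt this),
      (y + z).norm_eq (p := 0) (q := max B C) fun t ht => by
        have : max B C < t := by simpa using ht
        rw [mu_add, hB t ((le_max_left _ _).trans_lt this),
          hC t ((le_max_right _ _).trans_lt this), add_zero]]
    refine le_trans (le_of_eq ?_) (Nr_add (by norm_num) (by norm_num) _ _ _ _)
    congr 1
    funext t
    simp [mu_add]
  norm_eq_zero_iff y := by
    obtain ⟨B, hB⟩ := y.exists_mu_bound
    rw [y.norm_eq (p := 0) (q := B) fun t ht => hB t (by simpa using ht)]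
    constructor
    · intro h
      refine XF.ext fun n => ?_
      have h1 : mu y (rd n) (ix n) = y n := by
        rw [mu_apply, if_pos (ix_le_rd n), tri_rd_add_ix]
      rw [← h1]
      by_cases hi : rd n ≤ B
      · have := norm_apply_le_Nr (θ := 1 / 4) (by norm_num) (by norm_num) (mu y)
          (Nat.zero_le _) hi
        rw [h] at this
        have h2 : mu y (rd n) = 0 := norm_le_zero_iff.1 this
        rw [h2]
        rfl
      · rw [hB _ (not_le.1 hi)]
        rfl
    · rintro rfl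
      exact Nr_eq_zero (by norm_num) (by norm_num) _ fun t _ _ => mu_zero t

noncomputable instance : NormedAddCommGroup (XF 𝕜) := NormedAddCommGroup.ofCore XF.norm_core
noncomputable instance : NormedSpace 𝕜 (XF 𝕜) := NormedSpace.ofCore XF.norm_core

/-- the vectors `f_n` -/
noncomputable def fF (𝕜 : Type u) [RCLike 𝕜] (n : ℕ) : XF 𝕜 := (Finsupp.single n (1 : 𝕜) : ℕ →₀ 𝕜)

/-- the vectors `e_n`: `e_{r,r} = f_{r,r}` and `e_{i,r} = f_{i,r} - f_{i,r-1}` for `i < r` -/
noncomputable def eF (𝕜 : Type u) [RCLike 𝕜] (n : ℕ) : XF 𝕜 :=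
  if ix n = rd n then fF 𝕜 n else fF 𝕜 n - fF 𝕜 (n - rd n)

/-- the coordinate functionals of `e` : `a_{i,r}(x) = ∑_{s ≥ r} x_{(i,s)}` -/
noncomputable def ac (n : ℕ) (x : XF 𝕜) : 𝕜 :=
  Finsupp.sum x fun m c => if ix m = ix n ∧ rd n ≤ rd m then c else 0

/-- total mass -/
noncomputable def Tot (x : XF 𝕜) : YF 𝕜 := (Finsupp.mapDomain ix x : ℕ →₀ 𝕜)

/-- the diagonal embedding `Y₀ → X₀`, and more generally `y_k ↦ f_{k, r k}` -/
noncomputable def Jr (r : ℕ → ℕ) (y : YF 𝕜) : XF 𝕜 :=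
  (Finsupp.mapDomain (fun k => tri (r k) + k) y : ℕ →₀ 𝕜)

/-- zero mass normalized block sequences of `X₀` -/
structure ZBlock (w : ℕ → XF 𝕜) : Prop where
  norm_eq : ∀ k, ‖w k‖ = 1
  tot : ∀ k, Tot (w k) = 0
  supp : ∃ p q : ℕ → ℕ, (∀ k, p k ≤ q k) ∧ (∀ k, q k < p (k + 1)) ∧
    ∀ k t, ¬ (p k ≤ t ∧ t ≤ q k) → mu (w k) t = 0

/-- normalized block sequences of `Y₀` -/
structure YBlock (v : ℕ → YF 𝕜) : Prop where
  norm_eq : ∀ k, ‖v k‖ = 1
  supp : ∃ p q : ℕ → ℕ, (∀ k, p k ≤ q k) ∧ (∀ k, q k < p (k + 1)) ∧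
    ∀ k t, ¬ (p k ≤ t ∧ t ≤ q k) → v k t = 0

end Pool.Agent.H10.TB
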