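import Pool.Agent.H10.TB.B1
import Pool.Agent.H10.TB.B4

/-!
Theorem B of f83316_proof.md (section 3).
-/

namespace Pool.Agent.H10.TB

universe u

variable {𝕜 : Type u} [RCLike 𝕜]

theorem thmB (w : ℕ → XF 𝕜) (hw : ZBlock w) (K : ℝ) : ∃ M : ℕ, ¬ Rep 𝕜 (YF 𝕜) K w M := by
  by_contra hcon
  push Not at hcon
  obtain ⟨w', tn, hw', h1, h2, h3, h4⟩ := stepB1 w hw K hcon
  exact stepB4 w' hw' tn K h1 h2 h3 h4

end Pool.Agent.H10.TB
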