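import Pool.Agent.H10.TB.Extract
import Pool.Agent.H10.TB.ThmB

/-!
Common part of sections 4a and 4b of f83316_proof.md: a representation in `ℓ₁(V)` from
finitely many functionals (the head) and a tail.
-/

namespace Pool.Agent.H10.TB

open Finset UniformSpace

universe u

variable {𝕜 : Type u} [RCLike 𝕜]

theorem Rep.mono {V : Type*} [NormedAddCommGroup V] [NormedSpace 𝕜 V]
    {E : Type*} [NormedAddCommGroup E] [NormedSpace 𝕜 E] {K K' : ℝ} (hK : K ≤ K') {u : ℕ → E}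
    {M : ℕ} (h : Rep 𝕜 V K u M) : Rep 𝕜 V K' u M := by
  obtain ⟨n, s, h⟩ := h
  exact ⟨n, s, fun b => ⟨(h b).1, (h b).2.trans (mul_le_mul_of_nonneg_right hK (norm_nonneg _))⟩⟩

theorem rep_of_tail {θ : ℝ} {V : Type*} [NormedAddCommGroup V]
    [NormedSpace 𝕜 V] (v0 : V) (hv0 : ‖v0‖ = 1) {E : Type*} [NormedAddCommGroup E]
    [NormedSpace 𝕜 E] (u : ℕ → E) (m L : ℕ) (η : ℝ) (cc : ℕ → ℕ → 𝕜)
    (hnet : ∀ b : ℕ → 𝕜, ‖∑ k ∈ range m, b k • u k‖ ≤ 1 →
      ∃ l < L, ‖∑ k ∈ range m, (b k - cc l k) • u k‖ ≤ η)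
    (r0 B : ℕ)
    (hS : ∀ (x : ℕ → ℕ → V) (ε : ℝ), 0 < ε →
      ∃ (n : ℕ) (w : ℕ → ℝ) (s t : ℕ → ℕ), (∀ i, 0 ≤ w i) ∧ (∀ i < n, r0 ≤ s i ∧ t i ≤ B) ∧
        (∀ y : ℕ → V, ∑ i ∈ range n, w i * ‖S y (s i) (t i)‖ ≤ θ⁻¹ * Nr θ y r0 B) ∧
        ∀ l < L, Nr θ (x l) r0 B - ε ≤ ∑ i ∈ range n, w i * ‖S (x l) (s i) (t i)‖)
    (p : ℕ) (d : ℕ → ℝ) (hd : ∀ n, 0 ≤ d n) (a : ℕ → ℕ → 𝕜) (x : ℕ → ℕ → V) (κ D : ℝ)
    (hκ : 0 < κ)
    (hlow : ∀ b : ℕ → 𝕜, κ * ‖∑ k ∈ range m, b k • u k‖ ≤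
      ∑ n ∈ range p, d n * ‖∑ k ∈ range m, b k * a k n‖ +
        Nr θ (fun r => ∑ k ∈ range m, b k • x k r) r0 B)
    (hup : ∀ b : ℕ → 𝕜, ∑ n ∈ range p, d n * ‖∑ k ∈ range m, b k * a k n‖ +
        θ⁻¹ * Nr θ (fun r => ∑ k ∈ range m, b k • x k r) r0 B ≤
        D * ‖∑ k ∈ range m, b k • u k‖)
    (hη : η ≤ 1 / 2) (hDη : D * η ≤ κ / 8) (hD : 0 ≤ D) :
    Rep 𝕜 V (8 * D / κ) u m := by
  obtain ⟨n', w, s, t, hw, -, hwle, hwge⟩ :=
    hS (fun l r => ∑ k ∈ range m, cc l k • x k r) (κ / 4) (by positivity)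
  -- the seminorm
  set ρ : (ℕ → 𝕜) → ℝ := fun b => ∑ n ∈ range p, d n * ‖∑ k ∈ range m, b k * a k n‖ +
    ∑ i ∈ range n', w i * ‖∑ k ∈ range m, b k • S (x k) (s i) (t i)‖ with hρ
  have hSlin : ∀ (b : ℕ → 𝕜) (i : ℕ), S (fun r => ∑ k ∈ range m, b k • x k r) (s i) (t i) =
      ∑ k ∈ range m, b k • S (x k) (s i) (t i) := by
    intro b i
    rw [S_sum (range m) (fun k r => b k • x k r)]
    exact sum_congr rfl fun k _ => S_smul _ _ _ _
  have hρsub : ∀ b b', ρ b ≤ ρ b' + ρ (fun k => b k - b' k) := by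
    intro b b'
    simp only [hρ]
    have h1 : ∑ n ∈ range p, d n * ‖∑ k ∈ range m, b k * a k n‖ ≤
        ∑ n ∈ range p, d n * ‖∑ k ∈ range m, b' k * a k n‖ +
        ∑ n ∈ range p, d n * ‖∑ k ∈ range m, (b k - b' k) * a k n‖ := by
      rw [← sum_add_distrib]
      refine sum_le_sum fun n _ => ?_
      rw [← mul_add]
      refine mul_le_mul_of_nonneg_left ?_ (hd n)
      have : ∑ k ∈ range m, b k * a k n =
          ∑ k ∈ range m, b' k * a k n + ∑ k ∈ range m, (b k - b' k) * a k n := by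
        rw [← sum_add_distrib]
        exact sum_congr rfl fun k _ => by ring
      rw [this]
      exact norm_add_le _ _
    have h2 : ∑ i ∈ range n', w i * ‖∑ k ∈ range m, b k • S (x k) (s i) (t i)‖ ≤
        ∑ i ∈ range n', w i * ‖∑ k ∈ range m, b' k • S (x k) (s i) (t i)‖ +
        ∑ i ∈ range n', w i * ‖∑ k ∈ range m, (b k - b' k) • S (x k) (s i) (t i)‖ := by
      rw [← sum_add_distrib]
      refine sum_le_sum fun n _ => ?_
      rw [← mul_add]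
      refine mul_le_mul_of_nonneg_left ?_ (hw n)
      have : ∑ k ∈ range m, b k • S (x k) (s n) (t n) =
          ∑ k ∈ range m, b' k • S (x k) (s n) (t n) +
          ∑ k ∈ range m, (b k - b' k) • S (x k) (s n) (t n) := by
        rw [← sum_add_distrib]
        exact sum_congr rfl fun k _ => by rw [← add_smul, add_sub_cancel]
      rw [this]
      exact norm_add_le _ _
    linarith
  have hρsmul : ∀ (r : ℝ) b, ρ (fun k => (r : 𝕜) * b k) = |r| * ρ b := by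
    intro r b
    simp only [hρ, mul_add, mul_sum]
    congr 1
    · refine sum_congr rfl fun n _ => ?_
      have : ∑ k ∈ range m, (r : 𝕜) * b k * a k n = (r : 𝕜) * ∑ k ∈ range m, b k * a k n := by
        rw [mul_sum]
        exact sum_congr rfl fun k _ => by ring
      rw [this, norm_mul, RCLike.norm_ofReal]
      ring
    · refine sum_congr rfl fun i _ => ?_
      have : ∑ k ∈ range m, ((r : 𝕜) * b k) • S (x k) (s i) (t i) =
          (r : 𝕜) • ∑ k ∈ range m, b k • S (x k) (s i) (t i) := by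
        rw [smul_sum]
        exact sum_congr rfl fun k _ => by rw [mul_smul]
      rw [this, norm_smul, RCLike.norm_ofReal]
      ring
  have hρle : ∀ b, ρ b ≤ D * ‖∑ k ∈ range m, b k • u k‖ := by
    intro b
    refine le_trans ?_ (hup b)
    simp only [hρ]
    have h1 := hwle (fun r => ∑ k ∈ range m, b k • x k r)
    simp only [hSlin] at h1
    linarith
  have hρge : ∀ l < L, 1 - η ≤ ‖∑ k ∈ range m, cc l k • u k‖ → κ / 4 ≤ ρ (cc l) := by
    intro l hl hn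
    have h1 := hwge l hl
    simp only [hSlin] at h1
    have h2 := hlow (cc l)
    have h3 : κ * (1 / 2) ≤ κ * ‖∑ k ∈ range m, cc l k • u k‖ :=
      mul_le_mul_of_nonneg_left (by linarith) hκ.le
    simp only [hρ]
    linarith
  have hfin : ∀ b : ℕ → 𝕜, κ / 8 * ‖∑ k ∈ range m, b k • u k‖ ≤ ρ b := by
    intro b
    have := lower_of_net u m η L cc hnet ρ D (κ / 4) hρsub hρsmul hρle hρge (by linarith) hD b
    calc κ / 8 * ‖∑ k ∈ range m, b k • u k‖ = κ / 4 / 2 * ‖∑ k ∈ range m, b k • u k‖ := by ring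
      _ ≤ ρ b := this
  -- the representation
  refine ⟨p + n', fun i k => if i < p then (((8 / κ * d i : ℝ) : 𝕜) * a k i) • v0
    else (((8 / κ * w (i - p) : ℝ) : 𝕜)) • S (x k) (s (i - p)) (t (i - p)), fun b => ?_⟩
  have hval : ∑ i ∈ range (p + n'), ‖∑ k ∈ range m, b k •
      (if i < p then (((8 / κ * d i : ℝ) : 𝕜) * a k i) • v0
        else (((8 / κ * w (i - p) : ℝ) : 𝕜)) • S (x k) (s (i - p)) (t (i - p)))‖ =
      8 / κ * ρ b := by
    rw [sum_range_add]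
    simp only [hρ, mul_add, mul_sum]
    congr 1
    · refine sum_congr rfl fun i hi => ?_
      rw [mem_range] at hi
      simp only [if_pos hi]
      have : ∑ k ∈ range m, b k • (((8 / κ * d i : ℝ) : 𝕜) * a k i) • v0 =
          (((8 / κ * d i : ℝ) : 𝕜) * ∑ k ∈ range m, b k * a k i) • v0 := by
        rw [mul_sum, sum_smul]
        refine sum_congr rfl fun k _ => ?_
        rw [smul_smul]
        congr 1
        ring
      rw [this, norm_smul, hv0, mul_one, norm_mul, RCLike.norm_ofReal,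
        abs_of_nonneg (mul_nonneg (by positivity) (hd i)), mul_assoc]
    · refine sum_congr rfl fun i _ => ?_
      have h1 : ¬ p + i < p := by omega
      simp only [if_neg h1, Nat.add_sub_cancel_left]
      have : ∑ k ∈ range m, b k • (((8 / κ * w i : ℝ) : 𝕜)) • S (x k) (s i) (t i) =
          (((8 / κ * w i : ℝ) : 𝕜)) • ∑ k ∈ range m, b k • S (x k) (s i) (t i) := by
        rw [smul_sum]
        exact sum_congr rfl fun k _ => smul_comm _ _ _
      rw [this, norm_smul, RCLike.norm_ofReal,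
        abs_of_nonneg (mul_nonneg (by positivity) (hw i)), mul_assoc]
  rw [hval]
  have h8 : 0 < 8 / κ := by positivity
  constructor
  · have := mul_le_mul_of_nonneg_left (hfin b) h8.le
    calc ‖∑ k ∈ range m, b k • u k‖ = 8 / κ * (κ / 8 * ‖∑ k ∈ range m, b k • u k‖) := by
          field_simp
      _ ≤ _ := this
  · have := mul_le_mul_of_nonneg_left (hρle b) h8.le
    calc 8 / κ * ρ b ≤ 8 / κ * (D * ‖∑ k ∈ range m, b k • u k‖) := this
      _ = _ := by ring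

/-! ### heads and tails in the basis `e` -/

theorem le_rd {r n : ℕ} (h : tri r ≤ n) : r ≤ rd n := by
  have h1 := lt_tri_rd_succ n
  have h2 : tri r < tri (rd n + 1) := lt_of_le_of_lt h h1
  have h3 := tri_strictMono.lt_iff_lt.1 h2
  omega

theorem rd_le (n : ℕ) : rd n ≤ n := (le_tri _).trans (tri_rd_le n)

/-- the part of the expansion of `x` with indices in `[q, N)` -/
noncomputable def tl (q N : ℕ) (x : XC 𝕜) : XF 𝕜 :=
  ∑ n ∈ Ico q N, (eB 𝕜).coord n x • eF 𝕜 n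

theorem tl_sum (q N m : ℕ) (b : ℕ → 𝕜) (g : ℕ → XC 𝕜) :
    tl q N (∑ k ∈ range m, b k • g k) = ∑ k ∈ range m, b k • tl q N (g k) := by
  simp only [tl, map_sum, map_smul, smul_sum, sum_smul, smul_eq_mul, mul_smul]
  exact sum_comm

theorem coe_tl {q N : ℕ} (h : q ≤ N) (x : XC 𝕜) :
    ((tl q N x : XF 𝕜) : XC 𝕜) = (eB 𝕜).proj N x - (eB 𝕜).proj q x := by
  have h1 : ((tl q N x : XF 𝕜) : XC 𝕜) = ∑ n ∈ Ico q N, (eB 𝕜).coord n x • eB 𝕜 n := by
    unfold tl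
    have h2 : ∀ y : XF 𝕜, (y : XC 𝕜) = Completion.toComplL (𝕜 := 𝕜) (E := XF 𝕜) y := fun y => rfl
    rw [h2, map_sum]
    refine sum_congr rfl fun n _ => ?_
    rw [map_smul, ← h2, eB_apply]
  rw [h1, SchauderBasis.proj_apply, SchauderBasis.proj_apply,
    Finset.sum_Ico_eq_sub _ h]

theorem norm_tl_le {q N : ℕ} (h : q ≤ N) (x : XC 𝕜) : ‖tl q N x‖ ≤ 14 * ‖x‖ := by
  rw [← Completion.norm_coe, coe_tl h]
  have h1 := norm_eB_proj_le N x
  have h2 := norm_eB_proj_le q x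
  have := norm_sub_le ((eB 𝕜).proj N x) ((eB 𝕜).proj q x)
  linarith

theorem mu_tl_of_lt {r N : ℕ} (x : XC 𝕜) {t : ℕ} (ht : t < r) :
    mu (tl (tri (r + 1)) N x) t = 0 := by
  unfold tl
  rw [mu_sum]
  refine sum_eq_zero fun n hn => ?_
  rw [mu_smul, mu_eF_of_gt, smul_zero]
  have := le_rd (mem_Ico.1 hn).1
  omega

theorem mu_tl_of_gt {q N : ℕ} (x : XC 𝕜) {t : ℕ} (ht : N < t) :
    mu (tl q N x) t = 0 := by
  unfold tl
  rw [mu_sum]
  refine sum_eq_zero fun n hn => ?_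
  rw [mu_smul, mu_eF_of_lt, smul_zero]
  have := (mem_Ico.1 hn).2
  have := rd_le n
  omega

theorem Tot_tl_apply {r N : ℕ} (x : XC 𝕜) {i : ℕ} (hi : ¬ (r ≤ i ∧ i ≤ N)) :
    Tot (tl (tri (r + 1)) N x) i = 0 := by
  unfold tl
  rw [Tot_sum, YF.sum_apply]
  refine sum_eq_zero fun n hn => ?_
  rw [Tot_smul, YF.smul_apply]
  have h1 := le_rd (mem_Ico.1 hn).1
  have h2 := (mem_Ico.1 hn).2
  have h3 := rd_le n
  rcases (ix_le_rd n).lt_or_eq with h | h
  · rw [Tot_eF_of_lt n h, YF.zero_apply, mul_zero]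
  · rw [Tot_eF_of_eq n h, yv_apply, if_neg, mul_zero]
    omega

/-- the size of the head -/
noncomputable def Dh (𝕜 : Type u) [RCLike 𝕜] (l : ℕ) : ℝ :=
  ∑ n ∈ range (tri l), 2 * ‖eF 𝕜 n‖ * ‖(eB 𝕜).coord n‖

theorem Dh_nonneg (l : ℕ) : 0 ≤ Dh 𝕜 l := sum_nonneg fun n _ => by positivity

theorem head_le (l m : ℕ) (b : ℕ → 𝕜) (g : ℕ → XC 𝕜) :
    ∑ n ∈ range (tri l), 2 * ‖eF 𝕜 n‖ * ‖∑ k ∈ range m, b k * (eB 𝕜).coord n (g k)‖ ≤
      Dh 𝕜 l * ‖∑ k ∈ range m, b k • g k‖ := by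
  rw [Dh, sum_mul]
  refine sum_le_sum fun n _ => ?_
  have h1 : ∑ k ∈ range m, b k * (eB 𝕜).coord n (g k) =
      (eB 𝕜).coord n (∑ k ∈ range m, b k • g k) := by
    simp [map_sum, map_smul]
  rw [h1, mul_assoc (2 * ‖eF 𝕜 n‖)]
  exact mul_le_mul_of_nonneg_left (ContinuousLinearMap.le_opNorm _ _) (by positivity)

/-- the partial sums are controlled by the head -/
theorem proj_le_head {l n0 : ℕ} (h : n0 ≤ tri l) (m : ℕ) (b : ℕ → 𝕜) (g : ℕ → XC 𝕜) :
    2 * ‖(eB 𝕜).proj n0 (∑ k ∈ range m, b k • g k)‖ ≤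
      ∑ n ∈ range (tri l), 2 * ‖eF 𝕜 n‖ * ‖∑ k ∈ range m, b k * (eB 𝕜).coord n (g k)‖ := by
  have h2 : ∑ n ∈ range n0, 2 * ‖eF 𝕜 n‖ * ‖∑ k ∈ range m, b k * (eB 𝕜).coord n (g k)‖ ≤
      ∑ n ∈ range (tri l), 2 * ‖eF 𝕜 n‖ * ‖∑ k ∈ range m, b k * (eB 𝕜).coord n (g k)‖ :=
    sum_le_sum_of_subset_of_nonneg (range_subset_range.2 h) fun n _ _ => by positivity
  refine le_trans ?_ h2
  rw [SchauderBasis.proj_apply]
  refine le_trans (mul_le_mul_of_nonneg_left (norm_sum_le _ _) zero_le_two) ?_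
  rw [mul_sum]
  refine sum_le_sum fun n _ => ?_
  have h1 : ∑ k ∈ range m, b k * (eB 𝕜).coord n (g k) =
      (eB 𝕜).coord n (∑ k ∈ range m, b k • g k) := by
    simp [map_sum, map_smul]
  rw [h1, norm_smul, eB_apply, Completion.norm_coe]
  exact le_of_eq (by ring)

/-- on sequences with a gap the projections agree -/
theorem proj_gap {p q : ℕ} (hpq : p ≤ q) (m : ℕ) (b : ℕ → 𝕜) (g : ℕ → XC 𝕜)
    (hgap : ∀ k n, p ≤ n → n < q → (eB 𝕜).coord n (g k) = 0) :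
    (eB 𝕜).proj q (∑ k ∈ range m, b k • g k) = (eB 𝕜).proj p (∑ k ∈ range m, b k • g k) := by
  rw [SchauderBasis.proj_apply, SchauderBasis.proj_apply]
  symm
  refine sum_subset (range_subset_range.2 hpq) fun n hn hn' => ?_
  rw [mem_range] at hn hn'
  have : (eB 𝕜).coord n (∑ k ∈ range m, b k • g k) = 0 := by
    rw [map_sum]
    refine sum_eq_zero fun k _ => ?_
    rw [map_smul, hgap k n (not_lt.1 hn') hn, smul_zero]
  rw [this, zero_smul]

/-- uniform approximation by partial sums -/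
theorem exists_approx (m q : ℕ) (g : ℕ → XC 𝕜) (ε : ℝ) (hε : 0 < ε) :
    ∃ N, q ≤ N ∧ ∀ (b : ℕ → 𝕜) (Z : ℝ), 0 ≤ Z → (∀ k < m, ‖b k‖ ≤ Z) →
      ‖(∑ k ∈ range m, b k • g k) - (eB 𝕜).proj N (∑ k ∈ range m, b k • g k)‖ ≤ ε * Z := by
  have h1 : ∀ k, ∀ᶠ N in Filter.atTop, ‖g k - (eB 𝕜).proj N (g k)‖ < ε / (m + 1) := by
    intro k
    have h2 := (eB 𝕜).tendsto_proj (g k)
    have h3 : Filter.Tendsto (fun N => ‖g k - (eB 𝕜).proj N (g k)‖) Filter.atTop (nhds 0) := by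
      have := (tendsto_const_nhds (x := g k)).sub h2
      rw [sub_self] at this
      exact (tendsto_norm_zero.comp this)
    exact h3.eventually (gt_mem_nhds (by positivity))
  have h2 : ∀ᶠ N in Filter.atTop, ∀ k ∈ range m, ‖g k - (eB 𝕜).proj N (g k)‖ < ε / (m + 1) :=
    (Filter.eventually_all_finset _).2 fun k _ => h1 k
  obtain ⟨N, hN1, hN2⟩ := (h2.and (Filter.eventually_ge_atTop q)).exists
  refine ⟨N, hN2, fun b Z hZ hb => ?_⟩
  rw [map_sum, ← sum_sub_distrib]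
  refine (norm_sum_le _ _).trans ?_
  have h3 : ∀ k ∈ range m, ‖b k • g k - (eB 𝕜).proj N (b k • g k)‖ ≤ Z * (ε / (m + 1)) := by
    intro k hk
    rw [map_smul, ← smul_sub, norm_smul]
    exact mul_le_mul (hb k (mem_range.1 hk)) (hN1 k hk).le (norm_nonneg _) hZ
  refine (sum_le_sum h3).trans ?_
  rw [sum_const, card_range, nsmul_eq_mul]
  have h4 : (m : ℝ) * (ε / (m + 1)) ≤ ε := by
    rw [← mul_div_assoc, div_le_iff₀ (by positivity)]
    nlinarith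
  nlinarith

/-- the gaps -/
theorem exists_gaps (r0 : ℕ → ℕ → ℕ) : ∃ l : ℕ → ℕ, (∀ j, r0 j (l j) < l (j + 1)) ∧
    ∀ j, l j < l (j + 1) := by
  let l : ℕ → ℕ := fun j => Nat.rec 0 (fun j lj => max (r0 j lj) lj + 1) j
  have hl : ∀ j, l (j + 1) = max (r0 j (l j)) (l j) + 1 := fun j => rfl
  refine ⟨l, fun j => ?_, fun j => ?_⟩
  · rw [hl]
    have := le_max_left (r0 j (l j)) (l j)
    omega
  · rw [hl]
    have := le_max_right (r0 j (l j)) (l j)
    omega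

end Pool.Agent.H10.TB
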