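import Pool.Agent.H10.TB.TightAux

/-!
Section 4b of f83316_proof.md.
-/

namespace Pool.Agent.H10.TB

open Finset UniformSpace

universe u

variable {𝕜 : Type u} [RCLike 𝕜]

/-- claim (E): on the image of an embedding of a block sequence of `Y` the total mass and a head
control the norm -/
theorem claimE (v : ℕ → YF 𝕜) (g : ℕ → XC 𝕜) (c C : ℝ) (hc : 0 < c)
    (hall : ∀ (M : ℕ) (b : ℕ → 𝕜),
          c * ‖∑ k ∈ range M, b k • v k‖ ≤ ‖∑ k ∈ range M, b k • g k‖ ∧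
            ‖∑ k ∈ range M, b k • g k‖ ≤ C * ‖∑ k ∈ range M, b k • v k‖) :
    ∃ (n0 : ℕ) (δ : ℝ), 0 < δ ∧ ∀ (M : ℕ) (b : ℕ → 𝕜),
      δ * ‖∑ k ∈ range M, b k • g k‖ ≤ ‖TotC 𝕜 (∑ k ∈ range M, b k • g k)‖ +
        ‖Rn 𝕜 n0 (∑ k ∈ range M, b k • g k)‖ := by
  by_contra hcon
  push Not at hcon
  obtain ⟨g', w, hg', hw, hclose⟩ := extraction {x : XC 𝕜 | ∃ (M : ℕ) (b : ℕ → 𝕜),
      x = ∑ k ∈ range M, b k • g k} (by
    intro n δ hδ
    obtain ⟨M, b, h1⟩ := hcon n δ hδ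
    have h2 : 0 < ‖∑ k ∈ range M, b k • g k‖ := by
      by_contra h
      have h3 : ‖∑ k ∈ range M, b k • g k‖ = 0 := le_antisymm (not_lt.1 h) (norm_nonneg _)
      rw [h3, mul_zero] at h1
      have := norm_nonneg (TotC 𝕜 (∑ k ∈ range M, b k • g k))
      have := norm_nonneg (Rn 𝕜 n (∑ k ∈ range M, b k • g k))
      linarith
    set x := ∑ k ∈ range M, b k • g k with hx
    have hnorm : ‖((‖x‖⁻¹ : ℝ) : 𝕜)‖ = ‖x‖⁻¹ := by
      rw [RCLike.norm_ofReal, abs_of_pos (inv_pos.2 h2)]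
    refine ⟨((‖x‖⁻¹ : ℝ) : 𝕜) • x, ⟨M, fun k => ((‖x‖⁻¹ : ℝ) : 𝕜) * b k, ?_⟩, ?_, ?_⟩
    · rw [hx, smul_sum]
      exact sum_congr rfl fun k _ => by rw [mul_smul]
    · rw [norm_smul, hnorm, inv_mul_cancel₀ h2.ne']
    · rw [map_smul, map_smul, norm_smul, norm_smul, hnorm, ← mul_add]
      rw [inv_mul_lt_iff₀ h2, mul_comm]
      exact h1)
  choose Mk bk hbk using hg'
  -- the coefficients of `g' k`
  have hCpos : 0 < C := by
    by_contra hC
    have h1 := (hall (Mk 0) (bk 0)).2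
    rw [← hbk 0] at h1
    have h2 : ‖g' 0‖ ≤ 0 := h1.trans (mul_nonpos_of_nonpos_of_nonneg (not_lt.1 hC) (norm_nonneg _))
    have h3 := hclose 0
    have h4 : g' 0 = 0 := norm_le_zero_iff.1 h2
    rw [h4, zero_sub, norm_neg, Completion.norm_coe, hw.norm_eq] at h3
    norm_num at h3
  obtain ⟨M, hM⟩ := thmB w hw (5 * C / (3 * c))
  apply hM
  refine ⟨1, fun _ k => ((4 * C / 3 : ℝ) : 𝕜) • ∑ i ∈ range (Mk k), bk k i • v i, fun b => ?_⟩
  simp only [sum_range_one]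
  -- write the combination with one sequence of coefficients
  have hcomb : ∃ (N : ℕ) (a : ℕ → 𝕜),
      (∑ k ∈ range M, b k • g' k = ∑ i ∈ range N, a i • g i) ∧
      (∑ k ∈ range M, b k • ∑ i ∈ range (Mk k), bk k i • v i = ∑ i ∈ range N, a i • v i) := by
    refine ⟨(range M).sup Mk, fun i => ∑ k ∈ range M, if i < Mk k then b k * bk k i else 0,
      ?_, ?_⟩
    · have h1 : ∀ k ∈ range M, b k • g' k =
          ∑ i ∈ range ((range M).sup Mk), (if i < Mk k then b k * bk k i else 0) • g i := by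
        intro k hk
        rw [hbk k, smul_sum]
        rw [← sum_subset (range_subset_range.2 (le_sup hk : Mk k ≤ (range M).sup Mk))]
        · refine sum_congr rfl fun i hi => ?_
          rw [if_pos (mem_range.1 hi), mul_smul]
        · intro i _ hi
          rw [if_neg (fun h => hi (mem_range.2 h)), zero_smul]
      rw [sum_congr rfl h1, sum_comm]
      exact sum_congr rfl fun i _ => by rw [sum_smul]
    · have h1 : ∀ k ∈ range M, b k • (∑ i ∈ range (Mk k), bk k i • v i) =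
          ∑ i ∈ range ((range M).sup Mk), (if i < Mk k then b k * bk k i else 0) • v i := by
        intro k hk
        rw [smul_sum]
        rw [← sum_subset (range_subset_range.2 (le_sup hk : Mk k ≤ (range M).sup Mk))]
        · refine sum_congr rfl fun i hi => ?_
          rw [if_pos (mem_range.1 hi), mul_smul]
        · intro i _ hi
          rw [if_neg (fun h => hi (mem_range.2 h)), zero_smul]
      rw [sum_congr rfl h1, sum_comm]
      exact sum_congr rfl fun i _ => by rw [sum_smul]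
  obtain ⟨N, a, ha1, ha2⟩ := hcomb
  have h3 : ∑ k ∈ range M, b k • ((4 * C / 3 : ℝ) : 𝕜) • ∑ i ∈ range (Mk k), bk k i • v i =
      ((4 * C / 3 : ℝ) : 𝕜) • ∑ i ∈ range N, a i • v i := by
    rw [← ha2, smul_sum]
    exact sum_congr rfl fun k _ => smul_comm _ _ _
  rw [h3, norm_smul, RCLike.norm_ofReal, abs_of_pos (by positivity)]
  have h4 := perturbZ hw hclose M b
  rw [ha1] at h4
  have h5 := hall N a
  constructor
  · have : ‖∑ k ∈ range M, b k • w k‖ ≤ 4 / 3 * ‖∑ i ∈ range N, a i • g i‖ := by linarith [h4.1]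
    calc ‖∑ k ∈ range M, b k • w k‖ ≤ 4 / 3 * ‖∑ i ∈ range N, a i • g i‖ := this
      _ ≤ 4 / 3 * (C * ‖∑ i ∈ range N, a i • v i‖) :=
        mul_le_mul_of_nonneg_left h5.2 (by norm_num)
      _ = 4 * C / 3 * ‖∑ i ∈ range N, a i • v i‖ := by ring
  · have h6 : ‖∑ i ∈ range N, a i • v i‖ ≤ c⁻¹ * ‖∑ i ∈ range N, a i • g i‖ := by
      rw [le_inv_mul_iff₀ hc]
      exact h5.1
    calc 4 * C / 3 * ‖∑ i ∈ range N, a i • v i‖
        ≤ 4 * C / 3 * (c⁻¹ * (5 / 4 * ‖∑ k ∈ range M, b k • w k‖)) := by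
          refine mul_le_mul_of_nonneg_left (h6.trans ?_) (by positivity)
          exact mul_le_mul_of_nonneg_left h4.2 (by positivity)
      _ = 5 * C / (3 * c) * ‖∑ k ∈ range M, b k • w k‖ := by
          field_simp

/-- one gap, for block sequences of `Y` -/
theorem stepY (v : ℕ → YF 𝕜) (hv : YBlock v) (j l : ℕ) : ∃ r0 : ℕ, ∀ r : ℕ, r0 ≤ r → l ≤ r →
    ∀ g : ℕ → XC 𝕜, (∀ k n, tri l ≤ n → n < tri (r + 1) → (eB 𝕜).coord n (g k) = 0) →
    ∀ (c C δ : ℝ) (n0 : ℕ), 0 < c → 0 < δ → n0 ≤ l → 16 * C / (δ * c) ≤ j + 1 →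
      (∀ (M : ℕ) (b : ℕ → 𝕜),
      δ * ‖∑ k ∈ range M, b k • g k‖ ≤ ‖TotC 𝕜 (∑ k ∈ range M, b k • g k)‖ +
        ‖Rn 𝕜 n0 (∑ k ∈ range M, b k • g k)‖) →
      ¬ ∀ (M : ℕ) (b : ℕ → 𝕜),
          c * ‖∑ k ∈ range M, b k • v k‖ ≤ ‖∑ k ∈ range M, b k • g k‖ ∧
            ‖∑ k ∈ range M, b k • g k‖ ≤ C * ‖∑ k ∈ range M, b k • v k‖ := by
  set Dl : ℝ := Dh 𝕜 l + 56 with hDl
  have hDlpos : 56 ≤ Dl := by
    have := Dh_nonneg (𝕜 := 𝕜) l
    linarith
  obtain ⟨m, hm⟩ := thmCY v hv ((j + 1) * Dl)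
  obtain ⟨L, cc, -, hnet⟩ := exists_net (𝕜 := 𝕜) v m (1 / ((j + 2) * Dl)) (by positivity)
  obtain ⟨r0, hr0⟩ := tail_structure (θ := 1 / 2) (by norm_num) (by norm_num) (Hs 𝕜) L
  refine ⟨r0, fun r hr hlr g hgap c C δ n0 hc hδ hn0 hcC hE hall => hm ?_⟩
  -- constants
  have hCc : c ≤ C := by
    have h1 := hall 1 (fun _ => 1)
    simp only [sum_range_one, one_smul, hv.norm_eq, mul_one] at h1
    exact h1.1.trans h1.2
  have hCpos : 0 < C := hc.trans_le hCc
  have hltr : tri l ≤ tri (r + 1) := tri_strictMono.monotone (by omega)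
  obtain ⟨N, hN, happ⟩ := exists_approx m (tri (r + 1)) g (δ * c / 2) (by positivity)
  have hcoef : ∀ b : ℕ → 𝕜, ∀ k < m, ‖b k‖ ≤ ‖∑ k ∈ range m, b k • v k‖ := fun b k hk =>
    hv.norm_coeff_le m b hk
  have htail : ∀ b : ℕ → 𝕜, Nr (1 / 2)
      (fun t => ∑ k ∈ range m, b k • dg (Tot (tl (tri (r + 1)) N (g k))) t)
      r0 N = ‖Tot (tl (tri (r + 1)) N (∑ k ∈ range m, b k • g k))‖ := by
    intro b
    rw [YF.norm_eq (Tot (tl (tri (r + 1)) N (∑ k ∈ range m, b k • g k))) (p := r0) (q := N)]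
    · congr 1
      funext t
      rw [tl_sum, Tot_sum]
      simp only [dg, YF.sum_apply, Tot_smul, YF.smul_apply, sum_smul, mul_smul]
    · intro t ht
      exact Tot_tl_apply _ (by omega)
  have hrep := rep_of_tail (𝕜 := 𝕜) (θ := 1 / 2) (V := Hs 𝕜) (Pool.Agent.H10.TB.hv 𝕜 0)
    (norm_hv 0)
    v m L (1 / ((j + 2) * Dl)) cc hnet r0 N (fun x ε hε => hr0 N x ε hε)
    (tri l) (fun n => 2 * ‖eF 𝕜 n‖) (fun n => by positivity) (fun k n => (eB 𝕜).coord n (g k))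
    (fun k => dg (Tot (tl (tri (r + 1)) N (g k)))) (δ * c / 2) (Dl * C) (by positivity) ?_ ?_ ?_ ?_
    (by positivity)
  · refine hrep.mono ?_
    have h1 : 8 * (Dl * C) / (δ * c / 2) = (16 * C / (δ * c)) * Dl := by
      field_simp
      ring
    rw [h1]
    exact mul_le_mul_of_nonneg_right hcC (by positivity)
  · -- lower bound
    intro b
    rw [htail]
    have h1 := (hall m b).1
    have h2 := happ b _ (norm_nonneg _) (hcoef b)
    have h3 := proj_le_head (l := l) (n0 := tri l) le_rfl m b g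
    have h3' := proj_le_head (l := l) (n0 := tri n0) (tri_strictMono.monotone hn0) m b g
    have h4 := proj_gap hltr m b g hgap
    have hEb := hE m b
    set x := ∑ k ∈ range m, b k • g k with hx
    have h5 : TotC 𝕜 x = TotC 𝕜 (x - (eB 𝕜).proj N x) +
        ((Tot (tl (tri (r + 1)) N x) : YF 𝕜) : Completion (YF 𝕜)) +
        TotC 𝕜 ((eB 𝕜).proj (tri l) x) := by
      rw [← TotC_coe, coe_tl hN, h4, ← map_add, ← map_add]
      congr 1
      abel
    have h6 : ‖TotC 𝕜 x‖ ≤ ‖x - (eB 𝕜).proj N x‖ + ‖Tot (tl (tri (r + 1)) N x)‖ +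
        ‖(eB 𝕜).proj (tri l) x‖ := by
      rw [h5]
      refine norm_add₃_le.trans ?_
      rw [Completion.norm_coe]
      have := norm_TotC_le (x - (eB 𝕜).proj N x)
      have := norm_TotC_le ((eB 𝕜).proj (tri l) x)
      linarith
    have h7 : δ * (c * ‖∑ k ∈ range m, b k • v k‖) ≤ δ * ‖x‖ :=
      mul_le_mul_of_nonneg_left h1 hδ.le
    have h8 : ‖Rn 𝕜 n0 x‖ = ‖(eB 𝕜).proj (tri n0) x‖ := rfl
    rw [h8] at hEb
    nlinarith
  · -- upper bound
    intro b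
    rw [htail]
    have h1 := (hall m b).2
    have h2 := head_le l m b g
    have h3 := norm_tl_le hN (∑ k ∈ range m, b k • g k)
    have h4 := norm_Tot_le (tl (tri (r + 1)) N (∑ k ∈ range m, b k • g k))
    calc ∑ n ∈ range (tri l), 2 * ‖eF 𝕜 n‖ * ‖∑ k ∈ range m, b k * (eB 𝕜).coord n (g k)‖ +
          (1 / 2 : ℝ)⁻¹ * ‖Tot (tl (tri (r + 1)) N (∑ k ∈ range m, b k • g k))‖
        ≤ Dh 𝕜 l * ‖∑ k ∈ range m, b k • g k‖ + 4 * (14 * ‖∑ k ∈ range m, b k • g k‖) := by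
          have : (1 / 2 : ℝ)⁻¹ = 2 := by norm_num
          rw [this]
          have := norm_nonneg (∑ k ∈ range m, b k • g k)
          linarith
      _ = Dl * ‖∑ k ∈ range m, b k • g k‖ := by rw [hDl]; ring
      _ ≤ Dl * (C * ‖∑ k ∈ range m, b k • v k‖) := mul_le_mul_of_nonneg_left h1 (by positivity)
      _ = Dl * C * ‖∑ k ∈ range m, b k • v k‖ := by ring
  · -- the net is fine enough
    rw [div_le_div_iff₀ (by positivity) (by norm_num)]
    have : (0 : ℝ) ≤ j := Nat.cast_nonneg j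
    nlinarith
  · have h1 : 16 * C ≤ (j + 1) * (δ * c) := (div_le_iff₀ (by positivity)).1 hcC
    have h2 : Dl * C * (1 / ((j + 2) * Dl)) = C / (j + 2) := by
      field_simp
    rw [h2, div_le_div_iff₀ (by positivity) (by norm_num)]
    have h3 : 0 < δ * c := by positivity
    nlinarith

/-- (4b) block sequences of `Y` are tight in `e`. -/
theorem tightY (v : ℕ → YF 𝕜) (hv : YBlock v) :
    ∃ lo hi : ℕ → ℕ, (∀ i, lo i ≤ hi i) ∧ (∀ i, hi i < lo (i + 1)) ∧
      ∀ A : Set ℕ, A.Infinite → ∀ g : ℕ → XC 𝕜, (∀ k, g k ∈ avoid lo hi A) → ∀ c C : ℝ, 0 < c →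
        ¬ ∀ (M : ℕ) (b : ℕ → 𝕜),
          c * ‖∑ k ∈ range M, b k • v k‖ ≤ ‖∑ k ∈ range M, b k • g k‖ ∧
            ‖∑ k ∈ range M, b k • g k‖ ≤ C * ‖∑ k ∈ range M, b k • v k‖ := by
  choose r0 hr0 using fun j l => stepY v hv j l
  obtain ⟨l, hl1, hl2⟩ := exists_gaps r0
  have hpos : ∀ j, 0 < l (j + 1) := fun j => lt_of_le_of_lt (Nat.zero_le _) (hl2 j)
  have htri : ∀ j, tri (l j) < tri (l (j + 1)) := fun j => tri_strictMono (hl2 j)
  have hjl : ∀ j, j ≤ l j := by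
    intro j
    induction j with
    | zero => exact Nat.zero_le _
    | succ j ih =>
      have := hl2 j
      omega
  refine ⟨fun j => tri (l j), fun j => tri (l (j + 1)) - 1, fun j => ?_, fun j => ?_, ?_⟩
  · have := htri j
    show tri (l j) ≤ tri (l (j + 1)) - 1
    omega
  · have := htri j
    have := htri (j + 1)
    show tri (l (j + 1)) - 1 < tri (l (j + 1))
    omega
  · intro A hA g hg c C hc hall
    obtain ⟨n0, δ, hδ, hE⟩ := claimE v g c C hc hall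
    obtain ⟨j, hjA, hj⟩ := hA.exists_gt (max n0 ⌈16 * C / (δ * c)⌉₊)
    have hj1 : n0 ≤ j := (le_max_left _ _).trans hj.le
    have hj2 : ⌈16 * C / (δ * c)⌉₊ < j := lt_of_le_of_lt (le_max_right _ _) hj
    have hj' : 16 * C / (δ * c) ≤ j + 1 := by
      have h1 := Nat.le_ceil (16 * C / (δ * c))
      have h2 : ((⌈16 * C / (δ * c)⌉₊ : ℕ) : ℝ) < j := by exact_mod_cast hj2
      linarith
    have hpj := hpos j
    have hl1j := hl1 j
    have hl2j := hl2 j
    refine hr0 j (l j) (l (j + 1) - 1) (by omega) (by omega) g ?_ c C δ n0 hc hδ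
      (hj1.trans (hjl j)) hj' hE hall
    intro k n h1 h2
    rw [Nat.sub_add_cancel hpj] at h2
    exact coord_avoid (hg k) hjA h1 (by
      show n ≤ tri (l (j + 1)) - 1
      omega)

end Pool.Agent.H10.TB
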