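import Pool.Agent.H10.TB.TightZ
import Pool.Agent.H10.TB.TightY

/-!
Section 4d of f83316_proof.md: the basis `e` is tight.
-/

namespace Pool.Agent.H10.TB

open Finset UniformSpace

universe u

variable {𝕜 : Type u} [RCLike 𝕜]

/-- infinite-dimensional subspaces contain unit vectors whose first coordinates vanish -/
theorem exists_unit_coord_zero (U : Submodule 𝕜 (XC 𝕜)) (hU : ¬ FiniteDimensional 𝕜 U) (N : ℕ) :
    ∃ x ∈ U, ‖x‖ = 1 ∧ ∀ n < N, (eB 𝕜).coord n x = 0 := by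
  classical
  let L : U →ₗ[𝕜] (Fin N → 𝕜) :=
    LinearMap.pi fun i => ((eB 𝕜).coord (i : ℕ)).toLinearMap.comp U.subtype
  have hL : ¬ Function.Injective L := fun h => hU (Module.Finite.of_injective L h)
  rw [← LinearMap.ker_eq_bot, Submodule.eq_bot_iff] at hL
  push Not at hL
  obtain ⟨x, hx, hx0⟩ := hL
  have hxn : ‖(x : XC 𝕜)‖ ≠ 0 := by
    intro h
    exact hx0 (Subtype.ext (norm_eq_zero.1 h))
  refine ⟨((‖(x : XC 𝕜)‖⁻¹ : ℝ) : 𝕜) • (x : XC 𝕜), U.smul_mem _ x.2, ?_, ?_⟩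
  · rw [norm_smul, RCLike.norm_ofReal, abs_inv, abs_norm, inv_mul_cancel₀ hxn]
  · intro n hn
    have h1 : (eB 𝕜).coord n (x : XC 𝕜) = 0 := congrFun (LinearMap.mem_ker.1 hx) ⟨n, hn⟩
    rw [map_smul, h1, smul_zero]

/-- vectors without coordinates in the first rounds have total mass far out -/
theorem Tot_tail (x : XC 𝕜) (n : ℕ) (h : ∀ m < tri n, (eB 𝕜).coord m x = 0) (ε : ℝ)
    (hε : 0 < ε) :
    ∃ (v : YF 𝕜) (N : ℕ), n ≤ N ∧ (∀ t, ¬ (n ≤ t ∧ t ≤ N) → v t = 0) ∧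
      ‖TotC 𝕜 x - (v : Completion (YF 𝕜))‖ < ε := by
  have ht : Filter.Tendsto (fun M => TotC 𝕜 (SchauderBasis.proj (eB 𝕜) M x)) Filter.atTop
      (nhds (TotC 𝕜 x)) :=
    ((TotC 𝕜).continuous.tendsto x).comp (SchauderBasis.tendsto_proj (eB 𝕜) x)
  rw [Metric.tendsto_atTop] at ht
  obtain ⟨M, hM⟩ := ht ε hε
  have hM := hM M le_rfl
  rw [dist_comm, dist_eq_norm] at hM
  have hcoe : SchauderBasis.proj (eB 𝕜) M x =
      ((∑ m ∈ range M, (eB 𝕜).coord m x • eF 𝕜 m : XF 𝕜) : XC 𝕜) := by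
    rw [SchauderBasis.proj_apply]
    have : ∀ m, (eB 𝕜).coord m x • (eB 𝕜) m = (((eB 𝕜).coord m x • eF 𝕜 m : XF 𝕜) : XC 𝕜) := by
      intro m
      rw [eB_apply, Completion.coe_smul]
    simp only [this]
    have hs : ∀ s : Finset ℕ, ∑ m ∈ s, (((eB 𝕜).coord m x • eF 𝕜 m : XF 𝕜) : XC 𝕜) =
        ((∑ m ∈ s, (eB 𝕜).coord m x • eF 𝕜 m : XF 𝕜) : XC 𝕜) := by
      classical
      intro s
      induction s using Finset.induction_on with
      | empty => rw [sum_empty, sum_empty, Completion.coe_zero]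
      | insert a s ha ih => rw [sum_insert ha, sum_insert ha, ih, Completion.coe_add]
    exact hs _
  rw [hcoe, TotC_coe] at hM
  refine ⟨Tot (∑ m ∈ range M, (eB 𝕜).coord m x • eF 𝕜 m), max n M, le_max_left _ _, ?_, hM⟩
  intro t ht'
  rw [Tot_sum, YF.sum_apply]
  refine sum_eq_zero fun m hm => ?_
  rw [Tot_smul, YF.smul_apply]
  by_cases hmn : m < tri n
  · rw [h m hmn, zero_mul]
  rw [not_lt] at hmn
  have hrd : n ≤ rd m := by
    by_contra hcon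
    rw [not_le] at hcon
    have h1 := lt_tri_rd_succ m
    have h2 : tri (rd m + 1) ≤ tri n := tri_strictMono.monotone hcon
    omega
  have hrdm : rd m ≤ m := (le_tri _).trans (tri_rd_le m)
  rcases (ix_le_rd m).lt_or_eq with hlt | heq
  · rw [Tot_eF_of_lt m hlt, YF.zero_apply, mul_zero]
  · rw [Tot_eF_of_eq m heq, yv_apply]
    split_ifs with hc
    · exfalso
      apply ht'
      have hm' := mem_range.1 hm
      constructor
      · omega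
      · rw [← hc]
        exact (hrdm.trans hm'.le).trans (le_max_right _ _)
    · rw [mul_zero]

theorem Rn_eq_zero {x : XC 𝕜} {n m : ℕ} (h : ∀ i < tri m, (eB 𝕜).coord i x = 0) (hn : n ≤ m) :
    Rn 𝕜 n x = 0 := by
  unfold Rn
  rw [SchauderBasis.proj_apply]
  refine sum_eq_zero fun i hi => ?_
  rw [h i ((mem_range.1 hi).trans_le (tri_strictMono.monotone hn)), zero_smul]

theorem step_II (U : Submodule 𝕜 (XC 𝕜)) (hU : ¬ FiniteDimensional 𝕜 U) (n0 : ℕ) (δ : ℝ)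
    (hδ : 0 < δ) (hUδ : ∀ u ∈ U, ‖u‖ = 1 → δ ≤ ‖TotC 𝕜 u‖ + ‖Rn 𝕜 n0 u‖) (n : ℕ) (hn : n0 ≤ n)
    (η : ℝ) (hη : 0 < η) :
    ∃ (g : XC 𝕜) (v : YF 𝕜) (N : ℕ), g ∈ U ∧ n ≤ N ∧ ‖v‖ = 1 ∧
      (∀ t, ¬ (n ≤ t ∧ t ≤ N) → v t = 0) ∧ ‖TotC 𝕜 g - (v : Completion (YF 𝕜))‖ ≤ η ∧
      Rn 𝕜 n0 g = 0 := by
  obtain ⟨x, hxU, hx1, hx0⟩ := exists_unit_coord_zero U hU (tri n)
  have hR : Rn 𝕜 n0 x = 0 := Rn_eq_zero hx0 hn
  have hT := hUδ x hxU hx1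
  rw [hR, norm_zero, add_zero] at hT
  obtain ⟨v, N, hnN, hv, hxv⟩ := Tot_tail x n hx0 (min (δ / 2) (η * δ / 2)) (by positivity)
  have h1 : ‖TotC 𝕜 x - (v : Completion (YF 𝕜))‖ < δ / 2 := hxv.trans_le (min_le_left _ _)
  have h2 : ‖TotC 𝕜 x - (v : Completion (YF 𝕜))‖ < η * δ / 2 := hxv.trans_le (min_le_right _ _)
  have hvn : δ / 2 ≤ ‖v‖ := by
    have h3 := norm_sub_norm_le (TotC 𝕜 x) (v : Completion (YF 𝕜))
    rw [Completion.norm_coe] at h3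
    linarith
  have hv0 : 0 < ‖v‖ := (by positivity : (0 : ℝ) < δ / 2).trans_le hvn
  refine ⟨((‖v‖⁻¹ : ℝ) : 𝕜) • x, ((‖v‖⁻¹ : ℝ) : 𝕜) • v, N, U.smul_mem _ hxU, hnN, ?_, ?_, ?_, ?_⟩
  · rw [norm_smul, RCLike.norm_ofReal, abs_inv, abs_norm, inv_mul_cancel₀ hv0.ne']
  · intro t ht
    rw [YF.smul_apply, hv t ht, mul_zero]
  · rw [map_smul, Completion.coe_smul, ← smul_sub, norm_smul, RCLike.norm_ofReal, abs_inv,
      abs_norm, inv_mul_le_iff₀ hv0]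
    calc ‖TotC 𝕜 x - (v : Completion (YF 𝕜))‖ ≤ η * δ / 2 := h2.le
      _ = (δ / 2) * η := by ring
      _ ≤ ‖v‖ * η := by gcongr
  · rw [map_smul, hR, smul_zero]

/-- blocks in case II -/
theorem exists_blocks_II (U : Submodule 𝕜 (XC 𝕜)) (hU : ¬ FiniteDimensional 𝕜 U) (n0 : ℕ) (δ : ℝ)
    (hδ : 0 < δ) (hUδ : ∀ u ∈ U, ‖u‖ = 1 → δ ≤ ‖TotC 𝕜 u‖ + ‖Rn 𝕜 n0 u‖) :
    ∃ (g : ℕ → XC 𝕜) (v : ℕ → YF 𝕜), (∀ k, g k ∈ U) ∧ YBlock v ∧
      (∀ k, ‖TotC 𝕜 (g k) - (v k : Completion (YF 𝕜))‖ ≤ (1 / 2) ^ (k + 5)) ∧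
      ∀ k, Rn 𝕜 n0 (g k) = 0 := by
  have hstep : ∀ n k : ℕ, ∃ (g : XC 𝕜) (v : YF 𝕜) (N : ℕ), n0 ≤ n → (g ∈ U ∧ n ≤ N ∧ ‖v‖ = 1 ∧
      (∀ t, ¬ (n ≤ t ∧ t ≤ N) → v t = 0) ∧
      ‖TotC 𝕜 g - (v : Completion (YF 𝕜))‖ ≤ (1 / 2) ^ (k + 5) ∧ Rn 𝕜 n0 g = 0) := by
    intro n k
    by_cases hn : n0 ≤ n
    · obtain ⟨g, v, N, h⟩ := step_II U hU n0 δ hδ hUδ n hn ((1 / 2) ^ (k + 5)) (by positivity)
      exact ⟨g, v, N, fun _ => h⟩
    · exact ⟨0, 0, 0, fun h => absurd h hn⟩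
  choose g v N h using hstep
  let s : ℕ → ℕ := fun k => Nat.rec n0 (fun k n => N n k + 1) k
  have hs1 : ∀ k, s (k + 1) = N (s k) k + 1 := fun k => rfl
  have hs : ∀ k, n0 ≤ s k := by
    intro k
    induction k with
    | zero => exact le_rfl
    | succ k ih =>
      rw [hs1]
      have := (h (s k) k ih).2.1
      omega
  refine ⟨fun k => g (s k) k, fun k => v (s k) k, fun k => (h _ k (hs k)).1,
    ⟨fun k => (h _ k (hs k)).2.2.1, s, fun k => N (s k) k, fun k => (h _ k (hs k)).2.1, fun k => ?_,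
      fun k => (h _ k (hs k)).2.2.2.1⟩, fun k => (h _ k (hs k)).2.2.2.2.1,
    fun k => (h _ k (hs k)).2.2.2.2.2⟩
  rw [hs1]
  exact Nat.lt_succ_self _

theorem tight_eB : TightBasis (eB 𝕜) := by
  intro U _ hU
  by_cases hcase : ∀ (n : ℕ) (δ : ℝ), 0 < δ → ∃ g ∈ (U : Set (XC 𝕜)), ‖g‖ = 1 ∧
      ‖TotC 𝕜 g‖ + ‖Rn 𝕜 n g‖ < δ
  · obtain ⟨g, w, hgU, hw, hgw⟩ := extraction _ hcase
    obtain ⟨lo, hi, h1, h2, h3⟩ := tightZ w hw
    refine ⟨lo, hi, h1, h2, fun A hA => ?_⟩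
    rintro ⟨T, ⟨c, hc, hcT⟩, hTA⟩
    refine h3 A hA (fun k => T ⟨g k, hgU k⟩) (fun k => hTA _) (c * (3 / 4)) (‖T‖ * (5 / 4))
      (by positivity) ?_
    intro M b
    have hsum : ∑ k ∈ range M, b k • T ⟨g k, hgU k⟩ =
        T (∑ k ∈ range M, b k • (⟨g k, hgU k⟩ : U)) := by
      rw [map_sum]
      simp only [map_smul]
    have hnorm : ‖∑ k ∈ range M, b k • (⟨g k, hgU k⟩ : U)‖ = ‖∑ k ∈ range M, b k • g k‖ := by
      rw [Submodule.coe_norm]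
      congr 1
      rw [Submodule.coe_sum]
      rfl
    obtain ⟨h4, h5⟩ := perturbZ hw hgw M b
    rw [hsum]
    constructor
    · refine le_trans ?_ (hcT _)
      rw [hnorm, mul_assoc]
      gcongr
    · refine (T.le_opNorm _).trans ?_
      rw [hnorm, mul_assoc]
      gcongr
  · push Not at hcase
    obtain ⟨n0, δ, hδ, hUδ⟩ := hcase
    obtain ⟨g, v, hgU, hv, hgv, hR⟩ := exists_blocks_II U hU n0 δ hδ hUδ
    obtain ⟨lo, hi, h1, h2, h3⟩ := tightY v hv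
    refine ⟨lo, hi, h1, h2, fun A hA => ?_⟩
    rintro ⟨T, ⟨c, hc, hcT⟩, hTA⟩
    refine h3 A hA (fun k => T ⟨g k, hgU k⟩) (fun k => hTA _) (c * (3 / 4))
      (‖T‖ * (δ⁻¹ * (5 / 4))) (by positivity) ?_
    intro M b
    have hsum : ∑ k ∈ range M, b k • T ⟨g k, hgU k⟩ =
        T (∑ k ∈ range M, b k • (⟨g k, hgU k⟩ : U)) := by
      rw [map_sum]
      simp only [map_smul]
    have hnorm : ‖∑ k ∈ range M, b k • (⟨g k, hgU k⟩ : U)‖ = ‖∑ k ∈ range M, b k • g k‖ := by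
      rw [Submodule.coe_norm]
      congr 1
      rw [Submodule.coe_sum]
      rfl
    obtain ⟨h4, h5⟩ := perturbY hv hgv M b
    have hTot : ∑ k ∈ range M, b k • TotC 𝕜 (g k) = TotC 𝕜 (∑ k ∈ range M, b k • g k) := by
      rw [map_sum]
      simp only [map_smul]
    rw [hTot] at h4 h5
    have hRs : Rn 𝕜 n0 (∑ k ∈ range M, b k • g k) = 0 := by
      rw [map_sum]
      refine sum_eq_zero fun k _ => ?_
      rw [map_smul, hR, smul_zero]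
    have hUs : ∑ k ∈ range M, b k • g k ∈ U :=
      Submodule.sum_mem _ fun k _ => U.smul_mem _ (hgU k)
    have hlow : δ * ‖∑ k ∈ range M, b k • g k‖ ≤ ‖TotC 𝕜 (∑ k ∈ range M, b k • g k)‖ := by
      set x := ∑ k ∈ range M, b k • g k with hx
      by_cases hx0 : x = 0
      · rw [hx0]; simp
      have hxn : 0 < ‖x‖ := norm_pos_iff.2 hx0
      have h6 := hUδ (((‖x‖⁻¹ : ℝ) : 𝕜) • x) (U.smul_mem _ hUs) (by
        rw [norm_smul, RCLike.norm_ofReal, abs_inv, abs_norm, inv_mul_cancel₀ hxn.ne'])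
      rw [map_smul, map_smul, hRs, smul_zero, norm_zero, add_zero, norm_smul, RCLike.norm_ofReal,
        abs_inv, abs_norm, le_inv_mul_iff₀ hxn] at h6
      rwa [mul_comm] at h6
    rw [hsum]
    constructor
    · refine le_trans ?_ (hcT _)
      rw [hnorm, mul_assoc]
      have h7 := h4.trans (norm_TotC_le _)
      gcongr
    · refine (T.le_opNorm _).trans ?_
      rw [hnorm, mul_assoc]
      have h7 : ‖∑ k ∈ range M, b k • g k‖ ≤ δ⁻¹ * (5 / 4 * ‖∑ k ∈ range M, b k • v k‖) := by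
        rw [le_inv_mul_iff₀ hδ]
        exact hlow.trans h5
      rw [mul_assoc]
      gcongr

end Pool.Agent.H10.TB
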