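import Pool.Agent.H10.TB.TightAux

/-!
Section 4a of f83316_proof.md.
-/

namespace Pool.Agent.H10.TB

open Finset UniformSpace

universe u

variable {𝕜 : Type u} [RCLike 𝕜]

/-- one gap, for zero mass block sequences -/
theorem stepZ (w : ℕ → XF 𝕜) (hw : ZBlock w) (j l : ℕ) : ∃ r0 : ℕ, ∀ r : ℕ, r0 ≤ r → l ≤ r →
    ∀ g : ℕ → XC 𝕜, (∀ k n, tri l ≤ n → n < tri (r + 1) → (eB 𝕜).coord n (g k) = 0) →
    ∀ c C : ℝ, 0 < c → 16 * C / c ≤ j + 1 →
      ¬ ∀ (M : ℕ) (b : ℕ → 𝕜),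
          c * ‖∑ k ∈ range M, b k • w k‖ ≤ ‖∑ k ∈ range M, b k • g k‖ ∧
            ‖∑ k ∈ range M, b k • g k‖ ≤ C * ‖∑ k ∈ range M, b k • w k‖ := by
  set Dl : ℝ := Dh 𝕜 l + 56 with hDl
  have hDlpos : 56 ≤ Dl := by
    have := Dh_nonneg (𝕜 := 𝕜) l
    linarith
  obtain ⟨m, hm⟩ := thmB w hw ((j + 1) * Dl)
  obtain ⟨L, cc, -, hnet⟩ := exists_net (𝕜 := 𝕜) w m (1 / ((j + 2) * Dl)) (by positivity)
  obtain ⟨r0, hr0⟩ := tail_structure (θ := 1 / 4) (by norm_num) (by norm_num) (YF 𝕜) L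
  refine ⟨r0, fun r hr hlr g hgap c C hc hcC hall => hm ?_⟩
  -- constants
  have hCc : c ≤ C := by
    have h1 := hall 1 (fun _ => 1)
    simp only [sum_range_one, one_smul, hw.norm_eq, mul_one] at h1
    exact h1.1.trans h1.2
  have hCpos : 0 < C := hc.trans_le hCc
  have hltr : tri l ≤ tri (r + 1) := tri_strictMono.monotone (by omega)
  obtain ⟨N, hN, happ⟩ := exists_approx m (tri (r + 1)) g (c / 2) (by positivity)
  have hcoef : ∀ b : ℕ → 𝕜, ∀ k < m, ‖b k‖ ≤ ‖∑ k ∈ range m, b k • w k‖ := fun b k hk =>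
    hw.norm_coeff_le m b hk
  have htail : ∀ b : ℕ → 𝕜, Nr (1 / 4) (fun t => ∑ k ∈ range m, b k • mu (tl (tri (r + 1)) N (g k)) t)
      r0 N = ‖tl (tri (r + 1)) N (∑ k ∈ range m, b k • g k)‖ := by
    intro b
    rw [XF.norm_eq (tl (tri (r + 1)) N (∑ k ∈ range m, b k • g k)) (p := r0) (q := N)]
    · congr 1
      funext t
      rw [tl_sum, mu_sum]
      exact sum_congr rfl fun k _ => (mu_smul _ _ _).symm
    · intro t ht
      by_cases h : t < r
      · exact mu_tl_of_lt _ h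
      · exact mu_tl_of_gt _ (by omega)
  have hrep := rep_of_tail (𝕜 := 𝕜) (θ := 1 / 4) (V := YF 𝕜) (((‖yv 𝕜 0‖⁻¹ : ℝ) : 𝕜) • yv 𝕜 0)
    (by
      have h1 := one_le_norm_yv (𝕜 := 𝕜) 0
      have h2 : 0 < ‖yv 𝕜 0‖ := by linarith
      rw [norm_smul, RCLike.norm_ofReal, abs_of_pos (inv_pos.2 h2), inv_mul_cancel₀ h2.ne'])
    w m L (1 / ((j + 2) * Dl)) cc hnet r0 N (fun x ε hε => hr0 N x ε hε)
    (tri l) (fun n => 2 * ‖eF 𝕜 n‖) (fun n => by positivity) (fun k n => (eB 𝕜).coord n (g k))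
    (fun k => mu (tl (tri (r + 1)) N (g k))) (c / 2) (Dl * C) (by positivity) ?_ ?_ ?_ ?_
    (by positivity)
  · refine hrep.mono ?_
    have h1 : 8 * (Dl * C) / (c / 2) = (16 * C / c) * Dl := by
      field_simp
      ring
    rw [h1]
    exact mul_le_mul_of_nonneg_right hcC (by positivity)
  · -- lower bound
    intro b
    rw [htail]
    have h1 := (hall m b).1
    have h2 := happ b _ (norm_nonneg _) (hcoef b)
    have h3 := proj_le_head (l := l) (n0 := tri l) le_rfl m b g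
    have h4 := proj_gap hltr m b g hgap
    have h5 : ‖∑ k ∈ range m, b k • g k‖ ≤
        ‖(∑ k ∈ range m, b k • g k) - (eB 𝕜).proj N (∑ k ∈ range m, b k • g k)‖ +
        ‖tl (tri (r + 1)) N (∑ k ∈ range m, b k • g k)‖ +
        ‖(eB 𝕜).proj (tri l) (∑ k ∈ range m, b k • g k)‖ := by
      rw [← Completion.norm_coe (tl (tri (r + 1)) N (∑ k ∈ range m, b k • g k)), coe_tl hN, h4]
      refine le_trans (le_of_eq ?_) (norm_add₃_le)
      congr 1
      abel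
    have h6 := norm_nonneg ((eB 𝕜).proj (tri l) (∑ k ∈ range m, b k • g k))
    linarith
  · -- upper bound
    intro b
    rw [htail]
    have h1 := (hall m b).2
    have h2 := head_le l m b g
    have h3 := norm_tl_le hN (∑ k ∈ range m, b k • g k)
    calc ∑ n ∈ range (tri l), 2 * ‖eF 𝕜 n‖ * ‖∑ k ∈ range m, b k * (eB 𝕜).coord n (g k)‖ +
          (1 / 4 : ℝ)⁻¹ * ‖tl (tri (r + 1)) N (∑ k ∈ range m, b k • g k)‖
        ≤ Dh 𝕜 l * ‖∑ k ∈ range m, b k • g k‖ + 4 * (14 * ‖∑ k ∈ range m, b k • g k‖) := by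
          have : (1 / 4 : ℝ)⁻¹ = 4 := by norm_num
          rw [this]
          linarith
      _ = Dl * ‖∑ k ∈ range m, b k • g k‖ := by rw [hDl]; ring
      _ ≤ Dl * (C * ‖∑ k ∈ range m, b k • w k‖) := mul_le_mul_of_nonneg_left h1 (by positivity)
      _ = Dl * C * ‖∑ k ∈ range m, b k • w k‖ := by ring
  · -- the net is fine enough
    rw [div_le_div_iff₀ (by positivity) (by norm_num)]
    have : (0 : ℝ) ≤ j := Nat.cast_nonneg j
    nlinarith
  · have h1 : 16 * C ≤ (j + 1) * c := (div_le_iff₀ hc).1 hcC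
    have h2 : Dl * C * (1 / ((j + 2) * Dl)) = C / (j + 2) := by
      field_simp
    rw [h2, div_le_div_iff₀ (by positivity) (by norm_num)]
    nlinarith

/-- (4a) zero mass block sequences are tight in `e`. -/
theorem tightZ (w : ℕ → XF 𝕜) (hw : ZBlock w) :
    ∃ lo hi : ℕ → ℕ, (∀ i, lo i ≤ hi i) ∧ (∀ i, hi i < lo (i + 1)) ∧
      ∀ A : Set ℕ, A.Infinite → ∀ g : ℕ → XC 𝕜, (∀ k, g k ∈ avoid lo hi A) → ∀ c C : ℝ, 0 < c →
        ¬ ∀ (M : ℕ) (b : ℕ → 𝕜),
          c * ‖∑ k ∈ range M, b k • w k‖ ≤ ‖∑ k ∈ range M, b k • g k‖ ∧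
            ‖∑ k ∈ range M, b k • g k‖ ≤ C * ‖∑ k ∈ range M, b k • w k‖ := by
  choose r0 hr0 using fun j l => stepZ w hw j l
  obtain ⟨l, hl1, hl2⟩ := exists_gaps r0
  have hpos : ∀ j, 0 < l (j + 1) := fun j => lt_of_le_of_lt (Nat.zero_le _) (hl2 j)
  have htri : ∀ j, tri (l j) < tri (l (j + 1)) := fun j => tri_strictMono (hl2 j)
  refine ⟨fun j => tri (l j), fun j => tri (l (j + 1)) - 1, fun j => ?_, fun j => ?_, ?_⟩
  · have := htri j
    show tri (l j) ≤ tri (l (j + 1)) - 1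
    omega
  · have := htri j
    have := htri (j + 1)
    show tri (l (j + 1)) - 1 < tri (l (j + 1))
    omega
  · intro A hA g hg c C hc hall
    obtain ⟨j, hjA, hj⟩ := hA.exists_gt ⌈16 * C / c⌉₊
    have hj' : 16 * C / c ≤ j + 1 := by
      have h1 := Nat.le_ceil (16 * C / c)
      have h2 : ((⌈16 * C / c⌉₊ : ℕ) : ℝ) < j := by exact_mod_cast hj
      linarith
    have hpj := hpos j
    have hl1j := hl1 j
    have hl2j := hl2 j
    refine hr0 j (l j) (l (j + 1) - 1) (by omega) (by omega) g ?_ c C hc hj' hall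
    intro k n h1 h2
    rw [Nat.sub_add_cancel hpj] at h2
    exact coord_avoid (hg k) hjA h1 (by
      show n ≤ tri (l (j + 1)) - 1
      omega)

end Pool.Agent.H10.TB
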