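import Pool.Agent.H10.TB.Spaces

/-!
API for the space `YF`.
-/

namespace Pool.Agent.H10.TB

open Finset

universe u

variable {𝕜 : Type u} [RCLike 𝕜]

theorem YF.sum_apply {ι : Type*} (s : Finset ι) (f : ι → YF 𝕜) (i : ℕ) :
    (∑ j ∈ s, f j) i = ∑ j ∈ s, f j i :=
  Finsupp.finsetSum_apply s f i

theorem norm_S_dg_sq (y : YF 𝕜) (s t : ℕ) : ‖S (dg y) s t‖ ^ 2 = ∑ i ∈ Icc s t, ‖y i‖ ^ 2 := by
  have h1 : S (dg y) s t = ∑ i ∈ Icc s t, lp.single (E := fun _ : ℕ => 𝕜) 2 i (y i) := by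
    unfold S
    refine sum_congr rfl fun i _ => ?_
    unfold dg hv
    rw [← lp.single_smul, smul_eq_mul, mul_one]
  have h2 := lp.norm_sum_single (E := fun _ : ℕ => 𝕜) (p := 2) (by norm_num) (fun i => y i)
    (Icc s t)
  rw [← h1] at h2
  simp only [ENNReal.toReal_ofNat, Real.rpow_ofNat] at h2
  exact h2

theorem YF.norm_apply_le (y : YF 𝕜) (i : ℕ) : ‖y i‖ ≤ ‖y‖ := by
  obtain ⟨B, hB⟩ := y.exists_bound
  rw [y.norm_eq (p := 0) (q := max i B) fun t ht => hB t (by
    have : max i B < t := by simpa using ht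
    exact (le_max_right _ _).trans_lt this), ← norm_dg]
  exact norm_apply_le_Nr (by norm_num) (by norm_num) _ (Nat.zero_le _) (le_max_left _ _)

theorem YF.norm_le_sum (y : YF 𝕜) (n : ℕ) (h : ∀ i, n ≤ i → y i = 0) :
    ‖y‖ ≤ 2 * ∑ i ∈ range n, ‖y i‖ := by
  rw [y.norm_eq (p := 0) (q := n) fun t ht => h t (by
    have : n < t := by simpa using ht
    exact this.le)]
  refine (Nr_le_sum (by norm_num) (by norm_num) _ _ _).trans ?_
  have h1 : Icc 0 n = range (n + 1) := by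
    ext t
    simp
  rw [h1, sum_range_succ, norm_dg, h n le_rfl, norm_zero, add_zero]
  simp only [norm_dg]
  exact le_rfl

theorem norm_S_dg_mono {y z : YF 𝕜} (h : ∀ i, ‖y i‖ ≤ ‖z i‖) (s t : ℕ) :
    ‖S (dg y) s t‖ ≤ ‖S (dg z) s t‖ := by
  rw [← abs_of_nonneg (norm_nonneg (S (dg y) s t)), ← abs_of_nonneg (norm_nonneg (S (dg z) s t)),
    ← sq_le_sq, norm_S_dg_sq, norm_S_dg_sq]
  refine sum_le_sum fun i _ => ?_
  have := h i
  have h0 := norm_nonneg (y i)
  nlinarith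

theorem base_dg_mono {y z : YF 𝕜} (h : ∀ i, ‖y i‖ ≤ ‖z i‖) (a b : ℕ) :
    base (dg y) a b ≤ base (dg z) a b :=
  base_le _ (base_nonneg _ _ _) fun s t hs _ ht =>
    (norm_S_dg_mono h s t).trans (le_base _ hs ht)

theorem A_dg_mono {y z : YF 𝕜} (h : ∀ i, ‖y i‖ ≤ ‖z i‖) (k a b : ℕ) :
    A (1 / 2) (dg y) k a b ≤ A (1 / 2) (dg z) k a b := by
  induction k generalizing a b with
  | zero => exact base_dg_mono h a b
  | succ k ih =>
    refine A_succ_le (by norm_num) _ k a b fun n c d hA => ?_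
    refine le_trans ?_ (A_succ_ge (by norm_num) (by norm_num) _ k hA)
    have h1 := base_dg_mono h a b
    have h2 : ∑ i ∈ range n, A (1 / 2) (dg y) k (c i) (d i) ≤
        ∑ i ∈ range n, A (1 / 2) (dg z) k (c i) (d i) := sum_le_sum fun i _ => ih _ _
    linarith

theorem Nr_dg_mono {y z : YF 𝕜} (h : ∀ i, ‖y i‖ ≤ ‖z i‖) (a b : ℕ) :
    Nr (1 / 2) (dg y) a b ≤ Nr (1 / 2) (dg z) a b :=
  Nr_le_of_A _ fun k => (A_dg_mono h k a b).trans
    (A_le_Nr (by norm_num) (by norm_num) _ k a b)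

theorem YF.norm_mono {y z : YF 𝕜} (h : ∀ i, ‖y i‖ ≤ ‖z i‖) : ‖y‖ ≤ ‖z‖ := by
  obtain ⟨B, hB⟩ := z.exists_bound
  rw [y.norm_eq (p := 0) (q := B) fun t ht => by
      have h1 := h t
      rw [hB t (by simpa using ht), norm_zero] at h1
      exact norm_le_zero_iff.1 h1,
    z.norm_eq (p := 0) (q := B) fun t ht => hB t (by simpa using ht)]
  exact Nr_dg_mono h 0 B

theorem YF.norm_restrict_le (y : YF 𝕜) (s : Set ℕ) : ‖y.restrict s‖ ≤ ‖y‖ := by
  refine YF.norm_mono fun i => ?_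
  rw [YF.restrict_apply]
  split_ifs
  · exact le_rfl
  · rw [norm_zero]; exact norm_nonneg _

theorem YF.restrict_add (y z : YF 𝕜) (s : Set ℕ) : (y + z).restrict s = y.restrict s + z.restrict s := by
  refine YF.ext fun i => ?_
  rw [YF.add_apply, YF.restrict_apply, YF.restrict_apply, YF.restrict_apply, YF.add_apply]
  split_ifs
  · rfl
  · rw [add_zero]

theorem YF.restrict_smul (c : 𝕜) (y : YF 𝕜) (s : Set ℕ) : (c • y).restrict s = c • y.restrict s := by
  refine YF.ext fun i => ?_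
  rw [YF.smul_apply, YF.restrict_apply, YF.restrict_apply, YF.smul_apply]
  split_ifs
  · rfl
  · rw [mul_zero]

/-- if `y` is supported in `[p,q]` its norm is computed there, otherwise intervals give restrictions -/
theorem Nr_dg (y : YF 𝕜) (a b : ℕ) : Nr (1 / 2) (dg y) a b = ‖y.restrict (Set.Icc a b)‖ := by
  rw [(y.restrict (Set.Icc a b)).norm_eq (p := a) (q := b) fun t ht => by
    rw [YF.restrict_apply, if_neg (by simpa using ht)]]
  refine Nr_congr _ _ fun t ha hb => ?_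
  unfold dg
  rw [YF.restrict_apply, if_pos (Set.mem_Icc.2 ⟨ha, hb⟩)]

/-- fixed point inequality in `YF` : lower half -/
theorem YF.norm_ge (y : YF 𝕜) {a b n : ℕ} {c d : ℕ → ℕ} (h : Adm a b n c d) :
    ∑ i ∈ range n, ‖y.restrict (Set.Icc (c i) (d i))‖ ≤ 2 * ‖y.restrict (Set.Icc a b)‖ := by
  have h1 := theta_mul_sum_le (θ := 1 / 2) (by norm_num) (by norm_num) (dg y) h
  simp only [Nr_dg] at h1
  linarith

/-- lower estimate for successive vectors -/
theorem YF.lower_estimate (y : ℕ → YF 𝕜) {a b n : ℕ} {c d : ℕ → ℕ} (h : Adm a b n c d)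
    (hy : ∀ i < n, ∀ t, ¬ (c i ≤ t ∧ t ≤ d i) → y i t = 0) :
    ∑ i ∈ range n, ‖y i‖ ≤ 2 * ‖∑ i ∈ range n, y i‖ := by
  have h1 : ∀ i ∈ range n, ‖y i‖ = ‖(∑ j ∈ range n, y j).restrict (Set.Icc (c i) (d i))‖ := by
    intro i hi
    rw [mem_range] at hi
    congr 1
    refine YF.ext fun t => ?_
    rw [YF.restrict_apply, YF.sum_apply]
    split_ifs with ht
    · rw [Set.mem_Icc] at ht
      rw [sum_eq_single i]
      · intro j hj hji
        rw [mem_range] at hj
        refine hy j hj t ?_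
        rintro ⟨h2, h3⟩
        rcases Nat.lt_or_gt_of_ne hji with h4 | h4
        · have := h.lt_of_lt h4 hi
          omega
        · have := h.lt_of_lt h4 hj
          omega
      · intro h2
        exact absurd (mem_range.2 hi) h2
    · exact hy i hi t (by simpa using ht)
  rw [sum_congr rfl h1]
  refine (YF.norm_ge _ h).trans ?_
  have := YF.norm_restrict_le (∑ j ∈ range n, y j) (Set.Icc a b)
  linarith

theorem norm_yv_le (i : ℕ) : ‖yv 𝕜 i‖ ≤ 2 := by
  refine (YF.norm_le_sum (yv 𝕜 i) (i + 1) fun j hj => ?_).trans ?_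
  · rw [yv_apply, if_neg (by omega)]
  · rw [sum_range_succ, sum_eq_zero]
    · rw [yv_apply, if_pos rfl, norm_one]
      norm_num
    · intro j hj
      rw [mem_range] at hj
      rw [yv_apply, if_neg (by omega), norm_zero]

theorem one_le_norm_yv (i : ℕ) : 1 ≤ ‖yv 𝕜 i‖ := by
  have := YF.norm_apply_le (yv 𝕜 i) i
  rwa [yv_apply, if_pos rfl, norm_one] at this

/-- the `ℓ₂` norm on the first coordinates, as a vector of `Hs` -/
theorem norm_S_dg_le (y : YF 𝕜) (s t : ℕ) : ‖S (dg y) s t‖ ≤ ‖y‖ := by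
  obtain ⟨B, hB⟩ := y.exists_bound
  rw [y.norm_eq (p := 0) (q := max t B) fun u hu => hB u (by
    have : max t B < u := by simpa using hu
    exact (le_max_right _ _).trans_lt this)]
  exact norm_S_le_Nr (by norm_num) (by norm_num) _ (Nat.zero_le _) (le_max_left _ _)

end Pool.Agent.H10.TB
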